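import Pool.Agent.Lib.MP_b07157_agV.T1
import Pool.Agent.Lib.MP_b07157_agM.CDefs

/-!
# Suspensions `g(x, y) + ∑ z_i^{e_i}` of plane curve germs: definitions

Notation in this directory: `s₁ = s₀ + ∑ 1/e_i`.
-/

noncomputable section

namespace MPb07157

open MvPolynomial

namespace SU

open PC

variable {r : ℕ}

/-- The polynomial `g(x, y) + ∑ z_i^{e_i}`. -/
def susp (g : MvPolynomial (Fin 2) ℂ) (e : Fin r → ℕ) : MvPolynomial (Fin (2 + r)) ℂ :=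
  rename (Fin.castAdd r) g + ∑ i, X (Fin.natAdd 2 i) ^ e i

/-- The number `∑ 1/e_i`. -/
def hn (e : Fin r → ℕ) : ℚ := ∑ i, 1 / (e i : ℚ)

/-- The number `∑ ⌊n/e_i⌋`. -/
def sg (e : Fin r → ℕ) (n : ℕ) : ℕ := ∑ i, n / e i

/-- The indices `i` with `e_i ∣ n`. -/
def En (e : Fin r → ℕ) (n : ℕ) : Finset (Fin r) := Finset.univ.filter fun i => e i ∣ n

/-! ### Jets of arcs `(x, y, z)` -/

/-- The coordinates of the jets `(x, y, z)` of level `N`. -/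
abbrev JI (r N : ℕ) : Type := (Fin 2 × Fin N) ⊕ (Fin r × Fin N)

/-- The `(x, y)`-part of a jet. -/
def xyP {N : ℕ} (x : JI r N → ℂ) : Fin 2 × Fin N → ℂ := fun p => x (Sum.inl p)

/-- The `z`-part of a jet. -/
def zP {N : ℕ} (x : JI r N → ℂ) : Fin r × Fin N → ℂ := fun p => x (Sum.inr p)

/-- The value of `F` at a truncated arc in the plane. -/
def valF (F : P2) {N : ℕ} (γ : Fin 2 × Fin N → ℂ) : PowerSeries ℂ :=
  (MvPowerSeries.subst (arc γ : Fin 2 → MvPowerSeries Unit ℂ) F : PowerSeries ℂ)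

/-- The value of `F(x, y) + ∑ z_i^{e_i}` at a truncated arc. -/
def val (F : P2) (e : Fin r → ℕ) {N : ℕ} (x : JI r N → ℂ) : PowerSeries ℂ :=
  valF F (xyP x) + ∑ i, arc (zP x) i ^ e i

/-- The truncated arcs `(γ, ζ)`, `γ ∈ S`, `ζ ∈ B`, with `ord (F(γ) + h(ζ)) = m`. -/
def jset (F : P2) (e : Fin r → ℕ) (N m : ℕ) (S : Set (Fin 2 × Fin N → ℂ))
    (B : Set (Fin r × Fin N → ℂ)) : Set (JI r N → ℂ) :=
  {x | xyP x ∈ S ∧ zP x ∈ B ∧ (val F e x).order = m}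

/-- The measure of a set of jets `(x, y, z)` of level `N`. -/
def mJ (N : ℕ) (W : Set (JI r N → ℂ)) : Mot := ↑((LU ^ ((2 + r) * N))⁻¹) * clsM W

/-- The measure of `jset`. -/
def muJ (F : P2) (e : Fin r → ℕ) (N m : ℕ) (S : Set (Fin 2 × Fin N → ℂ))
    (B : Set (Fin r × Fin N → ℂ)) : Mot := mJ N (jset F e N m S B)

/-- The arcs `ζ` with `e_i ord ζ_i > n` for all `i`. -/
def Rg (e : Fin r → ℕ) (N n : ℕ) : Set (Fin r × Fin N → ℂ) :=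
  {ζ | ∀ i, ∀ j : Fin N, e i * (j : ℕ) ≤ n → ζ (i, j) = 0}

/-- The arcs `ζ` with `min e_i ord ζ_i = n`. -/
def Ug (e : Fin r → ℕ) (N n : ℕ) : Set (Fin r × Fin N → ℂ) :=
  {ζ | (∀ i, ∀ j : Fin N, e i * (j : ℕ) < n → ζ (i, j) = 0) ∧
    ∃ i, ∃ j : Fin N, e i * (j : ℕ) = n ∧ ζ (i, j) ≠ 0}

/-- The coefficient of `t^n` in `∑ ζ_i^{e_i}`, for `ζ` with `e_i ord ζ_i ≥ n`. -/
def hl (e : Fin r → ℕ) (N n : ℕ) (ζ : Fin r × Fin N → ℂ) : ℂ :=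
  ∑ i, if h : e i ∣ n ∧ n / e i < N then ζ (i, ⟨n / e i, h.2⟩) ^ e i else 0

/-- The leading coefficients where `P(ξ) + ∑ η_i^{e_i}` does not vanish. -/
def TY (e : Fin r → ℕ) (P : MvPolynomial (Fin 2) ℂ) (E : Finset (Fin r)) :
    Set (Fin 2 ⊕ {i // i ∈ E} → ℂ) :=
  {u | (∀ j, u (Sum.inl j) ≠ 0) ∧ (∃ i, u (Sum.inr i) ≠ 0) ∧
    eval (fun j => u (Sum.inl j)) P + ∑ i, u (Sum.inr i) ^ e i.1 ≠ 0}

/-- The leading coefficients where `P(ξ) + ∑ η_i^{e_i}` vanishes. -/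
def TX (e : Fin r → ℕ) (P : MvPolynomial (Fin 2) ℂ) (E : Finset (Fin r)) :
    Set (Fin 2 ⊕ {i // i ∈ E} → ℂ) :=
  {u | (∀ j, u (Sum.inl j) ≠ 0) ∧ (∃ i, u (Sum.inr i) ≠ 0) ∧
    eval (fun j => u (Sum.inl j)) P + ∑ i, u (Sum.inr i) ^ e i.1 = 0}

/-! ### The zeta functions of the stages -/

/-- The zeta function of `F(x, y) + ∑ z_i^{e_i}` and `x^(a-1) dx dy dz`, restricted to the arcs with
`e_i ord z_i > A ord x`; level `N = K (m + 1)`. -/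
def ZR (F : P2) (e : Fin r → ℕ) (a A K : ℕ) : PowerSeries Mot :=
  PowerSeries.mk fun m => ∑ k ∈ Finset.Icc 1 (K * (m + 1)), P1aux.Lp ((a - 1) * k) *
    muJ F e (K * (m + 1)) m (Start 2 1 (K * (m + 1)) ∩ Xo (K * (m + 1)) k)
      (Rg e (K * (m + 1)) (A * k))

/-! ### Geometric series -/

/-- `∑_{k ≥ 1} f(E_{Nk}) L^{-νk-σ(Nk)} T^{Nk}`. -/
def ser (e : Fin r → ℕ) (f : Finset (Fin r) → Mot) (ν N : ℕ) : PowerSeries Mot :=
  PowerSeries.mk fun m => ∑ k ∈ Finset.Icc 1 m,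
    if N * k = m then f (En e (N * k)) * P1aux.Lp (ν * k + sg e (N * k)) else 0

/-- `∑_{k, j ≥ 1} f(E_{Nk}) L^{-νk-σ(Nk)-j} T^{Nk+j}`. -/
def ser2 (e : Fin r → ℕ) (f : Finset (Fin r) → Mot) (ν N : ℕ) : PowerSeries Mot :=
  PowerSeries.mk fun m => ∑ k ∈ Finset.Icc 1 m,
    if N * k < m then f (En e (N * k)) * P1aux.Lp (ν * k + sg e (N * k) + (m - N * k)) else 0

/-! ### The root side -/

/-- `φ g^{s+1-k}` belongs to `D[[x,y]] g^{s+1}`, for a number `s`. -/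
def NumPs (g : P2) (s : ℂ) (k : ℕ) (φ : P2) : Prop :=
  ∃ (j : ℕ) (h : Polynomial P2), InPs g (k + j) h ∧ h.eval (MvPowerSeries.C s) = g ^ j * φ

end SU

end MPb07157
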