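import Pool.Agent.Lib.MP_b07157_agU.Split1
import Pool.Agent.Lib.MP_b07157_agU.Defs

/-!
# The splitting lemma
-/

noncomputable section

namespace MPb07157

open MvPolynomial

namespace Spl

variable {n k l m : ℕ}

/-- The gradient at the origin. -/
def Gr (F : MvPowerSeries (Fin n) ℂ) : Fin n → ℂ := fun i =>
  MvPowerSeries.constantCoeff (MvPowerSeries.pderiv ℂ i F)

/-- The Hessian matrix at the origin. -/
def Hs (F : MvPowerSeries (Fin n) ℂ) : Matrix (Fin n) (Fin n) ℂ := Matrix.of fun i j =>
  MvPowerSeries.constantCoeff (MvPowerSeries.pderiv ℂ i (MvPowerSeries.pderiv ℂ j F))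

theorem Hs_apply (F : MvPowerSeries (Fin n) ℂ) (i j : Fin n) : Hs F i j =
    MvPowerSeries.constantCoeff (MvPowerSeries.pderiv ℂ i (MvPowerSeries.pderiv ℂ j F)) := rfl

theorem cc_pderiv (F : MvPowerSeries (Fin n) ℂ) (i : Fin n) :
    MvPowerSeries.constantCoeff (MvPowerSeries.pderiv ℂ i F) =
      MvPowerSeries.coeff (Finsupp.single i 1) F := by
  rw [← MvPowerSeries.coeff_zero_eq_constantCoeff_apply, MvPowerSeries.coeff_pderiv, zero_add]
  simp

theorem Hs_symm (F : MvPowerSeries (Fin n) ℂ) (i j : Fin n) : Hs F i j = Hs F j i := by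
  rw [Hs_apply, Hs_apply, cc_pderiv, cc_pderiv, MvPowerSeries.coeff_pderiv,
    MvPowerSeries.coeff_pderiv]
  by_cases hij : i = j
  · rw [hij]
  · rw [add_comm (Finsupp.single i 1), Finsupp.single_eq_of_ne (Ne.symm hij),
      Finsupp.single_eq_of_ne hij]

theorem Hs_add (F G : MvPowerSeries (Fin n) ℂ) : Hs (F + G) = Hs F + Hs G := by
  ext i j
  rw [Matrix.add_apply, Hs_apply, Hs_apply, Hs_apply, map_add, map_add, map_add]

theorem Gr_equiv (e : MvPowerSeries (Fin n) ℂ ≃ₐ[ℂ] MvPowerSeries (Fin n) ℂ)
    {F : MvPowerSeries (Fin n) ℂ} (h : Gr F = 0) : Gr (e F) = 0 := by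
  funext i
  unfold Gr
  rw [pderiv_equiv, map_sum]
  refine Finset.sum_eq_zero fun j _ => ?_
  rw [map_mul, constantCoeff_equiv]
  have h1 : MvPowerSeries.constantCoeff (MvPowerSeries.pderiv ℂ j F) = 0 := congrFun h j
  rw [h1, mul_zero]

/-- The Hessian matrix after a change of coordinates. -/
theorem Hs_equiv (e : MvPowerSeries (Fin n) ℂ ≃ₐ[ℂ] MvPowerSeries (Fin n) ℂ)
    {F : MvPowerSeries (Fin n) ℂ} (h : Gr F = 0) :
    Hs (e F) = (Matrix.of fun i j => Gr (e (MvPowerSeries.X i)) j).transpose * Hs F *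
      (Matrix.of fun i j => Gr (e (MvPowerSeries.X i)) j) := by
  ext i j
  rw [Matrix.mul_apply, Hs_apply, pderiv_equiv, map_sum, map_sum]
  refine Finset.sum_congr rfl fun l _ => ?_
  rw [Derivation.leibniz, smul_eq_mul, smul_eq_mul, map_add, map_mul, map_mul,
    constantCoeff_equiv]
  have h1 : MvPowerSeries.constantCoeff (MvPowerSeries.pderiv ℂ l F) = 0 := congrFun h l
  rw [h1, zero_mul, add_zero, pderiv_equiv e i (MvPowerSeries.pderiv ℂ l F), map_sum, mul_comm,
    Matrix.mul_apply]
  congr 1
  refine Finset.sum_congr rfl fun q _ => ?_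
  rw [map_mul, constantCoeff_equiv]
  rfl

theorem rank_equiv (e : MvPowerSeries (Fin n) ℂ ≃ₐ[ℂ] MvPowerSeries (Fin n) ℂ)
    {F : MvPowerSeries (Fin n) ℂ} (h : Gr F = 0) : (Hs F).rank ≤ (Hs (e F)).rank := by
  have h1 := Hs_equiv e.symm (Gr_equiv e h)
  rw [AlgEquiv.symm_apply_apply] at h1
  rw [h1]
  exact (Matrix.rank_mul_le_left _ _).trans (Matrix.rank_mul_le_right _ _)

theorem rank_add_le' (A B : Matrix (Fin n) (Fin n) ℂ) : (A + B).rank ≤ A.rank + B.rank := by
  unfold Matrix.rank
  rw [Matrix.mulVecLin_add A B]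
  have h : LinearMap.range (A.mulVecLin + B.mulVecLin) ≤
      LinearMap.range A.mulVecLin ⊔ LinearMap.range B.mulVecLin := by
    rintro _ ⟨x, rfl⟩
    exact Submodule.add_mem_sup ⟨x, rfl⟩ ⟨x, rfl⟩
  exact (Submodule.finrank_mono h).trans (Submodule.finrank_add_le_finrank_add_finrank _ _)

/-- A change of coordinates such that the last diagonal entry of the Hessian matrix is not zero. -/
theorem exists_lin {F : MvPowerSeries (Fin (m + 1)) ℂ} (h : Gr F = 0) (hH : Hs F ≠ 0) :
    ∃ e : MvPowerSeries (Fin (m + 1)) ℂ ≃ₐ[ℂ] MvPowerSeries (Fin (m + 1)) ℂ,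
      Hs (e F) (Fin.last m) (Fin.last m) ≠ 0 := by
  classical
  -- the quadratic form
  let q : MvPolynomial (Fin (m + 1)) ℂ := ∑ i, ∑ j, C (Hs F i j) * X i * X j
  have hq : ∀ v, eval v q = ∑ i, ∑ j, Hs F i j * v i * v j := by
    intro v
    simp only [q, map_sum, map_mul, eval_C, eval_X]
  have hsum : ∀ (i j : Fin (m + 1)), ∑ a, ∑ b, Hs F a b * (Pi.single i (1 : ℂ) : Fin (m + 1) → ℂ) a *
      (Pi.single j (1 : ℂ) : Fin (m + 1) → ℂ) b = Hs F i j := by
    intro i j
    rw [Finset.sum_eq_single i]
    · rw [Finset.sum_eq_single j]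
      · simp
      · intro b _ hb
        rw [Pi.single_eq_of_ne hb, mul_zero]
      · intro h
        exact absurd (Finset.mem_univ _) h
    · intro a _ ha
      refine Finset.sum_eq_zero fun b _ => ?_
      rw [Pi.single_eq_of_ne ha, mul_zero, zero_mul]
    · intro h
      exact absurd (Finset.mem_univ _) h
  have hq0 : q ≠ 0 := by
    intro h0
    apply hH
    have h1 : ∀ v : Fin (m + 1) → ℂ, ∑ i, ∑ j, Hs F i j * v i * v j = 0 := by
      intro v
      rw [← hq, h0, map_zero]
    ext i j
    have h2 := h1 (Pi.single i 1 + Pi.single j 1)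
    have h3 : ∀ a b, Hs F a b * (Pi.single i (1 : ℂ) + Pi.single j (1 : ℂ) : Fin (m + 1) → ℂ) a *
        (Pi.single i (1 : ℂ) + Pi.single j (1 : ℂ) : Fin (m + 1) → ℂ) b =
        Hs F a b * (Pi.single i (1 : ℂ) : Fin (m + 1) → ℂ) a *
          (Pi.single i (1 : ℂ) : Fin (m + 1) → ℂ) b +
        Hs F a b * (Pi.single i (1 : ℂ) : Fin (m + 1) → ℂ) a *
          (Pi.single j (1 : ℂ) : Fin (m + 1) → ℂ) b +
        (Hs F a b * (Pi.single j (1 : ℂ) : Fin (m + 1) → ℂ) a *
          (Pi.single i (1 : ℂ) : Fin (m + 1) → ℂ) b +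
        Hs F a b * (Pi.single j (1 : ℂ) : Fin (m + 1) → ℂ) a *
          (Pi.single j (1 : ℂ) : Fin (m + 1) → ℂ) b) := by
      intro a b
      rw [Pi.add_apply, Pi.add_apply]
      ring
    simp only [h3, Finset.sum_add_distrib, hsum] at h2
    have h4 := h1 (Pi.single i 1)
    have h5 := h1 (Pi.single j 1)
    rw [hsum] at h4 h5
    rw [h4, h5, Hs_symm F j i] at h2
    rw [Matrix.zero_apply]
    linear_combination h2 / 2
  obtain ⟨v, hv⟩ : ∃ v, eval v (X (Fin.last m) * q) ≠ 0 := by
    by_contra hcon
    push Not at hcon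
    have h1 : X (Fin.last m) * q = 0 := MvPolynomial.funext fun v => by rw [hcon, map_zero]
    rcases mul_eq_zero.1 h1 with h2 | h2
    · exact X_ne_zero _ h2
    · exact hq0 h2
  rw [map_mul, eval_X, hq] at hv
  have hv1 := left_ne_zero_of_mul hv
  have hv2 := right_ne_zero_of_mul hv
  have hpd : ∀ i j : Fin (m + 1), MvPowerSeries.constantCoeff (MvPowerSeries.pderiv ℂ j
      ((if i = Fin.last m then 0 else MvPowerSeries.X i) +
        MvPowerSeries.C (v i) * MvPowerSeries.X (Fin.last m) : MvPowerSeries (Fin (m + 1)) ℂ)) =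
      (if i = Fin.last m then 0 else if j = i then 1 else 0) +
        v i * (if j = Fin.last m then 1 else 0) := by
    intro i j
    have h1 : MvPowerSeries.pderiv ℂ j (MvPowerSeries.C (v i) : MvPowerSeries (Fin (m + 1)) ℂ) =
        0 := Derivation.map_algebraMap _ _
    rw [map_add, Derivation.leibniz, h1, smul_zero, add_zero, smul_eq_mul, pderiv_X, map_add,
      map_mul, MvPowerSeries.constantCoeff_C]
    congr 1
    · split_ifs with h2 h3
      · rw [map_zero, map_zero]
      · rw [pderiv_X, if_pos h3, map_one]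
      · rw [pderiv_X, if_neg h3, map_zero]
    · split_ifs with h2
      · rw [map_one]
      · rw [map_zero]
  obtain ⟨e, he⟩ := exists_equiv' (a := fun i => (if i = Fin.last m then 0 else
      MvPowerSeries.X i) + MvPowerSeries.C (v i) * MvPowerSeries.X (Fin.last m))
    (by
      intro i
      rw [map_add, map_mul, MvPowerSeries.constantCoeff_X, mul_zero, add_zero]
      split_ifs
      · rw [map_zero]
      · rw [MvPowerSeries.constantCoeff_X])
    (by
      intro w hw
      have h1 : ∀ i : Fin (m + 1), (if i = Fin.last m then 0 else w i) +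
          v i * w (Fin.last m) = 0 := by
        intro i
        have h2 := hw i
        simp only [hpd, add_mul, Finset.sum_add_distrib] at h2
        refine Eq.trans ?_ h2
        have h4 : ∑ x, (v i * if x = Fin.last m then (1 : ℂ) else 0) * w x =
            v i * w (Fin.last m) := by
          rw [Finset.sum_eq_single (Fin.last m)]
          · rw [if_pos rfl, mul_one]
          · intro x _ hx
            rw [if_neg hx, mul_zero, zero_mul]
          · intro h
            exact absurd (Finset.mem_univ _) h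
        have h5 : ∑ x, (if i = Fin.last m then 0 else if x = i then (1 : ℂ) else 0) * w x =
            if i = Fin.last m then 0 else w i := by
          split_ifs with h3
          · simp
          · simp
        rw [h4, h5]
      have h2 := h1 (Fin.last m)
      rw [if_pos rfl, zero_add] at h2
      have h3 : w (Fin.last m) = 0 := (mul_eq_zero.1 h2).resolve_left hv1
      funext i
      by_cases hi : i = Fin.last m
      · rw [hi, h3]
        rfl
      · have h4 := h1 i
        rw [if_neg hi, h3, mul_zero, add_zero] at h4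
        exact h4)
  refine ⟨e, ?_⟩
  have h1 : ∀ i, Gr (e (MvPowerSeries.X i)) (Fin.last m) = v i := by
    intro i
    unfold Gr
    rw [he, hpd, if_pos rfl, mul_one]
    split_ifs with h2 h3
    · rw [zero_add]
    · exact absurd h3.symm h2
    · rw [zero_add]
  rw [Hs_equiv e h, Matrix.mul_apply]
  simp only [Matrix.mul_apply, Matrix.transpose_apply, Matrix.of_apply, h1]
  intro h2
  apply hv2
  rw [← h2, Finset.sum_comm]
  refine Finset.sum_congr rfl fun i _ => ?_
  rw [Finset.sum_mul]
  refine Finset.sum_congr rfl fun j _ => ?_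
  ring

/-- The Hessian matrix of `b(x) + y²`. -/
theorem Hs_R_add (b : MvPowerSeries (Fin m) ℂ) :
    (Hs (R m b + MvPowerSeries.X (Fin.last m) ^ 2)).rank ≤ (Hs b).rank + 1 := by
  classical
  rw [Hs_add]
  refine (rank_add_le' _ _).trans (add_le_add ?_ ?_)
  · have h1 : Hs (R m b) = (Matrix.of fun (i : Fin (m + 1)) (j : Fin m) =>
        if i = j.castSucc then (1 : ℂ) else 0) * Hs b * (Matrix.of fun (i : Fin (m + 1))
          (j : Fin m) => if i = j.castSucc then (1 : ℂ) else 0).transpose := by
      ext i j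
      rw [Matrix.mul_apply]
      simp only [Matrix.mul_apply, Matrix.transpose_apply, Matrix.of_apply]
      induction j using Fin.lastCases with
      | last =>
        rw [Hs_apply, pderiv_last_R, map_zero, map_zero]
        symm
        refine Finset.sum_eq_zero fun l _ => ?_
        rw [if_neg (Fin.castSucc_lt_last l).ne', mul_zero]
      | cast j =>
        rw [Hs_apply, pderiv_R, Finset.sum_eq_single j]
        · rw [if_pos rfl, mul_one]
          induction i using Fin.lastCases with
          | last =>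
            rw [pderiv_last_R, map_zero]
            symm
            refine Finset.sum_eq_zero fun l _ => ?_
            rw [if_neg (Fin.castSucc_lt_last l).ne', zero_mul]
          | cast i =>
            rw [pderiv_R, cc_hom, Finset.sum_eq_single i]
            · rw [if_pos rfl, one_mul, Hs_apply]
            · intro l _ hl
              rw [if_neg, zero_mul]
              intro h
              exact hl (Fin.castSucc_injective m h).symm
            · intro h
              exact absurd (Finset.mem_univ _) h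
        · intro l _ hl
          rw [if_neg, mul_zero]
          intro h
          exact hl (Fin.castSucc_injective m h).symm
        · intro h
          exact absurd (Finset.mem_univ _) h
    rw [h1]
    exact (Matrix.rank_mul_le_left _ _).trans (Matrix.rank_mul_le_right _ _)
  · have h1 : Hs (MvPowerSeries.X (Fin.last m) ^ 2 : MvPowerSeries (Fin (m + 1)) ℂ) =
        Matrix.vecMulVec (fun i => if i = Fin.last m then (2 : ℂ) else 0)
          (fun j => if j = Fin.last m then (1 : ℂ) else 0) := by
      ext i j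
      rw [Matrix.vecMulVec_apply, Hs_apply, Derivation.leibniz_pow, pderiv_X, nsmul_eq_mul,
        smul_eq_mul, pow_one]
      by_cases hj : j = Fin.last m
      · rw [if_pos hj, if_pos hj, mul_one, mul_one, Nat.cast_ofNat]
        have h2 : (2 : MvPowerSeries (Fin (m + 1)) ℂ) = MvPowerSeries.C (2 : ℂ) := by
          rw [map_ofNat]
        rw [h2, Derivation.leibniz, pderiv_X]
        have h3 : MvPowerSeries.pderiv ℂ i (MvPowerSeries.C (2 : ℂ) :
            MvPowerSeries (Fin (m + 1)) ℂ) = 0 := Derivation.map_algebraMap _ _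
        rw [h3, smul_zero, add_zero, smul_eq_mul, map_mul, MvPowerSeries.constantCoeff_C]
        split_ifs with hi
        · rw [map_one, mul_one]
        · rw [map_zero, mul_zero]
      · rw [if_neg hj, if_neg hj, mul_zero, mul_zero, mul_zero, map_zero, map_zero]
    rw [h1]
    exact Matrix.rank_vecMulVec_le _ _

/-- The suspension in one more variable. -/
theorem suspP_succ (g : PC.P2) (r : ℕ) :
    SU.suspP g (fun _ : Fin (r + 1) => 2) = R (2 + r) (SU.suspP g (fun _ : Fin r => 2)) +
      MvPowerSeries.X (Fin.last (2 + r)) ^ 2 := by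
  unfold SU.suspP
  have h1 : ∀ r : ℕ, MvPowerSeries.HasSubst (fun j : Fin 2 => (MvPowerSeries.X (Fin.castAdd r j) :
      MvPowerSeries (Fin (2 + r)) ℂ)) := fun r =>
    MvPowerSeries.hasSubst_of_constantCoeff_zero fun j => MvPowerSeries.constantCoeff_X _
  have h2 : ((R (2 + r)).comp (MvPowerSeries.substAlgHom (h1 r)) :
      MvPowerSeries (Fin 2) ℂ →ₐ[ℂ] MvPowerSeries (Fin (2 + r + 1)) ℂ) =
      MvPowerSeries.substAlgHom (h1 (r + 1)) := by
    apply hom_ext
    intro i
    rw [AlgHom.comp_apply, MvPowerSeries.substAlgHom_X, MvPowerSeries.substAlgHom_X, R_X]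
    rfl
  have h3 := congrArg (fun f => f g) h2
  simp only [AlgHom.comp_apply, MvPowerSeries.substAlgHom_apply] at h3
  rw [map_add, h3, map_sum, add_assoc]
  congr 1
  rw [Fin.sum_univ_castSucc]
  congr 1
  refine Finset.sum_congr rfl fun i _ => ?_
  rw [map_pow, R_X]
  rfl

/-- **The splitting lemma.** A power series in `2 + r` variables without terms of degree `≤ 1` whose
Hessian matrix has rank at least `r` is, in suitable coordinates, `g(x, y) + ∑ z_i²`. -/
theorem splitting (r : ℕ) : ∀ F : MvPowerSeries (Fin (2 + r)) ℂ,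
    MvPowerSeries.constantCoeff F = 0 → Gr F = 0 → r ≤ (Hs F).rank →
    ∃ (e : MvPowerSeries (Fin (2 + r)) ℂ ≃ₐ[ℂ] MvPowerSeries (Fin (2 + r)) ℂ) (g : PC.P2),
      MvPowerSeries.constantCoeff g = 0 ∧ e F = SU.suspP g (fun _ : Fin r => 2) := by
  induction r with
  | zero =>
    intro F h0 _ _
    refine ⟨AlgEquiv.refl, F, h0, ?_⟩
    have h1 : MvPowerSeries.subst (fun j : Fin 2 => (MvPowerSeries.X (Fin.castAdd 0 j) :
        MvPowerSeries (Fin (2 + 0)) ℂ)) (F : MvPowerSeries (Fin 2) ℂ) = F :=
      congrFun (MvPowerSeries.subst_self (σ := Fin 2) (R := ℂ)) F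
    unfold SU.suspP
    rw [h1, Finset.univ_eq_empty, Finset.sum_empty]
    exact (add_zero F).symm
  | succ r ih =>
    intro F h0 h1 h2
    have hH : Hs F ≠ 0 := by
      intro h
      rw [h, Matrix.rank_zero] at h2
      omega
    obtain ⟨e1, he1⟩ := exists_lin (m := 2 + r) h1 hH
    obtain ⟨e2, b, he2⟩ := morse (G := e1 F) (congrFun (Gr_equiv e1 h1) _) he1
    have h3 : Gr (e2 (e1 F)) = 0 := Gr_equiv e2 (Gr_equiv e1 h1)
    have h4 : MvPowerSeries.constantCoeff b = 0 := by
      have h5 : MvPowerSeries.constantCoeff (e2 (e1 F)) = 0 := by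
        rw [constantCoeff_equiv, constantCoeff_equiv, h0]
      rwa [he2, map_add, map_pow, MvPowerSeries.constantCoeff_X, zero_pow two_ne_zero, add_zero,
        cc_hom] at h5
    have h5 : Gr b = 0 := by
      funext j
      have h6 := congrFun h3 j.castSucc
      unfold Gr at h6
      rw [he2, map_add, pderiv_R, Derivation.leibniz_pow, pderiv_X,
        if_neg (Fin.castSucc_lt_last j).ne, smul_zero, smul_zero, add_zero, cc_hom] at h6
      exact h6
    have h6 : r ≤ (Hs b).rank := by
      have h7 := (rank_equiv e1 h1).trans (rank_equiv e2 (Gr_equiv e1 h1))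
      rw [he2] at h7
      have h8 := Hs_R_add b
      omega
    obtain ⟨e3, g, hg, he3⟩ := ih b h4 h5 h6
    obtain ⟨E, hE1, hE2⟩ := exists_ext e3
    refine ⟨(e1.trans e2).trans E, g, hg, ?_⟩
    rw [AlgEquiv.trans_apply, AlgEquiv.trans_apply, he2, map_add, map_pow, hE1, hE2, he3]
    exact (suspP_succ g r).symm

end Spl

end MPb07157
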