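import Pool.Agent.Lib.MP_b07157_agU.Main
import Pool.Agent.Lib.MP_b07157_agU.Split2
import Pool.Agent.Lib.MP_b07157_agO.MQ
import Pool.Agent.Lib.MP_b07157_agM.CDefs

/-!
# Germs equivalent to suspensions; germs of corank at most two
-/

noncomputable section

namespace MPb07157

open MvPolynomial

namespace SU

open PC

variable {r : ℕ}

namespace Br

/-- The values of two power series with the same terms up to order `m`. -/
theorem valF_congr {F F' : P2} {m : ℕ}
    (h : ∀ v : Fin 2 →₀ ℕ, v 0 + v 1 ≤ m → MvPowerSeries.coeff v F = MvPowerSeries.coeff v F')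
    {N : ℕ} {γ : Fin 2 × Fin N → ℂ} (hγ : γ ∈ Start 2 1 N) :
    ∃ H, valF F γ = valF F' γ + PowerSeries.X ^ (m + 1) * H := by
  have hx := X_dvd_arc_of_mem_Start hγ
  obtain ⟨H, hH⟩ := le_order_subst (F := F - F') (w := fun _ => 1) (r := m + 1)
    (fun _ => one_pos) (fun v hv => by
      rw [map_sub, h v (by
        rw [wt, Fin.sum_univ_two, one_mul, one_mul] at hv
        omega), sub_self]) hx
  refine ⟨H, ?_⟩
  unfold valF
  rw [← hH, MvPowerSeries.subst_sub (hasSubst_of_dvd (w := fun _ => 1) (fun _ => one_pos) hx)]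
  exact (add_sub_cancel _ _).symm

theorem coeff_ZR_congr {F F' : P2} {m : ℕ}
    (h : ∀ v : Fin 2 →₀ ℕ, v 0 + v 1 ≤ m → MvPowerSeries.coeff v F = MvPowerSeries.coeff v F')
    (e : Fin r → ℕ) (a A K : ℕ) :
    PowerSeries.coeff m (ZR F e a A K) = PowerSeries.coeff m (ZR F' e a A K) := by
  unfold ZR
  rw [PowerSeries.coeff_mk, PowerSeries.coeff_mk]
  refine Finset.sum_congr rfl fun k _ => ?_
  congr 1
  unfold muJ
  congr 1
  ext x
  simp only [jset, Set.mem_ofPred_eq]
  refine and_congr_right fun hx => and_congr_right fun _ => ?_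
  obtain ⟨H, hH⟩ := valF_congr h hx.1
  refine order_eq_iff_of_dvd (H := H) ?_
  unfold val
  rw [hH]
  ring

theorem coeff_ZQ_congr {n : ℕ} {F F' : MvPowerSeries (Fin n) ℂ} {m : ℕ}
    (h : ∀ v : Fin n →₀ ℕ, ∑ i, v i ≤ m → MvPowerSeries.coeff v F = MvPowerSeries.coeff v F') :
    PowerSeries.coeff m (QO.ZQ F) = PowerSeries.coeff m (QO.ZQ F') := by
  unfold QO.ZQ
  rw [PowerSeries.coeff_mk, PowerSeries.coeff_mk]
  congr 1
  obtain ⟨g, hg⟩ := exists_truncP m F
  have hg' : ∀ v : Fin n →₀ ℕ, ∑ i, v i ≤ m → coeff v g = MvPowerSeries.coeff v F' :=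
    fun v hv => (hg v hv).trans (h v hv)
  have key : ∀ {F : MvPowerSeries (Fin n) ℂ}
      (_ : ∀ v : Fin n →₀ ℕ, ∑ i, v i ≤ m → coeff v g = MvPowerSeries.coeff v F),
      QO.arcsQ F (m + 1) m = arcs g (m + 1) m ∩ Start n 1 (m + 1) := by
    intro F hg
    ext γ
    unfold QO.arcsQ
    simp only [Set.mem_ofPred_eq, Set.mem_inter_iff]
    constructor
    · rintro ⟨h1, h2⟩
      refine ⟨?_, h1⟩
      rw [mem_Start_one] at h1
      exact (order_congr (Nat.lt_succ_self m)
        (QO.ev_congr_trunc hg (constantCoeff_arc h1))).1 h2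
    · rintro ⟨h2, h1⟩
      refine ⟨h1, ?_⟩
      rw [mem_Start_one] at h1
      exact (order_congr (Nat.lt_succ_self m)
        (QO.ev_congr_trunc hg (constantCoeff_arc h1))).2 h2
  rw [key hg, key hg']

theorem hasSubst_castAdd (r : ℕ) : MvPowerSeries.HasSubst (fun j : Fin 2 =>
    (MvPowerSeries.X (Fin.castAdd r j) : MvPowerSeries (Fin (2 + r)) ℂ)) :=
  MvPowerSeries.hasSubst_of_constantCoeff_zero fun _ => MvPowerSeries.constantCoeff_X _

theorem suspP_eq (g : P2) (e : Fin r → ℕ) : suspP g e =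
    MvPowerSeries.substAlgHom (hasSubst_castAdd r) g +
      ∑ i, MvPowerSeries.X (Fin.natAdd 2 i) ^ e i := by
  rw [MvPowerSeries.substAlgHom_apply]
  rfl

theorem coeff_suspP_congr {g g' : P2} {m : ℕ}
    (h : ∀ v : Fin 2 →₀ ℕ, v 0 + v 1 ≤ m → MvPowerSeries.coeff v g = MvPowerSeries.coeff v g')
    (e : Fin r → ℕ) (v : Fin (2 + r) →₀ ℕ) (hv : ∑ i, v i ≤ m) :
    MvPowerSeries.coeff v (suspP g e) = MvPowerSeries.coeff v (suspP g' e) := by
  rw [suspP_eq, suspP_eq, map_add, map_add]
  congr 1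
  have h1 : LowZ (m + 1) (g - g') := by
    intro w hw
    rw [map_sub, h w (by rw [Fin.sum_univ_two] at hw; omega), sub_self]
  have h2 := Spl.lowZ_hom (MvPowerSeries.substAlgHom (hasSubst_castAdd r)) h1 v (by omega)
  rwa [map_sub, map_sub, sub_eq_zero] at h2

/-- The zeta function of the first stage. -/
theorem ZR_eq_ZQ (g : P2) {e : Fin r → ℕ} (he : ∀ i, 0 < e i) {K : ℕ} (hK : 1 ≤ K) :
    ZR g e 1 0 K = QO.ZQ (suspP g e) := by
  ext m
  obtain ⟨P, hP⟩ := exists_trunc g m
  have h1 : ∀ v : Fin 2 →₀ ℕ, v 0 + v 1 ≤ m →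
      MvPowerSeries.coeff v g = MvPowerSeries.coeff v (P : P2) := fun v hv => by
    rw [MvPolynomial.coeff_coe]
    exact (hP v).resolve_right fun h => by omega
  rw [coeff_ZR_congr h1, ZR_one_eq he hK, coeff_ZQ_congr (coeff_suspP_congr h1 e), ← coe_susp,
    ← QO.Zmot0_eq_ZQ (e := AlgEquiv.refl) 1]
  rw [Units.val_one, one_mul]
  rfl

/-- A node is `x y` in suitable coordinates. -/
theorem exists_equiv_node {g : P2} (hnode : IsNode g) :
    ∃ e : P2 ≃ₐ[ℂ] P2, e (MvPowerSeries.X 0 * MvPowerSeries.X 1) = g := by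
  classical
  obtain ⟨θ, h0, hJ, W, hW, hg⟩ := hnode
  obtain ⟨e₁, he₁⟩ := IFT.exists_equiv h0 (by
    rw [Matrix.det_fin_two, Matrix.of_apply, Matrix.of_apply, Matrix.of_apply, Matrix.of_apply,
      coeff_single_ps, coeff_single_ps, coeff_single_ps, coeff_single_ps]
    intro h
    apply hJ
    unfold jac
    rw [map_sub, map_mul, map_mul]
    exact h)
  obtain ⟨e₂, he₂⟩ := IFT.exists_equiv (a := ![(MvPowerSeries.X 0 : P2), MvPowerSeries.X 1 * W])
    (by
      intro i
      fin_cases i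
      · exact MvPowerSeries.constantCoeff_X 0
      · show MvPowerSeries.constantCoeff (MvPowerSeries.X 1 * W : P2) = 0
        rw [map_mul, MvPowerSeries.constantCoeff_X, zero_mul]) (by
    rw [Matrix.det_fin_two]
    simp only [Matrix.of_apply, Matrix.cons_val_zero, Matrix.cons_val_one]
    have c1 : MvPowerSeries.coeff (Finsupp.single 0 1) (MvPowerSeries.X 0 : P2) = 1 :=
      MvPowerSeries.coeff_index_single_self_X 0
    have c2 : MvPowerSeries.coeff (Finsupp.single 1 1) (MvPowerSeries.X 0 : P2) = 0 := by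
      rw [MvPowerSeries.coeff_X, if_neg]
      intro h
      have := Finsupp.single_left_injective one_ne_zero h
      exact absurd this (by decide)
    have c3 : MvPowerSeries.coeff (Finsupp.single 1 1) (MvPowerSeries.X 1 * W : P2) =
        MvPowerSeries.constantCoeff W := by
      rw [coeff_single_ps, Derivation.leibniz, MvPowerSeries.pderiv_X_self, smul_eq_mul,
        smul_eq_mul, map_add, map_mul, map_mul, MvPowerSeries.constantCoeff_X]
      simp
    rw [c1, c2, c3, one_mul, zero_mul, sub_zero]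
    exact hW)
  have hX : ∀ {a : Fin 2 → P2} {e : P2 ≃ₐ[ℂ] P2}
      (_ : ∀ p : MvPolynomial (Fin 2) ℂ, e (p : P2) = MvPolynomial.aeval a p) (i : Fin 2),
      e (MvPowerSeries.X i) = a i := by
    intro a e he i
    have h := he (X i)
    rwa [MvPolynomial.coe_X, aeval_X] at h
  have hθ := MvPowerSeries.hasSubst_of_constantCoeff_zero h0
  have h1 : (e₁ : P2 →ₐ[ℂ] P2) = MvPowerSeries.substAlgHom hθ := by
    apply Spl.hom_ext
    intro i
    rw [MvPowerSeries.substAlgHom_X]
    exact hX he₁ i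
  have h2 : e₁ g = MvPowerSeries.subst θ g := by
    rw [← MvPowerSeries.substAlgHom_apply hθ]
    exact congrArg (fun f => f g) h1
  refine ⟨e₂.trans e₁.symm, ?_⟩
  rw [AlgEquiv.trans_apply, AlgEquiv.symm_apply_eq, h2, hg, map_mul, hX he₂, hX he₂]
  show MvPowerSeries.X 0 * (MvPowerSeries.X 1 * W) = _
  rw [mul_assoc]

/-- An automorphism in the variables `x`, `y`. -/
theorem exists_ext' (r : ℕ) (e : P2 ≃ₐ[ℂ] P2) :
    ∃ E : MvPowerSeries (Fin (2 + r)) ℂ ≃ₐ[ℂ] MvPowerSeries (Fin (2 + r)) ℂ,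
      ∀ (g : P2) (d : Fin r → ℕ), E (suspP g d) = suspP (e g) d := by
  obtain ⟨E, hE1, hE2⟩ := NdH.exists_ext r e
  refine ⟨E, fun g d => ?_⟩
  have h1 : (E : MvPowerSeries (Fin (2 + r)) ℂ →ₐ[ℂ] MvPowerSeries (Fin (2 + r)) ℂ).comp
      (MvPowerSeries.substAlgHom (hasSubst_castAdd r)) =
      (MvPowerSeries.substAlgHom (hasSubst_castAdd r)).comp (e : P2 →ₐ[ℂ] P2) := by
    apply Spl.hom_ext
    intro i
    rw [AlgHom.comp_apply, AlgHom.comp_apply, MvPowerSeries.substAlgHom_X]
    have h2 := hE1 (X i)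
    rw [rename_X, MvPolynomial.coe_X, MvPolynomial.coe_X] at h2
    have h3 : (MvPowerSeries.rename (Fin.castAddEmb r : Fin 2 ↪ Fin (2 + r)) : P2 →ₐ[ℂ]
        MvPowerSeries (Fin (2 + r)) ℂ) = MvPowerSeries.substAlgHom (hasSubst_castAdd r) := by
      apply Spl.hom_ext
      intro i
      rw [MvPowerSeries.substAlgHom_X, MvPowerSeries.rename_X]
      rfl
    rw [← h3]
    exact h2
  rw [suspP_eq, suspP_eq, map_add, map_sum]
  congr 1
  · exact congrArg (fun f => f g) h1
  · refine Finset.sum_congr rfl fun i _ => ?_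
    rw [map_pow, hE2]

end Br

open Br

/-- **Theorem U.** Germs which are, up to a unit and a formal change of coordinates,
`g(x, y) + ∑ z_i^{e_i}` with a power series `g`. -/
theorem smcLoc_suspP {f : MvPolynomial (Fin (2 + r)) ℂ} (hf : f ≠ 0) (h0 : coeff 0 f = 0)
    {E : MvPowerSeries (Fin (2 + r)) ℂ ≃ₐ[ℂ] MvPowerSeries (Fin (2 + r)) ℂ}
    {u : (MvPowerSeries (Fin (2 + r)) ℂ)ˣ} {g : P2} (hg : MvPowerSeries.constantCoeff g = 0)
    {e : Fin r → ℕ} (he : ∀ i, 2 ≤ e i)
    (hfE : (f : MvPowerSeries (Fin (2 + r)) ℂ) = u * E (suspP g e)) : SmcLoc f := by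
  classical
  have he' : ∀ i, 0 < e i := fun i => by have := he i; omega
  by_cases hg0 : g = 0
  · -- a sum of powers
    subst hg0
    have h1 : FormEquivPow f (susp 0 e) 1 := by
      refine ⟨E, u, ?_⟩
      rw [coe_susp, pow_one, MvPolynomial.coe_zero]
      exact hfE
    have hne : susp 0 e ≠ 0 := ne_zero_of_formEquivPow one_pos h1 hf
    have h00 : coeff 0 (susp (0 : MvPolynomial (Fin 2) ℂ) e) = 0 :=
      coeff_zero_eq_zero_of_formEquivPow one_pos h1 h0
    refine SmcLoc.of_formEquivPow one_pos h1 fun s₀ _ hp b hb =>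
      eval_eq_zero_of_form hne h00 (fun w _ => NdH.isNondeg_of_own hne ?_ w) s₀ hp b hb
    have hsup : ∀ v ∈ (susp (0 : MvPolynomial (Fin 2) ℂ) e).support,
        ∃ i, v = Finsupp.single (Fin.natAdd 2 i) (e i) := by
      intro v hv
      unfold susp at hv
      rw [map_zero, zero_add] at hv
      obtain ⟨i, -, hi⟩ := Finset.mem_biUnion.1 (MvPolynomial.support_sum hv)
      refine ⟨i, ?_⟩
      rw [X_pow_eq_monomial] at hi
      exact Finset.mem_singleton.1 (support_monomial_subset hi)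
    intro v hv
    obtain ⟨i, rfl⟩ := hsup v hv
    refine ⟨Fin.natAdd 2 i, ?_, ?_⟩
    · rw [Finsupp.single_eq_same]
      exact (he' i).ne'
    · intro u hu hne
      obtain ⟨i', h⟩ := hsup u hu
      have h2 : i' = i := by
        by_contra hne'
        apply hne
        rw [h, Finsupp.single_apply, if_neg]
        intro h3
        exact hne' (Fin.natAdd_injective _ _ h3)
      rw [h, h2]
  by_cases hnode : IsNode g
  · obtain ⟨e₂, he₂⟩ := Br.exists_equiv_node hnode
    obtain ⟨E', hE'⟩ := exists_ext' r e₂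
    refine SmcLoc.of_formEquivPow (m := 1) one_pos (g := susp (X 0 * X 1) e)
      ⟨E'.trans E, u, ?_⟩ (NdH.smcLoc_susp_xy he')
    rw [pow_one, coe_susp, AlgEquiv.trans_apply, hE', MvPolynomial.coe_mul, MvPolynomial.coe_X,
      MvPolynomial.coe_X, he₂]
    exact hfE
  intro s₀ hs hp b hb
  by_contra hb0
  have h1 : s₀ ≠ -1 := by
    rintro rfl
    exact hb0 (neg_one_root hf (MvPolynomial.notMem_support_iff.2 h0) b hb)
  apply hp
  obtain ⟨K, hK⟩ := exists_nat_gt (max 1 (-s₀))
  have hK1 : 1 ≤ K := by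
    have : (1 : ℚ) < K := lt_of_le_of_lt (le_max_left _ _) hK
    exact_mod_cast this.le
  have hKs : -s₀ < K := lt_of_le_of_lt (le_max_right _ _) hK
  rw [QO.Zmot0_eq_ZQ u hfE, ← ZR_eq_ZQ g he' hK1]
  by_cases hout : s₀ + hn e ≤ -1 ∨ 0 ≤ s₀ + hn e
  · exact first_out hg0 hg hnode he' hout h1 hK1 hKs
  · push Not at hout
    have hint : ∀ z : ℤ, s₀ + hn e ≠ z := by
      intro z hz
      rw [hz] at hout
      have h2 : (-1 : ℤ) < z := by exact_mod_cast hout.1
      have h3 : z < (0 : ℤ) := by exact_mod_cast hout.2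
      omega
    have hnum := num_of_inPs hg he hs h1 hint (QO.inPs_of_formEquiv u hfE hb) hb0
    exact first hg0 hg he' (ex_of_num hnum) (axOK_of_num hnum) h1 hK1 hKs

theorem smcLoc_X {n : ℕ} (i : Fin n) : SmcLoc (X i : MvPolynomial (Fin n) ℂ) := by
  classical
  refine fun s₀ _ hp b hb => eval_eq_zero_of_form (X_ne_zero i) (coeff_zero_X i)
    (fun w _ => NdH.isNondeg_of_own (X_ne_zero i) ?_ w) s₀ hp b hb
  intro v hv
  rw [support_X, Finset.mem_singleton] at hv
  subst hv
  refine ⟨i, by rw [Finsupp.single_eq_same]; exact one_ne_zero, fun u hu _ => ?_⟩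
  rw [support_X, Finset.mem_singleton] at hu
  exact hu

/-- Smooth germs. -/
theorem smcLoc_smooth {n : ℕ} {f : MvPolynomial (Fin n) ℂ} (h0 : coeff 0 f = 0) {i : Fin n}
    (hi : coeff (Finsupp.single i 1) f ≠ 0) : SmcLoc f := by
  classical
  have hps : ∀ j, MvPowerSeries.constantCoeff (MvPowerSeries.pderiv ℂ j
      (f : MvPowerSeries (Fin n) ℂ)) = coeff (Finsupp.single j 1) f := by
    intro j
    rw [Spl.cc_pderiv, MvPolynomial.coeff_coe]
  obtain ⟨e, he⟩ := Spl.exists_equiv' (a := fun j => if j = i then (f : MvPowerSeries (Fin n) ℂ)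
      else MvPowerSeries.X j)
    (by
      intro j
      split_ifs with h
      · rw [← MvPowerSeries.coeff_zero_eq_constantCoeff_apply, MvPolynomial.coeff_coe, h0]
      · rw [MvPowerSeries.constantCoeff_X])
    (by
      intro v hv
      have h1 : ∀ j, j ≠ i → v j = 0 := by
        intro j hj
        have h2 := hv j
        simp only [if_neg hj, Spl.pderiv_X] at h2
        rw [Finset.sum_eq_single j] at h2
        · rwa [if_pos rfl, map_one, one_mul] at h2
        · intro l _ hl
          rw [if_neg hl, map_zero, zero_mul]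
        · intro h
          exact absurd (Finset.mem_univ _) h
      have h2 := hv i
      simp only [if_true, hps] at h2
      rw [Finset.sum_eq_single i] at h2
      · funext j
        by_cases hj : j = i
        · rw [hj]
          exact (mul_eq_zero.1 h2).resolve_left hi
        · exact h1 j hj
      · intro l _ hl
        rw [h1 l hl, mul_zero]
      · intro h
        exact absurd (Finset.mem_univ _) h)
  refine SmcLoc.of_formEquivPow (m := 1) one_pos (g := X i) ⟨e, 1, ?_⟩ (smcLoc_X i)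
  rw [pow_one, Units.val_one, one_mul, MvPolynomial.coe_X, he, if_pos rfl]

/-- One variable. -/
theorem smcLoc_one {f : MvPolynomial (Fin 1) ℂ} (hf : f ≠ 0) (h0 : coeff 0 f = 0) : SmcLoc f := by
  classical
  refine fun s₀ _ hp b hb => eval_eq_zero_of_form hf h0 (fun w hw u hu hz => ?_) s₀ hp b hb
  exfalso
  obtain ⟨v, hv, hmin⟩ := Finset.exists_min_image f.support (fun v => ∑ j, w j * v j)
    (MvPolynomial.support_nonempty.2 hf)
  unfold initialPart at hz
  rw [map_sum, Finset.sum_eq_single v] at hz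
  · rw [eval_monomial, Finsupp.prod_fintype _ _ fun _ => pow_zero _] at hz
    exact mul_ne_zero (mem_support_iff.1 hv)
      (Finset.prod_ne_zero_iff.2 fun i _ => pow_ne_zero _ (hu i)) hz
  · intro v' hv' hne
    exfalso
    apply hne
    rw [Finset.mem_filter] at hv'
    have h1 := hmin v' hv'.1
    have h2 := hv'.2 v hv
    simp only [Fin.sum_univ_one] at h1 h2
    have h3 : w 0 * v 0 = w 0 * v' 0 := le_antisymm h1 h2
    refine Finsupp.ext fun i => ?_
    rw [Subsingleton.elim i 0]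
    exact (Nat.eq_of_mul_eq_mul_left (hw 0) h3).symm
  · intro h
    exact absurd (Finset.mem_filter.2 ⟨hv, hmin⟩) h

theorem smcLoc_corank_aux {N r : ℕ} (hN : N = 2 + r) {f : MvPolynomial (Fin N) ℂ} (hf : f ≠ 0)
    (h0 : coeff 0 f = 0) (hs : ∀ i, coeff (Finsupp.single i 1) f = 0)
    (hH : r ≤ (hess f).rank) : SmcLoc f := by
  subst hN
  obtain ⟨e, g, hg, he⟩ := Spl.splitting r (f : MvPowerSeries (Fin (2 + r)) ℂ)
    (by rw [← MvPowerSeries.coeff_zero_eq_constantCoeff_apply, MvPolynomial.coeff_coe, h0])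
    (by
      funext i
      unfold Spl.Gr
      rw [Spl.cc_pderiv, MvPolynomial.coeff_coe, hs]
      rfl)
    (by
      have h1 : Spl.Hs (f : MvPowerSeries (Fin (2 + r)) ℂ) = hess f := by
        ext i j
        rw [Spl.Hs_apply, MvPowerSeries.pderiv_coe, MvPowerSeries.pderiv_coe,
          ← MvPowerSeries.coeff_zero_eq_constantCoeff_apply, MvPolynomial.coeff_coe]
        rfl
      rw [h1]
      exact hH)
  refine smcLoc_suspP hf h0 (E := e.symm) (u := 1) hg (e := fun _ => 2) (fun _ => le_rfl) ?_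
  rw [Units.val_one, one_mul, ← he, AlgEquiv.symm_apply_apply]

/-- **Germs of corank at most two.** The strong monodromy conjecture, local version, for the germs
whose Hessian matrix has rank at least `n - 2`. -/
theorem smcLoc_corank {n : ℕ} {f : MvPolynomial (Fin n) ℂ} (hf : f ≠ 0) (h0 : coeff 0 f = 0)
    (hH : n ≤ (hess f).rank + 2) : SmcLoc f := by
  classical
  by_cases hs : ∃ i, coeff (Finsupp.single i 1) f ≠ 0
  · obtain ⟨i, hi⟩ := hs
    exact smcLoc_smooth h0 hi
  push Not at hs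
  rcases n with _ | _ | n
  · exfalso
    apply hf
    ext v
    rw [Subsingleton.elim v 0, h0, coeff_zero]
  · exact smcLoc_one hf h0
  · exact smcLoc_corank_aux (r := n) (by omega) hf h0 hs (by omega)

end SU

end MPb07157
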