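import Pool.Agent.Lib.MP_b07157_agI.IsoB
import Pool.Agent.Lib.MP_b07157_agR.Cor

/-!
# Algebra homomorphisms between rings of formal power series
-/

noncomputable section

namespace MPb07157

open MvPolynomial

namespace Spl

variable {n k l m : ℕ}

/-- Algebra homomorphisms preserve constant coefficients. -/
theorem cc_hom (φ : MvPowerSeries (Fin k) ℂ →ₐ[ℂ] MvPowerSeries (Fin n) ℂ)
    (h : MvPowerSeries (Fin k) ℂ) :
    MvPowerSeries.constantCoeff (φ h) = MvPowerSeries.constantCoeff h := by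
  set c := MvPowerSeries.constantCoeff (φ h) with hc
  by_contra hne
  have halg : ∀ (n : ℕ) (c : ℂ), algebraMap ℂ (MvPowerSeries (Fin n) ℂ) c = MvPowerSeries.C c :=
    fun _ _ => rfl
  have h1 : IsUnit (h - MvPowerSeries.C c) := by
    rw [MvPowerSeries.isUnit_iff_constantCoeff, map_sub, MvPowerSeries.constantCoeff_C,
      isUnit_iff_ne_zero]
    exact sub_ne_zero.2 (Ne.symm hne)
  have h2 : IsUnit (φ (h - MvPowerSeries.C c)) := h1.map φ
  rw [map_sub, ← halg, φ.commutes, halg, MvPowerSeries.isUnit_iff_constantCoeff, map_sub,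
    MvPowerSeries.constantCoeff_C, ← hc, sub_self] at h2
  exact not_isUnit_zero h2

theorem lowZ_hom (φ : MvPowerSeries (Fin k) ℂ →ₐ[ℂ] MvPowerSeries (Fin n) ℂ) {N : ℕ}
    {h : MvPowerSeries (Fin k) ℂ} (hh : LowZ N h) : LowZ N (φ h) := by
  induction N generalizing h with
  | zero => exact LowZ.zero _
  | succ N ih =>
    obtain ⟨g, hg, rfl⟩ := hh.decomp
    rw [map_sum]
    refine LowZ.sum _ fun i _ => ?_
    rw [map_mul, add_comm N 1]
    refine LowZ.mul (fun v hv => ?_) (ih (hg i))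
    have hv0 : v = 0 := by
      ext j
      have h1 : v j ≤ ∑ i, v i :=
        Finset.single_le_sum (f := fun i => v i) (fun _ _ => Nat.zero_le _) (Finset.mem_univ j)
      simp only [Finsupp.coe_zero, Pi.zero_apply]
      omega
    rw [hv0, MvPowerSeries.coeff_zero_eq_constantCoeff_apply, cc_hom,
      MvPowerSeries.constantCoeff_X]

/-- Algebra homomorphisms are determined by the images of the variables. -/
theorem hom_ext {φ ψ : MvPowerSeries (Fin k) ℂ →ₐ[ℂ] MvPowerSeries (Fin n) ℂ}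
    (h : ∀ i, φ (MvPowerSeries.X i) = ψ (MvPowerSeries.X i)) : φ = ψ := by
  have hpoly : ∀ p : MvPolynomial (Fin k) ℂ, φ (p : MvPowerSeries (Fin k) ℂ) =
      ψ (p : MvPowerSeries (Fin k) ℂ) := by
    intro p
    have e1 : φ.comp (MvPolynomial.coeToMvPowerSeries.algHom (R := ℂ) (σ := Fin k) ℂ) =
        ψ.comp (MvPolynomial.coeToMvPowerSeries.algHom (R := ℂ) (σ := Fin k) ℂ) := by
      apply MvPolynomial.algHom_ext
      intro i
      rw [AlgHom.comp_apply, AlgHom.comp_apply, MvPolynomial.coeToMvPowerSeries.algHom_apply]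
      simpa using h i
    have e2 := congrArg (fun f => f p) e1
    simpa [AlgHom.comp_apply, MvPolynomial.coeToMvPowerSeries.algHom_apply] using e2
  apply AlgHom.ext
  intro f
  ext v
  obtain ⟨p, hp⟩ := exists_poly_lowZ (∑ j, v j + 1) f
  have h1 := lowZ_hom φ hp v (by omega)
  have h2 := lowZ_hom ψ hp v (by omega)
  rw [map_sub, map_sub, hpoly p] at h1
  rw [map_sub, map_sub] at h2
  rw [sub_eq_zero] at h1 h2
  rw [h1, h2]

theorem exists_hom (a : Fin k → MvPowerSeries (Fin n) ℂ)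
    (ha : ∀ i, MvPowerSeries.constantCoeff (a i) = 0) :
    ∃ φ : MvPowerSeries (Fin k) ℂ →ₐ[ℂ] MvPowerSeries (Fin n) ℂ, ∀ i,
      φ (MvPowerSeries.X i) = a i :=
  ⟨MvPowerSeries.substAlgHom (MvPowerSeries.hasSubst_of_constantCoeff_zero ha), fun i => by
    rw [MvPowerSeries.substAlgHom_X]⟩

theorem pderiv_X (i j : Fin n) : MvPowerSeries.pderiv ℂ i (MvPowerSeries.X j :
    MvPowerSeries (Fin n) ℂ) = if i = j then 1 else 0 := by
  rw [← MvPolynomial.coe_X, MvPowerSeries.pderiv_coe]
  split_ifs with h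
  · rw [h, pderiv_X_self, MvPolynomial.coe_one]
  · rw [pderiv_X_of_ne (Ne.symm h), MvPolynomial.coe_zero]

/-- Chain rule. -/
theorem pderiv_hom (φ : MvPowerSeries (Fin k) ℂ →ₐ[ℂ] MvPowerSeries (Fin n) ℂ) (i : Fin n)
    (h : MvPowerSeries (Fin k) ℂ) :
    MvPowerSeries.pderiv ℂ i (φ h) =
      ∑ j, MvPowerSeries.pderiv ℂ i (φ (MvPowerSeries.X j)) * φ (MvPowerSeries.pderiv ℂ j h) := by
  have halg : ∀ (n : ℕ) (c : ℂ), algebraMap ℂ (MvPowerSeries (Fin n) ℂ) c = MvPowerSeries.C c :=
    fun _ _ => rfl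
  set δ : MvPowerSeries (Fin k) ℂ → MvPowerSeries (Fin n) ℂ := fun h =>
    MvPowerSeries.pderiv ℂ i (φ h) -
      ∑ j, MvPowerSeries.pderiv ℂ i (φ (MvPowerSeries.X j)) * φ (MvPowerSeries.pderiv ℂ j h)
    with hδ
  have hadd : ∀ a b, δ (a + b) = δ a + δ b := by
    intro a b
    simp only [hδ, map_add, mul_add, Finset.sum_add_distrib]
    ring
  have hmul : ∀ a b, δ (a * b) = δ a * φ b + φ a * δ b := by
    intro a b
    simp only [hδ, map_mul, Derivation.leibniz, smul_eq_mul, map_add, mul_add,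
      Finset.sum_add_distrib]
    rw [sub_mul, mul_sub, Finset.sum_mul, Finset.mul_sum]
    have e1 : ∑ j, MvPowerSeries.pderiv ℂ i (φ (MvPowerSeries.X j)) *
        (φ a * φ (MvPowerSeries.pderiv ℂ j b)) =
        ∑ j, φ a * (MvPowerSeries.pderiv ℂ i (φ (MvPowerSeries.X j)) *
          φ (MvPowerSeries.pderiv ℂ j b)) := Finset.sum_congr rfl fun j _ => by ring
    have e2 : ∑ j, MvPowerSeries.pderiv ℂ i (φ (MvPowerSeries.X j)) *
        (φ b * φ (MvPowerSeries.pderiv ℂ j a)) =
        ∑ j, MvPowerSeries.pderiv ℂ i (φ (MvPowerSeries.X j)) *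
          φ (MvPowerSeries.pderiv ℂ j a) * φ b := Finset.sum_congr rfl fun j _ => by ring
    rw [e1, e2]
    ring
  have hC : ∀ c : ℂ, δ (MvPowerSeries.C c) = 0 := by
    intro c
    simp only [hδ]
    rw [← halg, φ.commutes, halg]
    have h1 : ∀ (n : ℕ) (j : Fin n),
        MvPowerSeries.pderiv ℂ j (MvPowerSeries.C c : MvPowerSeries (Fin n) ℂ) = 0 := by
      intro n j
      rw [← halg]
      exact Derivation.map_algebraMap _ _
    simp only [halg, h1, map_zero, mul_zero, Finset.sum_const_zero, sub_zero]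
  have hX : ∀ k, δ (MvPowerSeries.X k) = 0 := by
    intro k
    simp only [hδ, pderiv_X]
    rw [Finset.sum_eq_single k]
    · rw [if_pos rfl, map_one, mul_one, sub_self]
    · intro j _ hj
      rw [if_neg hj, map_zero, mul_zero]
    · intro h
      exact absurd (Finset.mem_univ k) h
  have hpoly : ∀ p : MvPolynomial (Fin k) ℂ, δ (p : MvPowerSeries (Fin k) ℂ) = 0 := by
    intro p
    induction p using MvPolynomial.induction_on with
    | C a =>
      rw [MvPolynomial.coe_C]
      exact hC a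
    | add a b ha hb => rw [MvPolynomial.coe_add, hadd, ha, hb, add_zero]
    | mul_X a j ha =>
      rw [MvPolynomial.coe_mul, MvPolynomial.coe_X, hmul, ha, hX, zero_mul, mul_zero, add_zero]
  have hlow : ∀ (N : ℕ) (a : MvPowerSeries (Fin k) ℂ), LowZ (N + 1) a → LowZ N (δ a) := by
    intro N a ha
    refine LowZ.sub ((lowZ_hom φ ha).pderiv i) (LowZ.sum _ fun j _ => ?_)
    exact LowZ.mul_left _ (lowZ_hom φ (ha.pderiv j))
  rw [← sub_eq_zero]
  show δ h = 0
  ext v
  obtain ⟨p, hp⟩ := exists_poly_lowZ (∑ j, v j + 2) h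
  have h1 : δ h = δ (h - (p : MvPowerSeries (Fin k) ℂ)) := by
    have h2 := hadd (h - (p : MvPowerSeries (Fin k) ℂ)) (p : MvPowerSeries (Fin k) ℂ)
    rw [sub_add_cancel, hpoly p, add_zero] at h2
    exact h2
  rw [h1, hlow _ _ hp v (by omega), map_zero]

/-! ### One more variable -/

/-- The embedding of the variables. -/
def cs (m : ℕ) : Fin m ↪ Fin (m + 1) := ⟨Fin.castSucc, Fin.castSucc_injective m⟩

/-- Power series in one more variable. -/
def R (m : ℕ) : MvPowerSeries (Fin m) ℂ →ₐ[ℂ] MvPowerSeries (Fin (m + 1)) ℂ :=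
  MvPowerSeries.rename (cs m)

/-- The last variable is put to `0`. -/
def K (m : ℕ) : MvPowerSeries (Fin (m + 1)) ℂ →ₐ[ℂ] MvPowerSeries (Fin m) ℂ :=
  MvPowerSeries.killCompl (cs m)

theorem K_R (b : MvPowerSeries (Fin m) ℂ) : K m (R m b) = b :=
  MvPowerSeries.killCompl_rename_app b

theorem R_X (i : Fin m) : R m (MvPowerSeries.X i) = MvPowerSeries.X i.castSucc := by
  unfold R
  rw [MvPowerSeries.rename_X]
  rfl

theorem K_X (i : Fin m) : K m (MvPowerSeries.X i.castSucc) = MvPowerSeries.X i := by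
  rw [← R_X, K_R]

theorem K_last : K m (MvPowerSeries.X (Fin.last m)) = 0 := by
  unfold K
  refine MvPowerSeries.killCompl_X_eq_zero ?_
  rintro ⟨i, hi⟩
  exact (Fin.castSucc_lt_last i).ne hi

theorem dvd_of_K {G : MvPowerSeries (Fin (m + 1)) ℂ} (h : K m G = 0) :
    MvPowerSeries.X (Fin.last m) ∣ G := by
  rw [MvPowerSeries.X_dvd_iff]
  intro v hv
  have h1 : v ∈ Set.range (Finsupp.embDomain (cs m)) := by
    rw [Finsupp.mem_range_embDomain_iff]
    intro i hi
    rw [Finset.mem_coe, Finsupp.mem_support_iff] at hi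
    have hil : i ≠ Fin.last m := by
      rintro rfl
      exact hi hv
    obtain ⟨j, rfl⟩ := Fin.exists_castSucc_eq.2 hil
    exact ⟨j, rfl⟩
  obtain ⟨w, rfl⟩ := h1
  have h2 := congrArg (MvPowerSeries.coeff w) h
  unfold K at h2
  rw [MvPowerSeries.coeff_killCompl, map_zero] at h2
  exact h2

theorem pderiv_last_R (b : MvPowerSeries (Fin m) ℂ) :
    MvPowerSeries.pderiv ℂ (Fin.last m) (R m b) = 0 := by
  rw [pderiv_hom]
  refine Finset.sum_eq_zero fun j _ => ?_
  rw [R_X, pderiv_X, if_neg (Fin.castSucc_lt_last j).ne', zero_mul]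

theorem pderiv_R (j : Fin m) (b : MvPowerSeries (Fin m) ℂ) :
    MvPowerSeries.pderiv ℂ j.castSucc (R m b) = R m (MvPowerSeries.pderiv ℂ j b) := by
  rw [pderiv_hom, Finset.sum_eq_single j]
  · rw [R_X, pderiv_X, if_pos rfl, one_mul]
  · intro i _ hi
    rw [R_X, pderiv_X, if_neg, zero_mul]
    intro h
    exact hi (Fin.castSucc_injective m h).symm
  · intro h
    exact absurd (Finset.mem_univ j) h

theorem exists_equiv' {a : Fin n → MvPowerSeries (Fin n) ℂ}
    (ha : ∀ i, MvPowerSeries.constantCoeff (a i) = 0)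
    (hJ : ∀ v : Fin n → ℂ, (∀ i, ∑ j, MvPowerSeries.constantCoeff
      (MvPowerSeries.pderiv ℂ j (a i)) * v j = 0) → v = 0) :
    ∃ e : MvPowerSeries (Fin n) ℂ ≃ₐ[ℂ] MvPowerSeries (Fin n) ℂ,
      ∀ i, e (MvPowerSeries.X i) = a i := by
  obtain ⟨e, he⟩ := IFT.exists_equiv ha (Str.det_ne_zero_of_injective fun v hv => hJ v fun i => by
    have h := hv i
    simp only [Matrix.of_apply, coeff_single_ps] at h
    exact h)
  refine ⟨e, fun i => ?_⟩
  have h := he (X i)
  rwa [MvPolynomial.coe_X, aeval_X] at h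

theorem exists_aut_last {h : MvPowerSeries (Fin (m + 1)) ℂ}
    (h0 : MvPowerSeries.constantCoeff h = 0)
    (h1 : MvPowerSeries.constantCoeff (MvPowerSeries.pderiv ℂ (Fin.last m) h) ≠ 0) :
    ∃ e : MvPowerSeries (Fin (m + 1)) ℂ ≃ₐ[ℂ] MvPowerSeries (Fin (m + 1)) ℂ,
      e (MvPowerSeries.X (Fin.last m)) = h ∧
      ∀ i : Fin m, e (MvPowerSeries.X i.castSucc) = MvPowerSeries.X i.castSucc := by
  obtain ⟨e, he⟩ := exists_equiv' (a := Fin.lastCases h fun i => MvPowerSeries.X i.castSucc)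
    (by
      intro i
      induction i using Fin.lastCases with
      | last => rw [Fin.lastCases_last, h0]
      | cast i => rw [Fin.lastCases_castSucc, MvPowerSeries.constantCoeff_X])
    (by
      intro v hv
      have h2 : ∀ i : Fin m, v i.castSucc = 0 := by
        intro i
        have h3 := hv i.castSucc
        rw [Fin.lastCases_castSucc, Finset.sum_eq_single i.castSucc] at h3
        · rwa [pderiv_X, if_pos rfl, map_one, one_mul] at h3
        · intro j _ hj
          rw [pderiv_X, if_neg hj, map_zero, zero_mul]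
        · intro h
          exact absurd (Finset.mem_univ _) h
      have h3 := hv (Fin.last m)
      rw [Fin.lastCases_last, Finset.sum_eq_single (Fin.last m)] at h3
      · have h4 : v (Fin.last m) = 0 := (mul_eq_zero.1 h3).resolve_left h1
        funext i
        induction i using Fin.lastCases with
        | last => exact h4
        | cast i => exact h2 i
      · intro j _ hj
        obtain ⟨j', rfl⟩ := Fin.exists_castSucc_eq.2 hj
        rw [h2, mul_zero]
      · intro h
        exact absurd (Finset.mem_univ _) h)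
  refine ⟨e, ?_, fun i => ?_⟩
  · rw [he, Fin.lastCases_last]
  · rw [he, Fin.lastCases_castSucc]

theorem aut_R {e : MvPowerSeries (Fin (m + 1)) ℂ ≃ₐ[ℂ] MvPowerSeries (Fin (m + 1)) ℂ}
    (he : ∀ i : Fin m, e (MvPowerSeries.X i.castSucc) = MvPowerSeries.X i.castSucc)
    (b : MvPowerSeries (Fin m) ℂ) : e (R m b) = R m b := by
  have h : (e : MvPowerSeries (Fin (m + 1)) ℂ →ₐ[ℂ] MvPowerSeries (Fin (m + 1)) ℂ).comp (R m) =
      R m := by
    apply hom_ext
    intro i
    rw [AlgHom.comp_apply, R_X]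
    exact he i
  exact congrArg (fun f => f b) h

/-- Extension of an automorphism. -/
theorem exists_ext (e : MvPowerSeries (Fin m) ℂ ≃ₐ[ℂ] MvPowerSeries (Fin m) ℂ) :
    ∃ E : MvPowerSeries (Fin (m + 1)) ℂ ≃ₐ[ℂ] MvPowerSeries (Fin (m + 1)) ℂ,
      (∀ b, E (R m b) = R m (e b)) ∧
      E (MvPowerSeries.X (Fin.last m)) = MvPowerSeries.X (Fin.last m) := by
  have key : ∀ e : MvPowerSeries (Fin m) ℂ →ₐ[ℂ] MvPowerSeries (Fin m) ℂ,
      ∃ φ : MvPowerSeries (Fin (m + 1)) ℂ →ₐ[ℂ] MvPowerSeries (Fin (m + 1)) ℂ,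
      (∀ b, φ (R m b) = R m (e b)) ∧
      φ (MvPowerSeries.X (Fin.last m)) = MvPowerSeries.X (Fin.last m) := by
    intro e
    obtain ⟨φ, hφ⟩ := exists_hom (Fin.lastCases (MvPowerSeries.X (Fin.last m)) fun i =>
        R m (e (MvPowerSeries.X i)) : Fin (m + 1) → MvPowerSeries (Fin (m + 1)) ℂ) (by
      intro i
      induction i using Fin.lastCases with
      | last => rw [Fin.lastCases_last, MvPowerSeries.constantCoeff_X]
      | cast i => rw [Fin.lastCases_castSucc, cc_hom, cc_hom, MvPowerSeries.constantCoeff_X])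
    refine ⟨φ, fun b => ?_, ?_⟩
    · have h : φ.comp (R m) = (R m).comp e := by
        apply hom_ext
        intro i
        rw [AlgHom.comp_apply, AlgHom.comp_apply, R_X, hφ, Fin.lastCases_castSucc]
      exact congrArg (fun f => f b) h
    · rw [hφ, Fin.lastCases_last]
  obtain ⟨φ, h1, h2⟩ := key e
  obtain ⟨ψ, h3, h4⟩ := key e.symm
  have e1 : φ.comp ψ = AlgHom.id ℂ _ := by
    apply hom_ext
    intro i
    rw [AlgHom.comp_apply, AlgHom.id_apply]
    induction i using Fin.lastCases with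
    | last => rw [h4, h2]
    | cast i =>
      rw [← R_X, h3, h1]
      congr 1
      exact e.apply_symm_apply _
  have e2 : ψ.comp φ = AlgHom.id ℂ _ := by
    apply hom_ext
    intro i
    rw [AlgHom.comp_apply, AlgHom.id_apply]
    induction i using Fin.lastCases with
    | last => rw [h2, h4]
    | cast i =>
      rw [← R_X, h1, h3]
      congr 1
      exact e.symm_apply_apply _
  exact ⟨AlgEquiv.ofAlgHom φ ψ e1 e2, fun b => h1 b, h2⟩

/-! ### The Morse lemma in one variable with parameters -/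

/-- If `∂_y G (0) = 0` and `∂_y² G (0) ≠ 0`, then `G` is equivalent to `b(x) + y²`. -/
theorem morse {G : MvPowerSeries (Fin (m + 1)) ℂ}
    (h1 : MvPowerSeries.constantCoeff (MvPowerSeries.pderiv ℂ (Fin.last m) G) = 0)
    (h2 : MvPowerSeries.constantCoeff (MvPowerSeries.pderiv ℂ (Fin.last m)
      (MvPowerSeries.pderiv ℂ (Fin.last m) G)) ≠ 0) :
    ∃ (e : MvPowerSeries (Fin (m + 1)) ℂ ≃ₐ[ℂ] MvPowerSeries (Fin (m + 1)) ℂ)
      (b : MvPowerSeries (Fin m) ℂ), e G = R m b + MvPowerSeries.X (Fin.last m) ^ 2 := by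
  set dl := MvPowerSeries.pderiv ℂ (Fin.last m) with hD
  set y : MvPowerSeries (Fin (m + 1)) ℂ := MvPowerSeries.X (Fin.last m) with hy
  obtain ⟨A, hA1, hA2⟩ := exists_aut_last h1 h2
  set w := A.symm y with hw
  set c := K m w with hc
  have hcc : MvPowerSeries.constantCoeff (R m c) = 0 := by
    rw [cc_hom, hc, cc_hom, hw, constantCoeff_equiv, hy, MvPowerSeries.constantCoeff_X]
  have hDy : dl y = 1 := by
    rw [hD, hy, pderiv_X, if_pos rfl]
  obtain ⟨B, hB1, hB2⟩ := exists_aut_last (h := y + R m c)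
    (by rw [map_add, hcc, hy, MvPowerSeries.constantCoeff_X, add_zero])
    (by
      rw [← hD, map_add, hDy, hD, pderiv_last_R, add_zero, map_one]
      exact one_ne_zero)
  -- the derivative vanishes at `y = 0`
  have hDB : ∀ g, dl (B g) = B (dl g) := by
    intro g
    rw [hD, pderiv_equiv, Finset.sum_eq_single (Fin.last m)]
    · rw [hB1, ← hD, map_add, hDy, hD, pderiv_last_R, add_zero, one_mul]
    · intro j _ hj
      obtain ⟨j', rfl⟩ := Fin.exists_castSucc_eq.2 hj
      rw [hB2, pderiv_X, if_neg (Fin.castSucc_lt_last j').ne', zero_mul]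
    · intro h
      exact absurd (Finset.mem_univ _) h
  have hK : K m (dl (B G)) = 0 := by
    rw [hDB]
    have h3 : (K m).comp (B : MvPowerSeries (Fin (m + 1)) ℂ →ₐ[ℂ] MvPowerSeries (Fin (m + 1)) ℂ) =
        (K m).comp (A.symm : MvPowerSeries (Fin (m + 1)) ℂ →ₐ[ℂ]
          MvPowerSeries (Fin (m + 1)) ℂ) := by
      apply hom_ext
      intro i
      rw [AlgHom.comp_apply, AlgHom.comp_apply]
      induction i using Fin.lastCases with
      | last =>
        show K m (B y) = K m (A.symm y)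
        rw [hB1, map_add, hy, K_last, zero_add, K_R]
      | cast i =>
        show K m (B (MvPowerSeries.X i.castSucc)) = K m (A.symm (MvPowerSeries.X i.castSucc))
        have h4 : A.symm (MvPowerSeries.X i.castSucc) = MvPowerSeries.X i.castSucc := by
          rw [AlgEquiv.symm_apply_eq, hA2]
        rw [hB2, h4]
    have h4 : K m (B (dl G)) = K m (A.symm (dl G)) := congrArg (fun f => f (dl G)) h3
    rw [h4, ← hA1, AlgEquiv.symm_apply_apply, K_last]
  -- the form of `B G`
  obtain ⟨G1, hG1⟩ := dvd_of_K (G := B G - R m (K m (B G))) (by rw [map_sub, K_R, sub_self])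
  have hBG1 : B G = R m (K m (B G)) + y * G1 := by rw [← hG1]; ring
  have hK1 : K m G1 = 0 := by
    have h3 := hK
    rw [hBG1, map_add, hD, pderiv_last_R, zero_add, Derivation.leibniz, ← hD, hDy, smul_eq_mul,
      smul_eq_mul, mul_one, map_add, map_mul, hy, K_last, zero_mul, zero_add] at h3
    exact h3
  obtain ⟨G2, rfl⟩ := dvd_of_K hK1
  have hBG2 : B G = R m (K m (B G)) + y ^ 2 * G2 := by
    rw [pow_two, mul_assoc]
    exact hBG1
  have hG2 : MvPowerSeries.constantCoeff G2 ≠ 0 := by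
    intro h3
    apply h2
    rw [← constantCoeff_equiv B, ← hDB, ← hDB, hBG2, map_add, hD, pderiv_last_R, zero_add,
      Derivation.leibniz, Derivation.leibniz_pow, ← hD, hDy]
    simp only [smul_eq_mul, nsmul_eq_mul, map_add, Derivation.leibniz, map_mul, map_pow]
    have h4 : MvPowerSeries.constantCoeff y = 0 := by
      rw [hy, MvPowerSeries.constantCoeff_X]
    simp [h4, h3, hDy]
  -- the square root
  set β := MvPowerSeries.constantCoeff G2 with hβ
  obtain ⟨σ, hσ⟩ := IsAlgClosed.exists_pow_nat_eq β (n := 2) (by norm_num)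
  obtain ⟨H, hH1, hH2⟩ := ARL.exists_root (R := ℂ) (N := 2) (by norm_num)
    (U := MvPowerSeries.C β⁻¹ * G2) (by
      rw [map_mul, MvPowerSeries.constantCoeff_C, ← hβ, inv_mul_cancel₀ hG2])
  have hσ0 : σ ≠ 0 := by
    rintro rfl
    apply hG2
    rw [← hσ, zero_pow two_ne_zero]
  have hS : (MvPowerSeries.C σ * H) ^ 2 = G2 := by
    rw [mul_pow, hH2, ← mul_assoc, ← map_pow, ← map_mul, hσ, mul_inv_cancel₀ hG2,
      map_one, one_mul]
  obtain ⟨C, hC1, hC2⟩ := exists_aut_last (h := y * (MvPowerSeries.C σ * H))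
    (by rw [map_mul, hy, MvPowerSeries.constantCoeff_X, zero_mul])
    (by
      rw [Derivation.leibniz, ← hD, hDy, smul_eq_mul, smul_eq_mul, mul_one, map_add, map_mul, hy,
        MvPowerSeries.constantCoeff_X, zero_mul, zero_add, map_mul, MvPowerSeries.constantCoeff_C,
        hH1, mul_one]
      exact hσ0)
  refine ⟨B.trans C.symm, K m (B G), ?_⟩
  rw [AlgEquiv.trans_apply, AlgEquiv.symm_apply_eq, map_add, map_pow, aut_R hC2, hC1, mul_pow, hS]
  exact hBG2

end Spl

end MPb07157
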