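import Pool.Agent.Lib.MP_b07157_agU.J1

/-!
# Coordinate changes and the arcs near a root
-/

noncomputable section

namespace MPb07157

open MvPolynomial

namespace SU

open PC

variable {r : ℕ}

namespace L1aux

/-- The coordinate change `x_i ↦ x_i`, `x_j ↦ x_j + φ(x_i)`. -/
theorem muJ_shear (F : P2) (e : Fin r → ℕ) {M m : ℕ} (hm : m < M + 1) {i j : Fin 2} (hij : i ≠ j)
    {φ : PowerSeries ℂ} (hφ : PowerSeries.constantCoeff φ = 0) {θ : Fin 2 → P2}
    (hi : θ i = MvPowerSeries.X i)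
    (hj : θ j = MvPowerSeries.X j + PowerSeries.subst (MvPowerSeries.X i : P2) φ)
    {Y : Set (Fin 2 × Fin (M + 1) → ℂ)} (hY : IsConstr Y)
    (hY1 : ∀ γ γ' : Fin 2 × Fin (M + 1) → ℂ, (∀ k, γ (i, k) = γ' (i, k)) → (γ ∈ Y ↔ γ' ∈ Y))
    {B : Set (Fin r × Fin (M + 1) → ℂ)} (hB : IsConstr B) :
    muJ (MvPowerSeries.subst θ F) e (M + 1) m (Start 2 1 (M + 1) ∩ Y) B =
      muJ F e (M + 1) m (Start 2 1 (M + 1) ∩ Y) B := by
  have hcase : ∀ l : Fin 2, l = i ∨ l = j := by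
    intro l
    omega
  set q : Fin 2 → MvPolynomial (Fin 2) ℂ := fun l => if l = i then X i else X j + trP i φ (M + 1)
    with hq
  set q' : Fin 2 → MvPolynomial (Fin 2) ℂ := fun l => if l = i then X i else X j - trP i φ (M + 1)
    with hq'
  have hqi : q i = X i := by simp [hq]
  have hqj : q j = X j + trP i φ (M + 1) := by simp [hq, hij.symm]
  have hqi' : q' i = X i := by simp [hq']
  have hqj' : q' j = X j - trP i φ (M + 1) := by simp [hq', hij.symm]
  have hθ0 : ∀ l, MvPowerSeries.constantCoeff (θ l) = 0 := by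
    intro l
    rcases hcase l with rfl | rfl
    · rw [hi, MvPowerSeries.constantCoeff_X]
    · rw [hj, map_add, MvPowerSeries.constantCoeff_X, constantCoeff_psubst_X i hφ, add_zero]
  have h1 : ∀ l, bind₁ q (q' l) = X l := by
    intro l
    rcases hcase l with rfl | rfl
    · rw [hqi', bind₁_X_right, hqi]
    · rw [hqj', map_sub, bind₁_X_right, hqj, bind_trP hqi, add_sub_cancel_right]
  have h2 : ∀ l, bind₁ q' (q l) = X l := by
    intro l
    rcases hcase l with rfl | rfl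
    · rw [hqi, bind₁_X_right, hqi']
    · rw [hqj, map_add, bind₁_X_right, hqj', bind_trP hqi', sub_add_cancel]
  have h0 : ∀ l, coeff 0 (q l) = 0 := by
    intro l
    rcases hcase l with rfl | rfl
    · rw [hqi, ← constantCoeff_eq, constantCoeff_X]
    · rw [hqj, coeff_add, coeff_zero_trP i hφ, ← constantCoeff_eq, constantCoeff_X, add_zero]
  have h0' : ∀ l, coeff 0 (q' l) = 0 := by
    intro l
    rcases hcase l with rfl | rfl
    · rw [hqi', ← constantCoeff_eq, constantCoeff_X]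
    · rw [hqj', coeff_sub, coeff_zero_trP i hφ, ← constantCoeff_eq, constantCoeff_X, sub_zero]
  have hstart : ∀ {p : Fin 2 → MvPolynomial (Fin 2) ℂ}, (∀ l, coeff 0 (p l) = 0) →
      ∀ {γ : Fin 2 × Fin (M + 1) → ℂ}, γ ∈ Start 2 1 (M + 1) →
      polyMap (jetPoly p (M + 1)) γ ∈ Start 2 1 (M + 1) := by
    intro p hp γ hγ
    rw [mem_Start_one] at hγ ⊢
    intro l
    rw [polyMap_jetPoly]
    have h3 : PowerSeries.coeff ((0 : Fin (M + 1)) : ℕ) (aeval (arc γ) (p l) : PowerSeries ℂ) =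
        coeff 0 (p l) := by
      rw [← constantCoeff_aeval (constantCoeff_arc hγ),
        ← PowerSeries.coeff_zero_eq_constantCoeff_apply]
      rfl
    rw [h3, hp]
  have hinv : ∀ {p p' : Fin 2 → MvPolynomial (Fin 2) ℂ}, (∀ l, bind₁ p (p' l) = X l) →
      ∀ γ : Fin 2 × Fin (M + 1) → ℂ,
      polyMap (jetPoly p' (M + 1)) (polyMap (jetPoly p (M + 1)) γ) = γ := by
    intro p p' hp γ
    funext c
    rw [polyMap_jetPoly]
    have h3 := aeval_congr_X_pow (M + 1) (p' c.1) (arc (polyMap (jetPoly p (M + 1)) γ))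
      (fun j => (aeval (arc γ) (p j) : PowerSeries ℂ)) (arc_jetPoly p γ)
    rw [PowerSeries.X_pow_dvd_iff] at h3
    have h4 := h3 c.2 c.2.2
    rw [map_sub, sub_eq_zero] at h4
    rw [h4]
    have h5 : (aeval (fun j => (aeval (arc γ) (p j) : PowerSeries ℂ)) (p' c.1) : PowerSeries ℂ) =
        aeval (arc γ) (bind₁ p (p' c.1)) := by
      rw [aeval_bind₁]
    rw [h5, hp, aeval_X, coeff_arc, dif_pos c.2.2]
  have hYq : ∀ γ : Fin 2 × Fin (M + 1) → ℂ, polyMap (jetPoly q (M + 1)) γ ∈ Y ↔ γ ∈ Y := by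
    intro γ
    refine hY1 _ _ fun k => ?_
    rw [polyMap_jetPoly, hqi, aeval_X, coeff_arc, dif_pos k.2]
  have hYq' : ∀ γ : Fin 2 × Fin (M + 1) → ℂ, polyMap (jetPoly q' (M + 1)) γ ∈ Y ↔ γ ∈ Y := by
    intro γ
    refine hY1 _ _ fun k => ?_
    rw [polyMap_jetPoly, hqi', aeval_X, coeff_arc, dif_pos k.2]
  refine muJ_lift (N' := 0) e hm ((isConstr_Start 2 1 (M + 1)).inter hY)
    ((isConstr_Start 2 1 (M + 1)).inter hY) Set.inter_subset_left Set.inter_subset_left
    (jetPoly q (M + 1)) ⟨?_, ?_, ?_⟩ (fun γ hγ => ?_) hB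
  · rintro γ ⟨h3, h4⟩
    exact ⟨hstart h0 h3, (hYq γ).2 h4⟩
  · rintro γ - γ' - heq
    rw [← hinv h1 γ, heq, hinv h1 γ']
  · rintro γ ⟨h3, h4⟩
    exact ⟨polyMap (jetPoly q' (M + 1)) γ, ⟨hstart h0' h3, (hYq' γ).2 h4⟩, hinv h2 γ⟩
  · have hγ0 := mem_Start_one.1 hγ.1
    have hγ' := constantCoeff_arc hγ0
    have h3 := mem_Start_one.1 (hstart h0 hγ.1)
    have h4 := MvPowerSeries.subst_comp_subst_apply (R := ℂ)
      (MvPowerSeries.hasSubst_of_constantCoeff_zero hθ0) (hasSubst_ps hγ') F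
    unfold valF
    rw [h4]
    refine subst_congr_X_pow F (M + 1) (fun l => ?_) (fun l => ?_) (fun l => ?_)
    · exact MvPowerSeries.constantCoeff_subst_eq_zero (hasSubst_ps hγ') hγ' (hθ0 l)
    · exact constantCoeff_arc h3 l
    · have h5 : (PowerSeries.X : PowerSeries ℂ) ^ (M + 1) ∣
          (MvPowerSeries.subst (arc γ : Fin 2 → MvPowerSeries Unit ℂ) (θ l) : PowerSeries ℂ) -
            aeval (arc γ) (q l) := by
        rcases hcase l with rfl | rfl
        · rw [hi, hqi, MvPowerSeries.subst_X (hasSubst_ps hγ'), aeval_X, sub_self]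
          exact dvd_zero _
        · rw [hj, hqj, MvPowerSeries.subst_add (hasSubst_ps hγ'),
            MvPowerSeries.subst_X (hasSubst_ps hγ'), map_add, aeval_X, add_sub_add_left_eq_sub]
          exact subst_arc_psubst i φ (M + 1) hγ'
      have h6 := arc_jetPoly q γ l
      have h7 := dvd_sub h5 h6
      rwa [sub_sub_sub_cancel_right] at h7

/-- The start arcs according to the order of `x`. -/
theorem Start_eq_biUnion (N : ℕ) (hN : 0 < N) :
    Start 2 1 N = ⋃ k ∈ Finset.Icc 1 N, Start 2 1 N ∩ Xo N k := by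
  obtain ⟨M, rfl⟩ : ∃ M, N = M + 1 := ⟨N - 1, by omega⟩
  ext γ
  simp only [Set.mem_iUnion, exists_prop, Set.mem_inter_iff]
  constructor
  · intro hγ
    classical
    by_cases h : ∃ k : Fin (M + 1), γ (0, k) ≠ 0
    · have h2 : ∃ k : ℕ, ∃ hk : k < M + 1, γ (0, ⟨k, hk⟩) ≠ 0 := by
        obtain ⟨k, hk⟩ := h
        exact ⟨k, k.2, hk⟩
      obtain ⟨h3, h4⟩ := Nat.find_spec h2
      refine ⟨Nat.find h2, ?_, hγ, ?_, ?_⟩
      · rw [Finset.mem_Icc]
        refine ⟨?_, h3.le⟩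
        rw [Nat.one_le_iff_ne_zero]
        intro h5
        apply h4
        have h6 := mem_Start_one.1 hγ 0
        have h7 : (⟨Nat.find h2, h3⟩ : Fin (M + 1)) = 0 := by
          ext
          exact h5
        rw [h7]
        exact h6
      · intro k hk
        have h5 := Nat.find_min h2 hk
        push Not at h5
        exact h5 k.2
      · intro _
        exact h4
    · push Not at h
      refine ⟨M + 1, ?_, hγ, fun k _ => h k, fun h2 => absurd h2 (lt_irrefl _)⟩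
      rw [Finset.mem_Icc]
      omega
  · rintro ⟨i, -, h, -⟩
    exact h

theorem sum_muJ (F : P2) (e : Fin r → ℕ) {N m : ℕ} (hm : m < N)
    {B : Set (Fin r × Fin N → ℂ)} (hB : IsConstr B) :
    ∑ k ∈ Finset.Icc 1 N, muJ F e N m (Start 2 1 N ∩ Xo N k) B =
      muJ F e N m (Start 2 1 N) B := by
  have h1 := muJ_biUnion_left (Finset.Icc 1 N) F e hm (S := fun k => Start 2 1 N ∩ Xo N k)
    (fun k _ => (isConstr_Start 2 1 N).inter (isConstr_Xo N k))
    (fun k _ => Set.inter_subset_left) (fun i hi j hj hij => ?_) hB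
  · rw [← h1]
    exact congrArg (fun S => muJ F e N m S B) (Start_eq_biUnion N (by omega)).symm
  · rw [Finset.mem_Icc] at hi hj
    rw [Set.disjoint_left]
    rintro γ ⟨-, h4⟩ ⟨-, h6⟩
    exact hij (A2h.Xo_eq hi.2 hj.2 h4 h6)

end L1aux

open L1aux

theorem ZR_shY (F : P2) (e : Fin r → ℕ) (a A K : ℕ) {φ : PowerSeries ℂ}
    (hφ : PowerSeries.constantCoeff φ = 0) :
    ZR (MvPowerSeries.subst (shY φ) F) e a A K = ZR F e a A K := by
  ext m
  unfold ZR
  rw [PowerSeries.coeff_mk, PowerSeries.coeff_mk]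
  rcases Nat.eq_zero_or_pos K with hK | hK
  · subst hK
    simp
  refine Finset.sum_congr rfl fun k _ => ?_
  have hm : m < K * (m + 1) := by
    calc m < 1 * (m + 1) := by omega
      _ ≤ K * (m + 1) := Nat.mul_le_mul_right _ hK
  obtain ⟨M, hM⟩ : ∃ M, K * (m + 1) = M + 1 := ⟨K * (m + 1) - 1, by omega⟩
  rw [hM] at hm ⊢
  rw [muJ_shear F e hm (i := 0) (j := 1) (by decide) hφ (θ := shY φ) rfl rfl
    (isConstr_Xo (M + 1) k) (fun γ γ' h => mem_Xo_congr h) (isConstr_Rg e _ _)]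

theorem ZR_shX (F : P2) (e : Fin r → ℕ) {K : ℕ} (hK : 1 ≤ K) {ψ : PowerSeries ℂ}
    (hψ : PowerSeries.constantCoeff ψ = 0) :
    ZR (MvPowerSeries.subst (shX ψ) F) e 1 0 K = ZR F e 1 0 K := by
  ext m
  unfold ZR
  rw [PowerSeries.coeff_mk, PowerSeries.coeff_mk]
  have hm : m < K * (m + 1) := by
    calc m < 1 * (m + 1) := by omega
      _ ≤ K * (m + 1) := Nat.mul_le_mul_right _ hK
  have h0 : ∀ G : P2, ∑ k ∈ Finset.Icc 1 (K * (m + 1)), P1aux.Lp ((1 - 1) * k) *
      muJ G e (K * (m + 1)) m (Start 2 1 (K * (m + 1)) ∩ Xo (K * (m + 1)) k)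
        (Rg e (K * (m + 1)) (0 * k)) =
      muJ G e (K * (m + 1)) m (Start 2 1 (K * (m + 1))) (Rg e (K * (m + 1)) 0) := by
    intro G
    rw [← sum_muJ G e hm (isConstr_Rg e _ 0)]
    refine Finset.sum_congr rfl fun k _ => ?_
    rw [Nat.sub_self, Nat.zero_mul]
    have h1 : P1aux.Lp 0 = 1 := by simp [P1aux.Lp]
    rw [h1, one_mul]
  rw [h0, h0]
  obtain ⟨M, hM⟩ : ∃ M, K * (m + 1) = M + 1 := ⟨K * (m + 1) - 1, by omega⟩
  rw [hM] at hm ⊢
  have h1 := muJ_shear F e hm (i := 1) (j := 0) (by decide) hψ (θ := shX ψ) rfl rfl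
    (Y := Set.univ) IsConstr.univ (fun γ γ' _ => by simp) (isConstr_Rg e (M + 1) 0)
  rw [Set.inter_univ] at h1
  exact h1

end SU

end MPb07157
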