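import Pool.Agent.Lib.MP_b07157_agU.Defs
import Pool.Agent.Lib.MP_b07157_agI.NodeP
import Pool.Agent.Lib.MP_b07157_agI.IsoB
import Pool.Agent.Lib.MP_b07157_agS.SMain

/-!
# Suspensions of nodes
-/

noncomputable section

namespace MPb07157

open MvPolynomial

namespace SU

open PC

variable {r : ℕ}

namespace NdH

/-- An automorphism of `ℂ[[x]]` extends to `ℂ[[x, z]]`. -/
theorem exists_ext {k : ℕ} (r : ℕ) (e : MvPowerSeries (Fin k) ℂ ≃ₐ[ℂ] MvPowerSeries (Fin k) ℂ) :
    ∃ E : MvPowerSeries (Fin (k + r)) ℂ ≃ₐ[ℂ] MvPowerSeries (Fin (k + r)) ℂ,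
      (∀ p : MvPolynomial (Fin k) ℂ,
        E ((rename (Fin.castAdd r) p : MvPolynomial (Fin (k + r)) ℂ) :
          MvPowerSeries (Fin (k + r)) ℂ) =
        MvPowerSeries.rename (Fin.castAddEmb r : Fin k ↪ Fin (k + r))
          (e (p : MvPowerSeries (Fin k) ℂ))) ∧
      ∀ i, E (MvPowerSeries.X (Fin.natAdd k i)) = MvPowerSeries.X (Fin.natAdd k i) := by
  classical
  let c' : Fin k ↪ Fin (k + r) := Fin.castAddEmb r
  let R : MvPowerSeries (Fin k) ℂ →ₐ[ℂ] MvPowerSeries (Fin (k + r)) ℂ := MvPowerSeries.rename c'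
  let A : Fin (k + r) → MvPowerSeries (Fin (k + r)) ℂ :=
    Fin.append (fun l => R (e (MvPowerSeries.X l))) fun i => MvPowerSeries.X (Fin.natAdd k i)
  have hAc : ∀ l, A (Fin.castAdd r l) = R (e (MvPowerSeries.X l)) := fun l =>
    Fin.append_left _ _ l
  have hAn : ∀ i, A (Fin.natAdd k i) = MvPowerSeries.X (Fin.natAdd k i) := fun i =>
    Fin.append_right _ _ i
  have hcn : ∀ (l : Fin k) (i : Fin r), Fin.castAdd r l ≠ Fin.natAdd k i := by
    intro l i h
    have := congrArg Fin.val h
    simp only [Fin.val_castAdd, Fin.val_natAdd] at this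
    have := l.2
    omega
  have hA0 : ∀ i, MvPowerSeries.constantCoeff (A i) = 0 := by
    intro i
    refine Fin.addCases (fun l => ?_) (fun i => ?_) i
    · rw [hAc]
      show MvPowerSeries.constantCoeff (MvPowerSeries.rename c' (e (MvPowerSeries.X l))) = 0
      rw [MvPowerSeries.constantCoeff_rename, constantCoeff_equiv, MvPowerSeries.constantCoeff_X]
    · rw [hAn i, MvPowerSeries.constantCoeff_X]
  have hA1 : (Matrix.of fun i j => MvPowerSeries.coeff (Finsupp.single j 1) (A i)).det ≠ 0 := by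
    refine Str.det_ne_zero_of_injective fun v hv => ?_
    have h1 : ∀ i, v (Fin.natAdd k i) = 0 := by
      intro i
      have h2 := hv (Fin.natAdd k i)
      simp only [Matrix.of_apply, hAn i, MvPowerSeries.coeff_X] at h2
      rw [Finset.sum_eq_single (Fin.natAdd k i)] at h2
      · rwa [if_pos rfl, one_mul] at h2
      · intro j _ hj
        rw [if_neg, zero_mul]
        intro h
        exact hj (Finsupp.single_left_injective one_ne_zero h)
      · intro h
        exact absurd (Finset.mem_univ _) h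
    have h2 : (fun l => v (Fin.castAdd r l)) = 0 := by
      by_contra hne
      have hdet := jac_det_ne_zero e
      apply hdet
      apply (Matrix.exists_mulVec_eq_zero_iff).1
      refine ⟨fun l => v (Fin.castAdd r l), hne, ?_⟩
      funext i
      have h3 := hv (Fin.castAdd r i)
      simp only [Matrix.of_apply, hAc] at h3
      rw [Pi.zero_apply, ← h3]
      show ∑ l, MvPowerSeries.coeff (Finsupp.single l 1) (e (MvPowerSeries.X i)) *
          v (Fin.castAdd r l) =
        ∑ j, MvPowerSeries.coeff (Finsupp.single j 1)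
          (MvPowerSeries.rename c' (e (MvPowerSeries.X i))) * v j
      simp only [coeff_single_rename]
      simp only [Finset.sum_mul]
      rw [Finset.sum_comm]
      refine Finset.sum_congr rfl fun l _ => ?_
      rw [Finset.sum_eq_single (Fin.castAdd r l)]
      · have hcl : c' l = Fin.castAdd r l := rfl
        rw [if_pos hcl]
      · intro j _ hj
        have hcl : ¬ c' l = j := fun h => hj h.symm
        rw [if_neg hcl, zero_mul]
      · intro h
        exact absurd (Finset.mem_univ _) h
    funext i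
    refine Fin.addCases (fun l => ?_) (fun i => ?_) i
    · exact congrFun h2 l
    · exact h1 i
  obtain ⟨E, hE⟩ := IFT.exists_equiv hA0 hA1
  refine ⟨E, fun p => ?_, fun i => ?_⟩
  · rw [hE, aeval_rename]
    have e1 : (A ∘ Fin.castAdd r) = fun l => R (e (MvPowerSeries.X l)) := funext hAc
    rw [e1]
    have e2 : (aeval fun l => R (e (MvPowerSeries.X l))) =
        (R.comp (e : MvPowerSeries (Fin k) ℂ →ₐ[ℂ] MvPowerSeries (Fin k) ℂ)).comp
          (MvPolynomial.coeToMvPowerSeries.algHom (R := ℂ) (σ := Fin k) ℂ) := by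
      apply MvPolynomial.algHom_ext
      intro l
      rw [aeval_X, AlgHom.comp_apply, AlgHom.comp_apply,
        MvPolynomial.coeToMvPowerSeries.algHom_apply]
      simp
    rw [e2, AlgHom.comp_apply, AlgHom.comp_apply, MvPolynomial.coeToMvPowerSeries.algHom_apply]
    simp
    rfl
  · have h := hE (X (Fin.natAdd k i))
    rw [MvPolynomial.coe_X, aeval_X, hAn] at h
    exact h

/-- A node is `x y` in suitable coordinates. -/
theorem exists_equiv_node {g : MvPolynomial (Fin 2) ℂ} (hnode : IsNode (g : P2)) :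
    ∃ e : P2 ≃ₐ[ℂ] P2, e ((X 0 * X 1 : MvPolynomial (Fin 2) ℂ) : P2) = (g : P2) := by
  classical
  obtain ⟨θ, h0, hJ, W, hW, hg⟩ := hnode
  obtain ⟨e₁, he₁⟩ := IFT.exists_equiv h0 (by
    rw [Matrix.det_fin_two, Matrix.of_apply, Matrix.of_apply, Matrix.of_apply, Matrix.of_apply,
      coeff_single_ps, coeff_single_ps, coeff_single_ps, coeff_single_ps]
    intro h
    apply hJ
    unfold jac
    rw [map_sub, map_mul, map_mul]
    exact h)
  obtain ⟨e₂, he₂⟩ := IFT.exists_equiv (a := ![(MvPowerSeries.X 0 : P2), MvPowerSeries.X 1 * W])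
    (by
      intro i
      fin_cases i
      · exact MvPowerSeries.constantCoeff_X 0
      · show MvPowerSeries.constantCoeff (MvPowerSeries.X 1 * W : P2) = 0
        rw [map_mul, MvPowerSeries.constantCoeff_X, zero_mul]) (by
    rw [Matrix.det_fin_two]
    simp only [Matrix.of_apply, Matrix.cons_val_zero, Matrix.cons_val_one]
    have c1 : MvPowerSeries.coeff (Finsupp.single 0 1) (MvPowerSeries.X 0 : P2) = 1 :=
      MvPowerSeries.coeff_index_single_self_X 0
    have c2 : MvPowerSeries.coeff (Finsupp.single 1 1) (MvPowerSeries.X 0 : P2) = 0 := by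
      rw [MvPowerSeries.coeff_X, if_neg]
      intro h
      have := Finsupp.single_left_injective one_ne_zero h
      exact absurd this (by decide)
    have c3 : MvPowerSeries.coeff (Finsupp.single 1 1) (MvPowerSeries.X 1 * W : P2) =
        MvPowerSeries.constantCoeff W := by
      rw [coeff_single_ps, Derivation.leibniz, MvPowerSeries.pderiv_X_self, smul_eq_mul,
        smul_eq_mul, map_add, map_mul, map_mul, MvPowerSeries.constantCoeff_X]
      simp
    rw [c1, c2, c3, one_mul, zero_mul, sub_zero]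
    exact hW)
  refine ⟨e₂.trans e₁.symm, ?_⟩
  rw [AlgEquiv.trans_apply, he₂, map_mul, aeval_X, aeval_X]
  rw [AlgEquiv.symm_apply_eq, he₁, ← MvPowerSeries.subst_coe, hg]
  show MvPowerSeries.X 0 * (MvPowerSeries.X 1 * W) = _
  rw [mul_assoc]

/-- A polynomial is non-degenerate if each exponent in its support has a variable of its own. -/
theorem isNondeg_of_own {n : ℕ} {f : MvPolynomial (Fin n) ℂ} (hf : f ≠ 0)
    (h : ∀ v ∈ f.support, ∃ j, v j ≠ 0 ∧ ∀ u ∈ f.support, u j ≠ 0 → u = v) (w : Fin n → ℕ) :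
    IsNondeg (initialPart f w) := by
  intro u hu _
  unfold initialPart
  obtain ⟨v, hv, hmin⟩ := Finset.exists_min_image f.support (fun v => ∑ j, w j * v j)
    (MvPolynomial.support_nonempty.2 hf)
  obtain ⟨j, hj, hj2⟩ := h v hv
  refine ⟨j, ?_⟩
  rw [map_sum, map_sum, Finset.sum_eq_single v]
  · rw [pderiv_monomial, eval_monomial, Finsupp.prod_fintype _ _ fun _ => pow_zero _]
    refine mul_ne_zero (mul_ne_zero (mem_support_iff.1 hv) (Nat.cast_ne_zero.2 hj)) ?_
    exact Finset.prod_ne_zero_iff.2 fun i _ => pow_ne_zero _ (hu i)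
  · intro v' hv' hne
    have h1 : v' j = 0 := by
      by_contra hne'
      exact hne (hj2 v' (Finset.mem_filter.1 hv').1 hne')
    rw [pderiv_monomial, h1, Nat.cast_zero, mul_zero, monomial_zero, map_zero]
  · intro h
    exact absurd (Finset.mem_filter.2 ⟨hv, hmin⟩) h

theorem castAdd_ne_natAdd {k r : ℕ} (l : Fin k) (i : Fin r) : Fin.castAdd r l ≠ Fin.natAdd k i := by
  intro h
  have := congrArg Fin.val h
  simp only [Fin.val_castAdd, Fin.val_natAdd] at this
  have := l.2
  omega

theorem support_susp_xy {e : Fin r → ℕ} {v : Fin (2 + r) →₀ ℕ}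
    (hv : v ∈ (susp (X 0 * X 1) e).support) :
    v = Finsupp.single (Fin.castAdd r 0) 1 + Finsupp.single (Fin.castAdd r 1) 1 ∨
      ∃ i, v = Finsupp.single (Fin.natAdd 2 i) (e i) := by
  classical
  unfold susp at hv
  rcases Finset.mem_union.1 (MvPolynomial.support_add hv) with h | h
  · left
    rw [map_mul, rename_X, rename_X, X, X, monomial_mul, one_mul] at h
    exact Finset.mem_singleton.1 (support_monomial_subset h)
  · right
    obtain ⟨i, -, hi⟩ := Finset.mem_biUnion.1 (MvPolynomial.support_sum h)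
    refine ⟨i, ?_⟩
    rw [X_pow_eq_monomial] at hi
    exact Finset.mem_singleton.1 (support_monomial_subset hi)

theorem eval_susp_xy {e : Fin r → ℕ} (he : ∀ i, 0 < e i) :
    eval (Fin.append (fun _ : Fin 2 => (1 : ℂ)) fun _ => 0) (susp (X 0 * X 1) e) = 1 := by
  unfold susp
  rw [map_add, map_sum, eval_rename, map_mul, eval_X, eval_X, Finset.sum_eq_zero]
  · simp
  · intro i _
    rw [map_pow, eval_X, Fin.append_right, zero_pow (he i).ne']

theorem susp_xy_ne_zero {e : Fin r → ℕ} (he : ∀ i, 0 < e i) : susp (X 0 * X 1) e ≠ 0 := by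
  intro h
  have := eval_susp_xy he
  rw [h, map_zero] at this
  exact zero_ne_one this

theorem coeff_zero_susp_xy {e : Fin r → ℕ} (he : ∀ i, 0 < e i) :
    coeff 0 (susp (X 0 * X 1) e) = 0 := by
  rw [← constantCoeff_eq, susp, map_add, map_sum, constantCoeff_rename, map_mul, constantCoeff_X,
    zero_mul, zero_add]
  refine Finset.sum_eq_zero fun i _ => ?_
  rw [map_pow, constantCoeff_X, zero_pow (he i).ne']

theorem smcLoc_susp_xy {e : Fin r → ℕ} (he : ∀ i, 0 < e i) : SmcLoc (susp (X 0 * X 1) e) := by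
  classical
  refine fun s₀ _ hp b hb => eval_eq_zero_of_form (susp_xy_ne_zero he) (coeff_zero_susp_xy he)
    (fun w _ => isNondeg_of_own (susp_xy_ne_zero he) ?_ w) s₀ hp b hb
  intro v hv
  rcases support_susp_xy hv with rfl | ⟨i, rfl⟩
  · refine ⟨Fin.castAdd r 0, ?_, ?_⟩
    · rw [Finsupp.add_apply, Finsupp.single_eq_same]
      omega
    · intro u hu hne
      rcases support_susp_xy hu with h | ⟨i, h⟩
      · exact h
      · exfalso
        apply hne
        rw [h, Finsupp.single_apply, if_neg (castAdd_ne_natAdd 0 i).symm]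
  · refine ⟨Fin.natAdd 2 i, ?_, ?_⟩
    · rw [Finsupp.single_eq_same]
      exact (he i).ne'
    · intro u hu hne
      rcases support_susp_xy hu with h | ⟨i', h⟩
      · exfalso
        apply hne
        rw [h, Finsupp.add_apply, Finsupp.single_apply, Finsupp.single_apply,
          if_neg (castAdd_ne_natAdd 0 i), if_neg (castAdd_ne_natAdd 1 i), add_zero]
      · have h2 : i' = i := by
          by_contra hne'
          apply hne
          rw [h, Finsupp.single_apply, if_neg]
          intro h3
          exact hne' (Fin.natAdd_injective _ _ h3)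
        rw [h, h2]

end NdH

open NdH

/-- If `g` is a node in suitable coordinates, then `g + ∑ z_i^{e_i}` is formally equivalent to the
non-degenerate polynomial `x y + ∑ z_i^{e_i}`. -/
theorem smcLoc_node {g : MvPolynomial (Fin 2) ℂ} (hg : g ≠ 0) (h0 : coeff 0 g = 0)
    (hnode : IsNode (g : P2)) {e : Fin r → ℕ} (he : ∀ i, 2 ≤ e i) : SmcLoc (susp g e) := by
  have he' : ∀ i, 0 < e i := fun i => by have := he i; omega
  obtain ⟨e₂, he₂⟩ := exists_equiv_node hnode
  obtain ⟨E, hE1, hE2⟩ := exists_ext r e₂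
  refine SmcLoc.of_formEquivPow (m := 1) one_pos (g := susp (X 0 * X 1) e) ⟨E, 1, ?_⟩
    (smcLoc_susp_xy he')
  have hX : ∀ i, ((X (Fin.natAdd 2 i) ^ e i : MvPolynomial (Fin (2 + r)) ℂ) :
      MvPowerSeries (Fin (2 + r)) ℂ) = MvPowerSeries.X (Fin.natAdd 2 i) ^ e i := by
    intro i
    rw [MvPolynomial.coe_pow, MvPolynomial.coe_X]
  have hs : ∀ p : MvPolynomial (Fin 2) ℂ, ((susp p e : MvPolynomial (Fin (2 + r)) ℂ) :
      MvPowerSeries (Fin (2 + r)) ℂ) = ((rename (Fin.castAdd r) p : MvPolynomial (Fin (2 + r)) ℂ) :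
      MvPowerSeries (Fin (2 + r)) ℂ) + ∑ i, MvPowerSeries.X (Fin.natAdd 2 i) ^ e i := by
    intro p
    unfold susp
    rw [MvPolynomial.coe_add, ← MvPolynomial.coeToMvPowerSeries.ringHom_apply (∑ i, _), map_sum]
    congr 1
    refine Finset.sum_congr rfl fun i _ => ?_
    rw [MvPolynomial.coeToMvPowerSeries.ringHom_apply, hX]
  rw [pow_one, Units.val_one, one_mul, hs, hs, map_add, map_sum, hE1, he₂]
  congr 1
  · exact (MvPowerSeries.rename_coe (f := (Fin.castAddEmb r : Fin 2 ↪ Fin (2 + r))) g).symm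
  · refine Finset.sum_congr rfl fun i _ => ?_
    rw [map_pow, hE2]

end SU

end MPb07157
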