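import Pool.Agent.Lib.MP_b07157_agU.J3

/-!
# The strata on which the initial form is a monomial
-/

noncomputable section

namespace MPb07157

open MvPolynomial

namespace SU

open PC

variable {r : ℕ}

namespace C1h

open B2h

/-- The value of a polynomial at the leading coefficients, as a polynomial. -/
def leadP (N : ℕ) (w : Fin 2 → ℕ) (P : MvPolynomial (Fin 2) ℂ) :
    MvPolynomial (Fin 2 × Fin N) ℂ :=
  aeval (fun j => if h : w j < N then (X (j, ⟨w j, h⟩) : MvPolynomial (Fin 2 × Fin N) ℂ) else 0) P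

theorem eval_leadP {N : ℕ} (w : Fin 2 → ℕ) (P : MvPolynomial (Fin 2) ℂ)
    (γ : Fin 2 × Fin N → ℂ) : eval γ (leadP N w P) = eval (lead0 w γ) P := by
  unfold leadP
  have h : ((eval γ).comp (aeval (fun j => if h : w j < N then
      (X (j, ⟨w j, h⟩) : MvPolynomial (Fin 2 × Fin N) ℂ) else 0) : MvPolynomial (Fin 2) ℂ →ₐ[ℂ]
        MvPolynomial (Fin 2 × Fin N) ℂ).toRingHom) = eval (lead0 w γ) := by
    apply MvPolynomial.ringHom_ext
    · intro z
      simp
    · intro j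
      simp only [AlgHom.toRingHom_eq_coe, RingHom.coe_comp, RingHom.coe_coe, Function.comp_apply,
        aeval_X, eval_X, lead0]
      split_ifs with h
      · rw [eval_X]
      · rw [map_zero]
  exact RingHom.congr_fun h P

/-- The value of `F` on a stratum. -/
theorem valF_strat {F : P2} {N n : ℕ} {w : Fin 2 → ℕ} (hw : ∀ j, 1 ≤ w j)
    {P : MvPolynomial (Fin 2) ℂ} (hI : IsInit F w n P) {γ : Fin 2 × Fin N → ℂ}
    (hγ : γ ∈ Strat N w) : (∀ k < n, PowerSeries.coeff k (valF F γ) = 0) ∧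
      PowerSeries.coeff n (valF F γ) = eval (lead0 w γ) P ∧
      (PowerSeries.X : PowerSeries ℂ) ^ n ∣ valF F γ := by
  obtain ⟨G, h1, h2⟩ := exists_subst_strat hw hI hγ
  have h3 : valF F γ = PowerSeries.X ^ n * G := h1
  refine ⟨fun k hk => ?_, ?_, ?_⟩
  · rw [h3, PowerSeries.coeff_X_pow_mul', if_neg (by omega)]
  · rw [h3, PowerSeries.coeff_X_pow_mul', if_pos le_rfl, Nat.sub_self,
      PowerSeries.coeff_zero_eq_constantCoeff_apply, h2]
  · rw [h3]; exact dvd_mul_right _ _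

theorem valF_zero_dvd {N : ℕ} {w : Fin 2 → ℕ} (hw : ∀ j, 1 ≤ w j) {γ : Fin 2 × Fin N → ℂ}
    (hγ : γ ∈ Strat N w) (n : ℕ) : (PowerSeries.X : PowerSeries ℂ) ^ n ∣ valF (0 : P2) γ :=
  le_order_subst (r := n) hw (fun _ _ => by simp) (X_pow_dvd_arc_of_mem_Strat hγ)

theorem strat_subset_start {N : ℕ} {w : Fin 2 → ℕ} (hw : ∀ j, 1 ≤ w j) :
    Strat N w ⊆ Start 2 1 N := fun _ hγ => mem_Start_of_mem_Strat hw hγ

/-- Below the order of `F` the measure does not depend on `F`. -/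
theorem muJ_Ug_eq {F G : P2} {e : Fin r → ℕ} (he : ∀ i, 0 < e i) {N m : ℕ} (hm : m < N)
    {S : Set (Fin 2 × Fin N → ℂ)} (hS : IsConstr S) (hS1 : S ⊆ Start 2 1 N) {n n' : ℕ}
    (hn1 : 1 ≤ n') (hn : n' < n)
    (hF : ∀ γ ∈ S, (PowerSeries.X : PowerSeries ℂ) ^ n ∣ valF F γ)
    (hG : ∀ γ ∈ S, (PowerSeries.X : PowerSeries ℂ) ^ n ∣ valF G γ) :
    muJ F e N m S (Ug e N n') = muJ G e N m S (Ug e N n') := by
  have hα : ∀ {H : P2}, (∀ γ ∈ S, (PowerSeries.X : PowerSeries ℂ) ^ n ∣ valF H γ) → ∀ γ ∈ S,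
      (∀ k < n', PowerSeries.coeff k (valF H γ) = 0) ∧
      (n' < N → PowerSeries.coeff n' (valF H γ) = eval γ (0 : MvPolynomial (Fin 2 × Fin N) ℂ)) := by
    intro H hH γ hγ
    have h1 := PowerSeries.X_pow_dvd_iff.1 (hH γ hγ)
    exact ⟨fun k hk => h1 k (by omega), fun _ => by rw [h1 n' hn, map_zero]⟩
  rw [muJ_Ug he hn1 hm hS hS1 0 (hα hF), muJ_Ug he hn1 hm hS hS1 0 (hα hG)]

/-- The polynomial with the values `hl`. -/
def hlP (e : Fin r → ℕ) (N n : ℕ) : MvPolynomial (JI r N) ℂ :=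
  ∑ i, if h : e i ∣ n ∧ n / e i < N then X (Sum.inr (i, ⟨n / e i, h.2⟩)) ^ e i else 0

theorem eval_hlP (e : Fin r → ℕ) (N n : ℕ) (x : JI r N → ℂ) :
    eval x (hlP e N n) = hl e N n (zP x) := by
  unfold hlP hl zP
  rw [map_sum]
  refine Finset.sum_congr rfl fun i _ => ?_
  split_ifs with h
  · rw [map_pow, eval_X]
  · rw [map_zero]

theorem eval_xyP {N : ℕ} (P : MvPolynomial (Fin 2 × Fin N) ℂ) (x : JI r N → ℂ) :
    eval x (rename Sum.inl P) = eval (xyP x) P := by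
  rw [eval_rename]
  rfl

/-- The sets of jets with given leading coefficients. -/
def LS (e : Fin r → ℕ) (N n : ℕ) (w : Fin 2 → ℕ) (P : MvPolynomial (Fin 2) ℂ) (Q : ℂ → Prop) :
    Set (JI r N → ℂ) :=
  {x | xyP x ∈ Strat N w ∧ zP x ∈ Ug e N n ∧ Q (eval (lead0 w (xyP x)) P + hl e N n (zP x))}

theorem isConstr_LS_eq (e : Fin r → ℕ) (N n : ℕ) (w : Fin 2 → ℕ) (P : MvPolynomial (Fin 2) ℂ) :
    IsConstr (LS e N n w P fun z => z = 0) := by
  refine isConstr_setOf_and (isConstr_xyP (isConstr_Strat N w))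
    (isConstr_setOf_and (isConstr_zP (isConstr_Ug e N n)) ?_)
  have h := isConstr_eq_zero (rename Sum.inl (leadP N w P) + hlP e N n : MvPolynomial (JI r N) ℂ)
  simpa only [map_add, eval_xyP, eval_leadP, eval_hlP] using h

theorem isConstr_LS_ne (e : Fin r → ℕ) (N n : ℕ) (w : Fin 2 → ℕ) (P : MvPolynomial (Fin 2) ℂ) :
    IsConstr (LS e N n w P fun z => z ≠ 0) := by
  refine isConstr_setOf_and (isConstr_xyP (isConstr_Strat N w))
    (isConstr_setOf_and (isConstr_zP (isConstr_Ug e N n)) ?_)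
  have h := isConstr_ne_zero (rename Sum.inl (leadP N w P) + hlP e N n : MvPolynomial (JI r N) ℂ)
  simpa only [map_add, eval_xyP, eval_leadP, eval_hlP] using h

/-- Scaling of the coordinates of `x` and `y`. -/
def scP (r N : ℕ) (sc : Fin 2 → ℂ) : JI r N → MvPolynomial (JI r N) ℂ
  | Sum.inl p => C (sc p.1) * X (Sum.inl p)
  | Sum.inr p => X (Sum.inr p)

theorem xyP_scP {N : ℕ} (sc : Fin 2 → ℂ) (x : JI r N → ℂ) :
    xyP (polyMap (scP r N sc) x) = fun p => sc p.1 * xyP x p := by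
  funext p
  simp [xyP, polyMap, scP]

theorem zP_scP {N : ℕ} (sc : Fin 2 → ℂ) (x : JI r N → ℂ) :
    zP (polyMap (scP r N sc) x) = zP x := by
  funext p
  simp [zP, polyMap, scP]

theorem lead0_sc {N : ℕ} (w : Fin 2 → ℕ) (sc : Fin 2 → ℂ) (γ : Fin 2 × Fin N → ℂ) :
    lead0 w (fun p => sc p.1 * γ p) = fun j => sc j * lead0 w γ j := by
  funext j
  unfold lead0
  split_ifs <;> simp

theorem strat_sc {N : ℕ} {w : Fin 2 → ℕ} {sc : Fin 2 → ℂ} (hsc : ∀ j, sc j ≠ 0)
    {γ : Fin 2 × Fin N → ℂ} (hγ : γ ∈ Strat N w) : (fun p => sc p.1 * γ p) ∈ Strat N w := by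
  refine ⟨fun j k hk => ?_, fun j hj => ?_⟩
  · change sc j * γ (j, k) = 0
    rw [hγ.1 j k hk, mul_zero]
  · rw [lead0_sc]
    exact mul_ne_zero (hsc j) (hγ.2 j hj)

theorem scP_scP {N : ℕ} {sc : Fin 2 → ℂ} (hsc : ∀ j, sc j ≠ 0) (x : JI r N → ℂ) :
    polyMap (scP r N sc) (polyMap (scP r N fun j => (sc j)⁻¹) x) = x := by
  funext p
  rcases p with p | p
  · have := hsc p.1
    simp [polyMap, scP, this]
  · simp [polyMap, scP]

theorem bijOn_LS (e : Fin r → ℕ) (N n : ℕ) (w : Fin 2 → ℕ) {P P' : MvPolynomial (Fin 2) ℂ}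
    (Q : ℂ → Prop) {sc : Fin 2 → ℂ} (hsc : ∀ j, sc j ≠ 0)
    (hP : ∀ ξ : Fin 2 → ℂ, eval (fun j => sc j * ξ j) P' = eval ξ P) :
    Set.BijOn (polyMap (scP r N sc)) (LS e N n w P Q) (LS e N n w P' Q) := by
  have hsc' : ∀ j, (sc j)⁻¹ ≠ 0 := fun j => inv_ne_zero (hsc j)
  have hP' : ∀ ξ : Fin 2 → ℂ, eval (fun j => (sc j)⁻¹ * ξ j) P = eval ξ P' := by
    intro ξ
    rw [← hP]
    congr 2
    funext j
    have := hsc j
    field_simp
  have key : ∀ {P P' : MvPolynomial (Fin 2) ℂ} {sc : Fin 2 → ℂ}, (∀ j, sc j ≠ 0) →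
      (∀ ξ : Fin 2 → ℂ, eval (fun j => sc j * ξ j) P' = eval ξ P) → ∀ x ∈ LS e N n w P Q,
      polyMap (scP r N sc) x ∈ LS e N n w P' Q := by
    rintro P P' sc hsc hP x ⟨h1, h2, h3⟩
    refine ⟨?_, ?_, ?_⟩
    · rw [xyP_scP]; exact strat_sc hsc h1
    · rw [zP_scP]; exact h2
    · rw [zP_scP, xyP_scP, lead0_sc, hP]; exact h3
  refine ⟨key hsc hP, ?_, ?_⟩
  · intro x _ y _ hxy
    have h1 := scP_scP hsc' x
    have h2 := scP_scP hsc' y
    simp only [inv_inv] at h1 h2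
    rw [← h1, ← h2, hxy]
  · intro x hx
    exact ⟨_, key hsc' hP' x hx, scP_scP hsc x⟩

end C1h

open C1h B2h

theorem cone_eq {F G : P2} {e : Fin r → ℕ} (he : ∀ i, 0 < e i) {N m : ℕ} (hm : m < N)
    {w : Fin 2 → ℕ} (hw : ∀ j, 1 ≤ w j) (hwN : ∀ j, w j ≤ N) {n : ℕ} {v : Fin 2 →₀ ℕ} {l l' : ℂ}
    (hF : IsInit F w n (monomial v l)) (hG : IsInit G w n (monomial v l')) {n₀ : ℕ}
    (hn₀ : n₀ < n) :
    muJ F e N m (Strat N w) (Rg e N n₀) = muJ G e N m (Strat N w) (Rg e N n₀) := by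
  have hS : IsConstr (Strat N w) := isConstr_Strat N w
  have hS1 : Strat N w ⊆ Start 2 1 N := strat_subset_start hw
  have hFd : ∀ γ ∈ Strat N w, (PowerSeries.X : PowerSeries ℂ) ^ n ∣ valF F γ :=
    fun γ hγ => (valF_strat hw hF hγ).2.2
  have hGd : ∀ γ ∈ Strat N w, (PowerSeries.X : PowerSeries ℂ) ^ n ∣ valF G γ :=
    fun γ hγ => (valF_strat hw hG hγ).2.2
  rcases lt_or_ge m n with hmn | hnm
  · exact far_eq he hm hS hS1 (fun γ hγ => (pow_dvd_pow _ hmn).trans (hFd γ hγ))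
      (fun γ hγ => (pow_dvd_pow _ hmn).trans (hGd γ hγ)) n₀
  have hnN : n < N := lt_of_le_of_lt hnm hm
  have hl : l ≠ 0 := by
    rintro rfl
    exact hF.1 (map_zero _)
  have hl' : l' ≠ 0 := by
    rintro rfl
    exact hG.1 (map_zero _)
  have hv : wt w v = n := hF.2.1 v (by
    rw [mem_support_iff, coeff_monomial, if_pos rfl]
    exact hl)
  -- the order of the values
  have hord : ∀ {H : P2} {c : ℂ}, c ≠ 0 → IsInit H w n (monomial v c) →
      ∀ γ ∈ Strat N w, (valF H γ).order = n := by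
    intro H c hc hH γ hγ
    obtain ⟨G', h1, h2⟩ := exists_subst_strat hw hH hγ
    have h0 : ∀ j, w j = N → v j = 0 := by
      intro j hj
      by_contra hne
      have := wt_le_of_ne (a := w) hne
      omega
    have h3 : PowerSeries.constantCoeff G' ≠ 0 := by
      rw [h2, eval_monomial]
      refine mul_ne_zero hc (Finset.prod_ne_zero_iff.2 fun j hj => ?_)
      refine pow_ne_zero _ (hγ.2 j (lt_of_le_of_ne (hwN j) fun hj2 => ?_))
      exact (Finsupp.mem_support_iff.1 hj) (h0 j hj2)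
    have h4 : valF H γ = PowerSeries.X ^ n * G' := h1
    rw [h4, order_X_pow_mul h3]
  -- the scaling
  obtain ⟨i₀, hi₀⟩ : ∃ i₀, v i₀ ≠ 0 := by
    by_contra hcon
    push Not at hcon
    have : v = 0 := Finsupp.ext hcon
    rw [this] at hv
    simp [wt] at hv
    omega
  obtain ⟨s, hs⟩ : ∃ s : ℂ, s ^ (v i₀) = l / l' :=
    IsAlgClosed.exists_pow_nat_eq _ (Nat.pos_of_ne_zero hi₀)
  have hs0 : s ≠ 0 := by
    rintro rfl
    rw [zero_pow hi₀] at hs
    exact (div_ne_zero hl hl') hs.symm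
  set sc : Fin 2 → ℂ := fun j => if j = i₀ then s else 1 with hsc
  have hsc0 : ∀ j, sc j ≠ 0 := by
    intro j
    rw [hsc]
    dsimp only
    split_ifs
    · exact hs0
    · exact one_ne_zero
  have hP : ∀ ξ : Fin 2 → ℂ, eval (fun j => sc j * ξ j) (monomial v l') =
      eval ξ (monomial v l) := by
    intro ξ
    rw [eval_monomial, eval_monomial, Finsupp.prod_fintype _ _ (fun i => pow_zero _),
      Finsupp.prod_fintype _ _ (fun i => pow_zero _)]
    simp only [mul_pow, Finset.prod_mul_distrib]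
    have h1 : ∏ j, sc j ^ v j = l / l' := by
      rw [← hs, Finset.prod_eq_single i₀]
      · rw [hsc]; simp
      · intro j _ hj
        rw [hsc]
        simp [hj]
      · intro h
        exact absurd (Finset.mem_univ _) h
    rw [h1]
    field_simp
  rw [muJ_Rg_split F hm hS hS1 hn₀.le, muJ_Rg_split G hm hS hS1 hn₀.le]
  have hIoc : Finset.Ioc n₀ n = insert n (Finset.Ioo n₀ n) := by
    ext k
    simp only [Finset.mem_Ioc, Finset.mem_insert, Finset.mem_Ioo]
    omega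
  congr 1
  · rw [hIoc, Finset.sum_insert (by simp), Finset.sum_insert (by simp)]
    congr 1
    · have hα : ∀ {H : P2} {c : ℂ}, IsInit H w n (monomial v c) → ∀ γ ∈ Strat N w,
          (∀ k < n, PowerSeries.coeff k (valF H γ) = 0) ∧
          (n < N → PowerSeries.coeff n (valF H γ) = eval γ (leadP N w (monomial v c))) := by
        intro H c hH γ hγ
        have h := valF_strat hw hH hγ
        exact ⟨h.1, fun _ => by rw [h.2.1, eval_leadP]⟩
      rw [muJ_Ug he (by omega) hm hS hS1 _ (hα hF), muJ_Ug he (by omega) hm hS hS1 _ (hα hG)]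
      simp only [eval_leadP]
      have e1 : mJ N (LS e N n w (monomial v l) fun z => z ≠ 0) =
          mJ N (LS e N n w (monomial v l') fun z => z ≠ 0) := by
        unfold mJ clsM
        rw [cls_bijOn (isConstr_LS_ne e N n w _) (isConstr_LS_ne e N n w _) _
          (bijOn_LS e N n w (fun z => z ≠ 0) hsc0 hP)]
      have e2 : mJ N (LS e N n w (monomial v l) fun z => z = 0) =
          mJ N (LS e N n w (monomial v l') fun z => z = 0) := by
        unfold mJ clsM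
        rw [cls_bijOn (isConstr_LS_eq e N n w _) (isConstr_LS_eq e N n w _) _
          (bijOn_LS e N n w (fun z => z = 0) hsc0 hP)]
      unfold LS at e1 e2
      rw [e1, e2]
    · refine Finset.sum_congr rfl fun n' hn' => ?_
      rw [Finset.mem_Ioo] at hn'
      exact muJ_Ug_eq he hm hS hS1 (by omega) hn'.2 hFd hGd
  · rw [muJ_Rg_top he hnN hS (hord hl hF), muJ_Rg_top he hnN hS (hord hl' hG)]

end SU

end MPb07157
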