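import Pool.Agent.Lib.MP_b07157_agU.Defs

/-!
# Geometric series
-/

noncomputable section

namespace MPb07157

open MvPolynomial

namespace SU

open PC

variable {r : ℕ}

/-- A power series whose coefficients satisfy `c_{m + b} = L^{-a} c_m` for `m ≥ 1`. -/
theorem mem_of_rec {W : PowerSeries Mot} {s₀ : ℚ} {a b : ℕ} (hb : 0 < b)
    (hW : ∀ m, 0 < m → PowerSeries.coeff (m + b) W = P1aux.Lp a * PowerSeries.coeff m W)
    (h0 : PowerSeries.coeff 0 W = 0)
    (h : (a : ℚ) ≠ -s₀ * b) : W ∈ regularAt s₀ := by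
  have hbQ : (b : ℚ) ≠ 0 := by exact_mod_cast hb.ne'
  obtain ⟨G, hG⟩ : ∃ G : PowerSeries Mot,
      G * (1 - PowerSeries.C ((LU ^ (-(a : ℤ)) : Motˣ) : Mot) * PowerSeries.X ^ b) = 1 := by
    have h : IsUnit (1 - PowerSeries.C ((LU ^ (-(a : ℤ)) : Motˣ) : Mot) * PowerSeries.X ^ b :
        PowerSeries Mot) := by
      rw [PowerSeries.isUnit_iff_constantCoeff]
      simp [hb.ne']
    obtain ⟨v, hv⟩ := h
    exact ⟨↑v⁻¹, by rw [← hv, Units.inv_mul]⟩
  have h1 : G ∈ regularAt s₀ :=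
    Algebra.subset_adjoin (Or.inr ⟨a, b, hb, fun h2 => h (by
      rw [div_eq_iff hbQ] at h2
      exact_mod_cast h2), hG⟩)
  have h2 : W * (1 - PowerSeries.C ((LU ^ (-(a : ℤ)) : Motˣ) : Mot) * PowerSeries.X ^ b) =
      ∑ m ∈ Finset.range (b + 1), PowerSeries.C (PowerSeries.coeff m W) * PowerSeries.X ^ m := by
    ext m
    have e1 : W * (1 - PowerSeries.C ((LU ^ (-(a : ℤ)) : Motˣ) : Mot) * PowerSeries.X ^ b) =
        W - PowerSeries.C ((LU ^ (-(a : ℤ)) : Motˣ) : Mot) * (W * PowerSeries.X ^ b) := by ring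
    rw [e1, map_sub, PowerSeries.coeff_C_mul, PowerSeries.coeff_mul_X_pow', map_sum]
    have e2 : ∀ j ∈ Finset.range (b + 1), PowerSeries.coeff m
        (PowerSeries.C (PowerSeries.coeff j W) * PowerSeries.X ^ j) =
        if m = j then PowerSeries.coeff m W else 0 := by
      intro j _
      rw [PowerSeries.coeff_C_mul, PowerSeries.coeff_X_pow]
      by_cases hj : m = j
      · rw [if_pos hj, if_pos hj, mul_one, hj]
      · rw [if_neg hj, if_neg hj, mul_zero]
    rw [Finset.sum_congr rfl e2, Finset.sum_ite_eq]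
    rcases lt_trichotomy m b with hm | rfl | hm
    · rw [if_neg (by omega), if_pos (Finset.mem_range.2 (by omega)), mul_zero, sub_zero]
    · rw [if_pos le_rfl, if_pos (Finset.mem_range.2 (by omega)), Nat.sub_self, h0, mul_zero,
        sub_zero]
    · rw [if_pos hm.le, if_neg (by rw [Finset.mem_range]; omega), sub_eq_zero]
      have e3 := hW (m - b) (by omega)
      rw [Nat.sub_add_cancel hm.le] at e3
      exact e3
  have h3 : W = (∑ m ∈ Finset.range (b + 1),
      PowerSeries.C (PowerSeries.coeff m W) * PowerSeries.X ^ m) * G := by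
    rw [← h2, mul_assoc, mul_comm _ G, hG, mul_one]
  rw [h3]
  exact mul_mem (sum_mem fun m _ => mul_mem (C_mem_regularAt s₀ _)
    (pow_mem (X_mem_regularAt s₀) m)) h1

theorem coeff_ser (e : Fin r → ℕ) (f : Finset (Fin r) → Mot) {ν N : ℕ} (hN : 0 < N) (m : ℕ) :
    PowerSeries.coeff m (ser e f ν N) = if N ∣ m ∧ 0 < m then
      f (En e m) * P1aux.Lp (ν * (m / N) + sg e m) else 0 := by
  rw [ser, PowerSeries.coeff_mk]
  split_ifs with h
  · obtain ⟨⟨k, rfl⟩, h2⟩ := h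
    have hk : 0 < k := Nat.pos_of_ne_zero (by rintro rfl; simp at h2)
    rw [Finset.sum_eq_single_of_mem k (Finset.mem_Icc.2 ⟨hk, Nat.le_mul_of_pos_left _ hN⟩)]
    · rw [if_pos rfl, Nat.mul_div_cancel_left k hN]
    · intro j _ hj
      rw [if_neg]
      intro h3
      exact hj (Nat.eq_of_mul_eq_mul_left hN h3)
  · refine Finset.sum_eq_zero fun k hk => ?_
    rw [if_neg]
    rintro rfl
    exact h ⟨dvd_mul_right N k, Nat.mul_pos hN (Finset.mem_Icc.1 hk).1⟩

theorem sg_add {e : Fin r → ℕ} (he : ∀ i, 0 < e i) {n : ℕ} (hn : ∀ i, e i ∣ n) (m : ℕ) :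
    sg e (m + n) = sg e m + sg e n := by
  unfold sg
  rw [← Finset.sum_add_distrib]
  refine Finset.sum_congr rfl fun i _ => ?_
  obtain ⟨k, hk⟩ := hn i
  rw [hk, Nat.add_mul_div_left _ _ (he i), Nat.mul_div_cancel_left _ (he i)]

theorem En_add {e : Fin r → ℕ} {n : ℕ} (hn : ∀ i, e i ∣ n) (m : ℕ) : En e (m + n) = En e m := by
  unfold En
  ext i
  simp only [Finset.mem_filter, Finset.mem_univ, true_and]
  exact (Nat.dvd_add_left (hn i))

theorem sg_cast {e : Fin r → ℕ} (he : ∀ i, 0 < e i) {n : ℕ} (hn' : ∀ i, e i ∣ n) :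
    (sg e n : ℚ) = hn e * n := by
  unfold sg hn
  rw [Nat.cast_sum, Finset.sum_mul]
  refine Finset.sum_congr rfl fun i _ => ?_
  have h1 : (e i : ℚ) ≠ 0 := by exact_mod_cast (he i).ne'
  rw [Nat.cast_div (hn' i) h1]
  ring

theorem ser_mem {e : Fin r → ℕ} (he : ∀ i, 0 < e i) (f : Finset (Fin r) → Mot) {ν N : ℕ}
    (hN : 0 < N) {s₀ : ℚ} (h : (ν : ℚ) ≠ -(s₀ + hn e) * N) : ser e f ν N ∈ regularAt s₀ := by
  have hD : 0 < ∏ i, e i := Finset.prod_pos fun i _ => he i
  have hd : ∀ i, e i ∣ N * ∏ i, e i := fun i =>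
    (Finset.dvd_prod_of_mem e (Finset.mem_univ i)).mul_left N
  have hN' : (N : ℚ) ≠ 0 := by exact_mod_cast hN.ne'
  have hD' : ((∏ i, e i : ℕ) : ℚ) ≠ 0 := by exact_mod_cast hD.ne'
  refine mem_of_rec (a := ν * ∏ i, e i + sg e (N * ∏ i, e i)) (b := N * ∏ i, e i)
    (Nat.mul_pos hN hD) ?_ ?_ ?_
  · intro m hm
    rw [coeff_ser e f hN, coeff_ser e f hN]
    by_cases h1 : N ∣ m
    · rw [if_pos ⟨Nat.dvd_add h1 (dvd_mul_right N _), by omega⟩, if_pos ⟨h1, hm⟩, En_add hd,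
        sg_add he hd, Nat.add_mul_div_left _ _ hN]
      have e1 : ν * (m / N + ∏ i, e i) + (sg e m + sg e (N * ∏ i, e i)) =
          (ν * ∏ i, e i + sg e (N * ∏ i, e i)) + (ν * (m / N) + sg e m) := by ring
      rw [e1, P1aux.Lp_add (ν * ∏ i, e i + sg e (N * ∏ i, e i))]
      ring
    · rw [if_neg, if_neg (fun h => h1 h.1), mul_zero]
      intro h2
      exact h1 ((Nat.dvd_add_left (dvd_mul_right N _)).1 h2.1)
  · rw [coeff_ser e f hN, if_neg (fun h => absurd h.2 (lt_irrefl 0))]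
  · intro h2
    apply h
    rw [Nat.cast_add, sg_cast he hd] at h2
    push_cast at h2 hD'
    have h3 : ((ν : ℚ) + (s₀ + hn e) * N) * ∏ i, (e i : ℚ) = 0 := by linear_combination h2
    rcases mul_eq_zero.1 h3 with h4 | h4
    · linear_combination h4
    · exact absurd h4 hD'

theorem ser2_eq (e : Fin r → ℕ) (f : Finset (Fin r) → Mot) (ν : ℕ) {N : ℕ} (hN : 0 < N) :
    ser2 e f ν N = ser e f ν N * geo 1 1 := by
  ext m
  rw [PowerSeries.coeff_mul, ser2, PowerSeries.coeff_mk]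
  have e1 : ∀ j : ℕ, PowerSeries.coeff j (geo 1 1) = if 0 < j then P1aux.Lp j else 0 := by
    intro j
    rw [geo_eq_geoK 1 one_pos]
    unfold geoK
    rw [PowerSeries.coeff_mk]
    by_cases hj : 0 < j
    · rw [if_pos ⟨one_dvd j, hj⟩, if_pos hj, Nat.div_one, ← Units.val_pow_eq_pow_val,
        ← zpow_natCast, ← zpow_mul]
      unfold P1aux.Lp
      congr 2
      push_cast
      ring
    · rw [if_neg hj, if_neg fun h => hj h.2]
  have e2 : ∀ i : ℕ, i ≤ m → PowerSeries.coeff i (ser e f ν N) = ∑ k ∈ Finset.Icc 1 m,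
      if N * k = i then f (En e (N * k)) * P1aux.Lp (ν * k + sg e (N * k)) else 0 := by
    intro i hi
    rw [ser, PowerSeries.coeff_mk]
    refine Finset.sum_subset (Finset.Icc_subset_Icc le_rfl hi) fun k hk hk' => ?_
    rw [if_neg]
    rintro rfl
    exact hk' (Finset.mem_Icc.2 ⟨(Finset.mem_Icc.1 hk).1, Nat.le_mul_of_pos_left _ hN⟩)
  have e3 : ∀ p ∈ Finset.HasAntidiagonal.antidiagonal m, PowerSeries.coeff p.1 (ser e f ν N) *
      PowerSeries.coeff p.2 (geo 1 1) = ∑ k ∈ Finset.Icc 1 m,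
        if N * k = p.1 ∧ 0 < p.2 then
          f (En e (N * k)) * P1aux.Lp (ν * k + sg e (N * k) + p.2) else 0 := by
    intro p hp
    have hp' := Finset.HasAntidiagonal.mem_antidiagonal.1 hp
    rw [e1, e2 p.1 (by omega), Finset.sum_mul]
    refine Finset.sum_congr rfl fun k _ => ?_
    by_cases h1 : N * k = p.1
    · by_cases h2 : 0 < p.2
      · rw [if_pos h1, if_pos h2, if_pos ⟨h1, h2⟩, P1aux.Lp_add (ν * k + sg e (N * k)), mul_assoc]
      · rw [if_neg h2, mul_zero, if_neg fun h => h2 h.2]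
    · rw [if_neg h1, zero_mul, if_neg fun h => h1 h.1]
  rw [Finset.sum_congr rfl e3, Finset.sum_comm]
  refine Finset.sum_congr rfl fun k _ => ?_
  split_ifs with h
  · rw [Finset.sum_eq_single_of_mem (N * k, m - N * k)
      (Finset.HasAntidiagonal.mem_antidiagonal.2 (by omega))]
    · rw [if_pos ⟨rfl, by show 0 < m - N * k; omega⟩]
    · rintro ⟨i, j⟩ hp hne
      rw [if_neg]
      rintro ⟨h1, h2⟩
      have hp' := Finset.HasAntidiagonal.mem_antidiagonal.1 hp
      apply hne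
      simp only at h1 h2 hp'
      rw [h1]
      congr 1
      omega
  · symm
    refine Finset.sum_eq_zero fun p hp => ?_
    rw [if_neg]
    rintro ⟨h1, h2⟩
    have hp' := Finset.HasAntidiagonal.mem_antidiagonal.1 hp
    omega

theorem ser2_mem {e : Fin r → ℕ} (he : ∀ i, 0 < e i) (f : Finset (Fin r) → Mot) {ν N : ℕ}
    (hN : 0 < N) {s₀ : ℚ} (h : (ν : ℚ) ≠ -(s₀ + hn e) * N) (h1 : s₀ ≠ -1) :
    ser2 e f ν N ∈ regularAt s₀ := by
  rw [ser2_eq e f ν hN]
  refine mul_mem (ser_mem he f hN h) (geo_mem one_pos ?_)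
  intro h2
  apply h1
  push_cast at h2
  linarith

end SU

end MPb07157
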