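import Pool.Agent.Lib.MP_b07157_agU.Defs

/-!
# Sets of jets
-/

noncomputable section

namespace MPb07157

open MvPolynomial

namespace SU

open PC

variable {r : ℕ}

theorem isConstr_coord_zero {σ : Type} (p : σ) : IsConstr {x : σ → ℂ | x p = 0} := by
  have := isConstr_eq_zero (X p : MvPolynomial σ ℂ)
  simpa using this

theorem isConstr_Rg (e : Fin r → ℕ) (N n : ℕ) : IsConstr (Rg e N n) := by
  have h1 : IsConstr {ζ : Fin r × Fin N → ℂ | ∀ p ∈ (Finset.univ : Finset (Fin r × Fin N)),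
      e p.1 * (p.2 : ℕ) ≤ n → ζ p = 0} :=
    isConstr_forall_mem _ _ fun p _ => isConstr_setOf_imp (isConstr_const _)
      (isConstr_coord_zero p)
  have h2 : Rg e N n = {ζ : Fin r × Fin N → ℂ | ∀ p ∈ (Finset.univ : Finset (Fin r × Fin N)),
      e p.1 * (p.2 : ℕ) ≤ n → ζ p = 0} := by
    ext ζ
    simp [Rg]
  rw [h2]
  exact h1

theorem isConstr_Ug (e : Fin r → ℕ) (N n : ℕ) : IsConstr (Ug e N n) := by
  have h1 : IsConstr {ζ : Fin r × Fin N → ℂ | ∀ p ∈ (Finset.univ : Finset (Fin r × Fin N)),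
      e p.1 * (p.2 : ℕ) < n → ζ p = 0} :=
    isConstr_forall_mem _ _ fun p _ => isConstr_setOf_imp (isConstr_const _)
      (isConstr_coord_zero p)
  have h3 : IsConstr {ζ : Fin r × Fin N → ℂ | ∃ p ∈ (Finset.univ : Finset (Fin r × Fin N)),
      e p.1 * (p.2 : ℕ) = n ∧ ζ p ≠ 0} :=
    isConstr_exists_mem _ _ fun p _ => isConstr_setOf_and (isConstr_const _)
      (isConstr_coord_zero p).compl
  have h2 : Ug e N n = {ζ : Fin r × Fin N → ℂ | ∀ p ∈ (Finset.univ : Finset (Fin r × Fin N)),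
      e p.1 * (p.2 : ℕ) < n → ζ p = 0} ∩
      {ζ : Fin r × Fin N → ℂ | ∃ p ∈ (Finset.univ : Finset (Fin r × Fin N)),
      e p.1 * (p.2 : ℕ) = n ∧ ζ p ≠ 0} := by
    ext ζ
    simp [Ug]
  rw [h2]
  exact h1.inter h3

theorem isConstr_xyP {N : ℕ} {S : Set (Fin 2 × Fin N → ℂ)} (hS : IsConstr S) :
    IsConstr {x : JI r N → ℂ | xyP x ∈ S} := hS.reindex Sum.inl

theorem isConstr_zP {N : ℕ} {B : Set (Fin r × Fin N → ℂ)} (hB : IsConstr B) :
    IsConstr {x : JI r N → ℂ | zP x ∈ B} := hB.reindex Sum.inr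

/-- Modulo `X^(m+1)` a power series can be replaced by a polynomial. -/
theorem exists_valF_eq (F : P2) (m : ℕ) : ∃ P : MvPolynomial (Fin 2) ℂ, ∀ {N : ℕ}
    {γ : Fin 2 × Fin N → ℂ}, γ ∈ Start 2 1 N → ∃ H : PowerSeries ℂ,
      valF F γ = aeval (arc γ) P + PowerSeries.X ^ (m + 1) * H := by
  obtain ⟨P, hP⟩ := exists_trunc F m
  refine ⟨P, fun {N} {γ} hγ => ?_⟩
  exact subst_eq_add (F := F) (P := P) (w := fun _ => 1) (r := m + 1)
    (fun _ => one_pos) (fun v hv => (hP v).resolve_right (by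
      rw [wt, Fin.sum_univ_two, one_mul, one_mul] at hv
      omega)) (X_dvd_arc_of_mem_Start hγ)

theorem aeval_sum_pow (e : Fin r → ℕ) {N : ℕ} (ζ : Fin r × Fin N → ℂ) :
    (aeval (arc ζ) (∑ i, X i ^ e i : MvPolynomial (Fin r) ℂ) : PowerSeries ℂ) =
      ∑ i, arc ζ i ^ e i := by
  simp

theorem isConstr_jset (F : P2) (e : Fin r → ℕ) {N m : ℕ} (hm : m < N)
    {S : Set (Fin 2 × Fin N → ℂ)} (hS : IsConstr S) (hS1 : S ⊆ Start 2 1 N)
    {B : Set (Fin r × Fin N → ℂ)} (hB : IsConstr B) : IsConstr (jset F e N m S B) := by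
  obtain ⟨P, hP⟩ := exists_valF_eq F m
  have key : ∀ k : ℕ, ∃ Q : MvPolynomial (JI r N) ℂ, ∀ x : JI r N → ℂ,
      PowerSeries.coeff k (aeval (arc (xyP x)) P + ∑ i, arc (zP x) i ^ e i : PowerSeries ℂ) =
        eval x Q := by
    intro k
    obtain ⟨P1, hP1⟩ := exists_coeff_poly (N := N) P k
    obtain ⟨P2, hP2⟩ := exists_coeff_poly (N := N) (∑ i, X i ^ e i : MvPolynomial (Fin r) ℂ) k
    refine ⟨rename Sum.inl P1 + rename Sum.inr P2, fun x => ?_⟩
    rw [map_add, map_add, eval_rename, eval_rename, ← aeval_sum_pow, hP1, hP2]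
    rfl
  have h1 : jset F e N m S B = {x : JI r N → ℂ | xyP x ∈ S} ∩ ({x : JI r N → ℂ | zP x ∈ B} ∩
      {x : JI r N → ℂ |
        PowerSeries.coeff m (aeval (arc (xyP x)) P + ∑ i, arc (zP x) i ^ e i : PowerSeries ℂ) ≠ 0 ∧
        ∀ k ∈ Finset.range m, PowerSeries.coeff k
          (aeval (arc (xyP x)) P + ∑ i, arc (zP x) i ^ e i : PowerSeries ℂ) = 0}) := by
    ext x
    simp only [jset, Set.mem_inter_iff, Set.mem_ofPred_eq, Finset.mem_range]
    refine and_congr_right fun hx => and_congr_right fun _ => ?_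
    obtain ⟨H, hH⟩ := hP (hS1 hx)
    have h2 : val F e x = (aeval (arc (xyP x)) P + ∑ i, arc (zP x) i ^ e i) +
        PowerSeries.X ^ (m + 1) * H := by
      unfold val
      rw [hH]
      ring
    rw [order_eq_iff_of_dvd h2, PowerSeries.order_eq_nat]
  rw [h1]
  refine (isConstr_xyP hS).inter ((isConstr_zP hB).inter ?_)
  refine isConstr_setOf_and ?_ (isConstr_forall_mem _ _ fun k _ => ?_)
  · obtain ⟨Q, hQ⟩ := key m
    simp only [hQ]
    exact isConstr_ne_zero Q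
  · obtain ⟨Q, hQ⟩ := key k
    simp only [hQ]
    exact isConstr_eq_zero Q

/-- The values at two arcs which agree modulo `t^N`. -/
theorem mem_jset_congr {F F' : P2} (e : Fin r → ℕ) {N m : ℕ} (hm : m < N)
    {γ γ' : Fin 2 × Fin N → ℂ} {ζ : Fin r × Fin N → ℂ}
    (h : (PowerSeries.X : PowerSeries ℂ) ^ N ∣ valF F' γ - valF F γ') :
    (valF F' γ + ∑ i, arc ζ i ^ e i).order = m ↔ (valF F γ' + ∑ i, arc ζ i ^ e i).order = m := by
  refine order_congr hm ?_
  rwa [add_sub_add_right_eq_sub]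

/-- A bijection between sets of arcs in the plane which is compatible with the power series `F'`
and `F` is compatible with the sets of jets. -/
theorem muJ_lift {F F' : P2} (e : Fin r → ℕ) {N N' m : ℕ} (hm : m < N)
    {S S' : Set (Fin 2 × Fin N → ℂ)} (hS : IsConstr S) (hS' : IsConstr S') (hS1 : S ⊆ Start 2 1 N)
    (hS1' : S' ⊆ Start 2 1 N) (φ : Fin 2 × Fin N → MvPolynomial (Fin 2 × Fin N) ℂ)
    (hφ : Set.BijOn (polyMap φ) S S')
    (hF : ∀ γ ∈ S, (PowerSeries.X : PowerSeries ℂ) ^ N ∣ valF F' γ - valF F (polyMap φ γ))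
    {B : Set (Fin r × Fin N → ℂ)} (hB : IsConstr B) :
    muJ F' e N m S B = muJ F e N m S' B := by
  set Φ : JI r N → MvPolynomial (JI r N) ℂ :=
    Sum.elim (fun p => rename Sum.inl (φ p)) (fun p => X (Sum.inr p)) with hΦ
  have e1 : ∀ x : JI r N → ℂ, xyP (polyMap Φ x) = polyMap φ (xyP x) := by
    intro x
    funext p
    change eval x (Φ (Sum.inl p)) = eval (xyP x) (φ p)
    rw [hΦ, Sum.elim_inl, eval_rename]
    rfl
  have e2 : ∀ x : JI r N → ℂ, zP (polyMap Φ x) = zP x := by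
    intro x
    funext p
    change eval x (Φ (Sum.inr p)) = x (Sum.inr p)
    rw [hΦ, Sum.elim_inr, eval_X]
  have e3 : ∀ x : JI r N → ℂ, xyP x ∈ S →
      ((val F' e x).order = m ↔ (val F e (polyMap Φ x)).order = m) := by
    intro x hx
    unfold val
    rw [e1, e2]
    exact mem_jset_congr e hm (hF _ hx)
  have hbij : Set.BijOn (polyMap Φ) (jset F' e N m S B) (jset F e N m S' B) := by
    refine ⟨?_, ?_, ?_⟩
    · rintro x ⟨h1, h2, h3⟩
      refine ⟨?_, ?_, ?_⟩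
      · rw [e1]
        exact hφ.mapsTo h1
      · rw [e2]
        exact h2
      · exact (e3 x h1).1 h3
    · rintro x ⟨h1, h2, h3⟩ y ⟨h1', h2', h3'⟩ hxy
      have k1 : xyP x = xyP y := by
        apply hφ.injOn h1 h1'
        rw [← e1, ← e1, hxy]
      have k2 : zP x = zP y := by rw [← e2 x, ← e2 y, hxy]
      funext p
      rcases p with p | p
      · exact congrFun k1 p
      · exact congrFun k2 p
    · rintro y ⟨h1, h2, h3⟩
      obtain ⟨γ, hγ, hγ2⟩ := hφ.surjOn h1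
      have k1 : polyMap Φ (Sum.elim γ (zP y)) = y := by
        funext p
        rcases p with p | p
        · have := congrFun (e1 (Sum.elim γ (zP y))) p
          change polyMap Φ (Sum.elim γ (zP y)) (Sum.inl p) = _ at this
          rw [this]
          have h4 : xyP (Sum.elim γ (zP y) : JI r N → ℂ) = γ := rfl
          rw [h4, hγ2]
          rfl
        · have := congrFun (e2 (Sum.elim γ (zP y))) p
          change polyMap Φ (Sum.elim γ (zP y)) (Sum.inr p) = _ at this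
          rw [this]
          rfl
      refine ⟨Sum.elim γ (zP y), ⟨hγ, h2, ?_⟩, k1⟩
      rw [e3 (Sum.elim γ (zP y)) hγ, k1]
      exact h3
  unfold muJ mJ clsM
  rw [cls_bijOn (isConstr_jset F' e hm hS hS1 hB) (isConstr_jset F e hm hS' hS1' hB) Φ hbij]

theorem muJ_biUnion_left {ι : Type} (s : Finset ι) (F : P2) (e : Fin r → ℕ) {N m : ℕ} (hm : m < N)
    {S : ι → Set (Fin 2 × Fin N → ℂ)} (hS : ∀ i ∈ s, IsConstr (S i))
    (hS1 : ∀ i ∈ s, S i ⊆ Start 2 1 N) (hd : ∀ i ∈ s, ∀ j ∈ s, i ≠ j → Disjoint (S i) (S j))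
    {B : Set (Fin r × Fin N → ℂ)} (hB : IsConstr B) :
    muJ F e N m (⋃ i ∈ s, S i) B = ∑ i ∈ s, muJ F e N m (S i) B := by
  have h1 : jset F e N m (⋃ i ∈ s, S i) B = ⋃ i ∈ s, jset F e N m (S i) B := by
    ext x
    simp only [jset, Set.mem_iUnion, Set.mem_ofPred_eq, exists_prop]
    constructor
    · rintro ⟨⟨i, hi, h1⟩, h2, h3⟩
      exact ⟨i, hi, h1, h2, h3⟩
    · rintro ⟨i, hi, h1, h2, h3⟩
      exact ⟨⟨i, hi, h1⟩, h2, h3⟩
  unfold muJ mJ clsM
  rw [h1, cls_biUnion s _ (fun i hi => isConstr_jset F e hm (hS i hi) (hS1 i hi) hB), map_sum,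
    Finset.mul_sum]
  intro i hi j hj hij
  rw [Set.disjoint_left]
  rintro x ⟨h2, -, -⟩ ⟨h3, -, -⟩
  exact Set.disjoint_left.1 (hd i hi j hj hij) h2 h3

theorem muJ_biUnion_right {ι : Type} (s : Finset ι) (F : P2) (e : Fin r → ℕ) {N m : ℕ}
    (hm : m < N) {S : Set (Fin 2 × Fin N → ℂ)} (hS : IsConstr S) (hS1 : S ⊆ Start 2 1 N)
    {B : ι → Set (Fin r × Fin N → ℂ)} (hB : ∀ i ∈ s, IsConstr (B i))
    (hd : ∀ i ∈ s, ∀ j ∈ s, i ≠ j → Disjoint (B i) (B j)) :
    muJ F e N m S (⋃ i ∈ s, B i) = ∑ i ∈ s, muJ F e N m S (B i) := by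
  have h1 : jset F e N m S (⋃ i ∈ s, B i) = ⋃ i ∈ s, jset F e N m S (B i) := by
    ext x
    simp only [jset, Set.mem_iUnion, Set.mem_ofPred_eq, exists_prop]
    constructor
    · rintro ⟨h1, ⟨i, hi, h2⟩, h3⟩
      exact ⟨i, hi, h1, h2, h3⟩
    · rintro ⟨i, hi, h1, h2, h3⟩
      exact ⟨h1, ⟨i, hi, h2⟩, h3⟩
  unfold muJ mJ clsM
  rw [h1, cls_biUnion s _ (fun i hi => isConstr_jset F e hm hS hS1 (hB i hi)), map_sum,
    Finset.mul_sum]
  intro i hi j hj hij
  rw [Set.disjoint_left]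
  rintro x ⟨-, h2, -⟩ ⟨-, h3, -⟩
  exact Set.disjoint_left.1 (hd i hi j hj hij) h2 h3

theorem muJ_union_right (F : P2) (e : Fin r → ℕ) {N m : ℕ}
    (hm : m < N) {S : Set (Fin 2 × Fin N → ℂ)} (hS : IsConstr S) (hS1 : S ⊆ Start 2 1 N)
    {B B' : Set (Fin r × Fin N → ℂ)} (hB : IsConstr B) (hB' : IsConstr B')
    (hd : Disjoint B B') : muJ F e N m S (B ∪ B') = muJ F e N m S B + muJ F e N m S B' := by
  have h1 : jset F e N m S (B ∪ B') = jset F e N m S B ∪ jset F e N m S B' := by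
    ext x
    simp only [jset, Set.mem_union, Set.mem_ofPred_eq]
    tauto
  unfold muJ mJ clsM
  rw [h1, cls_union (isConstr_jset F e hm hS hS1 hB) (isConstr_jset F e hm hS hS1 hB'), map_add,
    mul_add]
  rw [Set.disjoint_left]
  rintro x ⟨-, h2, -⟩ ⟨-, h3, -⟩
  exact Set.disjoint_left.1 hd h2 h3

/-- No jets with `ord = m` if all orders are larger. -/
theorem muJ_eq_zero (F : P2) (e : Fin r → ℕ) {N m : ℕ} {S : Set (Fin 2 × Fin N → ℂ)}
    {B : Set (Fin r × Fin N → ℂ)}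
    (h : ∀ γ ∈ S, ∀ ζ ∈ B, (PowerSeries.X : PowerSeries ℂ) ^ (m + 1) ∣
      valF F γ + ∑ i, arc ζ i ^ e i) : muJ F e N m S B = 0 := by
  have h1 : jset F e N m S B = ∅ := by
    rw [Set.eq_empty_iff_forall_notMem]
    rintro x ⟨h1, h2, h3⟩
    have h4 := h _ h1 _ h2
    rw [PowerSeries.X_pow_dvd_iff] at h4
    rw [PowerSeries.order_eq_nat] at h3
    exact h3.1 (h4 m (Nat.lt_succ_self m))
  unfold muJ mJ clsM
  rw [h1, cls_empty, map_zero, mul_zero]

/-- `X^(n+1)` divides `∑ ζ_i^{e_i}` if `e_i ord ζ_i > n`. -/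
theorem dvd_of_mem_Rg {e : Fin r → ℕ} (he : ∀ i, 0 < e i) {N n : ℕ} (hn : n < N)
    {ζ : Fin r × Fin N → ℂ} (h : ζ ∈ Rg e N n) :
    (PowerSeries.X : PowerSeries ℂ) ^ (n + 1) ∣ ∑ i, arc ζ i ^ e i := by
  refine Finset.dvd_sum fun i _ => ?_
  have h1 : (PowerSeries.X : PowerSeries ℂ) ^ (n / e i + 1) ∣ arc ζ i := by
    rw [PowerSeries.X_pow_dvd_iff]
    intro k hk
    rw [coeff_arc]
    split_ifs with hkN
    · refine h i ⟨k, hkN⟩ ?_
      have h2 : k ≤ n / e i := Nat.lt_succ_iff.1 hk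
      calc e i * k ≤ e i * (n / e i) := Nat.mul_le_mul_left _ h2
        _ ≤ n := Nat.mul_div_le n (e i)
    · rfl
  have h2 : n + 1 ≤ (n / e i + 1) * e i := by
    rw [Nat.mul_comm]
    exact Nat.lt_mul_div_succ n (he i)
  calc (PowerSeries.X : PowerSeries ℂ) ^ (n + 1) ∣ PowerSeries.X ^ ((n / e i + 1) * e i) :=
        pow_dvd_pow _ h2
    _ = (PowerSeries.X ^ (n / e i + 1)) ^ e i := by rw [pow_mul]
    _ ∣ arc ζ i ^ e i := pow_dvd_pow_of_dvd h1 _

/-- Every `ζ` with `e_i ord ζ_i > n₀` has `min e_i ord ζ_i = n` for some `n₀ < n ≤ n₁`, or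
`e_i ord ζ_i > n₁`. -/
theorem muJ_Rg_split (F : P2) {e : Fin r → ℕ} {N m : ℕ} (hm : m < N)
    {S : Set (Fin 2 × Fin N → ℂ)} (hS : IsConstr S) (hS1 : S ⊆ Start 2 1 N) {n₀ n₁ : ℕ}
    (hn : n₀ ≤ n₁) : muJ F e N m S (Rg e N n₀) =
      ∑ n ∈ Finset.Ioc n₀ n₁, muJ F e N m S (Ug e N n) + muJ F e N m S (Rg e N n₁) := by
  induction n₁, hn using Nat.le_induction with
  | base => simp
  | succ n hn ih =>
    have h1 : Rg e N n = Ug e N (n + 1) ∪ Rg e N (n + 1) := by
      ext ζ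
      constructor
      · intro h
        by_cases h2 : ∃ i, ∃ j : Fin N, e i * (j : ℕ) = n + 1 ∧ ζ (i, j) ≠ 0
        · left
          exact ⟨fun i j hij => h i j (by omega), h2⟩
        · right
          intro i j hij
          by_contra h3
          rcases Nat.lt_or_ge (e i * (j : ℕ)) (n + 1) with h4 | h4
          · exact h3 (h i j (by omega))
          · exact h2 ⟨i, j, by omega, h3⟩
      · rintro (⟨h, -⟩ | h)
        · exact fun i j hij => h i j (by omega)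
        · exact fun i j hij => h i j (by omega)
    have h2 : Disjoint (Ug e N (n + 1)) (Rg e N (n + 1)) := by
      rw [Set.disjoint_left]
      rintro ζ ⟨-, i, j, hij, h3⟩ h4
      exact h3 (h4 i j hij.le)
    rw [ih, h1, muJ_union_right F e hm hS hS1 (isConstr_Ug e N _) (isConstr_Rg e N _) h2,
      ← add_assoc, ← Finset.sum_Ioc_succ_top hn]

/-- The arcs with `ord x = k`, according to the order of `y`. -/
theorem muJ_Xo (F : P2) (e : Fin r → ℕ) {N m k : ℕ} (hm : m < N) (hk : 1 ≤ k) (hkN : k ≤ N)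
    {B : Set (Fin r × Fin N → ℂ)} (hB : IsConstr B) :
    muJ F e N m (Start 2 1 N ∩ Xo N k) B =
      ∑ l ∈ Finset.Icc 1 N, muJ F e N m (Strat N ![k, l]) B := by
  have h1 : Start 2 1 N ∩ Xo N k = ⋃ l ∈ Finset.Icc 1 N, Strat N ![k, l] := by
    ext γ
    simp only [Set.mem_iUnion, exists_prop, Set.mem_inter_iff]
    constructor
    · rintro ⟨h1, h2⟩
      obtain ⟨c, hc, h3⟩ := A2h.exists_Strat (by omega) h1
      rw [Fintype.mem_piFinset] at hc
      have h4 : c 0 = k := A2h.Xo_eq (Finset.mem_Icc.1 (hc 0)).2 hkN (A2h.Strat_subset_Xo c h3) h2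
      refine ⟨c 1, hc 1, ?_⟩
      have h5 : (![k, c 1] : Fin 2 → ℕ) = c := by
        funext j
        fin_cases j
        · exact h4.symm
        · rfl
      rw [h5]
      exact h3
    · rintro ⟨l, hl, h2⟩
      refine ⟨P1aux.Strat_subset_Start (fun j => ?_) h2, A2h.Strat_subset_Xo _ h2⟩
      fin_cases j
      · exact hk
      · exact (Finset.mem_Icc.1 hl).1
  rw [h1]
  refine muJ_biUnion_left _ F e hm (fun l _ => isConstr_Strat N _) (fun l hl => ?_)
    (fun l hl l' hl' hll => ?_) hB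
  · refine P1aux.Strat_subset_Start (fun j => ?_)
    fin_cases j
    · exact hk
    · exact (Finset.mem_Icc.1 hl).1
  · refine disjoint_Strat (fun j => ?_) (fun j => ?_) (fun h => hll (congrFun h 1))
    · fin_cases j
      · exact hkN
      · exact (Finset.mem_Icc.1 hl).2
    · fin_cases j
      · exact hkN
      · exact (Finset.mem_Icc.1 hl').2

end SU

end MPb07157
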