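import Pool.Agent.Lib.MP_b07157_agV.Defs

/-!
# The class of a set defined by triangular conditions
-/

noncomputable section

namespace MPb07157

open MvPolynomial

namespace SU

/-- **Triangular coordinates.** `S` is a cylinder in the directions of the coordinates `d j`, and
`P_j = u x_{d j} + (terms which do not depend on the x_{d l}, l ≥ j)` on `S`, with `u ≠ 0` on `S` and
`u` independent of the coordinates `d l`. Then the `P_j` can replace the coordinates `x_{d j}`. -/
theorem tri_cls {σ : Type} [Fintype σ] [DecidableEq σ] {M : ℕ} {d : Fin M → σ}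
    (hd : Function.Injective d) {S : Set (σ → ℂ)} (hS : IsConstr S)
    (hcyl : ∀ x y : σ → ℂ, (∀ s, (∀ l, s ≠ d l) → x s = y s) → (x ∈ S ↔ y ∈ S))
    (P : Fin M → MvPolynomial σ ℂ) (u : (σ → ℂ) → ℂ) (hu : ∀ x ∈ S, u x ≠ 0)
    (hu' : ∀ x y : σ → ℂ, (∀ s, (∀ l, s ≠ d l) → x s = y s) → u x = u y)
    (hP : ∀ j, ∀ x ∈ S, ∀ y ∈ S, (∀ s, (∀ l, j ≤ l → s ≠ d l) → x s = y s) →
      eval x (P j) - u x * x (d j) = eval y (P j) - u y * y (d j))
    {T : Set (Fin M → ℂ)} (hT : IsConstr T) :
    L ^ M * cls {x | x ∈ S ∧ (fun j => eval x (P j)) ∈ T} = cls S * cls T := by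
  classical
  -- the change of coordinates
  let Φ : σ → MvPolynomial σ ℂ := fun s => if h : ∃ l, s = d l then P h.choose else X s
  have hΦd : ∀ (x : σ → ℂ) (j : Fin M), polyMap Φ x (d j) = eval x (P j) := by
    intro x j
    have h : ∃ l, d j = d l := ⟨j, rfl⟩
    have h2 : h.choose = j := (hd h.choose_spec).symm
    simp only [polyMap, Φ]
    rw [dif_pos h, h2]
  have hΦn : ∀ (x : σ → ℂ) (s : σ), (∀ l, s ≠ d l) → polyMap Φ x s = x s := by
    intro x s hs
    have h : ¬ ∃ l, s = d l := by push Not; exact hs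
    simp only [polyMap, Φ]
    rw [dif_neg h, eval_X]
  -- the equivalence
  let e : {s : σ // ∀ l, s ≠ d l} ⊕ Fin M ≃ σ := Equiv.ofBijective (Sum.elim Subtype.val d) <| by
    constructor
    · rintro (a | a) (b | b) h
      · simp only [Sum.elim_inl] at h
        rw [Subtype.ext h]
      · exact absurd h (a.2 b)
      · exact absurd h.symm (b.2 a)
      · simp only [Sum.elim_inr] at h
        rw [hd h]
    · intro s
      by_cases h : ∃ l, s = d l
      · obtain ⟨l, rfl⟩ := h
        exact ⟨Sum.inr l, rfl⟩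
      · push Not at h
        exact ⟨Sum.inl ⟨s, h⟩, rfl⟩
  have hel : ∀ s, e (Sum.inl s) = s.1 := fun s => rfl
  have her : ∀ j, e (Sum.inr j) = d j := fun j => rfl
  let ψ : σ → MvPolynomial {s : σ // ∀ l, s ≠ d l} ℂ := fun s =>
    if h : ∀ l, s ≠ d l then X ⟨s, h⟩ else 0
  have hψ : ∀ (x : σ → ℂ) (s : σ), (∀ l, s ≠ d l) →
      polyMap ψ (fun t : {s : σ // ∀ l, s ≠ d l} => x t.1) s = x s := by
    intro x s hs
    simp only [polyMap, ψ]
    rw [dif_pos hs, eval_X]
  have hS0 : IsConstr (polyMap ψ ⁻¹' S) := hS.preimage ψ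
  have hSmem : ∀ x : σ → ℂ, (fun t : {s : σ // ∀ l, s ≠ d l} => x t.1) ∈ polyMap ψ ⁻¹' S ↔
      x ∈ S := fun x => hcyl _ _ (hψ x)
  have key : ∀ T : Set (Fin M → ℂ), IsConstr T →
      cls {x : σ → ℂ | x ∈ S ∧ (fun j => x (d j)) ∈ T} = cls (polyMap ψ ⁻¹' S) * cls T := by
    intro T hT
    rw [← cls_prodSum hS0 hT, ← cls_equiv e (isConstr_prodSum hS0 hT)]
    congr 1
    ext x
    simp only [Set.mem_ofPred_eq, prodSum, hel, her, hSmem]
  have h1 : cls S = cls (polyMap ψ ⁻¹' S) * L ^ M := by
    have h := key Set.univ IsConstr.univ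
    rw [cls_univ_eq, Fintype.card_fin] at h
    rw [← h]
    congr 1
    ext x
    simp
  have hbij : Set.BijOn (polyMap Φ) {x | x ∈ S ∧ (fun j => eval x (P j)) ∈ T}
      {x : σ → ℂ | x ∈ S ∧ (fun j => x (d j)) ∈ T} := by
    refine ⟨?_, ?_, ?_⟩
    · rintro x ⟨hx, hxT⟩
      refine ⟨(hcyl _ _ (hΦn x)).2 hx, ?_⟩
      simp only [hΦd]
      exact hxT
    · rintro x ⟨hx, -⟩ y ⟨hy, -⟩ hxy
      have hn : ∀ s, (∀ l, s ≠ d l) → x s = y s := by
        intro s hs
        rw [← hΦn x s hs, ← hΦn y s hs, hxy]
      have hstep : ∀ n : ℕ, ∀ j : Fin M, (j : ℕ) = n → x (d j) = y (d j) := by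
        intro n
        induction n using Nat.strong_induction_on with
        | _ n ih =>
          intro j hj
          have h2 := hP j x hx y hy (by
            intro s hs
            by_cases h : ∃ l, s = d l
            · obtain ⟨l, rfl⟩ := h
              have hlj : ¬ j ≤ l := fun h => hs l h rfl
              exact ih l (by rw [← hj]; exact Fin.lt_def.1 (not_le.1 hlj)) l rfl
            · push Not at h
              exact hn s h)
          have h3 : eval x (P j) = eval y (P j) := by rw [← hΦd, ← hΦd, hxy]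
          rw [h3, hu' x y hn] at h2
          have h4 : u y * x (d j) = u y * y (d j) := by linear_combination -h2
          exact mul_left_cancel₀ (hu y hy) h4
      funext s
      by_cases h : ∃ l, s = d l
      · obtain ⟨l, rfl⟩ := h
        exact hstep l l rfl
      · push Not at h
        exact hn s h
    · rintro y ⟨hy, hyT⟩
      have hstep : ∀ k : ℕ, k ≤ M → ∃ x : σ → ℂ, (∀ s, (∀ l, s ≠ d l) → x s = y s) ∧
          ∀ j : Fin M, (j : ℕ) < k → eval x (P j) = y (d j) := by
        intro k
        induction k with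
        | zero => exact fun _ => ⟨y, fun _ _ => rfl, fun j hj => absurd hj (Nat.not_lt_zero _)⟩
        | succ k ih =>
          intro hk
          obtain ⟨x, hxn, hxP⟩ := ih (by omega)
          have hx : x ∈ S := (hcyl x y hxn).2 hy
          let v : ℂ := x (d ⟨k, hk⟩) + (y (d ⟨k, hk⟩) - eval x (P ⟨k, hk⟩)) / u x
          let x' : σ → ℂ := Function.update x (d ⟨k, hk⟩) v
          have hx'n : ∀ s, s ≠ d ⟨k, hk⟩ → x' s = x s := fun s hs => Function.update_of_ne hs _ _
          have hx'k : x' (d ⟨k, hk⟩) = v := Function.update_self _ _ _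
          have hx'y : ∀ s, (∀ l, s ≠ d l) → x' s = y s := by
            intro s hs
            rw [hx'n s (hs _), hxn s hs]
          have hx' : x' ∈ S := (hcyl x' y hx'y).2 hy
          have hux : u x' = u x := hu' _ _ fun s hs => hx'n s (hs _)
          refine ⟨x', hx'y, ?_⟩
          intro j hj
          have h2 := hP j x' hx' x hx (by
            intro s hs
            exact hx'n s (hs _ (by rw [Fin.le_def]; simp only; omega)))
          rcases Nat.lt_succ_iff_lt_or_eq.1 hj with hj | hj
          · have h3 : x' (d j) = x (d j) := hx'n _ fun h => by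
              have := hd h
              rw [this] at hj
              simp at hj
            rw [h3, hux] at h2
            rw [← hxP j hj]
            linear_combination h2
          · have hjk : j = ⟨k, hk⟩ := Fin.ext hj
            subst hjk
            rw [hx'k, hux] at h2
            have h3 : u x * v = u x * x (d ⟨k, hk⟩) + (y (d ⟨k, hk⟩) - eval x (P ⟨k, hk⟩)) := by
              simp only [v]
              field_simp [hu x hx]
            linear_combination h2 + h3
      obtain ⟨x, hxn, hxP⟩ := hstep M le_rfl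
      have hx : x ∈ S := (hcyl x y hxn).2 hy
      have hxP' : ∀ j : Fin M, eval x (P j) = y (d j) := fun j => hxP j j.2
      refine ⟨x, ⟨hx, ?_⟩, ?_⟩
      · simp only [hxP']
        exact hyT
      · funext s
        by_cases h : ∃ l, s = d l
        · obtain ⟨l, rfl⟩ := h
          rw [hΦd, hxP']
        · push Not at h
          rw [hΦn x s h, hxn s h]
  have hc1 : IsConstr {x | x ∈ S ∧ (fun j => eval x (P j)) ∈ T} := hS.inter (hT.preimage P)
  have hc2 : IsConstr {x : σ → ℂ | x ∈ S ∧ (fun j => x (d j)) ∈ T} := hS.inter (hT.reindex d)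
  rw [cls_bijOn hc1 hc2 Φ hbij, key T hT, h1]
  ring

end SU

end MPb07157
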