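import Pool.Agent.Lib.MP_b07157_agU.J1
import Pool.Agent.Lib.MP_b07157_agU.T0

/-!
# The jets with min e_i ord z_i = n <= ord F
-/

noncomputable section

namespace MPb07157

open MvPolynomial

namespace SU

open PC

variable {r : ℕ}

namespace J2x

/-- The set of the vectors `(0, …, 0, c)`, `c ≠ 0`. -/
def Tlast (M : ℕ) : Set (Fin (M + 1) → ℂ) :=
  {t | (∀ j : Fin M, t j.castSucc = 0) ∧ t (Fin.last M) ≠ 0}

theorem isConstr_Tlast (M : ℕ) : IsConstr (Tlast M) := by
  have h1 : IsConstr {t : Fin (M + 1) → ℂ | ∀ j ∈ (Finset.univ : Finset (Fin M)),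
      t j.castSucc = 0} := by
    refine isConstr_forall_mem _ _ fun j _ => ?_
    have h := isConstr_eq_zero (X j.castSucc : MvPolynomial (Fin (M + 1)) ℂ)
    simpa using h
  have h2 : IsConstr {t : Fin (M + 1) → ℂ | t (Fin.last M) ≠ 0} := by
    have h := isConstr_ne_zero (X (Fin.last M) : MvPolynomial (Fin (M + 1)) ℂ)
    simpa using h
  have h3 := isConstr_setOf_and h1 h2
  simpa [Tlast] using h3

theorem cls_ne_zero' : cls {t : Fin 1 → ℂ | t 0 ≠ 0} = L - 1 := by
  have h0 : IsConstr {t : Fin 1 → ℂ | t 0 = 0} := by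
    have h := isConstr_eq_zero (X 0 : MvPolynomial (Fin 1) ℂ)
    simpa using h
  have h1 : IsConstr {t : Fin 1 → ℂ | t 0 ≠ 0} := by
    have h := isConstr_ne_zero (X 0 : MvPolynomial (Fin 1) ℂ)
    simpa using h
  have h2 : cls (Set.univ : Set (Fin 1 → ℂ)) =
      cls {t : Fin 1 → ℂ | t 0 = 0} + cls {t : Fin 1 → ℂ | t 0 ≠ 0} := by
    rw [← cls_union h0 h1]
    · congr 1
      ext t
      simp only [Set.mem_univ, Set.mem_union, Set.mem_ofPred_eq, true_iff]
      exact em _
    · rw [Set.disjoint_left]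
      intro t ht ht'
      exact ht' ht
  have h3 : cls {t : Fin 1 → ℂ | t 0 = 0} = 1 := by
    have h4 : cls (Set.univ : Set (Fin 0 → ℂ)) = 1 := by
      rw [cls_univ_eq, Fintype.card_fin, pow_zero]
    rw [← h4]
    refine (cls_bijOn IsConstr.univ h0 (fun _ => 0) ⟨?_, ?_, ?_⟩).symm
    · intro x _
      simp [polyMap]
    · intro x _ y _ _
      exact Subsingleton.elim _ _
    · intro y hy
      refine ⟨fun i => i.elim0, Set.mem_univ _, ?_⟩
      funext i
      have hi : i = 0 := Subsingleton.elim _ _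
      subst hi
      have hy0 : y 0 = 0 := hy
      simp [polyMap, hy0]
  rw [cls_univ_eq, Fintype.card_fin, pow_one, h3] at h2
  rw [h2]
  ring

theorem cls_Tlast (M : ℕ) : cls (Tlast M) = L - 1 := by
  rw [← cls_ne_zero']
  have h1 : IsConstr {t : Fin 1 → ℂ | t 0 ≠ 0} := by
    have h := isConstr_ne_zero (X 0 : MvPolynomial (Fin 1) ℂ)
    simpa using h
  refine (cls_bijOn h1 (isConstr_Tlast M)
    (fun j => if j = Fin.last M then X 0 else 0) ⟨?_, ?_, ?_⟩).symm
  · intro x hx
    have hx' : x 0 ≠ 0 := hx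
    refine ⟨fun j => ?_, ?_⟩
    · have hj : j.castSucc ≠ Fin.last M := (Fin.castSucc_lt_last j).ne
      simp [polyMap, hj]
    · simpa [polyMap] using hx'
  · intro x _ y _ hxy
    have h := congrFun hxy (Fin.last M)
    funext i
    have hi : i = 0 := Subsingleton.elim _ _
    subst hi
    simpa [polyMap] using h
  · rintro y ⟨hy, hy'⟩
    refine ⟨fun _ => y (Fin.last M), hy', ?_⟩
    funext j
    by_cases hj : j = Fin.last M
    · subst hj
      simp [polyMap]
    · obtain ⟨j', rfl⟩ := Fin.exists_castSucc_eq.2 hj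
      rw [hy j']
      simp [polyMap, hj]

/-- The coefficients of the values are polynomials in the jets. -/
theorem coeff_val_poly (F : P2) (e : Fin r → ℕ) (N m : ℕ) :
    ∃ P : ℕ → MvPolynomial (JI r N) ℂ, ∀ k ≤ m, ∀ x : JI r N → ℂ, xyP x ∈ Start 2 1 N →
      PowerSeries.coeff k (val F e x) = eval x (P k) := by
  obtain ⟨Q, hQ⟩ : ∃ Q : MvPolynomial (Fin 2) ℂ,
      ∀ v : Fin 2 →₀ ℕ, v 0 + v 1 ≤ m → MvPowerSeries.coeff v F = Q.coeff v := by
    obtain ⟨Q, hQ⟩ := exists_trunc F m
    exact ⟨Q, fun v hv => (hQ v).resolve_right fun h => by omega⟩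
  choose P1 hP1 using fun k => exists_coeff_poly (N := N) Q k
  choose P2 hP2 using fun (k : ℕ) (i : Fin r) =>
    exists_coeff_poly (N := N) (X i ^ e i : MvPolynomial (Fin r) ℂ) k
  refine ⟨fun k => rename Sum.inl (P1 k) + ∑ i, rename Sum.inr (P2 k i), ?_⟩
  intro k hk x hx
  obtain ⟨H, hH⟩ := subst_eq_add (F := F) (P := Q) (w := fun _ => 1) (r := m + 1)
    (fun _ => one_pos) (fun v hv => hQ v (by
      rw [wt, Fin.sum_univ_two, one_mul, one_mul] at hv
      omega)) (X_dvd_arc_of_mem_Start hx)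
  have h1 : PowerSeries.coeff k (valF F (xyP x)) = eval (xyP x) (P1 k) := by
    unfold valF
    rw [hH, map_add, hP1, PowerSeries.X_pow_dvd_iff.1 (dvd_mul_right _ _) k (by omega), add_zero]
  have h2 : ∀ i : Fin r, PowerSeries.coeff k (arc (zP x) i ^ e i) = eval (zP x) (P2 k i) := by
    intro i
    rw [← hP2]
    simp
  unfold val
  rw [map_add, map_sum, h1]
  simp only [h2, map_add, map_sum, eval_rename]
  rfl

theorem coeff_pow_sub {A B : PowerSeries ℂ} {a e j : ℕ} (he : 0 < e) (hA : PowerSeries.X ^ a ∣ A)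
    (hB : PowerSeries.X ^ a ∣ B) (hAB : PowerSeries.X ^ (a + 1 + j) ∣ A - B) :
    PowerSeries.coeff (a * e + 1 + j) (A ^ e) - PowerSeries.coeff (a * e + 1 + j) (B ^ e) =
      (e : ℂ) * PowerSeries.coeff a B ^ (e - 1) *
        (PowerSeries.coeff (a + 1 + j) A - PowerSeries.coeff (a + 1 + j) B) := by
  obtain ⟨A', rfl⟩ := hA
  obtain ⟨B', rfl⟩ := hB
  obtain ⟨D, hD⟩ := hAB
  have h1 := (Commute.all (PowerSeries.X ^ a * A') (PowerSeries.X ^ a * B')).geom_sum₂_mul e
  have h2 : ∑ i ∈ Finset.range e, (PowerSeries.X ^ a * A') ^ i * (PowerSeries.X ^ a * B') ^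
      (e - 1 - i) = (PowerSeries.X : PowerSeries ℂ) ^ (a * (e - 1)) *
        ∑ i ∈ Finset.range e, A' ^ i * B' ^ (e - 1 - i) := by
    rw [Finset.mul_sum]
    refine Finset.sum_congr rfl fun i hi => ?_
    have hi' : i < e := Finset.mem_range.1 hi
    rw [mul_pow, mul_pow, ← pow_mul, ← pow_mul]
    have h3 : a * (e - 1) = a * i + a * (e - 1 - i) := by
      rw [← mul_add]
      congr 1
      omega
    rw [h3, pow_add]
    ring
  have h3 : (PowerSeries.X ^ a * A') ^ e - (PowerSeries.X ^ a * B') ^ e =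
      (PowerSeries.X : PowerSeries ℂ) ^ (a * e + 1 + j) *
        ((∑ i ∈ Finset.range e, A' ^ i * B' ^ (e - 1 - i)) * D) := by
    rw [← h1, h2, hD]
    have h4 : a * e + 1 + j = a * (e - 1) + (a + 1 + j) := by
      obtain ⟨e', rfl⟩ : ∃ e', e = e' + 1 := ⟨e - 1, by omega⟩
      simp only [Nat.add_sub_cancel]
      ring
    rw [h4, pow_add _ (a * (e - 1))]
    ring
  have hX : ∀ (k : ℕ) (G : PowerSeries ℂ), PowerSeries.coeff k (PowerSeries.X ^ k * G) =
      PowerSeries.constantCoeff G := by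
    intro k G
    rw [PowerSeries.coeff_X_pow_mul', if_pos le_rfl, Nat.sub_self,
      PowerSeries.coeff_zero_eq_constantCoeff]
  have h5 : PowerSeries.constantCoeff A' = PowerSeries.constantCoeff B' := by
    have h6 : PowerSeries.coeff a (PowerSeries.X ^ a * A' - PowerSeries.X ^ a * B') = 0 :=
      PowerSeries.X_pow_dvd_iff.1 ⟨D, hD⟩ a (by omega)
    rw [map_sub, hX, hX, sub_eq_zero] at h6
    exact h6
  rw [← map_sub, ← map_sub, h3, hD, hX, hX, hX, map_mul, map_sum]
  simp only [map_mul, map_pow, h5]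
  have h7 : ∑ i ∈ Finset.range e, PowerSeries.constantCoeff B' ^ i *
      PowerSeries.constantCoeff B' ^ (e - 1 - i) = (e : ℂ) *
        PowerSeries.constantCoeff B' ^ (e - 1) := by
    rw [Finset.sum_congr rfl (g := fun _ => PowerSeries.constantCoeff B' ^ (e - 1))]
    · rw [Finset.sum_const, Finset.card_range, nsmul_eq_mul]
    · intro i hi
      have hi' : i < e := Finset.mem_range.1 hi
      rw [← pow_add]
      congr 1
      omega
  rw [h7]

theorem coeff_mul_pow {A : PowerSeries ℂ} {a e : ℕ} (hA : PowerSeries.X ^ a ∣ A) :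
    PowerSeries.coeff (a * e) (A ^ e) = PowerSeries.coeff a A ^ e := by
  obtain ⟨A', rfl⟩ := hA
  rw [mul_pow, ← pow_mul, PowerSeries.coeff_X_pow_mul', if_pos le_rfl, Nat.sub_self,
    PowerSeries.coeff_zero_eq_constantCoeff, map_pow, PowerSeries.coeff_X_pow_mul', if_pos le_rfl,
    Nat.sub_self, PowerSeries.coeff_zero_eq_constantCoeff]

theorem Ug_congr {e : Fin r → ℕ} {N n : ℕ} {ζ ζ' : Fin r × Fin N → ℂ}
    (h : ∀ i, ∀ j : Fin N, e i * (j : ℕ) ≤ n → ζ (i, j) = ζ' (i, j)) :
    ζ ∈ Ug e N n ↔ ζ' ∈ Ug e N n := by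
  have key : ∀ ζ ζ' : Fin r × Fin N → ℂ, (∀ i, ∀ j : Fin N, e i * (j : ℕ) ≤ n →
      ζ (i, j) = ζ' (i, j)) → ζ ∈ Ug e N n → ζ' ∈ Ug e N n := by
    rintro ζ ζ' h ⟨h1, i, j, hij, hne⟩
    refine ⟨fun i j hj => ?_, i, j, hij, ?_⟩
    · rw [← h i j hj.le]
      exact h1 i j hj
    · rw [← h i j hij.le]
      exact hne
  exact ⟨key _ _ h, key _ _ fun i j hj => (h i j hj).symm⟩

theorem hl_congr {e : Fin r → ℕ} {N n : ℕ} {ζ ζ' : Fin r × Fin N → ℂ}
    (h : ∀ i, ∀ j : Fin N, e i * (j : ℕ) ≤ n → ζ (i, j) = ζ' (i, j)) :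
    hl e N n ζ = hl e N n ζ' := by
  unfold hl
  refine Finset.sum_congr rfl fun i _ => ?_
  split_ifs with h1
  · rw [h i ⟨n / e i, h1.2⟩ (by
      simp only
      rw [Nat.mul_div_cancel' h1.1])]
  · rfl

/-- The polynomial `hl`. -/
theorem hl_poly (e : Fin r → ℕ) (N n : ℕ) : ∃ P : MvPolynomial (Fin r × Fin N) ℂ,
    ∀ ζ, hl e N n ζ = eval ζ P := by
  refine ⟨∑ i, if h : e i ∣ n ∧ n / e i < N then X (i, ⟨n / e i, h.2⟩) ^ e i else 0, fun ζ => ?_⟩
  rw [map_sum]
  unfold hl
  refine Finset.sum_congr rfl fun i _ => ?_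
  split_ifs with h1
  · simp
  · simp

theorem X_pow_dvd_arc {N k : ℕ} {ζ : Fin r × Fin N → ℂ} {i : Fin r}
    (h : ∀ j : Fin N, (j : ℕ) < k → ζ (i, j) = 0) :
    (PowerSeries.X : PowerSeries ℂ) ^ k ∣ arc ζ i := by
  rw [PowerSeries.X_pow_dvd_iff]
  intro j hj
  rw [coeff_arc]
  split_ifs with h1
  · exact h ⟨j, h1⟩ hj
  · rfl

/-- The coefficients of `∑ z_i^{e_i}` up to `n`. -/
theorem coeff_h {e : Fin r → ℕ} (he : ∀ i, 0 < e i) {N n : ℕ} {ζ : Fin r × Fin N → ℂ}
    (hζ : ∀ i, ∀ j : Fin N, e i * (j : ℕ) < n → ζ (i, j) = 0) :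
    (∀ k < n, PowerSeries.coeff k (∑ i, arc ζ i ^ e i) = 0) ∧
      PowerSeries.coeff n (∑ i, arc ζ i ^ e i) = hl e N n ζ := by
  have h1 : ∀ i, (PowerSeries.X : PowerSeries ℂ) ^ ((n + e i - 1) / e i) ∣ arc ζ i := by
    intro i
    refine X_pow_dvd_arc fun j hj => hζ i j ?_
    rw [Nat.lt_div_iff_mul_lt (he i)] at hj
    have := he i
    rw [mul_comm]
    omega
  have h2 : ∀ i, n ≤ (n + e i - 1) / e i * e i := by
    intro i
    have h3 := Nat.lt_div_mul_add (a := n + e i - 1) (he i)
    omega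
  have h3 : ∀ i, (PowerSeries.X : PowerSeries ℂ) ^ ((n + e i - 1) / e i * e i) ∣
      arc ζ i ^ e i := by
    intro i
    rw [pow_mul]
    exact pow_dvd_pow_of_dvd (h1 i) _
  refine ⟨fun k hk => ?_, ?_⟩
  · rw [map_sum]
    exact Finset.sum_eq_zero fun i _ => PowerSeries.X_pow_dvd_iff.1 (h3 i) k (hk.trans_le (h2 i))
  · rw [map_sum]
    unfold hl
    refine Finset.sum_congr rfl fun i _ => ?_
    by_cases hd : e i ∣ n
    · have h4 : (n + e i - 1) / e i = n / e i := by
        obtain ⟨c, hc⟩ := hd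
        rw [hc, Nat.mul_div_cancel_left c (he i)]
        have := he i
        rw [show e i * c + e i - 1 = (e i - 1) + e i * c by omega,
          Nat.add_mul_div_left _ _ (he i), Nat.div_eq_of_lt (by omega), zero_add]
      have h5 := coeff_mul_pow (e := e i) (h1 i)
      rw [h4, Nat.div_mul_cancel hd] at h5
      rw [h5, coeff_arc]
      by_cases h6 : n / e i < N
      · rw [dif_pos h6, dif_pos ⟨hd, h6⟩]
      · rw [dif_neg h6, dif_neg fun h => h6 h.2, zero_pow (he i).ne']
    · rw [dif_neg fun h => hd h.1]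
      refine PowerSeries.X_pow_dvd_iff.1 (h3 i) n (lt_of_le_of_ne (h2 i) fun h => hd ?_)
      rw [h]
      exact dvd_mul_left _ _

theorem mJ_biUnion {ι : Type*} (s : Finset ι) {N : ℕ} (W : ι → Set (JI r N → ℂ))
    (h : ∀ i ∈ s, IsConstr (W i)) (hd : ∀ i ∈ s, ∀ j ∈ s, i ≠ j → Disjoint (W i) (W j)) :
    mJ N (⋃ i ∈ s, W i) = ∑ i ∈ s, mJ N (W i) := by
  unfold mJ clsM
  rw [cls_biUnion s W h hd, map_sum, Finset.mul_sum]

end J2x

open J2x

/-- If `ord F ≥ n` on `S`, the function `F + ∑ z_i^{e_i}` is smooth in the direction of `z` at the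
jets with `min e_i ord ζ_i = n`. -/
theorem muJ_Ug {F : P2} {e : Fin r → ℕ} (he : ∀ i, 0 < e i) {N n m : ℕ} (hn : 1 ≤ n) (hm : m < N)
    {S : Set (Fin 2 × Fin N → ℂ)} (hS : IsConstr S) (hS1 : S ⊆ Start 2 1 N)
    (α : MvPolynomial (Fin 2 × Fin N) ℂ)
    (hα : ∀ γ ∈ S, (∀ k < n, PowerSeries.coeff k (valF F γ) = 0) ∧
      (n < N → PowerSeries.coeff n (valF F γ) = eval γ α)) :
    muJ F e N m S (Ug e N n) =
      if n = m then mJ N {x : JI r N → ℂ | xyP x ∈ S ∧ zP x ∈ Ug e N n ∧
        eval (xyP x) α + hl e N n (zP x) ≠ 0}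
      else if n < m then P1aux.Lp (m - n) * ((LU : Mot) - 1) *
        mJ N {x : JI r N → ℂ | xyP x ∈ S ∧ zP x ∈ Ug e N n ∧
          eval (xyP x) α + hl e N n (zP x) = 0}
      else 0 := by
  classical
  -- the first coefficients
  have hlow : ∀ x : JI r N → ℂ, xyP x ∈ S → zP x ∈ Ug e N n →
      (∀ k < n, PowerSeries.coeff k (val F e x) = 0) ∧
      (n < N → PowerSeries.coeff n (val F e x) = eval (xyP x) α + hl e N n (zP x)) := by
    intro x hx hz
    obtain ⟨h1, h2⟩ := coeff_h he hz.1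
    obtain ⟨h3, h4⟩ := hα _ hx
    refine ⟨fun k hk => ?_, fun hnN => ?_⟩
    · unfold val
      rw [map_add, h3 k hk, h1 k hk, add_zero]
    · unfold val
      rw [map_add, h4 hnN, h2]
  by_cases hnm : n = m
  · rw [if_pos hnm]
    unfold muJ
    congr 1
    ext x
    simp only [jset, Set.mem_ofPred_eq]
    refine and_congr_right fun hx => and_congr_right fun hz => ?_
    obtain ⟨h1, h2⟩ := hlow x hx hz
    rw [PowerSeries.order_eq_nat, ← hnm, h2 (by omega)]
    exact ⟨fun h => h.1, fun h => ⟨h, h1⟩⟩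
  rw [if_neg hnm]
  by_cases hnm' : n < m
  · rw [if_pos hnm']
    obtain ⟨M, rfl⟩ : ∃ M, m = n + 1 + M := ⟨m - n - 1, by omega⟩
    have hN : ∀ i, n / e i < N := fun i => (Nat.div_le_self n (e i)).trans_lt (by omega)
    -- the pieces
    let W : Fin r → Set (JI r N → ℂ) := fun i₀ => {x | (xyP x ∈ S ∧ zP x ∈ Ug e N n ∧
      eval (xyP x) α + hl e N n (zP x) = 0) ∧ zP x (i₀, ⟨n / e i₀, hN i₀⟩) ≠ 0 ∧
      ∀ i ∈ (En e n).filter (· < i₀), zP x (i, ⟨n / e i, hN i⟩) = 0}
    have hA : IsConstr {x : JI r N → ℂ | xyP x ∈ S ∧ zP x ∈ Ug e N n ∧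
        eval (xyP x) α + hl e N n (zP x) = 0} := by
      refine isConstr_setOf_and (isConstr_xyP hS) (isConstr_setOf_and
        (isConstr_zP (isConstr_Ug e N n)) ?_)
      obtain ⟨Q, hQ⟩ := hl_poly e N n
      have h := isConstr_eq_zero (rename (Sum.inl : _ → JI r N) α + rename Sum.inr Q)
      have h2 : {x : JI r N → ℂ | eval x (rename Sum.inl α + rename Sum.inr Q) = 0} =
          {x : JI r N → ℂ | eval (xyP x) α + hl e N n (zP x) = 0} := by
        ext x
        simp only [Set.mem_ofPred_eq, map_add, eval_rename, hQ]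
        rfl
      rwa [h2] at h
    have hcoord : ∀ i : Fin r, ∀ j : Fin N, IsConstr {x : JI r N → ℂ | zP x (i, j) = 0} := by
      intro i j
      have h := isConstr_eq_zero (X (Sum.inr (i, j)) : MvPolynomial (JI r N) ℂ)
      simp only [eval_X] at h
      exact h
    have hW : ∀ i₀, IsConstr (W i₀) := by
      intro i₀
      refine isConstr_setOf_and hA (isConstr_setOf_and (hcoord _ _).compl ?_)
      exact isConstr_forall_mem _ _ fun i _ => hcoord _ _
    obtain ⟨P, hP⟩ := coeff_val_poly F e N (n + 1 + M)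
    have hxS : ∀ i₀, ∀ x ∈ W i₀, xyP x ∈ Start 2 1 N := fun i₀ x hx => hS1 hx.1.1
    have hordW : ∀ i₀, ∀ x ∈ W i₀, ((val F e x).order = ((n + 1 + M : ℕ) : ℕ∞) ↔
        (fun j : Fin (M + 1) => eval x (P (n + 1 + j))) ∈ Tlast M) := by
      intro i₀ x hx
      obtain ⟨h1, h2⟩ := hlow x hx.1.1 hx.1.2.1
      have h3 := h2 (by omega)
      rw [hx.1.2.2] at h3
      rw [PowerSeries.order_eq_nat]
      constructor
      · rintro ⟨h4, h5⟩
        refine ⟨fun j => ?_, ?_⟩
        · have hj := j.2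
          show eval x (P (n + 1 + j)) = 0
          rw [← hP _ (by omega) x (hxS i₀ x hx)]
          exact h5 _ (by omega)
        · show eval x (P (n + 1 + M)) ≠ 0
          rw [← hP _ le_rfl x (hxS i₀ x hx)]
          exact h4
      · rintro ⟨h4, h5⟩
        refine ⟨?_, fun k hk => ?_⟩
        · have h5' : eval x (P (n + 1 + M)) ≠ 0 := h5
          rw [← hP _ le_rfl x (hxS i₀ x hx)] at h5'
          exact h5'
        · rcases lt_trichotomy k n with hkn | hkn | hkn
          · exact h1 k hkn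
          · rw [hkn]
            exact h3
          · obtain ⟨j, rfl⟩ : ∃ j, k = n + 1 + j := ⟨k - n - 1, by omega⟩
            have h6 : eval x (P (n + 1 + j)) = 0 := h4 ⟨j, by omega⟩
            rw [← hP _ (by omega) x (hxS i₀ x hx)] at h6
            exact h6
    -- the measure of a piece
    have hpiece : ∀ i₀ ∈ En e n, mJ N {x | x ∈ W i₀ ∧
        (val F e x).order = ((n + 1 + M : ℕ) : ℕ∞)} =
        P1aux.Lp (n + 1 + M - n) * ((LU : Mot) - 1) * mJ N (W i₀) := by
      intro i₀ hi₀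
      have hdvd : e i₀ ∣ n := by
        simpa [En] using hi₀
      have hae : n / e i₀ * e i₀ = n := Nat.div_mul_cancel hdvd
      have ha : n / e i₀ ≤ n := Nat.div_le_self _ _
      let d : Fin (M + 1) → JI r N := fun j =>
        Sum.inr (i₀, ⟨n / e i₀ + 1 + j, by have := j.2; omega⟩)
      have hd : Function.Injective d := by
        intro j j' h
        simp only [d, Sum.inr.injEq, Prod.mk.injEq, true_and, Fin.mk.injEq] at h
        exact Fin.ext (by omega)
      -- the coordinates which are not changed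
      have hoff : ∀ x y : JI r N → ℂ, (∀ s, (∀ l, s ≠ d l) → x s = y s) →
          xyP x = xyP y ∧ ∀ i, ∀ j : Fin N, e i * (j : ℕ) ≤ n → zP x (i, j) = zP y (i, j) := by
        intro x y h
        refine ⟨funext fun p => h _ fun l => by simp [d], fun i j hij => h _ fun l hl => ?_⟩
        simp only [d, Sum.inr.injEq, Prod.mk.injEq] at hl
        obtain ⟨rfl, rfl⟩ := hl
        simp only at hij
        have h2 : e i * (n / e i) = n := by rw [mul_comm]; exact hae
        have h3 : e i * (n / e i + 1 + l) = n + e i * (1 + l) := by rw [add_assoc, mul_add, h2]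
        have h4 : 0 < e i * (1 + l) := Nat.mul_pos (he i) (by omega)
        omega
      have hpt : ∀ i, i ∈ En e n → e i * (n / e i) = n := by
        intro i hi
        exact Nat.mul_div_cancel' (by simpa [En] using hi)
      have hcyl : ∀ x y : JI r N → ℂ, (∀ s, (∀ l, s ≠ d l) → x s = y s) →
          (x ∈ W i₀ ↔ y ∈ W i₀) := by
        have key : ∀ x y : JI r N → ℂ, (∀ s, (∀ l, s ≠ d l) → x s = y s) →
            x ∈ W i₀ → y ∈ W i₀ := by
          rintro x y h ⟨⟨h1, h2, h3⟩, h4, h5⟩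
          obtain ⟨h6, h7⟩ := hoff x y h
          refine ⟨⟨?_, ?_, ?_⟩, ?_, ?_⟩
          · rw [← h6]
            exact h1
          · exact (Ug_congr h7).1 h2
          · rw [← h6, ← hl_congr h7]
            exact h3
          · rw [← h7 i₀ ⟨n / e i₀, hN i₀⟩ (hpt i₀ hi₀).le]
            exact h4
          · intro i hi
            rw [← h7 i ⟨n / e i, hN i⟩ (hpt i (Finset.mem_filter.1 hi).1).le]
            exact h5 i hi
        intro x y h
        exact ⟨key x y h, key y x fun s hs => (h s hs).symm⟩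
      have htri := tri_cls hd (hW i₀) hcyl (fun j => P (n + 1 + j))
        (fun x => (e i₀ : ℂ) * zP x (i₀, ⟨n / e i₀, hN i₀⟩) ^ (e i₀ - 1))
        (fun x hx => mul_ne_zero (Nat.cast_ne_zero.2 (he i₀).ne') (pow_ne_zero _ hx.2.1))
        (fun x y h => by
          rw [(hoff x y h).2 i₀ ⟨n / e i₀, hN i₀⟩ (hpt i₀ hi₀).le])
        (by
          intro j x hx y hy h
          have hz : ∀ z ∈ W i₀, (PowerSeries.X : PowerSeries ℂ) ^ (n / e i₀) ∣ arc (zP z) i₀ := by
            intro z hz
            refine X_pow_dvd_arc fun l hl => hz.1.2.1.1 i₀ l ?_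
            have h2 := (Nat.mul_lt_mul_left (he i₀)).2 hl
            rwa [hpt i₀ hi₀] at h2
          have hx0 : zP x (i₀, ⟨n / e i₀, hN i₀⟩) = zP y (i₀, ⟨n / e i₀, hN i₀⟩) := by
            refine h _ fun l _ hl => ?_
            simp only [d, Sum.inr.injEq, Prod.mk.injEq, true_and, Fin.mk.injEq] at hl
            omega
          have hxy : xyP x = xyP y := funext fun p => h _ fun l _ => by simp [d]
          have hne : ∀ i, i ≠ i₀ → arc (zP x) i = arc (zP y) i := by
            intro i hi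
            unfold arc
            refine Finset.sum_congr rfl fun k _ => ?_
            have h2 : zP x (i, k) = zP y (i, k) := by
              refine h _ fun l _ hl => ?_
              simp only [d, Sum.inr.injEq, Prod.mk.injEq] at hl
              exact hi hl.1
            rw [h2]
          have hdv : (PowerSeries.X : PowerSeries ℂ) ^ (n / e i₀ + 1 + j) ∣
              arc (zP x) i₀ - arc (zP y) i₀ := by
            rw [PowerSeries.X_pow_dvd_iff]
            intro k hk
            rw [map_sub, coeff_arc, coeff_arc]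
            split_ifs with h1
            · rw [sub_eq_zero]
              refine h _ fun l hl hl' => ?_
              simp only [d, Sum.inr.injEq, Prod.mk.injEq, true_and, Fin.mk.injEq] at hl'
              have : (j : ℕ) ≤ l := hl
              omega
            · rw [sub_self]
          have hlev : n / e i₀ + 1 + (j : ℕ) < N := by have := j.2; omega
          have h3 := coeff_pow_sub (he i₀) (hz x hx) (hz y hy) hdv
          rw [hae, coeff_arc, coeff_arc, coeff_arc, dif_pos (hN i₀), dif_pos hlev,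
            dif_pos hlev] at h3
          have h4 : PowerSeries.coeff (n + 1 + j) (val F e x) -
              PowerSeries.coeff (n + 1 + j) (val F e y) =
              PowerSeries.coeff (n + 1 + j) (arc (zP x) i₀ ^ e i₀) -
              PowerSeries.coeff (n + 1 + j) (arc (zP y) i₀ ^ e i₀) := by
            unfold val
            rw [map_add, map_add, hxy, add_sub_add_left_eq_sub, map_sum, map_sum,
              ← Finset.sum_sub_distrib, Finset.sum_eq_single i₀]
            · intro i _ hi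
              rw [hne i hi, sub_self]
            · intro h
              exact absurd (Finset.mem_univ _) h
          have hjle : n + 1 + (j : ℕ) ≤ n + 1 + M := by have := j.2; omega
          rw [← hP _ hjle x (hxS i₀ x hx), ← hP _ hjle y (hxS i₀ y hy)]
          rw [h3] at h4
          have h5 : x (d j) = zP x (i₀, ⟨n / e i₀ + 1 + j, hlev⟩) := rfl
          have h6 : y (d j) = zP y (i₀, ⟨n / e i₀ + 1 + j, hlev⟩) := rfl
          rw [h5, h6, hx0]
          linear_combination h4)
        (isConstr_Tlast M)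
      rw [cls_Tlast] at htri
      have hset : {x | x ∈ W i₀ ∧ (fun j : Fin (M + 1) => eval x (P (n + 1 + j))) ∈ Tlast M} =
          {x | x ∈ W i₀ ∧ (val F e x).order = ((n + 1 + M : ℕ) : ℕ∞)} := by
        ext x
        simp only [Set.mem_ofPred_eq]
        exact and_congr_right fun hx => (hordW i₀ x hx).symm
      rw [hset] at htri
      have h1 := congrArg (algebraMap K0 Mot) htri
      rw [map_mul, map_mul, map_pow, map_sub, map_one, ← LU_val] at h1
      have h2 : P1aux.Lp (n + 1 + M - n) * (LU : Mot) ^ (M + 1) = 1 := by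
        unfold P1aux.Lp
        rw [← Units.val_pow_eq_pow_val, ← Units.val_mul, ← zpow_natCast, ← zpow_add,
          show n + 1 + M - n = M + 1 by omega, neg_add_cancel, zpow_zero, Units.val_one]
      have h3 : clsM {x | x ∈ W i₀ ∧ (val F e x).order = ((n + 1 + M : ℕ) : ℕ∞)} =
          P1aux.Lp (n + 1 + M - n) * ((LU : Mot) - 1) * clsM (W i₀) := by
        unfold clsM
        calc algebraMap K0 Mot (cls {x | x ∈ W i₀ ∧
              (val F e x).order = ((n + 1 + M : ℕ) : ℕ∞)})
            = P1aux.Lp (n + 1 + M - n) * (LU : Mot) ^ (M + 1) * algebraMap K0 Mot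
              (cls {x | x ∈ W i₀ ∧ (val F e x).order = ((n + 1 + M : ℕ) : ℕ∞)}) := by
              rw [h2, one_mul]
          _ = _ := by
              rw [mul_assoc, h1]
              ring
      unfold mJ
      rw [h3]
      ring
    -- the decomposition
    have hdis : ∀ i ∈ En e n, ∀ j ∈ En e n, i ≠ j → Disjoint (W i) (W j) := by
      have key : ∀ i ∈ En e n, ∀ j, i < j → ∀ x, x ∈ W i → x ∉ W j := by
        intro i hi j hij x hxi hxj
        exact hxi.2.1 (hxj.2.2 i (Finset.mem_filter.2 ⟨hi, hij⟩))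
      intro i hi j hj hij
      rw [Set.disjoint_left]
      intro x hxi hxj
      rcases lt_or_gt_of_ne hij with h | h
      · exact key i hi j h x hxi hxj
      · exact key j hj i h x hxj hxi
    have hcover : ∀ x : JI r N → ℂ, (xyP x ∈ S ∧ zP x ∈ Ug e N n ∧
        eval (xyP x) α + hl e N n (zP x) = 0) → ∃ i ∈ En e n, x ∈ W i := by
      intro x hx
      obtain ⟨i, j, hij, hne⟩ := hx.2.1.2
      have hi : i ∈ En e n := by
        simp only [En, Finset.mem_filter, Finset.mem_univ, true_and]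
        exact ⟨j, hij.symm⟩
      have hj : j = ⟨n / e i, hN i⟩ := by
        apply Fin.ext
        simp only
        rw [← hij, Nat.mul_div_cancel_left _ (he i)]
      have hex : ((En e n).filter fun i => zP x (i, ⟨n / e i, hN i⟩) ≠ 0).Nonempty :=
        ⟨i, Finset.mem_filter.2 ⟨hi, by rw [← hj]; exact hne⟩⟩
      obtain ⟨i₀, h0, hmin⟩ := Finset.exists_min_image _ id hex
      rw [Finset.mem_filter] at h0
      refine ⟨i₀, h0.1, hx, h0.2, fun i' hi' => ?_⟩
      rw [Finset.mem_filter] at hi'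
      by_contra hne'
      have h1 : id i₀ ≤ id i' := hmin i' (Finset.mem_filter.2 ⟨hi'.1, hne'⟩)
      exact absurd hi'.2 (not_lt.2 h1)
    have hU1 : {x : JI r N → ℂ | xyP x ∈ S ∧ zP x ∈ Ug e N n ∧
        eval (xyP x) α + hl e N n (zP x) = 0} = ⋃ i ∈ En e n, W i := by
      ext x
      simp only [Set.mem_iUnion, exists_prop]
      constructor
      · exact hcover x
      · rintro ⟨i, -, hi⟩
        exact hi.1
    have hU2 : jset F e N (n + 1 + M) S (Ug e N n) = ⋃ i ∈ En e n,
        {x | x ∈ W i ∧ (val F e x).order = ((n + 1 + M : ℕ) : ℕ∞)} := by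
      ext x
      simp only [Set.mem_iUnion, exists_prop, jset, Set.mem_ofPred_eq]
      constructor
      · rintro ⟨h1, h2, h3⟩
        have h4 : eval (xyP x) α + hl e N n (zP x) = 0 := by
          rw [← (hlow x h1 h2).2 (by omega)]
          rw [PowerSeries.order_eq_nat] at h3
          exact h3.2 n (by omega)
        obtain ⟨i, hi, hxi⟩ := hcover x ⟨h1, h2, h4⟩
        exact ⟨i, hi, hxi, h3⟩
      · rintro ⟨i, -, hi, h3⟩
        exact ⟨hi.1.1, hi.1.2.1, h3⟩
    have hWo : ∀ i ∈ En e n, IsConstr {x | x ∈ W i ∧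
        (val F e x).order = ((n + 1 + M : ℕ) : ℕ∞)} := by
      intro i _
      have h1 : {x | x ∈ W i ∧ (val F e x).order = ((n + 1 + M : ℕ) : ℕ∞)} =
          {x | x ∈ W i ∧ x ∈ polyMap (fun j : Fin (M + 1) => P (n + 1 + j)) ⁻¹' Tlast M} := by
        ext x
        simp only [Set.mem_ofPred_eq]
        exact and_congr_right fun hx => hordW i x hx
      rw [h1]
      exact isConstr_setOf_and (hW i) ((isConstr_Tlast M).preimage _)
    unfold muJ
    rw [hU2, hU1, mJ_biUnion _ _ hWo, mJ_biUnion _ _ (fun i _ => hW i) hdis, Finset.mul_sum]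
    · exact Finset.sum_congr rfl hpiece
    · intro i hi j hj hij
      refine Set.disjoint_of_subset (fun x hx => hx.1) (fun x hx => hx.1) (hdis i hi j hj hij)
  · rw [if_neg hnm']
    refine muJ_eq_zero F e fun γ hγ ζ hζ => ?_
    rw [PowerSeries.X_pow_dvd_iff]
    intro k hk
    rw [map_add, (hα γ hγ).1 k (by omega), (coeff_h he hζ.1).1 k (by omega), add_zero]

end SU

end MPb07157
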