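import Pool.Agent.Lib.MP_b07157_agU.J2

/-!
# The classes of the leading coefficients
-/

noncomputable section

namespace MPb07157

open MvPolynomial

namespace SU

open PC

variable {r : ℕ}

namespace J3h

/-! ### Helper lemmas -/

theorem eval_TP (e : Fin r → ℕ) (P : MvPolynomial (Fin 2) ℂ) (E : Finset (Fin r))
    (u : Fin 2 ⊕ {i // i ∈ E} → ℂ) :
    eval u (rename Sum.inl P + ∑ i : {i // i ∈ E}, (X (Sum.inr i) : MvPolynomial _ ℂ) ^ e i.1) =
      eval (fun j => u (Sum.inl j)) P + ∑ i, u (Sum.inr i) ^ e i.1 := by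
  rw [map_add, eval_rename, map_sum]
  simp only [map_pow, eval_X]
  rfl

theorem isConstr_T0 (E : Finset (Fin r)) :
    IsConstr {u : Fin 2 ⊕ {i // i ∈ E} → ℂ | (∀ j, u (Sum.inl j) ≠ 0) ∧
      (∃ i, u (Sum.inr i) ≠ 0)} := by
  refine isConstr_setOf_and ?_ ?_
  · have h := isConstr_forall_mem (σ := Fin 2 ⊕ {i // i ∈ E}) (Finset.univ : Finset (Fin 2))
      (fun j u => u (Sum.inl j) ≠ 0) (fun j _ => by
        have := isConstr_ne_zero (X (Sum.inl j) : MvPolynomial (Fin 2 ⊕ {i // i ∈ E}) ℂ)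
        simpa using this)
    simpa using h
  · have h := isConstr_exists_mem (σ := Fin 2 ⊕ {i // i ∈ E})
      (Finset.univ : Finset {i // i ∈ E})
      (fun i u => u (Sum.inr i) ≠ 0) (fun i _ => by
        have := isConstr_ne_zero (X (Sum.inr i) : MvPolynomial (Fin 2 ⊕ {i // i ∈ E}) ℂ)
        simpa using this)
    simpa using h

/-- the number of `j` with `e j ≤ n` -/
theorem card_le {e N n : ℕ} (he : 0 < e) (hn : n < N) :
    (Finset.univ.filter fun j : Fin N => e * (j : ℕ) ≤ n).card = n / e + 1 := by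
  have h : (Finset.univ.filter fun j : Fin N => e * (j : ℕ) ≤ n) =
      Finset.univ.filter fun j : Fin N => (j : ℕ) < n / e + 1 := by
    ext j
    simp only [Finset.mem_filter, Finset.mem_univ, true_and]
    rw [Nat.lt_succ_iff, Nat.le_div_iff_mul_le he, mul_comm]
  rw [h, Fin.card_filter_val_lt]
  have : n / e ≤ n := Nat.div_le_self _ _
  omega

theorem card_lt {e N n : ℕ} (he : 0 < e) (hn : n < N) :
    (Finset.univ.filter fun j : Fin N => e * (j : ℕ) < n).card + (if e ∣ n then 1 else 0) =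
      n / e + 1 := by
  classical
  rw [← card_le he hn]
  have h2 : (Finset.univ.filter fun j : Fin N => e * (j : ℕ) = n).card =
      if e ∣ n then 1 else 0 := by
    split_ifs with h
    · rw [Finset.card_eq_one]
      refine ⟨⟨n / e, lt_of_le_of_lt (Nat.div_le_self _ _) hn⟩, ?_⟩
      ext j
      simp only [Finset.mem_filter, Finset.mem_univ, true_and, Finset.mem_singleton]
      constructor
      · intro hj
        ext
        simp only
        rw [← hj, Nat.mul_div_cancel_left _ he]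
      · rintro rfl
        exact Nat.mul_div_cancel' h
    · rw [Finset.card_eq_zero, Finset.filter_eq_empty_iff]
      intro j _ hj
      exact h ⟨j, hj.symm⟩
  rw [← h2, ← Finset.card_union_of_disjoint]
  · congr 1
    ext j
    simp only [Finset.mem_union, Finset.mem_filter, Finset.mem_univ, true_and]
    omega
  · rw [Finset.disjoint_left]
    intro j hj hj'
    simp only [Finset.mem_filter, Finset.mem_univ, true_and] at hj hj'
    omega

/-- A set of pairs, counted by the first coordinate. -/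
theorem card_pairs {N : ℕ} (Q : Fin r → Fin N → Prop) [∀ i, DecidablePred (Q i)]
    [DecidablePred fun p : Fin r × Fin N => Q p.1 p.2] :
    (Finset.univ.filter fun p : Fin r × Fin N => Q p.1 p.2).card =
      ∑ i, (Finset.univ.filter (Q i)).card := by
  classical
  have h : (Finset.univ.filter fun p : Fin r × Fin N => Q p.1 p.2) = (Finset.univ.sigma
      (fun j => Finset.univ.filter fun k : Fin N => Q j k)).map
      (Equiv.sigmaEquivProd (Fin r) (Fin N)).toEmbedding := by
    ext ⟨i, k⟩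
    simp
  rw [h, Finset.card_map, Finset.card_sigma]

theorem lt_of_div {e : Fin r → ℕ} {N n : ℕ} (hn : n < N) (i : Fin r) : n / e i < N :=
  lt_of_le_of_lt (Nat.div_le_self _ _) hn

theorem hl_eq (e : Fin r → ℕ) {N n : ℕ} (hn : n < N) (ζ : Fin r × Fin N → ℂ) :
    hl e N n ζ = ∑ i : {i // i ∈ En e n}, ζ (i.1, ⟨n / e i.1, lt_of_div hn i.1⟩) ^ e i.1 := by
  classical
  have h1 : hl e N n ζ = ∑ i, if e i ∣ n then ζ (i, ⟨n / e i, lt_of_div hn i⟩) ^ e i else 0 := by
    unfold hl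
    refine Finset.sum_congr rfl fun i _ => ?_
    by_cases h : e i ∣ n
    · rw [dif_pos ⟨h, lt_of_div hn i⟩, if_pos h]
    · rw [dif_neg (fun h' => h h'.1), if_neg h]
  rw [h1, ← Finset.sum_filter]
  exact (Finset.sum_coe_sort (En e n)
    (fun i => ζ (i, ⟨n / e i, lt_of_div hn i⟩) ^ e i)).symm

theorem mem_Ug_iff {e : Fin r → ℕ} (he : ∀ i, 0 < e i) {N n : ℕ} (hn : n < N)
    (ζ : Fin r × Fin N → ℂ) : ζ ∈ Ug e N n ↔
      (∀ i, ∀ j : Fin N, e i * (j : ℕ) < n → ζ (i, j) = 0) ∧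
        ∃ i : {i // i ∈ En e n}, ζ (i.1, ⟨n / e i.1, lt_of_div hn i.1⟩) ≠ 0 := by
  refine and_congr_right fun _ => ?_
  constructor
  · rintro ⟨i, j, h1, h2⟩
    have hd : e i ∣ n := ⟨j, h1.symm⟩
    refine ⟨⟨i, ?_⟩, ?_⟩
    · simp only [En, Finset.mem_filter, Finset.mem_univ, true_and]
      exact hd
    · have h3 : (⟨n / e i, lt_of_div hn i⟩ : Fin N) = j := by
        ext
        simp only
        rw [← h1, Nat.mul_div_cancel_left _ (he i)]
      rw [h3]
      exact h2
  · rintro ⟨⟨i, hi⟩, h⟩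
    simp only [En, Finset.mem_filter, Finset.mem_univ, true_and] at hi
    exact ⟨i, ⟨n / e i, lt_of_div hn i⟩, Nat.mul_div_cancel' hi, h⟩

/-- The positions of the leading coefficients. -/
def pos {N n : ℕ} {w : Fin 2 → ℕ} (hw : ∀ j, w j < N) (hn : n < N) (e : Fin r → ℕ) :
    Fin 2 ⊕ {i // i ∈ En e n} → JI r N
  | Sum.inl j => Sum.inl (j, ⟨w j, hw j⟩)
  | Sum.inr i => Sum.inr (i.1, ⟨n / e i.1, lt_of_div hn i.1⟩)

theorem pos_injective {N n : ℕ} {w : Fin 2 → ℕ} (hw : ∀ j, w j < N) (hn : n < N)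
    (e : Fin r → ℕ) : Function.Injective (pos hw hn e) := by
  rintro (i | i) (j | j) h
  · have := Sum.inl_injective h
    exact congrArg Sum.inl (Prod.mk.inj this).1
  · exact absurd h (by simp [pos])
  · exact absurd h (by simp [pos])
  · have := Sum.inr_injective h
    exact congrArg Sum.inr (Subtype.ext (Prod.mk.inj this).1)

open Classical in
/-- The zero positions. -/
def Zz (N n : ℕ) (w : Fin 2 → ℕ) (e : Fin r → ℕ) : Finset (JI r N) :=
  (Zpos N w).disjSum (Finset.univ.filter fun p : Fin r × Fin N => e p.1 * (p.2 : ℕ) < n)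

theorem card_Zz {N n : ℕ} {w : Fin 2 → ℕ} (hw : ∀ j, w j < N) (hn : n < N) {e : Fin r → ℕ}
    (he : ∀ i, 0 < e i) : (Zz N n w e).card + (En e n).card = w 0 + w 1 + (sg e n + r) := by
  classical
  have h1 : (Finset.univ.filter fun p : Fin r × Fin N => e p.1 * (p.2 : ℕ) < n).card +
      (En e n).card = sg e n + r := by
    rw [card_pairs (fun i j => e i * (j : ℕ) < n)]
    unfold En sg
    have h2 : (Finset.univ.filter fun i : Fin r => e i ∣ n).card =
        ∑ i, if e i ∣ n then 1 else 0 := Finset.card_filter _ _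
    rw [h2, ← Finset.sum_add_distrib]
    rw [Finset.sum_congr rfl fun i _ => card_lt (he i) hn, Finset.sum_add_distrib]
    simp
  unfold Zz
  rw [Finset.card_disjSum, card_Zpos fun j => (hw j).le, Fin.sum_univ_two]
  convert congrArg (w 0 + w 1 + ·) h1 using 1
  simp only [add_assoc]

theorem Lp_eq {A B C : ℕ} (h : A = B + C) :
    (((LU ^ A)⁻¹ : Motˣ) : Mot) * ((LU ^ C : Motˣ) : Mot) = P1aux.Lp B := by
  unfold P1aux.Lp
  rw [← Units.val_mul]
  congr 1
  rw [← zpow_natCast, ← zpow_natCast, ← zpow_neg, ← zpow_add]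
  congr 1
  omega

/-- The measure of a set given by conditions on the leading coefficients. -/
theorem mJ_cell {e : Fin r → ℕ} (he : ∀ i, 0 < e i) {N n : ℕ} {w : Fin 2 → ℕ}
    (hw : ∀ j, w j < N) (hn : n < N) {A : Set (Fin 2 ⊕ {i // i ∈ En e n} → ℂ)}
    (hA : IsConstr A) {W : Set (JI r N → ℂ)}
    (hW : ∀ x : JI r N → ℂ, x ∈ W ↔ Vn w (xyP x) ∧
      (∀ i, ∀ j : Fin N, e i * (j : ℕ) < n → zP x (i, j) = 0) ∧
      (fun i => x (pos hw hn e i)) ∈ A) :
    mJ N W = P1aux.Lp (w 0 + w 1 + 2 + (sg e n + r)) * clsM A := by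
  classical
  have hcard := card_Zz hw hn he
  have hw0 := hw 0
  have hw1 := hw 1
  have hle : w 0 + w 1 + 2 + (sg e n + r) ≤ (2 + r) * N := by
    have h1 : sg e n + r ≤ r * N := by
      have h2 : sg e n + r = ∑ i, (n / e i + 1) := by
        unfold sg
        rw [Finset.sum_add_distrib]
        simp
      rw [h2]
      calc ∑ i, (n / e i + 1) ≤ ∑ _i : Fin r, N := by
            refine Finset.sum_le_sum fun i _ => ?_
            have := lt_of_div (e := e) hn i
            omega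
        _ = r * N := by simp
    rw [add_mul]
    omega
  obtain ⟨M, hM⟩ := Nat.exists_eq_add_of_le hle
  have hset : W = {x : JI r N → ℂ | (fun i => x (pos hw hn e i)) ∈ A ∧
      ∀ j ∈ Zz N n w e, x j = 0} := by
    ext x
    rw [hW x]
    simp only [Set.mem_ofPred_eq]
    constructor
    · rintro ⟨h1, h2, h3⟩
      refine ⟨h3, ?_⟩
      rintro (⟨j, k⟩ | ⟨i, k⟩) hj
      · unfold Zz at hj
        rw [Finset.inl_mem_disjSum] at hj
        simp only [Zpos, Finset.mem_filter, Finset.mem_univ, true_and] at hj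
        exact h1 j k hj
      · unfold Zz at hj
        rw [Finset.inr_mem_disjSum] at hj
        simp only [Finset.mem_filter, Finset.mem_univ, true_and] at hj
        exact h2 i k hj
    · rintro ⟨h3, h⟩
      refine ⟨fun j k hk => h (Sum.inl (j, k)) ?_, fun i k hk => h (Sum.inr (i, k)) ?_, h3⟩
      · unfold Zz
        rw [Finset.inl_mem_disjSum]
        simp only [Zpos, Finset.mem_filter, Finset.mem_univ, true_and]
        exact hk
      · unfold Zz
        rw [Finset.inr_mem_disjSum]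
        simp only [Finset.mem_filter, Finset.mem_univ, true_and]
        exact hk
  have hcls : cls W = cls A * L ^ M := by
    rw [hset]
    refine cls_cell (pos hw hn e) (pos_injective hw hn e) A hA (Zz N n w e) ?_ M ?_
    · rintro (j | i)
      · unfold Zz pos
        rw [Finset.inl_mem_disjSum]
        simp [Zpos]
      · unfold Zz pos
        rw [Finset.inr_mem_disjSum]
        simp only [Finset.mem_filter, Finset.mem_univ, true_and, not_lt]
        have hi := i.2
        simp only [En, Finset.mem_filter, Finset.mem_univ, true_and] at hi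
        exact (Nat.mul_div_cancel' hi).ge
    · have h1 : Fintype.card (JI r N) = (2 + r) * N := by
        simp only [JI, Fintype.card_sum, Fintype.card_prod, Fintype.card_fin]
        ring
      have h2 : Fintype.card (Fin 2 ⊕ {i // i ∈ En e n}) = 2 + (En e n).card := by
        simp
      rw [h1, h2, hM]
      omega
  unfold mJ clsM
  rw [hcls, map_mul, map_pow, ← LU_val, ← Units.val_pow_eq_pow_val, ← Lp_eq hM]
  ring

theorem pos_inl {N n : ℕ} {w : Fin 2 → ℕ} (hw : ∀ j, w j < N) (hn : n < N) (e : Fin r → ℕ)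
    (x : JI r N → ℂ) (j : Fin 2) : x (pos hw hn e (Sum.inl j)) = lead0 w (xyP x) j := by
  unfold lead0
  rw [dif_pos (hw j)]
  rfl

theorem mem_lead {e : Fin r → ℕ} (he : ∀ i, 0 < e i) {N n : ℕ} {w : Fin 2 → ℕ}
    (hw : ∀ j, w j < N) (hn : n < N) (x : JI r N → ℂ) :
    (xyP x ∈ Strat N w ∧ zP x ∈ Ug e N n) ↔ Vn w (xyP x) ∧
      (∀ i, ∀ j : Fin N, e i * (j : ℕ) < n → zP x (i, j) = 0) ∧
      ((∀ j, x (pos hw hn e (Sum.inl j)) ≠ 0) ∧ ∃ i, x (pos hw hn e (Sum.inr i)) ≠ 0) := by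
  rw [mem_Ug_iff he hn]
  simp only [pos_inl]
  constructor
  · rintro ⟨⟨h1, h2⟩, h3, h4⟩
    exact ⟨h1, h3, fun j => h2 j (hw j), h4⟩
  · rintro ⟨h1, h3, h2, h4⟩
    exact ⟨⟨h1, fun j _ => h2 j⟩, h3, h4⟩

theorem eval_lead {e : Fin r → ℕ} {N n : ℕ} {w : Fin 2 → ℕ}
    (hw : ∀ j, w j < N) (hn : n < N) (P : MvPolynomial (Fin 2) ℂ) (x : JI r N → ℂ) :
    eval (lead0 w (xyP x)) P + hl e N n (zP x) =
      eval (fun j => x (pos hw hn e (Sum.inl j))) P +
        ∑ i : {i // i ∈ En e n}, x (pos hw hn e (Sum.inr i)) ^ e i.1 := by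
  rw [hl_eq e hn]
  have h : (fun j => x (pos hw hn e (Sum.inl j))) = lead0 w (xyP x) := by
    funext j
    exact pos_inl hw hn e x j
  rw [h]
  rfl

/-- The class of `Rg`. -/
theorem cls_Rg {e : Fin r → ℕ} (he : ∀ i, 0 < e i) {N n : ℕ} (hn : n < N) :
    ∃ M, r * N = sg e n + r + M ∧ cls (Rg e N n) = L ^ M := by
  classical
  have hc : (Finset.univ.filter fun p : Fin r × Fin N => e p.1 * (p.2 : ℕ) ≤ n).card =
      sg e n + r := by
    rw [card_pairs (fun i j => e i * (j : ℕ) ≤ n),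
      Finset.sum_congr rfl fun i _ => card_le (he i) hn, Finset.sum_add_distrib]
    simp [sg]
  have hle : sg e n + r ≤ r * N := by
    rw [← hc]
    refine (Finset.card_le_univ _).trans ?_
    simp
  obtain ⟨M, hM⟩ := Nat.exists_eq_add_of_le hle
  refine ⟨M, hM, ?_⟩
  have h := cls_cell (σ := Fin r × Fin N) (κ := Fin 0) (fun i => i.elim0) (fun i => i.elim0)
    Set.univ IsConstr.univ
    (Finset.univ.filter fun p : Fin r × Fin N => e p.1 * (p.2 : ℕ) ≤ n)
    (fun i => i.elim0) M (by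
      rw [hc, Fintype.card_prod, Fintype.card_fin, Fintype.card_fin, Fintype.card_fin, hM]
      omega)
  rw [cls_univ_eq, Fintype.card_fin, pow_zero, one_mul] at h
  rw [← h]
  congr 1
  ext ζ
  simp only [Rg, Set.mem_ofPred_eq, Set.mem_univ, true_and, Finset.mem_filter, Finset.mem_univ,
    Prod.forall]

end J3h

open J3h

theorem isConstr_TY (e : Fin r → ℕ) (P : MvPolynomial (Fin 2) ℂ) (E : Finset (Fin r)) :
    IsConstr (TY e P E) := by
  have h := isConstr_ne_zero (rename Sum.inl P + ∑ i : {i // i ∈ E},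
    (X (Sum.inr i) : MvPolynomial (Fin 2 ⊕ {i // i ∈ E}) ℂ) ^ e i.1)
  have h2 := isConstr_setOf_and (isConstr_T0 (r := r) E) h
  simp only [eval_TP, and_assoc] at h2
  exact h2

theorem isConstr_TX (e : Fin r → ℕ) (P : MvPolynomial (Fin 2) ℂ) (E : Finset (Fin r)) :
    IsConstr (TX e P E) := by
  have h := isConstr_eq_zero (rename Sum.inl P + ∑ i : {i // i ∈ E},
    (X (Sum.inr i) : MvPolynomial (Fin 2 ⊕ {i // i ∈ E}) ℂ) ^ e i.1)
  have h2 := isConstr_setOf_and (isConstr_T0 (r := r) E) h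
  simp only [eval_TP, and_assoc] at h2
  exact h2

theorem mJ_lead_ne {e : Fin r → ℕ} (he : ∀ i, 0 < e i) {N n : ℕ} {w : Fin 2 → ℕ}
    (hw : ∀ j, w j < N) (hn : n < N) (P : MvPolynomial (Fin 2) ℂ) :
    mJ N {x : JI r N → ℂ | xyP x ∈ Strat N w ∧ zP x ∈ Ug e N n ∧
      eval (lead0 w (xyP x)) P + hl e N n (zP x) ≠ 0} =
      P1aux.Lp (w 0 + w 1 + 2 + (sg e n + r)) * clsM (TY e P (En e n)) := by
  refine mJ_cell he hw hn (isConstr_TY e P _) fun x => ?_
  simp only [Set.mem_ofPred_eq, TY]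
  rw [← and_assoc, mem_lead he hw hn, eval_lead hw hn]
  simp only [and_assoc]

theorem mJ_lead_eq {e : Fin r → ℕ} (he : ∀ i, 0 < e i) {N n : ℕ} {w : Fin 2 → ℕ}
    (hw : ∀ j, w j < N) (hn : n < N) (P : MvPolynomial (Fin 2) ℂ) :
    mJ N {x : JI r N → ℂ | xyP x ∈ Strat N w ∧ zP x ∈ Ug e N n ∧
      eval (lead0 w (xyP x)) P + hl e N n (zP x) = 0} =
      P1aux.Lp (w 0 + w 1 + 2 + (sg e n + r)) * clsM (TX e P (En e n)) := by
  refine mJ_cell he hw hn (isConstr_TX e P _) fun x => ?_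
  simp only [Set.mem_ofPred_eq, TX]
  rw [← and_assoc, mem_lead he hw hn, eval_lead hw hn]
  simp only [and_assoc]

/-- The measure of a product of a set of plane arcs and `Rg`. -/
theorem mJ_Rg {e : Fin r → ℕ} (he : ∀ i, 0 < e i) {N n : ℕ} (hn : n < N)
    {S : Set (Fin 2 × Fin N → ℂ)} (hS : IsConstr S) :
    mJ N {x : JI r N → ℂ | xyP x ∈ S ∧ zP x ∈ Rg e N n} = muN N S * P1aux.Lp (sg e n + r) := by
  obtain ⟨M, hM, hcl⟩ := cls_Rg he hn
  have h1 : {x : JI r N → ℂ | xyP x ∈ S ∧ zP x ∈ Rg e N n} = prodSum S (Rg e N n) := rfl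
  unfold mJ muN clsM
  rw [h1, cls_prodSum hS (isConstr_Rg e N n), hcl, map_mul, map_pow, ← LU_val,
    ← Units.val_pow_eq_pow_val, ← Lp_eq hM]
  have h2 : (2 + r) * N = 2 * N + r * N := by ring
  rw [h2, pow_add, mul_inv, Units.val_mul]
  ring

/-- If `ord F = n` on `S` and `e_i ord ζ_i > n`, then `ord (F + h) = n`. -/
theorem muJ_Rg_top {F : P2} {e : Fin r → ℕ} (he : ∀ i, 0 < e i) {N n m : ℕ} (hn : n < N)
    {S : Set (Fin 2 × Fin N → ℂ)} (hS : IsConstr S)
    (h : ∀ γ ∈ S, (valF F γ).order = n) :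
    muJ F e N m S (Rg e N n) = if n = m then muN N S * P1aux.Lp (sg e n + r) else 0 := by
  have key : ∀ x : JI r N → ℂ, xyP x ∈ S → zP x ∈ Rg e N n → (val F e x).order = n := by
    intro x h1 h2
    have h3 := h _ h1
    have h4 := dvd_of_mem_Rg he hn h2
    rw [PowerSeries.order_eq_nat] at h3 ⊢
    rw [PowerSeries.X_pow_dvd_iff] at h4
    unfold val
    refine ⟨?_, fun i hi => ?_⟩
    · rw [map_add, h4 n (Nat.lt_succ_self n), add_zero]
      exact h3.1
    · rw [map_add, h4 i (by omega), add_zero]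
      exact h3.2 i hi
  unfold muJ
  split_ifs with hnm
  · subst hnm
    rw [← mJ_Rg he hn hS]
    congr 1
    ext x
    simp only [jset, Set.mem_ofPred_eq]
    exact ⟨fun hx => ⟨hx.1, hx.2.1⟩, fun hx => ⟨hx.1, hx.2, key x hx.1 hx.2⟩⟩
  · have : jset F e N m S (Rg e N n) = ∅ := by
      rw [Set.eq_empty_iff_forall_notMem]
      rintro x ⟨h1, h2, h3⟩
      rw [key x h1 h2] at h3
      exact hnm (by exact_mod_cast h3)
    rw [this]
    unfold mJ clsM
    rw [cls_empty, map_zero, mul_zero]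

/-- If `ord F > m` and `ord G > m` on `S`, then `F + h` and `G + h` have order `m` on sets with the
same measure. -/
theorem far_eq {F G : P2} {e : Fin r → ℕ} (he : ∀ i, 0 < e i) {N m : ℕ} (hm : m < N)
    {S : Set (Fin 2 × Fin N → ℂ)} (hS : IsConstr S) (hS1 : S ⊆ Start 2 1 N)
    (hF : ∀ γ ∈ S, (PowerSeries.X : PowerSeries ℂ) ^ (m + 1) ∣ valF F γ)
    (hG : ∀ γ ∈ S, (PowerSeries.X : PowerSeries ℂ) ^ (m + 1) ∣ valF G γ) (n₀ : ℕ) :
    muJ F e N m S (Rg e N n₀) = muJ G e N m S (Rg e N n₀) := by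
  have key : ∀ (a b c : PowerSeries ℂ), (PowerSeries.X : PowerSeries ℂ) ^ (m + 1) ∣ a →
      (PowerSeries.X : PowerSeries ℂ) ^ (m + 1) ∣ b → (a + c).order = m → (b + c).order = m := by
    intro a b c ha hb h
    rw [PowerSeries.X_pow_dvd_iff] at ha hb
    rw [PowerSeries.order_eq_nat] at h ⊢
    refine ⟨?_, fun i hi => ?_⟩
    · have h1 := h.1
      rw [map_add, ha m (Nat.lt_succ_self m)] at h1
      rwa [map_add, hb m (Nat.lt_succ_self m)]
    · have h1 := h.2 i hi
      rw [map_add, ha i (by omega)] at h1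
      rwa [map_add, hb i (by omega)]
  unfold muJ
  congr 1
  ext x
  simp only [jset, Set.mem_ofPred_eq]
  refine and_congr_right fun h1 => and_congr_right fun _ => ?_
  exact ⟨key _ _ _ (hF _ h1) (hG _ h1), key _ _ _ (hG _ h1) (hF _ h1)⟩

end SU

end MPb07157
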