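import Pool.Agent.Lib.MP_b07157_agU.Defs

/-!
# The vertex model
-/

noncomputable section

namespace MPb07157

open MvPolynomial

namespace SU

open PC PC.VM

/-- The sum `g` of the vertex monomials of the Newton polygon of `F` has the same Newton polygon and
is non-degenerate; its monomials are monomials of `F`. -/
theorem exists_model' {F : P2} (hF : F ≠ 0) : ∃ g : MvPolynomial (Fin 2) ℂ, g ≠ 0 ∧
    (∀ v ∈ g.support, MvPowerSeries.coeff v F ≠ 0) ∧
    (∀ (w : Fin 2 → ℕ) (r : ℕ) (v : Fin 2 →₀ ℕ) (l : ℂ), (∀ j, 0 < w j) →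
      IsInit F w r (monomial v l) → IsInit (g : P2) w r (monomial v 1)) ∧
    (∀ (p q A B : ℕ) (lam : ℂ) (R : Finset ℂ) (μ : ℂ → ℕ), IsEdge F p q A B lam R μ →
      IsInit (g : P2) ![p, q] (edgeN p q A B R μ)
        (X 0 ^ A * X 1 ^ B * (X 1 ^ (p * ∑ c ∈ R, μ c) + X 0 ^ (q * ∑ c ∈ R, μ c)))) ∧
    (∀ a : Fin 2 → ℕ, (∀ j, 1 ≤ a j) → NondegAt g (face g a (nuf g a))) ∧
    (∀ (w : Fin 2 → ℕ) (N : ℕ), IsFacetWt g w N →
      (∃ A k, ExactPow F 0 A ∧ 0 < A ∧ 0 < k ∧ w = ![k, 0] ∧ N = k * A) ∨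
      (∃ B k, ExactPow F 1 B ∧ 0 < B ∧ 0 < k ∧ w = ![0, k] ∧ N = k * B) ∨
      (∃ (p q A B : ℕ) (lam : ℂ) (R : Finset ℂ) (μ : ℂ → ℕ) (k : ℕ), IsEdge F p q A B lam R μ ∧
        0 < k ∧ w = ![k * p, k * q] ∧ N = k * edgeN p q A B R μ)) := by
  classical
  obtain ⟨ι, _, p, q, A, B, lam, R, μ, hE, -, hall⟩ := exists_edges hF
  have hedge : ∀ (p q A B : ℕ) (lam : ℂ) (R : Finset ℂ) (μ : ℂ → ℕ),
      IsEdge F p q A B lam R μ → IsInit (gV F : P2) ![p, q] (edgeN p q A B R μ)
        (X 0 ^ A * X 1 ^ B * (X 1 ^ (p * ∑ c ∈ R, μ c) + X 0 ^ (q * ∑ c ∈ R, μ c))) := by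
    intro p q A B lam R μ h
    rw [← edge_form]
    exact gV_edge h
  have hg := gV_ne hF
  refine ⟨gV F, hg, fun v hv => vert_coeff (mem_support_gV.1 hv),
    fun w r v l hw h => gV_mono hw h, hedge, ?_, ?_⟩
  · intro a ha
    rcases hall a (fun j => ha j) with ⟨r, v, l, h⟩ | ⟨i, k, hk, rfl⟩
    · have h1 := gV_mono (fun j => ha j) h
      obtain ⟨m1, -, m3⟩ := minWt_of_init h1
      rw [(isMinWt_nuf hg a).eq m1]
      intro u hu h0
      exfalso
      rw [m3, eval_monomial, one_mul] at h0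
      rw [Finsupp.prod_fintype _ _ (fun _ => pow_zero _)] at h0
      exact (Finset.prod_ne_zero_iff.2 fun j _ => pow_ne_zero _ (hu j)) h0
    · have h1 := (hedge _ _ _ _ _ _ _ (hE i)).smul hk
      obtain ⟨m1, -, m3⟩ := minWt_of_init h1
      rw [(isMinWt_nuf hg _).eq m1]
      have hS : 0 < ∑ c ∈ R i, μ i c := Finset.sum_pos (hE i).hm (hE i).hR
      have hpS : 0 < p i * ∑ c ∈ R i, μ i c := Nat.mul_pos (hE i).hp hS
      intro u hu h0
      rw [m3] at h0 ⊢
      refine ⟨1, ?_⟩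
      generalize p i * ∑ c ∈ R i, μ i c = a at *
      generalize q i * ∑ c ∈ R i, μ i c = b at *
      have hX0 : ∀ A : ℕ, eval u (X 0 ^ A : MvPolynomial (Fin 2) ℂ) ≠ 0 := fun A => by
        rw [map_pow, eval_X]; exact pow_ne_zero _ (hu 0)
      have hX1 : ∀ A : ℕ, eval u (X 1 ^ A : MvPolynomial (Fin 2) ℂ) ≠ 0 := fun A => by
        rw [map_pow, eval_X]; exact pow_ne_zero _ (hu 1)
      have h2 : eval u (X 1 ^ a + X 0 ^ b : MvPolynomial (Fin 2) ℂ) = 0 := by
        rw [map_mul, map_mul] at h0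
        exact (mul_eq_zero.1 h0).resolve_left (mul_ne_zero (hX0 _) (hX1 _))
      have h3 : pderiv 1 (X 0 ^ b : MvPolynomial (Fin 2) ℂ) = 0 := by
        rw [pderiv_pow, pderiv_X_of_ne (by decide), mul_zero]
      have h4 : pderiv 1 (X 1 ^ a : MvPolynomial (Fin 2) ℂ) = (a : MvPolynomial (Fin 2) ℂ) *
          X 1 ^ (a - 1) := by
        rw [pderiv_pow, pderiv_X_self, mul_one]
      rw [pderiv_mul, map_add, map_mul, h2, mul_zero, zero_add, map_mul]
      rw [map_add, h3, h4, add_zero, map_mul, map_mul, map_natCast]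
      exact mul_ne_zero (mul_ne_zero (hX0 _) (hX1 _))
        (mul_ne_zero (Nat.cast_ne_zero.2 hpS.ne') (hX1 _))
  · rintro w N ⟨hmin, hN, hsp⟩
    have hwt : ∀ v, v ∈ (gV F).support → N ≤ w 0 * v 0 + w 1 * v 1 := by
      intro v hv
      have := hmin.1 v hv
      rwa [wt2] at this
    obtain ⟨v₀, hv₀, hv₀N⟩ := hmin.2
    rw [wt2] at hv₀N
    rcases Nat.eq_zero_or_pos (w 0) with hw0 | hw0
    · rcases Nat.eq_zero_or_pos (w 1) with hw1 | hw1
      · rw [hw0, hw1] at hv₀N
        omega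
      · -- horizontal
        right; left
        obtain ⟨v, hv, hvmin⟩ := vert_y hF
        have h1 := hwt v (mem_support_gV.2 hv)
        have h2 := hvmin v₀ (vert_coeff (mem_support_gV.1 hv₀))
        rw [hw0] at h1 hv₀N
        have h3 : w 1 * v 1 ≤ w 1 * v₀ 1 := Nat.mul_le_mul_left _ h2
        have h4 : N = w 1 * v 1 := by omega
        refine ⟨v 1, w 1, exactPow_of_min hvmin ⟨v, vert_coeff hv, rfl⟩, ?_, hw1, ?_, h4⟩
        · rcases Nat.eq_zero_or_pos (v 1) with h5 | h5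
          · rw [h5] at h4
            omega
          · exact h5
        · funext j
          fin_cases j
          · exact hw0
          · rfl
    · rcases Nat.eq_zero_or_pos (w 1) with hw1 | hw1
      · left
        obtain ⟨v, hv, hvmin⟩ := vert_x hF
        have h1 := hwt v (mem_support_gV.2 hv)
        have h2 := hvmin v₀ (vert_coeff (mem_support_gV.1 hv₀))
        rw [hw1] at h1 hv₀N
        have h3 : w 0 * v 0 ≤ w 0 * v₀ 0 := Nat.mul_le_mul_left _ h2
        have h4 : N = w 0 * v 0 := by omega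
        refine ⟨v 0, w 0, exactPow_of_min hvmin ⟨v, vert_coeff hv, rfl⟩, ?_, hw0, ?_, h4⟩
        · rcases Nat.eq_zero_or_pos (v 0) with h5 | h5
          · rw [h5] at h4
            omega
          · exact h5
        · funext j
          fin_cases j
          · rfl
          · exact hw1
      · right; right
        have hw : ∀ j, 0 < w j := by
          intro j
          fin_cases j
          · exact hw0
          · exact hw1
        rcases hall w hw with ⟨r, v, l, h⟩ | ⟨i, k, hk, hik⟩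
        · exfalso
          obtain ⟨m1, m2, -⟩ := minWt_of_init (gV_mono hw h)
          have h1 := hmin.eq m1
          rw [h1, m2, support_monomial, if_neg one_ne_zero] at hsp
          exact not_spans_singleton hw v hsp
        · subst hik
          have h1 := (hedge _ _ _ _ _ _ _ (hE i)).smul hk
          obtain ⟨m1, -, -⟩ := minWt_of_init h1
          exact ⟨_, _, _, _, _, _, _, k, hE i, hk, rfl, hmin.eq m1⟩

end SU

end MPb07157
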