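import Pool.Agent.Lib.MP_b07157_agU.J1

/-!
# The arcs near a root
-/

noncomputable section

namespace MPb07157

open MvPolynomial

namespace SU

open PC

variable {r : ℕ}

namespace L2h

open B1

/-! ### Shifts of the `(x, y)`-part of a jet -/

/-- The jet with the same `z`-part and shifted `(x, y)`-part. -/
def shJ {N : ℕ} (c : Fin 2 → ℕ) (x : JI r N → ℂ) : JI r N → ℂ :=
  Sum.elim (shA c (xyP x)) (zP x)

/-- The components of `shJ`. -/
def shJP {N : ℕ} (c : Fin 2 → ℕ) : JI r N → MvPolynomial (JI r N) ℂ :=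
  Sum.elim (fun p => rename Sum.inl (shP c p)) (fun p => X (Sum.inr p))

theorem polyMap_lift {σ τ : Type} (φ : σ → MvPolynomial σ ℂ) (x : σ ⊕ τ → ℂ) :
    polyMap (Sum.elim (fun p => rename Sum.inl (φ p)) (fun p => X (Sum.inr p)) :
      σ ⊕ τ → MvPolynomial (σ ⊕ τ) ℂ) x =
      Sum.elim (polyMap φ (fun p => x (Sum.inl p))) (fun p => x (Sum.inr p)) := by
  funext p
  rcases p with p | p
  · change eval x (rename Sum.inl (φ p)) = eval _ (φ p)
    rw [eval_rename]
    rfl
  · change eval x (X (Sum.inr p)) = _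
    rw [eval_X]
    rfl

theorem polyMap_shJP {N : ℕ} (c : Fin 2 → ℕ) (x : JI r N → ℂ) :
    polyMap (shJP c) x = shJ c x := by
  unfold shJP
  rw [polyMap_lift, polyMap_shP]
  rfl

theorem isConstr_shJ {N : ℕ} (c : Fin 2 → ℕ) {W : Set (JI r N → ℂ)} (hW : IsConstr W) :
    IsConstr {x | shJ c x ∈ W} := by
  have h := hW.preimage (shJP (r := r) (N := N) c)
  have h2 : polyMap (shJP c) ⁻¹' W = {x | shJ c x ∈ W} := by
    ext x
    rw [Set.mem_preimage, polyMap_shJP]
    rfl
  rwa [h2] at h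

/-- The class of the set of all jets `x` with `t^c x ∈ W`. -/
theorem cls_shJ {N : ℕ} {c : Fin 2 → ℕ} (hc : ∀ j, c j ≤ N) {W : Set (JI r N → ℂ)}
    (hW : IsConstr W) (hWV : ∀ x ∈ W, Vn c (xyP x)) :
    cls {x | shJ c x ∈ W} = cls W * L ^ (∑ j, c j) := by
  rw [← card_tail hc, ← cls_univ_eq (σ := {p : Fin 2 × Fin N // N ≤ (p.2 : ℕ) + c p.1}),
    ← cls_prodSum hW IsConstr.univ]
  have hmap : ∀ x : JI r N → ℂ, polyMap (Sum.elim (shJP c)
      (fun j : {p : Fin 2 × Fin N // N ≤ (p.2 : ℕ) + c p.1} => X (Sum.inl j.1))) x =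
      Sum.elim (shJ c x) (fun j => x (Sum.inl j.1)) := by
    intro x
    funext k
    rcases k with i | j
    · exact congrFun (polyMap_shJP c x) i
    · exact eval_X _
  refine cls_bijOn (isConstr_shJ c hW) (isConstr_prodSum hW IsConstr.univ)
    (Sum.elim (shJP c) (fun j => X (Sum.inl j.1))) ⟨?_, ?_, ?_⟩
  · intro x hx
    rw [hmap]
    exact ⟨hx, Set.mem_univ _⟩
  · intro x _ x' _ h
    rw [hmap, hmap] at h
    funext p
    rcases p with p | p
    · by_cases hp : N ≤ (p.2 : ℕ) + c p.1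
      · exact congrFun h (Sum.inr ⟨p, hp⟩)
      · have h1 := congrFun h (Sum.inl (Sum.inl (p.1, ⟨(p.2 : ℕ) + c p.1, not_le.1 hp⟩)))
        simp only [Sum.elim_inl, shJ, shA] at h1
        rw [if_neg (by omega), if_neg (by omega)] at h1
        have h2 : ((p.1, ⟨(p.2 : ℕ) + c p.1 - c p.1, lt_of_le_of_lt (Nat.sub_le _ _)
            (not_le.1 hp)⟩) : Fin 2 × Fin N) = p := by
          ext
          · rfl
          · exact Nat.add_sub_cancel _ _
        rw [h2] at h1
        exact h1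
    · exact congrFun h (Sum.inl (Sum.inr p))
  · rintro z ⟨hz, -⟩
    set z' : (Fin 2 × Fin N) ⊕ {p : Fin 2 × Fin N // N ≤ (p.2 : ℕ) + c p.1} → ℂ :=
      Sum.elim (fun p => z (Sum.inl (Sum.inl p))) (fun p => z (Sum.inr p)) with hz'
    have h0 : Vn c (fun i => z' (Sum.inl i)) := hWV _ hz
    have h1 : shA c (unshA c z') = fun i => z' (Sum.inl i) := shA_unshA h0
    have h2 : shJ c (Sum.elim (unshA c z') (fun p => z (Sum.inl (Sum.inr p))) : JI r N → ℂ) =
        fun i => z (Sum.inl i) := by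
      funext p
      rcases p with p | p
      · exact congrFun h1 p
      · rfl
    refine ⟨Sum.elim (unshA c z') (fun p => z (Sum.inl (Sum.inr p))), ?_, ?_⟩
    · show shJ c _ ∈ W
      rw [h2]
      exact hz
    · rw [hmap, h2]
      funext k
      rcases k with p | j
      · rfl
      · show unshA c z' j.1 = _
        unfold unshA
        rw [dif_neg (not_lt.2 j.2)]
        rfl

/-! ### The values -/

theorem dvd_phiA (F : P2) {p q α β : ℕ} (hp : 0 < p) (hq : 0 < q) (c : ℂ) {k N : ℕ}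
    (hN : 0 < N) (hk : 0 < k) {Z : Fin 2 × Fin N → ℂ}
    (hZ : PowerSeries.constantCoeff (arc Z 1) = 0) :
    (PowerSeries.X : PowerSeries ℂ) ^ N ∣
      valF (MvPowerSeries.subst (kap p q α β c) F) (shA ![k, 0] Z) -
        valF F (shA ![k * p, k * q] (phiA p q α β c Z)) := by
  have hb : ∀ j, PowerSeries.constantCoeff (arc (shA ![k, 0] Z) j) = 0 := by
    intro j
    fin_cases j
    · exact constantCoeff_shA hN (c := ![k, 0]) (j := 0) hk Z
    · show PowerSeries.constantCoeff (arc (shA ![k, 0] Z) 1) = 0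
      rw [constantCoeff_congr hN (arc_shA ![k, 0] Z 1)]
      show PowerSeries.constantCoeff ((PowerSeries.X : PowerSeries ℂ) ^ 0 * arc Z 1) = 0
      rw [pow_zero, one_mul, hZ]
  unfold valF
  rw [subst_subst_kap F hp hq α β c hb]
  have hy : ∀ j, PowerSeries.constantCoeff (arc (shA ![k * p, k * q] (phiA p q α β c Z)) j) = 0 := by
    intro j
    fin_cases j
    · exact constantCoeff_shA hN (c := ![k * p, k * q]) (j := 0) (Nat.mul_pos hk hp) _
    · exact constantCoeff_shA hN (c := ![k * p, k * q]) (j := 1) (Nat.mul_pos hk hq) _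
  -- the arcs before the shift
  have hb' : ∀ j, (PowerSeries.X : PowerSeries ℂ) ^ N ∣ arc (shA ![k, 0] Z) j -
      (![PowerSeries.X ^ k * arc Z 0, arc Z 1] : Fin 2 → PowerSeries ℂ) j := by
    intro j
    fin_cases j
    · exact arc_shA ![k, 0] Z 0
    · have h := arc_shA ![k, 0] Z 1
      have e : (PowerSeries.X : PowerSeries ℂ) ^ (![k, 0] : Fin 2 → ℕ) 1 * arc Z 1 = arc Z 1 := by
        show (PowerSeries.X : PowerSeries ℂ) ^ 0 * arc Z 1 = arc Z 1
        rw [pow_zero, one_mul]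
      rw [e] at h
      exact h
  have key : ∀ j, (PowerSeries.X : PowerSeries ℂ) ^ N ∣
      (aeval (arc (shA ![k, 0] Z)) (kapP p q α β c j) : PowerSeries ℂ) -
        arc (shA ![k * p, k * q] (phiA p q α β c Z)) j := by
    intro j
    have h1 := aeval_congr_X_pow N (kapP p q α β c j) _ _ hb'
    have h2 := arc_shA ![k * p, k * q] (phiA p q α β c Z) j
    fin_cases j
    · have h3 := (arc_phiA_zero p q α β c Z).mul_left (PowerSeries.X ^ (k * p))
      have h4 : (aeval (![PowerSeries.X ^ k * arc Z 0, arc Z 1] : Fin 2 → PowerSeries ℂ)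
          (kapP p q α β c 0) : PowerSeries ℂ) =
          PowerSeries.X ^ (k * p) * (arc Z 0 ^ p * (arc Z 1 + PowerSeries.C c) ^ β) := by
        rw [aeval_kapP_zero]
        show (PowerSeries.X ^ k * arc Z 0) ^ p * (arc Z 1 + PowerSeries.C c) ^ β = _
        ring
      have h5 := dvd_sub (dvd_sub h1 h3) h2
      have h6 : ∀ a b d e g : PowerSeries ℂ, b = PowerSeries.X ^ (k * p) * g →
          a - b - PowerSeries.X ^ (k * p) * (d - g) - (e - PowerSeries.X ^ (k * p) * d) =
            a - e := by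
        intro a b d e g h
        rw [h]
        ring
      rw [← h6 _ _ _ _ _ h4]
      exact h5
    · have h3 := (arc_phiA_one p q α β c Z).mul_left (PowerSeries.X ^ (k * q))
      have h4 : (aeval (![PowerSeries.X ^ k * arc Z 0, arc Z 1] : Fin 2 → PowerSeries ℂ)
          (kapP p q α β c 1) : PowerSeries ℂ) =
          PowerSeries.X ^ (k * q) * (arc Z 0 ^ q * (arc Z 1 + PowerSeries.C c) ^ α) := by
        rw [aeval_kapP_one]
        show (PowerSeries.X ^ k * arc Z 0) ^ q * (arc Z 1 + PowerSeries.C c) ^ α = _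
        ring
      have h5 := dvd_sub (dvd_sub h1 h3) h2
      have h6 : ∀ a b d e g : PowerSeries ℂ, b = PowerSeries.X ^ (k * q) * g →
          a - b - PowerSeries.X ^ (k * q) * (d - g) - (e - PowerSeries.X ^ (k * q) * d) =
            a - e := by
        intro a b d e g h
        rw [h]
        ring
      rw [← h6 _ _ _ _ _ h4]
      exact h5
  refine subst_congr F (fun j => ?_) hy key
  rw [constantCoeff_congr hN (key j)]
  exact hy j

theorem arcsV_one {N : ℕ} : arcsV (1 : P2) N 0 = Start 2 1 N := by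
  ext γ
  unfold arcsV
  constructor
  · rintro ⟨h, -⟩
    exact h
  · intro h
    refine ⟨h, ?_⟩
    have hs : MvPowerSeries.HasSubst (arc γ : Fin 2 → MvPowerSeries Unit ℂ) :=
      MvPowerSeries.hasSubst_of_constantCoeff_zero fun j => by
        have h1 := X_dvd_arc_of_mem_Start h j
        rw [pow_one] at h1
        exact PowerSeries.X_dvd_iff.1 h1
    have h2 : (MvPowerSeries.subst (arc γ : Fin 2 → MvPowerSeries Unit ℂ) (1 : P2) :
        PowerSeries ℂ) = 1 := by
      rw [← MvPowerSeries.coe_substAlgHom hs, map_one]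
    rw [h2, ← PowerSeries.order_eq_order]
    have h3 : (1 : PowerSeries ℂ).order = 0 := PowerSeries.order_one
    rw [Nat.cast_zero]
    exact h3

theorem Near_subset_Start {N p q k : ℕ} (hp : 0 < p) (hq : 0 < q) (hk : 0 < k) (c : ℂ) :
    Near N p q k c ⊆ Start 2 1 N := by
  rintro γ ⟨⟨h1, -⟩, -⟩ j i hi
  refine h1 j i (lt_of_lt_of_le hi ?_)
  fin_cases j
  · exact Nat.mul_pos hk hp
  · exact Nat.mul_pos hk hq

/-- The bijection between the shifted sets. -/
theorem bijOn_phi {p q α β : ℕ} (hp : 0 < p) (hq : 0 < q)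
    (hab : p * α = q * β + 1) {c : ℂ} (hc : c ≠ 0) {k N : ℕ} (hk : 0 < k) (hkp : k * p < N)
    (hkq : k * q < N) :
    Set.BijOn (polyMap (jetPoly (kapP p q α β c) N))
      {Z | shA ![k, 0] Z ∈ Start 2 1 N ∩ Xo N k}
      {Z | shA ![k * p, k * q] Z ∈ Near N p q k c} := by
  have hN : 0 < N := lt_of_le_of_lt (Nat.zero_le _) hkp
  have h := bijOn_phiA (1 : P2) hp hq hab hc hk hkp hkq hN
  have hk1 : MvPowerSeries.HasSubst (kap p q α β c) :=
    MvPowerSeries.hasSubst_of_constantCoeff_zero (constantCoeff_kap hp hq α β c)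
  have h1 : MvPowerSeries.subst (kap p q α β c) (1 : P2) = (1 : P2) := by
    rw [← MvPowerSeries.coe_substAlgHom hk1, map_one]
  rw [h1, arcsV_one, Set.inter_eq_self_of_subset_right (Near_subset_Start hp hq hk c)] at h
  exact h

/-- The map `kap` on jets. -/
def PhiP {N : ℕ} (p q α β : ℕ) (c : ℂ) : JI r N → MvPolynomial (JI r N) ℂ :=
  Sum.elim (fun i => rename Sum.inl (jetPoly (kapP p q α β c) N i)) (fun i => X (Sum.inr i))

theorem polyMap_PhiP {N : ℕ} (p q α β : ℕ) (c : ℂ) (x : JI r N → ℂ) :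
    polyMap (PhiP p q α β c) x = Sum.elim (phiA p q α β c (xyP x)) (zP x) := by
  unfold PhiP
  rw [polyMap_lift]
  rfl

theorem bijOn_Phi {F : P2} (e : Fin r → ℕ) {p q α β : ℕ} (hp : 0 < p) (hq : 0 < q)
    (hab : p * α = q * β + 1) {c : ℂ} (hc : c ≠ 0) {k N m : ℕ} (hk : 0 < k) (hkp : k * p < N)
    (hkq : k * q < N) (hm : m < N) {B : Set (Fin r × Fin N → ℂ)} :
    Set.BijOn (polyMap (PhiP p q α β c))
      {x | shJ ![k, 0] x ∈ jset (MvPowerSeries.subst (kap p q α β c) F) e N m
        (Start 2 1 N ∩ Xo N k) B}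
      {x | shJ ![k * p, k * q] x ∈ jset F e N m (Near N p q k c) B} := by
  have hN : 0 < N := lt_of_le_of_lt (Nat.zero_le _) hm
  have hb := bijOn_phi hp hq hab hc hk hkp hkq
  have hord : ∀ x : JI r N → ℂ, shA ![k, 0] (xyP x) ∈ Start 2 1 N ∩ Xo N k →
      ((val (MvPowerSeries.subst (kap p q α β c) F) e (shJ ![k, 0] x)).order = m ↔
        (val F e (shJ ![k * p, k * q] (polyMap (PhiP p q α β c) x))).order = m) := by
    intro x hx
    have hx1 := (mem_Start_shA hN hk).1 hx.1
    have h1 := dvd_phiA F (α := α) (β := β) hp hq c hN hk hx1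
    rw [polyMap_PhiP]
    exact mem_jset_congr e hm (ζ := zP x) h1
  refine ⟨?_, ?_, ?_⟩
  · rintro x ⟨h1, h2, h3⟩
    refine ⟨?_, ?_, ?_⟩
    · rw [polyMap_PhiP]
      exact hb.mapsTo (show xyP x ∈ {Z | shA ![k, 0] Z ∈ Start 2 1 N ∩ Xo N k} from h1)
    · rw [polyMap_PhiP]
      exact h2
    · exact (hord x h1).1 h3
  · rintro x ⟨h1, h2, h3⟩ y ⟨h1', h2', h3'⟩ hxy
    rw [polyMap_PhiP, polyMap_PhiP] at hxy
    have k1 : xyP x = xyP y := by
      refine hb.injOn (show xyP x ∈ {Z | shA ![k, 0] Z ∈ Start 2 1 N ∩ Xo N k} from h1)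
        (show xyP y ∈ {Z | shA ![k, 0] Z ∈ Start 2 1 N ∩ Xo N k} from h1') ?_
      funext i
      exact congrFun hxy (Sum.inl i)
    funext i
    rcases i with i | i
    · exact congrFun k1 i
    · exact congrFun hxy (Sum.inr i)
  · rintro y ⟨h1, h2, h3⟩
    obtain ⟨Z, hZ, hZ2⟩ := hb.surjOn
      (show xyP y ∈ {Z | shA ![k * p, k * q] Z ∈ Near N p q k c} from h1)
    have k1 : polyMap (PhiP p q α β c) (Sum.elim Z (zP y) : JI r N → ℂ) = y := by
      rw [polyMap_PhiP]
      funext i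
      rcases i with i | i
      · exact congrFun hZ2 i
      · rfl
    refine ⟨Sum.elim Z (zP y), ⟨hZ, h2, ?_⟩, k1⟩
    rw [hord (Sum.elim Z (zP y)) hZ, k1]
    exact h3

end L2h

open L2h

/-- The substitution `(x, y) = (u^p (v + c)^β, u^q (v + c)^α)` identifies the arcs near the root `c`
with the arcs in the `(u, v)`-plane with `ord u = k`, up to the Jacobian factor. -/
theorem near_rootJ {F : P2} (e : Fin r → ℕ) {p q α β : ℕ} (hp : 0 < p) (hq : 0 < q)
    (hab : p * α = q * β + 1) {c : ℂ} (hc : c ≠ 0) {k N m : ℕ} (hk : 0 < k) (hkp : k * p < N)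
    (hkq : k * q < N) (hm : m < N) {B : Set (Fin r × Fin N → ℂ)} (hB : IsConstr B) :
    muJ F e N m (Near N p q k c) B = P1aux.Lp ((p + q - 1) * k) *
      muJ (MvPowerSeries.subst (kap p q α β c) F) e N m (Start 2 1 N ∩ Xo N k) B := by
  have hkN : k < N := lt_of_le_of_lt (Nat.le_mul_of_pos_right k hp) hkp
  have hS1 : IsConstr (jset (MvPowerSeries.subst (kap p q α β c) F) e N m
      (Start 2 1 N ∩ Xo N k) B) :=
    isConstr_jset _ e hm ((isConstr_Start 2 1 N).inter (isConstr_Xo N k))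
      Set.inter_subset_left hB
  have hS2 : IsConstr (jset F e N m (Near N p q k c) B) :=
    isConstr_jset _ e hm (isConstr_Near N p q k c) (Near_subset_Start hp hq hk c) hB
  have h1 := cls_shJ (c := ![k, 0]) (N := N) (by
    intro j
    fin_cases j
    · exact hkN.le
    · exact Nat.zero_le _) hS1 (by
    rintro x ⟨⟨-, hγ⟩, -, -⟩ j i hi
    fin_cases j
    · exact hγ.1 i hi
    · exact absurd hi (Nat.not_lt_zero _))
  have h2 := cls_shJ (c := ![k * p, k * q]) (N := N) (by
    intro j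
    fin_cases j
    · exact hkp.le
    · exact hkq.le) hS2 (by
    rintro x ⟨hγ, -, -⟩
    exact hγ.1.1)
  have h3 := cls_bijOn (isConstr_shJ ![k, 0] hS1) (isConstr_shJ ![k * p, k * q] hS2) _
    (bijOn_Phi (F := F) (B := B) e hp hq hab hc hk hkp hkq hm)
  rw [h1, h2] at h3
  have e1 : ∑ j, (![k, 0] : Fin 2 → ℕ) j = k := by
    rw [Fin.sum_univ_two]
    rfl
  have e2 : ∑ j, (![k * p, k * q] : Fin 2 → ℕ) j = (p + q - 1) * k + k := by
    rw [Fin.sum_univ_two]
    show k * p + k * q = _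
    obtain ⟨r, rfl⟩ : ∃ r, p = r + 1 := ⟨p - 1, by omega⟩
    have e3 : r + 1 + q - 1 = r + q := by omega
    rw [e3]
    ring
  rw [e1, e2] at h3
  have h4 := congrArg (algebraMap K0 Mot) h3
  rw [map_mul, map_mul, map_pow, map_pow, ← LU_val, ← Units.val_pow_eq_pow_val,
    ← Units.val_pow_eq_pow_val, pow_add, Units.val_mul, ← mul_assoc] at h4
  have h5 := (Units.mul_left_inj (LU ^ k)).1 h4
  unfold muJ mJ
  have h6 : clsM (jset F e N m (Near N p q k c) B) =
      P1aux.Lp ((p + q - 1) * k) *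
        clsM (jset (MvPowerSeries.subst (kap p q α β c) F) e N m (Start 2 1 N ∩ Xo N k) B) := by
    have h7 : clsM (jset (MvPowerSeries.subst (kap p q α β c) F) e N m
          (Start 2 1 N ∩ Xo N k) B) =
        clsM (jset F e N m (Near N p q k c) B) * ((LU ^ ((p + q - 1) * k) : Motˣ) : Mot) := h5
    unfold P1aux.Lp
    rw [h7, mul_comm (clsM _), ← mul_assoc, zpow_neg, zpow_natCast, Units.inv_mul, one_mul]
  rw [h6, mul_left_comm]

end SU

end MPb07157
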