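import Pool.Agent.Lib.MP_b07157_agU.G1
import Pool.Agent.Lib.MP_b07157_agU.J3
import Pool.Agent.Lib.MP_b07157_agU.T0

/-!
# The stages with a simple root
-/

noncomputable section

namespace MPb07157

open MvPolynomial

namespace SU

open PC

variable {r : ℕ}

namespace M3h

/-- One nonzero coordinate. -/
def A1 : Set (Unit → ℂ) := {u | u () ≠ 0}

theorem isConstr_A1 : IsConstr A1 := by
  have := isConstr_ne_zero (X () : MvPolynomial Unit ℂ)
  simpa [A1] using this

theorem isConstr_coord {σ : Type} (i : σ) : IsConstr {x : σ → ℂ | x i = 0} := by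
  have := isConstr_eq_zero (X i : MvPolynomial σ ℂ)
  simpa using this

theorem isConstr_coord_ne {σ : Type} (i : σ) : IsConstr {x : σ → ℂ | x i ≠ 0} := by
  have := isConstr_ne_zero (X i : MvPolynomial σ ℂ)
  simpa using this

/-- The leading coefficients `(0, …, 0, u)`, `u ≠ 0`. -/
def TT (M : ℕ) : Set (Fin (M + 1) → ℂ) :=
  {v | (∀ j : Fin (M + 1), (j : ℕ) < M → v j = 0) ∧ v (Fin.last M) ≠ 0}

theorem isConstr_TT (M : ℕ) : IsConstr (TT M) := by
  refine isConstr_setOf_and ?_ (isConstr_coord_ne _)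
  have := isConstr_forall_mem (σ := Fin (M + 1)) (Finset.univ : Finset (Fin (M + 1)))
    (fun j v => (j : ℕ) < M → v j = 0) (fun j _ =>
      isConstr_setOf_imp (isConstr_const _) (isConstr_coord j))
  simpa using this

theorem cls_TT (M : ℕ) : cls (TT M) = cls A1 := by
  have h := cls_cell (fun _ : Unit => Fin.last M) (fun _ _ _ => rfl) A1 isConstr_A1
    (Finset.univ.erase (Fin.last M)) (fun _ => by simp) 0 (by
      rw [Finset.card_erase_of_mem (Finset.mem_univ _), Finset.card_univ, Fintype.card_fin,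
        Fintype.card_unit]
      omega)
  rw [pow_zero, mul_one] at h
  rw [← h]
  congr 1
  ext v
  simp only [TT, A1, Set.mem_ofPred_eq, Finset.mem_erase, Finset.mem_univ, and_true]
  constructor
  · rintro ⟨h1, h2⟩
    refine ⟨h2, fun j hj => h1 j ?_⟩
    have := j.2
    have h3 : (j : ℕ) ≠ M := fun h => hj (Fin.ext (by rw [h, Fin.val_last]))
    omega
  · rintro ⟨h1, h2⟩
    refine ⟨fun j hj => h2 j ?_, h1⟩
    intro h3
    rw [h3, Fin.val_last] at hj
    exact absurd hj (lt_irrefl M)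

theorem isConstr_SX {N k : ℕ} : IsConstr (Start 2 1 N ∩ Xo N k) :=
  (isConstr_Start 2 1 N).inter (isConstr_Xo N k)

theorem muN_SX {N k : ℕ} (hk : 1 ≤ k) (hkN : k < N) :
    muN N (Start 2 1 N ∩ Xo N k) = P1aux.Lp (k + 2) * clsM A1 := by
  classical
  have hc : (Finset.univ.filter fun p : Fin 2 × Fin N =>
      (p.2 : ℕ) < (![k, 1] : Fin 2 → ℕ) p.1).card = k + 1 := by
    have h1 : (Finset.univ.filter fun p : Fin 2 × Fin N =>
      (p.2 : ℕ) < (![k, 1] : Fin 2 → ℕ) p.1) = Zpos N ![k, 1] := by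
      ext p
      simp [Zpos]
    rw [h1, card_Zpos]
    · simp [Fin.sum_univ_two]
    · intro j
      fin_cases j
      · exact hkN.le
      · show 1 ≤ N
        omega
  have h := cls_cell (fun _ : Unit => ((0 : Fin 2), (⟨k, hkN⟩ : Fin N))) (fun _ _ _ => rfl) A1
    isConstr_A1 (Finset.univ.filter fun p : Fin 2 × Fin N =>
      (p.2 : ℕ) < (![k, 1] : Fin 2 → ℕ) p.1) (fun _ => by simp) (2 * N - (k + 2)) (by
      rw [hc, Fintype.card_prod, Fintype.card_fin, Fintype.card_fin, Fintype.card_unit]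
      omega)
  have hset : (Start 2 1 N ∩ Xo N k) = {x : Fin 2 × Fin N → ℂ |
      (fun _ : Unit => x ((0 : Fin 2), (⟨k, hkN⟩ : Fin N))) ∈ A1 ∧
      ∀ j ∈ (Finset.univ.filter fun p : Fin 2 × Fin N =>
        (p.2 : ℕ) < (![k, 1] : Fin 2 → ℕ) p.1), x j = 0} := by
    ext γ
    simp only [Start, Xo, A1, Set.mem_inter_iff, Set.mem_ofPred_eq, Finset.mem_filter,
      Finset.mem_univ, true_and]
    constructor
    · rintro ⟨h1, h2, h3⟩
      refine ⟨h3 hkN, ?_⟩
      rintro ⟨i, j⟩ hj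
      fin_cases i
      · exact h2 j hj
      · exact h1 1 j hj
    · rintro ⟨h1, h2⟩
      refine ⟨?_, ?_, fun _ => h1⟩
      · intro i j hj
        fin_cases i
        · exact h2 (0, j) (by show (j : ℕ) < k; omega)
        · exact h2 (1, j) hj
      · intro j hj
        exact h2 (0, j) hj
  unfold muN clsM
  rw [hset, h, map_mul, map_pow, ← LU_val, ← Units.val_pow_eq_pow_val]
  have h4 := J3h.Lp_eq (A := 2 * N) (B := k + 2) (C := 2 * N - (k + 2)) (by omega)
  rw [← h4]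
  ring

/-! ### The values -/

theorem coeff_mono_diff {A k j : ℕ} {a b b' : PowerSeries ℂ}
    (ha : (PowerSeries.X : PowerSeries ℂ) ^ k ∣ a)
    (hd : (PowerSeries.X : PowerSeries ℂ) ^ (1 + j) ∣ b - b') :
    PowerSeries.coeff (A * k + (1 + j)) (a ^ A * (b - b')) =
      (PowerSeries.coeff k a) ^ A * (PowerSeries.coeff (1 + j) b - PowerSeries.coeff (1 + j) b') := by
  obtain ⟨U, rfl⟩ := ha
  obtain ⟨V, hV⟩ := hd
  rw [← map_sub, hV]
  have e1 : (PowerSeries.X ^ k * U : PowerSeries ℂ) ^ A * (PowerSeries.X ^ (1 + j) * V) =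
      PowerSeries.X ^ (A * k + (1 + j)) * (U ^ A * V) := by
    rw [mul_pow, ← pow_mul, pow_add, mul_comm k A]
    ring
  rw [e1, PowerSeries.coeff_X_pow_mul', if_pos le_rfl, Nat.sub_self, PowerSeries.coeff_X_pow_mul',
    if_pos le_rfl, Nat.sub_self, PowerSeries.coeff_X_pow_mul', if_pos le_rfl, Nat.sub_self]
  simp

theorem dvd_pow_sub_pow {j l : ℕ} {b b' : PowerSeries ℂ} (hb : (PowerSeries.X : PowerSeries ℂ) ∣ b)
    (hb' : (PowerSeries.X : PowerSeries ℂ) ∣ b')
    (hd : (PowerSeries.X : PowerSeries ℂ) ^ (1 + j) ∣ b - b') :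
    (PowerSeries.X : PowerSeries ℂ) ^ (1 + j + l) ∣ b ^ (l + 1) - b' ^ (l + 1) := by
  rw [← (Commute.all b b').geom_sum₂_mul (l + 1), mul_comm, pow_add]
  refine mul_dvd_mul hd (Finset.dvd_sum fun i hi => ?_)
  have hi' := Finset.mem_range.1 hi
  have e1 : l = i + (l + 1 - 1 - i) := by omega
  nth_rw 1 [e1]
  rw [pow_add]
  exact mul_dvd_mul (pow_dvd_pow_of_dvd hb i) (pow_dvd_pow_of_dvd hb' _)

theorem coeff_term {A k j : ℕ} (hk : 1 ≤ k) {a b b' : PowerSeries ℂ}
    (ha : (PowerSeries.X : PowerSeries ℂ) ^ k ∣ a)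
    (hb : (PowerSeries.X : PowerSeries ℂ) ∣ b) (hb' : (PowerSeries.X : PowerSeries ℂ) ∣ b')
    (hd : (PowerSeries.X : PowerSeries ℂ) ^ (1 + j) ∣ b - b') {u v : ℕ} (hu : A ≤ u)
    (huv : ¬ (u = A ∧ v = 1)) :
    PowerSeries.coeff (A * k + (1 + j)) (a ^ u * (b ^ v - b' ^ v)) = 0 := by
  rcases Nat.eq_zero_or_pos v with rfl | hv
  · simp
  obtain ⟨l, rfl⟩ : ∃ l, v = l + 1 := ⟨v - 1, by omega⟩
  have h1 := dvd_pow_sub_pow (l := l) hb hb' hd
  have h2 : (PowerSeries.X : PowerSeries ℂ) ^ (k * u) ∣ a ^ u := by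
    rw [pow_mul]
    exact pow_dvd_pow_of_dvd ha u
  have h3 := mul_dvd_mul h2 h1
  rw [← pow_add] at h3
  refine PowerSeries.X_pow_dvd_iff.1 h3 _ ?_
  rcases eq_or_lt_of_le hu with h | h
  · subst h
    have h4 : l ≠ 0 := fun h => huv ⟨rfl, by omega⟩
    rw [mul_comm k A]
    omega
  · have h5 : k * (A + 1) ≤ k * u := Nat.mul_le_mul_left k h
    rw [Nat.mul_succ, mul_comm k A] at h5
    omega

theorem coeff_diff {P : MvPolynomial (Fin 2) ℂ} {A : ℕ}
    (h0 : ∀ v : Fin 2 →₀ ℕ, P.coeff v ≠ 0 → A ≤ v 0) {k j : ℕ} (hk : 1 ≤ k)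
    {x y : Fin 2 → PowerSeries ℂ} (hxy : x 0 = y 0) (ha : (PowerSeries.X : PowerSeries ℂ) ^ k ∣ x 0)
    (hb : (PowerSeries.X : PowerSeries ℂ) ∣ x 1) (hb' : (PowerSeries.X : PowerSeries ℂ) ∣ y 1)
    (hd : (PowerSeries.X : PowerSeries ℂ) ^ (1 + j) ∣ x 1 - y 1) :
    PowerSeries.coeff (A * k + (1 + j)) (aeval x P : PowerSeries ℂ) -
      PowerSeries.coeff (A * k + (1 + j)) (aeval y P : PowerSeries ℂ) =
      P.coeff (ex A 1) * (PowerSeries.coeff k (x 0)) ^ A *
        (PowerSeries.coeff (1 + j) (x 1) - PowerSeries.coeff (1 + j) (y 1)) := by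
  classical
  rw [← map_sub, aeval_def, aeval_def, eval₂_eq', eval₂_eq', ← Finset.sum_sub_distrib, map_sum]
  have e1 : ∀ v ∈ P.support, PowerSeries.coeff (A * k + (1 + j))
      (algebraMap ℂ (PowerSeries ℂ) (P.coeff v) * ∏ i, x i ^ v i -
        algebraMap ℂ (PowerSeries ℂ) (P.coeff v) * ∏ i, y i ^ v i) =
      if v = ex A 1 then P.coeff (ex A 1) * (PowerSeries.coeff k (x 0)) ^ A *
        (PowerSeries.coeff (1 + j) (x 1) - PowerSeries.coeff (1 + j) (y 1)) else 0 := by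
    intro v hv
    rw [Fin.prod_univ_two, Fin.prod_univ_two, ← mul_sub, ← hxy, ← mul_sub]
    have e2 : algebraMap ℂ (PowerSeries ℂ) (P.coeff v) = PowerSeries.C (P.coeff v) := rfl
    rw [e2, PowerSeries.coeff_C_mul]
    split_ifs with h
    · subst h
      rw [VM.ex_zero, VM.ex_one, pow_one, pow_one, coeff_mono_diff ha hd]
      ring
    · rw [coeff_term hk ha hb hb' hd (h0 v (mem_support_iff.1 hv)), mul_zero]
      rintro ⟨h1, h2⟩
      exact h (VM.ext2 (by rw [h1, VM.ex_zero]) (by rw [h2, VM.ex_one]))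
  rw [Finset.sum_congr rfl e1, Finset.sum_ite_eq']
  split_ifs with h
  · rfl
  · rw [notMem_support_iff.1 h, zero_mul, zero_mul]

theorem exists_val_poly (P : MvPolynomial (Fin 2) ℂ) (e : Fin r → ℕ) (N n : ℕ) :
    ∃ Q : MvPolynomial (JI r N) ℂ, ∀ x : JI r N → ℂ, eval x Q =
      PowerSeries.coeff n (aeval (arc (xyP x)) P + ∑ i, arc (zP x) i ^ e i : PowerSeries ℂ) := by
  obtain ⟨P1, hP1⟩ := exists_coeff_poly (N := N) P n
  obtain ⟨P2, hP2⟩ := exists_coeff_poly (N := N)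
    (∑ i : Fin r, (X i : MvPolynomial (Fin r) ℂ) ^ e i) n
  refine ⟨rename Sum.inl P1 + rename Sum.inr P2, fun x => ?_⟩
  have h1 := hP1 (xyP x)
  have h2 := hP2 (zP x)
  rw [map_sum] at h2
  simp only [map_pow, aeval_X] at h2
  rw [map_add, map_add, eval_rename, eval_rename, h1, h2]
  rfl

theorem X_pow_dvd_arc_zero {N k : ℕ} {γ : Fin 2 × Fin N → ℂ} (hγ : γ ∈ Start 2 1 N ∩ Xo N k) :
    (PowerSeries.X : PowerSeries ℂ) ^ k ∣ arc γ 0 :=
  PowerSeries.X_pow_dvd_iff.2 fun l hl => P1aux.coeff_arc_eq_zero hγ.2.1 l hl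

theorem X_dvd_arc_one {N k : ℕ} {γ : Fin 2 × Fin N → ℂ} (hγ : γ ∈ Start 2 1 N ∩ Xo N k) :
    (PowerSeries.X : PowerSeries ℂ) ∣ arc γ 1 := by
  have h := X_dvd_arc_of_mem_Start hγ.1 1
  rwa [pow_one] at h

theorem valF_dvd {F : P2} {A : ℕ} (hF : YOrd F A 1) {N k : ℕ} (hk : 1 ≤ k)
    {γ : Fin 2 × Fin N → ℂ} (hγ : γ ∈ Start 2 1 N ∩ Xo N k) :
    (PowerSeries.X : PowerSeries ℂ) ^ (A * k + 1) ∣ valF F γ := by
  refine le_order_subst (w := ![k, 1]) ?_ ?_ ?_
  · intro j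
    fin_cases j
    · exact hk
    · exact Nat.one_pos
  · intro v hv
    simp only [wt, Fin.sum_univ_two, Matrix.cons_val_zero, Matrix.cons_val_one] at hv
    have hvv : v = ex (v 0) (v 1) := VM.ext2 (VM.ex_zero _ _).symm (VM.ex_one _ _).symm
    rcases lt_or_ge (v 0) A with h | h
    · rw [hvv]
      exact hF.1 _ h _
    · have h2 : k * A ≤ k * v 0 := Nat.mul_le_mul_left k h
      rw [mul_comm k A] at h2
      have h3 : v 1 = 0 := by omega
      have h4 : v 0 = A := by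
        rcases eq_or_lt_of_le h with h5 | h5
        · exact h5.symm
        · have h6 : k * (A + 1) ≤ k * v 0 := Nat.mul_le_mul_left k h5
          rw [Nat.mul_succ, mul_comm k A] at h6
          omega
      rw [hvv, h3, h4]
      exact hF.2.1 0 one_pos
  · intro j
    fin_cases j
    · exact X_pow_dvd_arc_zero hγ
    · show (PowerSeries.X : PowerSeries ℂ) ^ 1 ∣ arc γ 1
      rw [pow_one]
      exact X_dvd_arc_one hγ

/-- The arcs with `ord x = k` and `e_i ord z_i > n`. -/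
def SS (e : Fin r → ℕ) (N k n : ℕ) : Set (JI r N → ℂ) :=
  {x | xyP x ∈ Start 2 1 N ∩ Xo N k ∧ zP x ∈ Rg e N n}

theorem isConstr_SS (e : Fin r → ℕ) (N k n : ℕ) : IsConstr (SS e N k n) :=
  (isConstr_xyP isConstr_SX).inter (isConstr_zP (isConstr_Rg e N n))

/-- The position of the coefficient of `t^(1+j)` of `y`. -/
def dd {N M : ℕ} (h : M + 1 < N) (l : Fin (M + 1)) : (Fin 2 × Fin N) ⊕ (Fin r × Fin N) :=
  Sum.inl (1, ⟨1 + (l : ℕ), by omega⟩)

theorem dd_injective {N M : ℕ} (h : M + 1 < N) : Function.Injective (dd (r := r) h) := by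
  intro l l' hl
  have h1 := Sum.inl_injective hl
  have h2 := congrArg (fun p : Fin 2 × Fin N => (p.2 : ℕ)) h1
  simp only at h2
  exact Fin.ext (by omega)

theorem xyP_zero_of {N M : ℕ} {h : M + 1 < N} {x y : JI r N → ℂ}
    (hxy : ∀ s, (∀ l : Fin (M + 1), s ≠ dd h l) → x s = y s) (j : Fin N) :
    xyP x (0, j) = xyP y (0, j) := by
  refine hxy _ fun l hl => ?_
  have h1 := congrArg Prod.fst (Sum.inl_injective hl)
  exact absurd h1 (by simp)

theorem zP_of {N M : ℕ} {h : M + 1 < N} {x y : JI r N → ℂ}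
    (hxy : ∀ s, (∀ l : Fin (M + 1), s ≠ dd h l) → x s = y s) : zP x = zP y := by
  funext p
  exact hxy _ fun l hl => by simp [dd] at hl

theorem xyP_one_of {N M : ℕ} {h : M + 1 < N} {x y : JI r N → ℂ} {j : ℕ}
    (hxy : ∀ s, (∀ l : Fin (M + 1), j ≤ (l : ℕ) → s ≠ dd h l) → x s = y s) (i : Fin N)
    (hi : (i : ℕ) < 1 + j) : xyP x (1, i) = xyP y (1, i) := by
  refine hxy _ fun l hl hl' => ?_
  have h1 := congrArg (fun p : Fin 2 × Fin N => (p.2 : ℕ)) (Sum.inl_injective hl')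
  simp only at h1
  omega

theorem mem_SS_congr {e : Fin r → ℕ} {N M k n : ℕ} {h : M + 1 < N} {x y : JI r N → ℂ}
    (hxy : ∀ s, (∀ l : Fin (M + 1), s ≠ dd h l) → x s = y s) :
    x ∈ SS e N k n ↔ y ∈ SS e N k n := by
  have h0 := xyP_zero_of hxy
  have h1 : ∀ i : Fin N, (i : ℕ) < 1 → xyP x (1, i) = xyP y (1, i) := fun i hi =>
    xyP_one_of (j := 0) (fun s hs => hxy s fun l => hs l (Nat.zero_le _)) i (by omega)
  have hz := zP_of hxy
  have h2 : xyP x ∈ Start 2 1 N ∩ Xo N k ↔ xyP y ∈ Start 2 1 N ∩ Xo N k := by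
    have e1 : xyP x ∈ Start 2 1 N ↔ xyP y ∈ Start 2 1 N := by
      refine forall_congr' fun i => forall_congr' fun j => imp_congr_right fun hj => ?_
      fin_cases i
      · show xyP x (0, j) = 0 ↔ xyP y (0, j) = 0
        rw [h0]
      · show xyP x (1, j) = 0 ↔ xyP y (1, j) = 0
        rw [h1 j hj]
    have e2 : xyP x ∈ Xo N k ↔ xyP y ∈ Xo N k := by
      unfold Xo
      simp only [Set.mem_ofPred_eq, h0]
    exact and_congr e1 e2
  show _ ∧ _ ↔ _ ∧ _
  rw [h2, hz]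

/-- The coefficients of the value. -/
theorem coeff_val {F : P2} {P : MvPolynomial (Fin 2) ℂ} {N : ℕ}
    (hP : ∀ v : Fin 2 →₀ ℕ, v 0 + v 1 < N → MvPowerSeries.coeff v F = P.coeff v)
    (e : Fin r → ℕ) {x : JI r N → ℂ} (hx : xyP x ∈ Start 2 1 N) {n : ℕ} (hn : n < N) :
    PowerSeries.coeff n (val F e x) =
      PowerSeries.coeff n (aeval (arc (xyP x)) P + ∑ i, arc (zP x) i ^ e i : PowerSeries ℂ) := by
  obtain ⟨H, hH⟩ := subst_eq_add (F := F) (P := P) (w := fun _ => 1) (r := N)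
    (fun _ => one_pos) (fun v hv => hP v (by
      rw [wt, Fin.sum_univ_two, one_mul, one_mul] at hv
      exact hv)) (X_dvd_arc_of_mem_Start hx)
  have h1 : val F e x = (aeval (arc (xyP x)) P + ∑ i, arc (zP x) i ^ e i : PowerSeries ℂ) +
      PowerSeries.X ^ N * H := by
    unfold val valF
    rw [hH]
    ring
  have h2 : PowerSeries.coeff n (PowerSeries.X ^ N * H : PowerSeries ℂ) = 0 :=
    PowerSeries.X_pow_dvd_iff.1 (dvd_mul_right _ _) n hn
  rw [h1, map_add, h2, add_zero]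

theorem muJ_simple {F : P2} {A : ℕ} (hA : 1 ≤ A) (hF : YOrd F A 1) {e : Fin r → ℕ}
    (he : ∀ i, 0 < e i) {N m k : ℕ} (hk : 1 ≤ k) (hm : m < N) (hkm : A * k < m) :
    muJ F e N m (Start 2 1 N ∩ Xo N k) (Rg e N (A * k)) =
      clsM A1 * clsM A1 * P1aux.Lp (r + 2) * P1aux.Lp (k + sg e (A * k) + (m - A * k)) := by
  obtain ⟨M, rfl⟩ : ∃ M, m = A * k + (M + 1) := ⟨m - A * k - 1, by omega⟩
  have hkA : k ≤ A * k := Nat.le_mul_of_pos_left k hA
  have hAk : A ≤ A * k := Nat.le_mul_of_pos_right A hk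
  have hMN : M + 1 < N := by omega
  obtain ⟨P, hP'⟩ := exists_trunc F (N - 1)
  have hP : ∀ v : Fin 2 →₀ ℕ, v 0 + v 1 < N → MvPowerSeries.coeff v F = P.coeff v := fun v hv =>
    (hP' v).resolve_right fun h => by omega
  have hP0 : ∀ v : Fin 2 →₀ ℕ, P.coeff v ≠ 0 → A ≤ v 0 := by
    intro v hv
    by_contra h
    apply hv
    have h1 : MvPowerSeries.coeff v F = 0 := by
      have hvv : v = ex (v 0) (v 1) := VM.ext2 (VM.ex_zero _ _).symm (VM.ex_one _ _).symm
      rw [hvv]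
      exact hF.1 _ (not_le.1 h) _
    rcases hP' v with h2 | h2
    · rw [← h2, h1]
    · exact h2.2
  have hPA : P.coeff (ex A 1) ≠ 0 := by
    rw [← hP _ (by rw [VM.ex_zero, VM.ex_one]; omega)]
    exact hF.2.2
  choose Q hQ using fun n : ℕ => exists_val_poly P e N n
  have htri := tri_cls (dd_injective (r := r) hMN) (S := SS e N k (A * k)) (isConstr_SS e N k _)
    (fun x y hxy => mem_SS_congr hxy) (fun j => Q (A * k + (1 + (j : ℕ))))
    (fun x => P.coeff (ex A 1) * (xyP x (0, ⟨k, by omega⟩)) ^ A) (by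
      intro x hx
      exact mul_ne_zero hPA (pow_ne_zero _ (hx.1.2.2 (by omega)))) (by
      intro x y hxy
      show _ * _ ^ A = _ * _ ^ A
      rw [xyP_zero_of hxy]) (by
      intro j x hx y hy hxy
      have h0 : ∀ i, xyP x (0, i) = xyP y (0, i) :=
        xyP_zero_of (fun s hs => hxy s fun l _ => hs l)
      have h1 := xyP_one_of (j := (j : ℕ)) (x := x) (y := y) (h := hMN)
        (fun s hs => hxy s fun l hl => hs l hl)
      have hz : zP x = zP y := zP_of (fun s hs => hxy s fun l _ => hs l)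
      have ha0 : arc (xyP x) 0 = arc (xyP y) 0 := by
        ext n
        rw [coeff_arc, coeff_arc]
        split_ifs with h
        · exact h0 _
        · rfl
      have hd : (PowerSeries.X : PowerSeries ℂ) ^ (1 + (j : ℕ)) ∣
          arc (xyP x) 1 - arc (xyP y) 1 := by
        rw [PowerSeries.X_pow_dvd_iff]
        intro n hn
        rw [map_sub, coeff_arc, coeff_arc]
        split_ifs with h
        · rw [h1 ⟨n, h⟩ hn, sub_self]
        · rw [sub_self]
      have hdiff := coeff_diff (P := P) hP0 hk ha0 (X_pow_dvd_arc_zero hx.1)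
        (X_dvd_arc_one hx.1) (X_dvd_arc_one hy.1) hd
      have hjN : 1 + (j : ℕ) < N := by
        have := j.2
        omega
      have c1 : PowerSeries.coeff k (arc (xyP x) 0) = xyP x (0, ⟨k, by omega⟩) := by
        rw [coeff_arc, dif_pos]
      have c2 : ∀ z : JI r N → ℂ, PowerSeries.coeff (1 + (j : ℕ)) (arc (xyP z) 1) =
          z (dd hMN j) := by
        intro z
        rw [coeff_arc, dif_pos hjN]
        rfl
      rw [c1, c2, c2] at hdiff
      show eval x (Q _) - _ = eval y (Q _) - _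
      rw [hQ, hQ, map_add, map_add, hz, ← h0]
      linear_combination hdiff) (isConstr_TT M)
  have hset : jset F e N (A * k + (M + 1)) (Start 2 1 N ∩ Xo N k) (Rg e N (A * k)) =
      {x | x ∈ SS e N k (A * k) ∧
        (fun j : Fin (M + 1) => eval x (Q (A * k + (1 + (j : ℕ))))) ∈ TT M} := by
    ext x
    have key : x ∈ SS e N k (A * k) → ((val F e x).order = (A * k + (M + 1) : ℕ) ↔
        (fun j : Fin (M + 1) => eval x (Q (A * k + (1 + (j : ℕ))))) ∈ TT M) := by
      intro hx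
      have hd : (PowerSeries.X : PowerSeries ℂ) ^ (A * k + 1) ∣ val F e x :=
        dvd_add (valF_dvd hF hk hx.1) (dvd_of_mem_Rg he (by omega) hx.2)
      rw [PowerSeries.X_pow_dvd_iff] at hd
      have hc : ∀ n, n < N → eval x (Q n) = PowerSeries.coeff n (val F e x) := by
        intro n hn
        rw [hQ, coeff_val hP e hx.1.1 hn]
      rw [PowerSeries.order_eq_nat]
      constructor
      · rintro ⟨h1, h2⟩
        refine ⟨fun j hj => ?_, ?_⟩
        · show eval x (Q _) = 0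
          rw [hc _ (by omega)]
          exact h2 _ (by omega)
        · show eval x (Q _) ≠ 0
          rw [Fin.val_last, hc _ (by omega), add_comm 1 M]
          exact h1
      · rintro ⟨h1, h2⟩
        refine ⟨?_, fun i hi => ?_⟩
        · have h3 : eval x (Q (A * k + (1 + ((Fin.last M : Fin (M + 1)) : ℕ)))) ≠ 0 := h2
          rw [Fin.val_last, hc _ (by omega), add_comm 1 M] at h3
          exact h3
        · rcases lt_or_ge i (A * k + 1) with h3 | h3
          · exact hd i h3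
          · obtain ⟨j, rfl⟩ : ∃ j, i = A * k + (1 + j) := ⟨i - (A * k + 1), by omega⟩
            have h4 := h1 ⟨j, by omega⟩ (by show j < M; omega)
            have h5 : eval x (Q (A * k + (1 + j))) = 0 := h4
            rwa [hc _ (by omega)] at h5
    constructor
    · rintro ⟨h1, h2, h3⟩
      exact ⟨⟨h1, h2⟩, (key ⟨h1, h2⟩).1 h3⟩
    · rintro ⟨h1, h2⟩
      exact ⟨h1.1, h1.2, (key h1).2 h2⟩
  have hcl : clsM (jset F e N (A * k + (M + 1)) (Start 2 1 N ∩ Xo N k) (Rg e N (A * k))) =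
      P1aux.Lp (M + 1) * (clsM (SS e N k (A * k)) * clsM A1) := by
    have h1 := congrArg (algebraMap K0 Mot) htri
    rw [← hset, map_mul, map_mul, map_pow, ← LU_val, ← Units.val_pow_eq_pow_val, cls_TT] at h1
    unfold clsM
    rw [← h1, ← mul_assoc]
    unfold P1aux.Lp
    rw [← Units.val_mul, ← zpow_natCast, ← zpow_add, neg_add_cancel, zpow_zero, Units.val_one,
      one_mul]
  have hS : ((LU ^ ((2 + r) * N))⁻¹ : Motˣ) * clsM (SS e N k (A * k)) =
      P1aux.Lp (k + 2) * clsM A1 * P1aux.Lp (sg e (A * k) + r) := by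
    have hkN : k < N := by omega
    have hAN : A * k < N := by omega
    rw [← muN_SX hk hkN, ← mJ_Rg he hAN isConstr_SX]
    rfl
  unfold muJ mJ
  rw [hcl]
  have h3 : (((LU ^ ((2 + r) * N))⁻¹ : Motˣ) : Mot) * (P1aux.Lp (M + 1) *
      (clsM (SS e N k (A * k)) * clsM A1)) = P1aux.Lp (M + 1) *
      ((((LU ^ ((2 + r) * N))⁻¹ : Motˣ) : Mot) * clsM (SS e N k (A * k))) * clsM A1 := by ring
  rw [h3, hS]
  have h4 : P1aux.Lp (M + 1) * P1aux.Lp (k + 2) * P1aux.Lp (sg e (A * k) + r) =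
      P1aux.Lp (r + 2) * P1aux.Lp (k + sg e (A * k) + (A * k + (M + 1) - A * k)) := by
    rw [← P1aux.Lp_add, ← P1aux.Lp_add, ← P1aux.Lp_add]
    congr 1
    omega
  linear_combination (clsM A1 * clsM A1) * h4

theorem ZR_eq_ser2 {F : P2} {A : ℕ} (hA : 1 ≤ A) (hF : YOrd F A 1) {e : Fin r → ℕ}
    (he : ∀ i, 0 < e i) {a : ℕ} (ha : 1 ≤ a) {K : ℕ} (hK : 1 ≤ K) :
    ZR F e a A K = ser2 e (fun _ => clsM A1 * clsM A1 * P1aux.Lp (r + 2)) a A := by
  ext m
  rw [ZR, ser2, PowerSeries.coeff_mk, PowerSeries.coeff_mk]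
  have hmK : m < K * (m + 1) := by
    have := Nat.le_mul_of_pos_left (m + 1) hK
    omega
  have hz : ∀ k, 1 ≤ k → m ≤ A * k →
      muJ F e (K * (m + 1)) m (Start 2 1 (K * (m + 1)) ∩ Xo (K * (m + 1)) k)
        (Rg e (K * (m + 1)) (A * k)) = 0 := by
    intro k hk hmk
    refine muJ_eq_zero F e fun γ hγ ζ hζ => dvd_add ?_ ?_
    · exact (pow_dvd_pow _ (by omega)).trans (valF_dvd hF hk hγ)
    · refine dvd_of_mem_Rg he hmK fun i j hj => hζ i j (hj.trans hmk)
  rw [← Finset.sum_subset (Finset.Icc_subset_Icc (le_refl 1) hmK.le)]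
  · refine Finset.sum_congr rfl fun k hk => ?_
    have hk1 := (Finset.mem_Icc.1 hk).1
    split_ifs with h
    · rw [muJ_simple hA hF he hk1 hmK h]
      have h2 : P1aux.Lp ((a - 1) * k) * P1aux.Lp (k + sg e (A * k) + (m - A * k)) =
          P1aux.Lp (a * k + sg e (A * k) + (m - A * k)) := by
        rw [← P1aux.Lp_add]
        congr 1
        obtain ⟨b, rfl⟩ : ∃ b, a = b + 1 := ⟨a - 1, by omega⟩
        rw [Nat.add_sub_cancel, add_mul, one_mul]
        ring
      linear_combination (clsM A1 * clsM A1 * P1aux.Lp (r + 2)) * h2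
    · rw [hz k hk1 (not_lt.1 h), mul_zero]
  · intro k hk hk'
    rw [Finset.mem_Icc] at hk hk'
    have h2 : k ≤ A * k := Nat.le_mul_of_pos_left k hA
    rw [hz k hk.1 (by omega), mul_zero]

end M3h

/-- At a simple root, `F = x^A (y u(x, y) + φ(x))`, `u(0) ≠ 0`: the zeta function is a geometric
series. -/
theorem ZR_simple {F : P2} {A : ℕ} (hA : 1 ≤ A) (hF : YOrd F A 1) {e : Fin r → ℕ}
    (he : ∀ i, 0 < e i) {a : ℕ} (ha : 1 ≤ a) {K : ℕ} (hK : 1 ≤ K) {s₀ : ℚ} (h1 : s₀ ≠ -1)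
    (h : (a : ℚ) ≠ -(s₀ + hn e) * A) : ZR F e a A K ∈ regularAt s₀ := by
  rw [M3h.ZR_eq_ser2 hA hF he ha hK]
  exact ser2_mem he _ hA h h1

end SU

end MPb07157
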