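import Pool.Agent.Lib.MP_b07157_agU.M2
import Pool.Agent.Lib.MP_b07157_agU.M3

/-!
# The zeta functions of the models
-/

noncomputable section

namespace MPb07157

open MvPolynomial

namespace SU

open PC

variable {r : ℕ}

namespace M4

/-- The reference polynomial `x^A (y + x^L)`. -/
def ref (A L : ℕ) : MvPolynomial (Fin 2) ℂ := monomial (ex A 1) 1 + monomial (ex (A + L) 0) 1

theorem ex_inj {i j i' j' : ℕ} (h : ex i j = ex i' j') : i = i' ∧ j = j' := by
  constructor
  · have := congrArg (fun v : Fin 2 →₀ ℕ => v 0) h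
    simpa [ex] using this
  · have := congrArg (fun v : Fin 2 →₀ ℕ => v 1) h
    simpa [ex] using this

theorem ex_zero (i j : ℕ) : ex i j 0 = i := by simp [ex]

theorem ex_one (i j : ℕ) : ex i j 1 = j := by simp [ex]

theorem coeff_ref (A L : ℕ) (v : Fin 2 →₀ ℕ) : coeff v (ref A L) =
    (if ex A 1 = v then 1 else 0) + (if ex (A + L) 0 = v then 1 else 0) := by
  classical
  rw [ref, coeff_add, coeff_monomial, coeff_monomial]

theorem ex_ne (A L : ℕ) : ex A 1 ≠ ex (A + L) 0 := fun h => by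
  have := (ex_inj h).2
  omega

theorem mem_support_ref {A L : ℕ} {v : Fin 2 →₀ ℕ} :
    v ∈ (ref A L).support ↔ v = ex A 1 ∨ v = ex (A + L) 0 := by
  classical
  rw [mem_support_iff, coeff_ref]
  have h := ex_ne A L
  constructor
  · intro h1
    by_contra h2
    push Not at h2
    rw [if_neg (Ne.symm h2.1), if_neg (Ne.symm h2.2)] at h1
    exact h1 (add_zero 0)
  · rintro (rfl | rfl)
    · rw [if_pos rfl, if_neg (Ne.symm h)]
      simp
    · rw [if_neg h, if_pos rfl]
      simp

theorem ref_ne_zero (A L : ℕ) : ref A L ≠ 0 := by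
  intro h
  have h1 : ex A 1 ∈ (ref A L).support := mem_support_ref.2 (Or.inl rfl)
  rw [h] at h1
  simp at h1

theorem wt_ex (w : Fin 2 → ℕ) (i j : ℕ) : wt w (ex i j) = w 0 * i + w 1 * j := by
  rw [wt, Fin.sum_univ_two, ex_zero, ex_one]

theorem ref_nondeg (A L : ℕ) (a : Fin 2 → ℕ) :
    NondegAt (ref A L) (face (ref A L) a (nuf (ref A L) a)) := by
  classical
  intro u hu h0
  have hX : ∀ v : Fin 2 →₀ ℕ, (∏ j, u j ^ v j) ≠ 0 := fun v =>
    Finset.prod_ne_zero_iff.2 fun j _ => pow_ne_zero _ (hu j)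
  have hc1 : coeff (ex A 1) (ref A L) = 1 := by
    rw [coeff_ref, if_pos rfl, if_neg (Ne.symm (ex_ne A L)), add_zero]
  have hc2 : coeff (ex (A + L) 0) (ref A L) = 1 := by
    rw [coeff_ref, if_neg (ex_ne A L), if_pos rfl, zero_add]
  have hp1 : pderiv 1 (monomial (ex (A + L) 0) (1 : ℂ)) = 0 := by
    rw [pderiv_monomial, ex_one]
    simp
  have hp2 : eval u (pderiv 1 (monomial (ex A 1) (1 : ℂ))) ≠ 0 := by
    rw [pderiv_monomial, ex_one, eval_monomial, Finsupp.prod_fintype _ _ fun _ => pow_zero _]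
    exact mul_ne_zero (by norm_num) (hX _)
  set I := face (ref A L) a (nuf (ref A L) a) with hI
  have hsub : ∀ v ∈ I, v = ex A 1 ∨ v = ex (A + L) 0 := fun v hv =>
    mem_support_ref.1 (Finset.filter_subset _ _ hv)
  have hne : I.Nonempty := by
    obtain ⟨-, v, hv, hv2⟩ := isMinWt_nuf (ref_ne_zero A L) a
    exact ⟨v, Finset.mem_filter.2 ⟨hv, hv2⟩⟩
  by_cases h1 : ex A 1 ∈ I
  · refine ⟨1, ?_⟩
    by_cases h2 : ex (A + L) 0 ∈ I
    · have hI2 : I = {ex A 1, ex (A + L) 0} := by
        ext v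
        rw [Finset.mem_insert, Finset.mem_singleton]
        exact ⟨hsub v, fun h => by rcases h with rfl | rfl <;> assumption⟩
      rw [inForm, hI2, Finset.sum_pair (ex_ne A L), hc1, hc2, map_add, hp1, add_zero]
      exact hp2
    · have hI2 : I = {ex A 1} := by
        ext v
        rw [Finset.mem_singleton]
        exact ⟨fun hv => (hsub v hv).resolve_right fun h => h2 (h ▸ hv), fun h => h ▸ h1⟩
      rw [inForm, hI2, Finset.sum_singleton, hc1]
      exact hp2
  · exfalso
    have hI2 : I = {ex (A + L) 0} := by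
      ext v
      rw [Finset.mem_singleton]
      refine ⟨fun hv => (hsub v hv).resolve_left fun h => h1 (h ▸ hv), ?_⟩
      rintro rfl
      obtain ⟨v, hv⟩ := hne
      rcases hsub v hv with rfl | rfl
      · exact absurd hv h1
      · exact hv
    rw [inForm, hI2, Finset.sum_singleton, hc2, eval_monomial,
      Finsupp.prod_fintype _ _ fun _ => pow_zero _, one_mul] at h0
    exact hX _ h0

theorem ref_facet {A L a : ℕ} {s : ℚ} (h1 : (a : ℚ) ≠ s * A)
    (h2 : ((a + L : ℕ) : ℚ) ≠ s * (A + L : ℕ)) {w : Fin 2 → ℕ} {N : ℕ}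
    (hw : IsFacetWt (ref A L) w N) : ((a * w 0 + w 1 : ℕ) : ℚ) ≠ s * N := by
  classical
  obtain ⟨⟨hmin, v₀, hv₀, hv₀N⟩, hN, hsp⟩ := hw
  have m1 := hmin _ (mem_support_ref.2 (Or.inl rfl) : ex A 1 ∈ (ref A L).support)
  have m2 := hmin _ (mem_support_ref.2 (Or.inr rfl) : ex (A + L) 0 ∈ (ref A L).support)
  rw [wt_ex] at m1 m2
  rw [mul_one] at m1
  rw [mul_zero, add_zero] at m2
  have hw0 : 0 < w 0 := by
    rcases Nat.eq_zero_or_pos (w 0) with h | h
    · rw [h, zero_mul] at m2
      omega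
    · exact h
  have hw0Q : (w 0 : ℚ) ≠ 0 := by exact_mod_cast hw0.ne'
  by_cases c1 : N = w 0 * A + w 1
  · by_cases c2 : N = w 0 * (A + L)
    · have e1 : w 1 = w 0 * L := by
        rw [Nat.mul_add] at c2
        omega
      intro h
      apply h2
      rw [e1, c2] at h
      have h3 : (w 0 : ℚ) * ((a + L : ℕ) : ℚ) = (w 0 : ℚ) * (s * (A + L : ℕ)) := by
        push_cast at h ⊢
        linear_combination h
      exact mul_left_cancel₀ hw0Q h3
    · -- the face is `{(A, 1)}`
      have e1 : w 1 = 0 := by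
        by_contra hne
        have h3 := hsp ![1, -(A : ℤ)] (fun j hj => by
          fin_cases j
          · exact absurd hj hw0.ne'
          · exact absurd hj hne) (fun v hv => by
          rw [face, Finset.mem_filter] at hv
          rcases mem_support_ref.1 hv.1 with rfl | rfl
          · rw [Fin.sum_univ_two, ex_zero, ex_one]
            simp
          · exfalso
            apply c2
            rw [← hv.2, wt_ex]
            ring)
        have := congrFun h3 0
        simp at this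
      intro h
      apply h1
      rw [e1, c1, e1, add_zero, add_zero] at h
      have h3 : (w 0 : ℚ) * (a : ℚ) = (w 0 : ℚ) * (s * A) := by
        push_cast at h ⊢
        linear_combination h
      exact mul_left_cancel₀ hw0Q h3
  · -- the face is `{(A + L, 0)}`
    exfalso
    have c2 : N = w 0 * (A + L) := by
      rcases mem_support_ref.1 hv₀ with rfl | rfl
      · rw [wt_ex, mul_one] at hv₀N
        exact absurd hv₀N.symm c1
      · rw [← hv₀N, wt_ex]
        ring
    have hw1 : w 1 ≠ 0 := by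
      intro h
      have : w 0 * A ≤ w 0 * (A + L) := Nat.mul_le_mul_left _ (Nat.le_add_right _ _)
      omega
    have h3 := hsp ![0, 1] (fun j hj => by
      fin_cases j
      · rfl
      · exact absurd hj hw1) (fun v hv => by
      rw [face, Finset.mem_filter] at hv
      rcases mem_support_ref.1 hv.1 with rfl | rfl
      · exfalso
        apply c1
        rw [← hv.2, wt_ex]
        ring
      · rw [Fin.sum_univ_two, ex_one]
        simp)
    have := congrFun h3 1
    simp at this

theorem ref_yOrd (A : ℕ) {L : ℕ} (hL : 1 ≤ L) : YOrd (ref A L : P2) A 1 := by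
  refine ⟨fun i hi j => ?_, fun j hj => ?_, ?_⟩
  · rw [MvPolynomial.coeff_coe, coeff_ref, if_neg fun h => ?_, if_neg fun h => ?_, add_zero]
    · have := (ex_inj h).1
      omega
    · have := (ex_inj h).1
      omega
  · rw [MvPolynomial.coeff_coe, coeff_ref, if_neg fun h => ?_, if_neg fun h => ?_, add_zero]
    · have := (ex_inj h).1
      omega
    · have := (ex_inj h).2
      omega
  · rw [MvPolynomial.coeff_coe, coeff_ref, if_pos rfl, if_neg (Ne.symm (ex_ne A L)), add_zero]
    exact one_ne_zero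

end M4

open M4

theorem ZR_model_mem {g : MvPolynomial (Fin 2) ℂ} (hg : g ≠ 0) {e : Fin r → ℕ}
    (he : ∀ i, 0 < e i) (hnd : ∀ a : Fin 2 → ℕ, (∀ j, 1 ≤ a j) → NondegAt g (face g a (nuf g a)))
    {s₀ : ℚ} (h1 : s₀ ≠ -1) {K : ℕ} (hK : 1 ≤ K) (hKs : -s₀ < K) {a A : ℕ} (ha : 1 ≤ a)
    (hA : (A = 0 ∧ a = 1) ∨ (1 ≤ A ∧ (a : ℚ) ≠ -(s₀ + hn e) * A))
    (hgA : ∀ v ∈ g.support, A ≤ v 0 ∧ v ≠ ex A 0)
    (hfac : ∀ (w : Fin 2 → ℕ) (N : ℕ), IsFacetWt g w N →
      ((a * w 0 + w 1 : ℕ) : ℚ) ≠ -(s₀ + hn e) * N) :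
    ZR (g : P2) e a A K ∈ regularAt s₀ := by
  rcases hA with ⟨rfl, rfl⟩ | ⟨hA1, hA⟩
  · rw [ZR_one_eq_Zw he hK]
    exact Zw_susp_mem hg he hnd h1 hK hKs le_rfl hfac
  · obtain ⟨L, hL, hL2⟩ : ∃ L : ℕ, 1 ≤ L ∧ ((a + L : ℕ) : ℚ) ≠ -(s₀ + hn e) * (A + L : ℕ) := by
      by_contra hcon
      push Not at hcon
      have e1 := hcon 1 le_rfl
      have e2 := hcon 2 (by norm_num)
      push_cast at e1 e2
      have e3 : -(s₀ + hn e) = 1 := by linear_combination e1 - e2
      rw [e3] at e1 hA
      apply hA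
      linarith
    have h2 := ZR_sub_eq (g₁ := g) (g₂ := ref A L) he hgA (fun v hv => by
      rcases mem_support_ref.1 hv with rfl | rfl
      · refine ⟨(ex_zero A 1).ge, fun h => ?_⟩
        have := (ex_inj h).2
        omega
      · refine ⟨by rw [ex_zero]; omega, fun h => ?_⟩
        have := (ex_inj h).1
        omega) a hK
    have h3 : ZR (g : P2) e a A K = Zw (susp g e) 1 K (cw r a) -
        Zw (susp (ref A L) e) 1 K (cw r a) + ZR (ref A L : P2) e a A K := by
      rw [← h2]
      ring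
    rw [h3]
    refine add_mem (sub_mem (Zw_susp_mem hg he hnd h1 hK hKs ha hfac)
      (Zw_susp_mem (ref_ne_zero A L) he (fun a _ => ref_nondeg A L a) h1 hK hKs ha
        fun w N hw => ref_facet hA hL2 hw)) ?_
    exact ZR_simple hA1 (ref_yOrd A hL) he ha hK h1 hA

end SU

end MPb07157
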