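import Pool.Agent.Lib.MP_b07157_agU.J3

/-!
# The strata on an edge
-/

noncomputable section

namespace MPb07157

open MvPolynomial

namespace SU

open PC

variable {r : ℕ}

namespace R1h

open B2h

/-! ### Helper lemmas -/

theorem Rg_anti (e : Fin r → ℕ) (N : ℕ) {n n' : ℕ} (h : n ≤ n') : Rg e N n' ⊆ Rg e N n :=
  fun _ hζ i j hj => hζ i j (hj.trans h)

theorem valF_zero {N : ℕ} (γ : Fin 2 × Fin N → ℂ) (hγ : γ ∈ Start 2 1 N) : valF 0 γ = 0 := by
  have h : (PowerSeries.X : PowerSeries ℂ) ^ 0 ∣ valF 0 γ := by simp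
  ext n
  have h2 := le_order_subst (F := 0) (w := fun _ : Fin 2 => 1) (r := n + 1) (fun _ => one_pos)
    (fun v _ => by simp) (x := arc γ) (fun j => by
      rw [pow_one]
      rw [PowerSeries.X_dvd_iff, ← PowerSeries.coeff_zero_eq_constantCoeff_apply, coeff_arc]
      split_ifs with h
      · exact hγ j ⟨0, h⟩ (by simp)
      · rfl)
  rw [PowerSeries.X_pow_dvd_iff] at h2
  simpa [valF] using h2 n (Nat.lt_succ_self n)

/-- The part of `muJ` on `Ug` below the order of `F` does not depend on `F`. -/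
theorem muJ_Ug_zero {F : P2} {e : Fin r → ℕ} (he : ∀ i, 0 < e i) {N n m : ℕ} (hn : 1 ≤ n)
    (hm : m < N) {S : Set (Fin 2 × Fin N → ℂ)} (hS : IsConstr S) (hS1 : S ⊆ Start 2 1 N)
    {l : ℕ} (hl : n < l) (hF : ∀ γ ∈ S, (PowerSeries.X : PowerSeries ℂ) ^ l ∣ valF F γ) :
    muJ F e N m S (Ug e N n) = muJ 0 e N m S (Ug e N n) := by
  rw [muJ_Ug he hn hm hS hS1 0 fun γ hγ => ?_, muJ_Ug he hn hm hS hS1 0 fun γ hγ => ?_]
  · rw [valF_zero γ (hS1 hγ)]
    simp
  · have h := hF γ hγ
    rw [PowerSeries.X_pow_dvd_iff] at h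
    exact ⟨fun k hk => h k (by omega), fun _ => by rw [h n hl, map_zero]⟩

theorem isConstr_lead_ne {N : ℕ} {w : Fin 2 → ℕ} (hwN : ∀ j, w j < N)
    (P : MvPolynomial (Fin 2) ℂ) :
    IsConstr {γ : Fin 2 × Fin N → ℂ | γ ∈ Strat N w ∧ eval (lead0 w γ) P ≠ 0} := by
  refine isConstr_setOf_and (isConstr_Strat N w) ?_
  have h := isConstr_ne_zero (rename (fun j => ((j, ⟨w j, hwN j⟩) : Fin 2 × Fin N)) P)
  have e1 : ∀ γ : Fin 2 × Fin N → ℂ,
      eval γ (rename (fun j => ((j, ⟨w j, hwN j⟩) : Fin 2 × Fin N)) P) = eval (lead0 w γ) P := by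
    intro γ
    rw [eval_rename]
    congr 2
    funext j
    unfold lead0
    rw [dif_pos (hwN j)]
    rfl
  simpa only [e1] using h

end R1h

open R1h B2h

theorem ray_eq {F : P2} {e : Fin r → ℕ} (he : ∀ i, 0 < e i) {p q A B : ℕ} {lam : ℂ}
    {R : Finset ℂ} {μ : ℂ → ℕ} (hE : IsEdge F p q A B lam R μ) {k N m n₀ : ℕ} (hk : 0 < k)
    (hkp : k * p < N) (hkq : k * q < N) (hm : m < N) (hn₀ : n₀ < edgeN p q A B R μ * k) :
    muJ F e N m (Strat N ![k * p, k * q]) (Rg e N n₀) =
      ∑ n ∈ Finset.Ioo n₀ (edgeN p q A B R μ * k),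
        muJ 0 e N m (Strat N ![k * p, k * q]) (Ug e N n) +
      (if edgeN p q A B R μ * k = m then
        P1aux.Lp ((p + q) * k + 2 + (sg e (edgeN p q A B R μ * k) + r)) *
          (clsM (TY e (edgeP p q A B lam R μ) (En e (edgeN p q A B R μ * k))) +
            clsM (Tor (edgeP p q A B lam R μ))) else 0) +
      (if edgeN p q A B R μ * k < m then
        P1aux.Lp ((p + q) * k + 2 + (sg e (edgeN p q A B R μ * k) + r) +
          (m - edgeN p q A B R μ * k)) * (((LU : Mot) - 1) *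
            clsM (TX e (edgeP p q A B lam R μ) (En e (edgeN p q A B R μ * k)))) else 0) +
      ∑ c ∈ R, muJ F e N m (Near N p q k c) (Rg e N (edgeN p q A B R μ * k)) := by
  classical
  have hI : IsInit F ![k * p, k * q] (edgeN p q A B R μ * k) (edgeP p q A B lam R μ) := by
    have h := hE.init.smul hk
    rwa [mul_comm k (edgeN p q A B R μ)] at h
  set w : Fin 2 → ℕ := ![k * p, k * q] with hwdef
  set n₁ : ℕ := edgeN p q A B R μ * k with hn₁
  set P : MvPolynomial (Fin 2) ℂ := edgeP p q A B lam R μ with hP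
  have hw : ∀ j, 1 ≤ w j := P1aux.one_le_ray hE.hp hE.hq hk
  have hwN : ∀ j, w j < N := by
    intro j
    fin_cases j
    · exact hkp
    · exact hkq
  have hw2 : w 0 + w 1 + 2 = (p + q) * k + 2 := by
    simp only [hwdef, Matrix.cons_val_zero, Matrix.cons_val_one]
    ring
  have hcS : IsConstr (Strat N w) := isConstr_Strat N w
  have hS1 : Strat N w ⊆ Start 2 1 N := fun γ hγ => mem_Start_of_mem_Strat hw hγ
  have hdiv : ∀ γ ∈ Strat N w, (PowerSeries.X : PowerSeries ℂ) ^ n₁ ∣ valF F γ := by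
    intro γ hγ
    obtain ⟨G, h1, -⟩ := exists_subst_strat hw hI hγ
    exact ⟨G, h1⟩
  have hNear : ∀ c, Near N p q k c ⊆ Strat N w := fun c γ hγ => hγ.1
  -- first splitting
  have hs1 := muJ_Rg_split F (e := e) hm hcS hS1 (n₀ := n₀) (n₁ := n₁ - 1) (by omega)
  have hIoc : Finset.Ioc n₀ (n₁ - 1) = Finset.Ioo n₀ n₁ := by
    ext n
    simp only [Finset.mem_Ioc, Finset.mem_Ioo]
    omega
  rw [hs1, hIoc, Finset.sum_congr rfl fun n hn => muJ_Ug_zero he (by
    rw [Finset.mem_Ioo] at hn; omega) hm hcS hS1 (l := n₁) (Finset.mem_Ioo.1 hn).2 hdiv]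
  rw [add_assoc, add_assoc]
  congr 1
  rcases lt_or_ge n₁ N with hlt | hge
  · -- `n₁ < N`
    have hs2 := muJ_Rg_split F (e := e) hm hcS hS1 (n₀ := n₁ - 1) (n₁ := n₁) (by omega)
    have hIoc2 : Finset.Ioc (n₁ - 1) n₁ = {n₁} := by
      ext n
      simp only [Finset.mem_Ioc, Finset.mem_singleton]
      omega
    rw [hs2, hIoc2, Finset.sum_singleton]
    -- the part `Ug`
    have hα : ∀ γ : Fin 2 × Fin N → ℂ,
        eval γ (rename (fun j => ((j, ⟨w j, hwN j⟩) : Fin 2 × Fin N)) P) =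
          eval (lead0 w γ) P := by
      intro γ
      rw [eval_rename]
      congr 2
      funext j
      unfold lead0
      rw [dif_pos (hwN j)]
      rfl
    have hU := muJ_Ug (F := F) he (n := n₁) (by omega) hm hcS hS1
      (rename (fun j => ((j, ⟨w j, hwN j⟩) : Fin 2 × Fin N)) P) (fun γ hγ => by
        obtain ⟨G, h1, h2⟩ := exists_subst_strat hw hI hγ
        refine ⟨fun l hl => ?_, fun _ => ?_⟩
        · rw [valF, h1, PowerSeries.coeff_X_pow_mul', if_neg (by omega)]
        · rw [valF, h1, PowerSeries.coeff_X_pow_mul', if_pos le_rfl, Nat.sub_self,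
            PowerSeries.coeff_zero_eq_constantCoeff_apply, h2, hα])
    simp only [hα] at hU
    rw [mJ_lead_ne he hwN hlt P, mJ_lead_eq he hwN hlt P, hw2] at hU
    -- the part `Rg`
    have hcG := isConstr_lead_ne hwN P
    have hG1 : {γ : Fin 2 × Fin N → ℂ | γ ∈ Strat N w ∧ eval (lead0 w γ) P ≠ 0} ⊆
        Start 2 1 N := fun γ hγ => hS1 hγ.1
    have hlead : ∀ γ ∈ Strat N w, ∀ j, lead0 w γ j ≠ 0 := fun γ hγ j => hγ.2 j (hwN j)
    have hzero : ∀ γ ∈ Strat N w, (eval (lead0 w γ) P = 0 ↔ ∃ c ∈ R, γ ∈ Near N p q k c) := by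
      intro γ hγ
      rw [hP, eval_edgeP_eq_zero_iff hE.hlam hE.hm (hlead γ hγ 0) (hlead γ hγ 1)]
      exact exists_congr fun c => and_congr_right fun _ => ⟨fun h => ⟨hγ, h⟩, fun h => h.2⟩
    let Sf : Option ℂ → Set (Fin 2 × Fin N → ℂ) := fun o => o.elim
      {γ : Fin 2 × Fin N → ℂ | γ ∈ Strat N w ∧ eval (lead0 w γ) P ≠ 0} (fun c => Near N p q k c)
    have hSf : Strat N w = ⋃ o ∈ Finset.insertNone R, Sf o := by
      ext γ
      simp only [Set.mem_iUnion, exists_prop]
      constructor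
      · intro hγ
        by_cases h : eval (lead0 w γ) P = 0
        · obtain ⟨c, hc, h2⟩ := (hzero γ hγ).1 h
          exact ⟨some c, Finset.some_mem_insertNone.2 hc, h2⟩
        · exact ⟨none, Finset.none_mem_insertNone, hγ, h⟩
      · rintro ⟨o, -, h⟩
        rcases o with _ | c
        · exact h.1
        · exact hNear c h
    have hU2 := muJ_biUnion_left (Finset.insertNone R) F e hm (S := Sf) (fun o _ => by
      rcases o with _ | c
      · exact hcG
      · exact isConstr_Near N p q k c) (fun o _ => by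
      rcases o with _ | c
      · exact hG1
      · exact (hNear c).trans hS1) (fun o ho o' ho' hoo => by
      rw [Set.disjoint_left]
      intro γ h1 h2
      rcases o with _ | c <;> rcases o' with _ | c'
      · exact hoo rfl
      · exact h1.2 ((hzero γ h1.1).2 ⟨c', Finset.some_mem_insertNone.1 ho', h2⟩)
      · exact h2.2 ((hzero γ h2.1).2 ⟨c, Finset.some_mem_insertNone.1 ho, h1⟩)
      · apply hoo
        have h3 := h1.2
        have h4 := h2.2
        rw [h3] at h4
        exact congrArg some (mul_right_cancel₀ (pow_ne_zero _ (hlead γ (hNear c h1) 0)) h4))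
      (isConstr_Rg e N n₁)
    rw [← hSf, Finset.sum_insertNone] at hU2
    have hT := muJ_Rg_top (F := F) (m := m) he hlt hcG (fun γ hγ => by
      obtain ⟨G, h1, h2⟩ := exists_subst_strat hw hI hγ.1
      rw [valF, h1]
      exact order_X_pow_mul (by rw [h2]; exact hγ.2))
    have hmu := muN_strat_ne hwN P
    rw [hw2] at hmu
    have hU3 : muJ F e N m (Strat N w) (Rg e N n₁) =
        (if n₁ = m then P1aux.Lp ((p + q) * k + 2) * clsM (Tor P) *
          P1aux.Lp (sg e n₁ + r) else 0) +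
        ∑ c ∈ R, muJ F e N m (Near N p q k c) (Rg e N n₁) := by
      rw [hU2]
      congr 1
      rw [show Sf none = {γ : Fin 2 × Fin N → ℂ | γ ∈ Strat N w ∧
        eval (lead0 w γ) P ≠ 0} from rfl, hT, hmu]
      rfl
    rw [hU, hU3]
    by_cases h1 : n₁ = m
    · rw [if_pos h1, if_pos h1, if_pos h1, if_neg (by omega)]
      rw [P1aux.Lp_add ((p + q) * k + 2)]
      ring
    · rw [if_neg h1, if_neg h1, if_neg h1]
      by_cases h2 : n₁ < m
      · rw [if_pos h2, if_pos h2, P1aux.Lp_add ((p + q) * k + 2 + (sg e n₁ + r))]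
        ring
      · rw [if_neg h2, if_neg h2]
  · -- `n₁ ≥ N > m`
    rw [if_neg (by omega), if_neg (by omega), zero_add, zero_add]
    have hz : ∀ S : Set (Fin 2 × Fin N → ℂ), S ⊆ Strat N w → ∀ n, m ≤ n →
        muJ F e N m S (Rg e N n) = 0 := by
      intro S hS n hn
      refine muJ_eq_zero F e fun γ hγ ζ hζ => ?_
      refine dvd_add ((pow_dvd_pow _ (by omega)).trans (hdiv γ (hS hγ))) ?_
      exact dvd_of_mem_Rg he hm (Rg_anti e N hn hζ)
    rw [hz _ (le_refl _) _ (by omega)]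
    symm
    exact Finset.sum_eq_zero fun c _ => hz _ (hNear c) _ (by omega)

end SU

end MPb07157
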