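import Pool.Agent.Lib.MP_b07157_agU.K0
import Pool.Agent.Lib.MP_b07157_agU.M4
import Pool.Agent.Lib.MP_b07157_agU.L1
import Pool.Agent.Lib.MP_b07157_agU.L2
import Pool.Agent.Lib.MP_b07157_agU.C1
import Pool.Agent.Lib.MP_b07157_agU.R1

/-!
# The key theorem of the pole side
-/

noncomputable section

namespace MPb07157

open MvPolynomial

namespace SU

open PC

variable {r : ℕ}

namespace K1

/-- The `n`-th roots of `-1`. -/
theorem exists_roots {n : ℕ} (hn : 0 < n) : ∃ R : Finset ℂ, R.card = n ∧ (0 : ℂ) ∉ R ∧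
    ∀ p q : ℕ, (∏ c ∈ R, (X 1 ^ p - C c * X 0 ^ q) : MvPolynomial (Fin 2) ℂ) =
      X 1 ^ (p * n) + X 0 ^ (q * n) := by
  classical
  obtain ⟨ε, hε⟩ := IsAlgClosed.exists_pow_nat_eq (-1 : ℂ) hn
  have hε0 : ε ≠ 0 := by
    rintro rfl
    rw [zero_pow hn.ne'] at hε
    norm_num at hε
  have hprim := Complex.isPrimitiveRoot_exp n hn.ne'
  have hinj : ∀ x ∈ Polynomial.nthRootsFinset n (1 : ℂ), ∀ y ∈ Polynomial.nthRootsFinset n (1 : ℂ),
      x * ε = y * ε → x = y := fun x _ y _ h => mul_right_cancel₀ hε0 h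
  refine ⟨(Polynomial.nthRootsFinset n (1 : ℂ)).image fun ζ => ζ * ε, ?_, ?_, ?_⟩
  · rw [Finset.card_image_of_injOn hinj, hprim.card_nthRootsFinset]
  · intro h
    obtain ⟨ζ, hζ, h2⟩ := Finset.mem_image.1 h
    rw [Polynomial.mem_nthRootsFinset hn] at hζ
    rcases mul_eq_zero.1 h2 with h3 | h3
    · rw [h3, zero_pow hn.ne'] at hζ
      exact zero_ne_one hζ
    · exact hε0 h3
  · intro p q
    rw [Finset.prod_image hinj]
    refine MvPolynomial.funext fun x => ?_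
    have h1 := hprim.pow_sub_pow_eq_prod_sub_mul (x 1 ^ p) (ε * x 0 ^ q) hn
    rw [mul_pow, hε, ← pow_mul, ← pow_mul] at h1
    rw [map_prod, map_add, map_pow, map_pow, eval_X, eval_X]
    rw [show x 1 ^ (p * n) + x 0 ^ (q * n) = x 1 ^ (p * n) - -1 * x 0 ^ (q * n) by ring, h1]
    refine Finset.prod_congr rfl fun ζ _ => ?_
    rw [map_sub, map_mul, map_pow, map_pow, eval_X, eval_X, eval_C]
    ring

/-- The edges of the model. -/
theorem model_edge {F : P2} {g : MvPolynomial (Fin 2) ℂ} {p q A B : ℕ} {lam : ℂ} {R : Finset ℂ}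
    {μ : ℂ → ℕ} (hE : IsEdge F p q A B lam R μ)
    (hI : IsInit (g : P2) ![p, q] (edgeN p q A B R μ)
      (X 0 ^ A * X 1 ^ B * (X 1 ^ (p * ∑ c ∈ R, μ c) + X 0 ^ (q * ∑ c ∈ R, μ c)))) :
    ∃ R' : Finset ℂ, IsEdge (g : P2) p q A B 1 R' (fun _ => 1) ∧
      edgeN p q A B R' (fun _ => 1) = edgeN p q A B R μ := by
  have hS := P1aux.edge_sum_pos hE
  obtain ⟨R', hR, hR0, hprod⟩ := exists_roots hS
  have hN : edgeN p q A B R' (fun _ => 1) = edgeN p q A B R μ := by
    unfold edgeN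
    rw [Finset.sum_const, hR, smul_eq_mul, mul_one]
  refine ⟨R', ⟨hE.hp, hE.hq, hE.hpq, one_ne_zero, ?_, hR0, fun _ _ => one_pos, ?_⟩, hN⟩
  · rw [← Finset.card_pos, hR]
    exact hS
  · have hP : edgeP p q A B 1 R' (fun _ => 1) =
        X 0 ^ A * X 1 ^ B * (X 1 ^ (p * ∑ c ∈ R, μ c) + X 0 ^ (q * ∑ c ∈ R, μ c)) := by
      unfold edgeP
      rw [← hprod, C_1, one_mul]
      congr 1
      exact Finset.prod_congr rfl fun c _ => pow_one _
    rw [hP, hN]
    exact hI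

/-- The order of `F` on a stratum. -/
theorem dvd_strat {F : P2} {w : Fin 2 → ℕ} (hw : ∀ j, 1 ≤ w j) {n : ℕ}
    {P : MvPolynomial (Fin 2) ℂ} (hI : IsInit F w n P) {N m : ℕ} (hm : m < n)
    {γ : Fin 2 × Fin N → ℂ} (hγ : γ ∈ Strat N w) :
    (PowerSeries.X : PowerSeries ℂ) ^ (m + 1) ∣ valF F γ :=
  (pow_dvd_pow _ hm).trans (le_order_subst hw (fun _ hv => hI.coeff_eq_zero hv)
    (B2h.X_pow_dvd_arc_of_mem_Strat hγ))

/-- The order of `F` at the arcs with `ord x = k`. -/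
theorem dvd_Xo {G : P2} {E : ℕ} (hG : MvPowerSeries.X 0 ^ E ∣ G) {k N : ℕ} (hk : 0 < k)
    {γ : Fin 2 × Fin N → ℂ} (hγ : γ ∈ Start 2 1 N ∩ Xo N k) :
    (PowerSeries.X : PowerSeries ℂ) ^ (k * E) ∣ valF G γ := by
  obtain ⟨h1, h3, -⟩ := hγ
  refine le_order_subst (w := ![k, 1]) ?_ ?_ ?_
  · intro j
    fin_cases j
    · exact hk
    · exact Nat.one_pos
  · intro v hv
    rw [MvPowerSeries.X_pow_dvd_iff] at hG
    apply hG
    simp only [wt, Fin.sum_univ_two, Matrix.cons_val_zero, Matrix.cons_val_one] at hv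
    by_contra h4
    have h5 : k * E ≤ k * v 0 := Nat.mul_le_mul le_rfl (not_lt.1 h4)
    omega
  · intro j
    rw [PowerSeries.X_pow_dvd_iff]
    intro l hl
    fin_cases j
    · exact P1aux.coeff_arc_eq_zero h3 l hl
    · exact P1aux.coeff_arc_eq_zero (fun k hk => h1 1 k hk) l hl

/-- No jets at the roots, far away. -/
theorem muJ_far {G : P2} {E : ℕ} (hG : MvPowerSeries.X 0 ^ E ∣ G) {e : Fin r → ℕ}
    (he : ∀ i, 0 < e i) {k N m : ℕ} (hk : 0 < k) (hmN : m < N) (hm : m < E * k) :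
    muJ G e N m (Start 2 1 N ∩ Xo N k) (Rg e N (E * k)) = 0 := by
  refine muJ_eq_zero _ _ fun γ hγ ζ hζ => ?_
  refine dvd_add ((pow_dvd_pow _ ?_).trans (dvd_Xo hG hk hγ)) (dvd_of_mem_Rg he hmN ?_)
  · rw [mul_comm]
    exact hm
  · exact fun i j hij => hζ i j (hij.trans hm.le)

theorem edgeN_gt {F : P2} {p q A B : ℕ} {lam : ℂ} {R : Finset ℂ} {μ : ℂ → ℕ}
    (hE : IsEdge F p q A B lam R μ) {A₀ : ℕ}
    (hFA : ∀ v, MvPowerSeries.coeff v F ≠ 0 → A₀ ≤ v 0 ∧ v ≠ ex A₀ 0) :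
    A₀ * p < edgeN p q A B R μ := by
  have hS := P1aux.edge_sum_pos hE
  have h1 := (edgeP_support hE.hp hE.hq (A := A) (B := B) hE.hlam hE.hR0 μ).1
  have hN : edgeN p q A B R μ = p * A + q * (B + p * ∑ c ∈ R, μ c) := by
    unfold edgeN
    ring
  rw [← hE.init.2.2 _ (by rw [s1b_wt, s1b_ex0, s1b_ex1, hN])] at h1
  have h2 := (hFA _ h1).1
  rw [s1b_ex0] at h2
  rw [hN]
  have h3 : p * A₀ ≤ p * A := Nat.mul_le_mul_left _ h2
  have h4 : 0 < q * (B + p * ∑ c ∈ R, μ c) :=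
    Nat.mul_pos hE.hq (Nat.add_pos_right _ (Nat.mul_pos hE.hp hS))
  rw [mul_comm A₀]
  omega

/-- The coefficients of the series of one edge. -/
def f₁ (e : Fin r → ℕ) (P Q : MvPolynomial (Fin 2) ℂ) (E : Finset (Fin r)) : Mot :=
  P1aux.Lp (2 + r) * (clsM (TY e P E) + clsM (Tor P) - (clsM (TY e Q E) + clsM (Tor Q)))

/-- The coefficients of the series of one edge. -/
def f₂ (e : Fin r → ℕ) (P Q : MvPolynomial (Fin 2) ℂ) (E : Finset (Fin r)) : Mot :=
  P1aux.Lp (2 + r) * (((LU : Mot) - 1) * (clsM (TX e P E) - clsM (TX e Q E)))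

/-- The contribution of one ray. -/
theorem ray_formula {F g : P2} {e : Fin r → ℕ} (he : ∀ i, 0 < e i) {a A₀ : ℕ} (ha : 1 ≤ a)
    {p q A B : ℕ} {lam lam' : ℂ} {R R' : Finset ℂ} {μ μ' : ℂ → ℕ}
    (hE : IsEdge F p q A B lam R μ) (hE' : IsEdge g p q A B lam' R' μ')
    (hN' : edgeN p q A B R' μ' = edgeN p q A B R μ) (hA₀ : A₀ * p < edgeN p q A B R μ)
    {α β : ℕ} (hab : p * α = q * β + 1) {k N m : ℕ} (hk : 0 < k) (hm : m < N) :
    (if k * p ≤ N ∧ k * q ≤ N then P1aux.Lp ((a - 1) * (k * p)) *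
      (muJ F e N m (Strat N ![k * p, k * q]) (Rg e N (A₀ * (k * p))) -
        muJ g e N m (Strat N ![k * p, k * q]) (Rg e N (A₀ * (k * p)))) else 0) =
    (if edgeN p q A B R μ * k = m then
      f₁ e (edgeP p q A B lam R μ) (edgeP p q A B lam' R' μ') (En e (edgeN p q A B R μ * k)) *
        P1aux.Lp ((a * p + q) * k + sg e (edgeN p q A B R μ * k)) else 0) +
    (if edgeN p q A B R μ * k < m then
      f₂ e (edgeP p q A B lam R μ) (edgeP p q A B lam' R' μ') (En e (edgeN p q A B R μ * k)) *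
        P1aux.Lp ((a * p + q) * k + sg e (edgeN p q A B R μ * k) +
          (m - edgeN p q A B R μ * k)) else 0) +
    (∑ c ∈ R, P1aux.Lp ((a * p + q - 1) * k) *
        muJ (MvPowerSeries.subst (kap p q α β c) F) e N m (Start 2 1 N ∩ Xo N k)
          (Rg e N (edgeN p q A B R μ * k)) -
      ∑ c ∈ R', P1aux.Lp ((a * p + q - 1) * k) *
        muJ (MvPowerSeries.subst (kap p q α β c) g) e N m (Start 2 1 N ∩ Xo N k)
          (Rg e N (edgeN p q A B R μ * k))) := by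
  have hp := hE.hp
  have hq := hE.hq
  have hsF : ∀ c ∈ R, MvPowerSeries.X 0 ^ edgeN p q A B R μ ∣
      MvPowerSeries.subst (kap p q α β c) F := fun c hc => (YOrd.sub hE hc hab).dvd
  have hsg : ∀ c ∈ R', MvPowerSeries.X 0 ^ edgeN p q A B R μ ∣
      MvPowerSeries.subst (kap p q α β c) g := fun c hc => by
    rw [← hN']
    exact (YOrd.sub hE' hc hab).dvd
  by_cases h : k * p < N ∧ k * q < N
  · obtain ⟨h1, h2⟩ := h
    have hn₀ : A₀ * (k * p) < edgeN p q A B R μ * k := by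
      calc A₀ * (k * p) = A₀ * p * k := by ring
        _ < edgeN p q A B R μ * k := Nat.mul_lt_mul_of_pos_right hA₀ hk
    have hn₀' : A₀ * (k * p) < edgeN p q A B R' μ' * k := by rw [hN']; exact hn₀
    have hB : IsConstr (Rg e N (edgeN p q A B R μ * k)) := isConstr_Rg e N _
    rw [if_pos ⟨h1.le, h2.le⟩, ray_eq he hE hk h1 h2 hm hn₀, ray_eq he hE' hk h1 h2 hm hn₀', hN']
    have hnear : ∀ c ∈ R, muJ F e N m (Near N p q k c) (Rg e N (edgeN p q A B R μ * k)) =
        P1aux.Lp ((p + q - 1) * k) * muJ (MvPowerSeries.subst (kap p q α β c) F) e N m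
          (Start 2 1 N ∩ Xo N k) (Rg e N (edgeN p q A B R μ * k)) := by
      intro c hc
      exact near_rootJ e hp hq hab (fun h => hE.hR0 (h ▸ hc)) hk h1 h2 hm hB
    have hnear' : ∀ c ∈ R', muJ g e N m (Near N p q k c) (Rg e N (edgeN p q A B R μ * k)) =
        P1aux.Lp ((p + q - 1) * k) * muJ (MvPowerSeries.subst (kap p q α β c) g) e N m
          (Start 2 1 N ∩ Xo N k) (Rg e N (edgeN p q A B R μ * k)) := by
      intro c hc
      exact near_rootJ e hp hq hab (fun h => hE'.hR0 (h ▸ hc)) hk h1 h2 hm hB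
    rw [Finset.sum_congr rfl hnear, Finset.sum_congr rfl hnear', ← Finset.mul_sum,
      ← Finset.mul_sum, ← Finset.mul_sum, ← Finset.mul_sum]
    set E := edgeN p q A B R μ with hEdef
    set σ := sg e (E * k) with hσ
    obtain ⟨a, rfl⟩ : ∃ b, a = b + 1 := ⟨a - 1, by omega⟩
    obtain ⟨p, rfl⟩ : ∃ b, p = b + 1 := ⟨p - 1, by omega⟩
    have e1 : P1aux.Lp ((a + 1 - 1) * (k * (p + 1))) * P1aux.Lp ((p + 1 + q) * k + 2 + (σ + r)) =
        P1aux.Lp (2 + r) * P1aux.Lp (((a + 1) * (p + 1) + q) * k + σ) := by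
      rw [← P1aux.Lp_add, ← P1aux.Lp_add]
      congr 1
      rw [Nat.add_sub_cancel]
      ring
    have e2 : P1aux.Lp ((a + 1 - 1) * (k * (p + 1))) *
        P1aux.Lp ((p + 1 + q) * k + 2 + (σ + r) + (m - E * k)) =
        P1aux.Lp (2 + r) * P1aux.Lp (((a + 1) * (p + 1) + q) * k + σ + (m - E * k)) := by
      rw [← P1aux.Lp_add, ← P1aux.Lp_add]
      congr 1
      rw [Nat.add_sub_cancel]
      ring
    have e3 : P1aux.Lp ((a + 1 - 1) * (k * (p + 1))) * P1aux.Lp ((p + 1 + q - 1) * k) =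
        P1aux.Lp (((a + 1) * (p + 1) + q - 1) * k) := by
      rw [← P1aux.Lp_add]
      congr 1
      rw [Nat.add_sub_cancel, show p + 1 + q - 1 = p + q by omega,
        show (a + 1) * (p + 1) + q - 1 = a * (p + 1) + p + q by
          rw [add_mul, one_mul]; omega]
      ring
    rw [← e3]
    unfold f₁ f₂
    rcases lt_trichotomy (E * k) m with h3 | h3 | h3
    · rw [if_neg h3.ne, if_pos h3, if_neg h3.ne, if_pos h3, if_neg h3.ne, if_pos h3]
      linear_combination (((LU : Mot) - 1) * clsM (TX e (edgeP (p + 1) q A B lam R μ)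
        (En e (E * k))) - ((LU : Mot) - 1) * clsM (TX e (edgeP (p + 1) q A B lam' R' μ')
        (En e (E * k)))) * e2
    · have h4 : ¬ E * k < m := by omega
      rw [if_pos h3, if_neg h4, if_pos h3, if_neg h4, if_pos h3, if_neg h4]
      linear_combination (clsM (TY e (edgeP (p + 1) q A B lam R μ) (En e (E * k))) +
        clsM (Tor (edgeP (p + 1) q A B lam R μ)) -
        (clsM (TY e (edgeP (p + 1) q A B lam' R' μ') (En e (E * k))) +
        clsM (Tor (edgeP (p + 1) q A B lam' R' μ')))) * e1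
    · have h4 : ¬ E * k = m := by omega
      have h5 : ¬ E * k < m := by omega
      rw [if_neg h4, if_neg h5, if_neg h4, if_neg h5, if_neg h4, if_neg h5]
      ring
  · have hN : N ≤ edgeN p q A B R μ * k := by
      obtain ⟨h1, h2⟩ := P1aux.le_edgeN hE
      have h3 := Nat.mul_le_mul h1 (le_refl k)
      have h4 := Nat.mul_le_mul h2 (le_refl k)
      by_contra h5
      apply h
      constructor
      · rw [mul_comm]; omega
      · rw [mul_comm]; omega
    have h0 : (if k * p ≤ N ∧ k * q ≤ N then P1aux.Lp ((a - 1) * (k * p)) *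
        (muJ F e N m (Strat N ![k * p, k * q]) (Rg e N (A₀ * (k * p))) -
        muJ g e N m (Strat N ![k * p, k * q]) (Rg e N (A₀ * (k * p)))) else 0) = 0 := by
      split_ifs with h1
      · have hI := hE.init.smul hk
        have hI' := hE'.init.smul hk
        rw [hN'] at hI'
        have hlt : m < k * edgeN p q A B R μ := by
          rw [mul_comm]
          omega
        rw [far_eq he hm (isConstr_Strat N _)
          (P1aux.Strat_subset_Start (P1aux.one_le_ray hp hq hk))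
          (fun γ hγ => dvd_strat (P1aux.one_le_ray hp hq hk) hI hlt hγ)
          (fun γ hγ => dvd_strat (P1aux.one_le_ray hp hq hk) hI' hlt hγ), sub_self, mul_zero]
      · rfl
    rw [h0, if_neg (by omega), if_neg (by omega), Finset.sum_eq_zero, Finset.sum_eq_zero]
    · ring
    · intro c hc
      rw [muJ_far (hsg c hc) he hk hm (by omega), mul_zero]
    · intro c hc
      rw [muJ_far (hsF c hc) he hk hm (by omega), mul_zero]

theorem coeff_ZR (F : P2) (e : Fin r → ℕ) (a A K m : ℕ) : PowerSeries.coeff m (ZR F e a A K) =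
    ∑ k ∈ Finset.Icc 1 (K * (m + 1)), P1aux.Lp ((a - 1) * k) *
      muJ F e (K * (m + 1)) m (Start 2 1 (K * (m + 1)) ∩ Xo (K * (m + 1)) k)
        (Rg e (K * (m + 1)) (A * k)) := PowerSeries.coeff_mk _ _

theorem coeff_ser (e : Fin r → ℕ) (f : Finset (Fin r) → Mot) (ν N m : ℕ) :
    PowerSeries.coeff m (ser e f ν N) = ∑ k ∈ Finset.Icc 1 m,
      if N * k = m then f (En e (N * k)) * P1aux.Lp (ν * k + sg e (N * k)) else 0 :=
  PowerSeries.coeff_mk _ _

theorem coeff_ser2 (e : Fin r → ℕ) (f : Finset (Fin r) → Mot) (ν N m : ℕ) :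
    PowerSeries.coeff m (ser2 e f ν N) = ∑ k ∈ Finset.Icc 1 m,
      if N * k < m then f (En e (N * k)) * P1aux.Lp (ν * k + sg e (N * k) + (m - N * k)) else 0 :=
  PowerSeries.coeff_mk _ _

/-- The sum over one ray. -/
theorem ray_sum {F g : P2} {e : Fin r → ℕ} (he : ∀ i, 0 < e i) {a A₀ : ℕ} (ha : 1 ≤ a)
    {p q A B : ℕ} {lam lam' : ℂ} {R R' : Finset ℂ} {μ μ' : ℂ → ℕ}
    (hE : IsEdge F p q A B lam R μ) (hE' : IsEdge g p q A B lam' R' μ')
    (hN' : edgeN p q A B R' μ' = edgeN p q A B R μ) (hA₀ : A₀ * p < edgeN p q A B R μ)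
    {α β : ℕ} (hab : p * α = q * β + 1) {K m : ℕ} (hK : 1 ≤ K) :
    (∑ k ∈ Finset.Icc 1 (K * (m + 1)), if k * p ≤ K * (m + 1) ∧ k * q ≤ K * (m + 1) then
      P1aux.Lp ((a - 1) * (k * p)) *
      (muJ F e (K * (m + 1)) m (Strat (K * (m + 1)) ![k * p, k * q])
          (Rg e (K * (m + 1)) (A₀ * (k * p))) -
        muJ g e (K * (m + 1)) m (Strat (K * (m + 1)) ![k * p, k * q])
          (Rg e (K * (m + 1)) (A₀ * (k * p)))) else 0) =
    PowerSeries.coeff m (
      ser e (f₁ e (edgeP p q A B lam R μ) (edgeP p q A B lam' R' μ')) (a * p + q)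
        (edgeN p q A B R μ) +
      ser2 e (f₂ e (edgeP p q A B lam R μ) (edgeP p q A B lam' R' μ')) (a * p + q)
        (edgeN p q A B R μ) +
      (∑ c ∈ R, ZR (MvPowerSeries.subst (kap p q α β c) F) e (a * p + q)
        (edgeN p q A B R μ) K -
      ∑ c ∈ R', ZR (MvPowerSeries.subst (kap p q α β c) g) e (a * p + q)
        (edgeN p q A B R μ) K)) := by
  have hN := P1aux.edgeN_pos hE
  have hm : m < K * (m + 1) := by nlinarith
  rw [Finset.sum_congr rfl fun k hk => ray_formula he ha hE hE' hN' hA₀ hab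
      (Finset.mem_Icc.1 hk).1 hm, Finset.sum_add_distrib, Finset.sum_add_distrib,
    Finset.sum_sub_distrib, map_add, map_add, map_sub, map_sum, map_sum, coeff_ser, coeff_ser2,
    P1aux.sum_Icc_eq hN hm, P1aux.sum_Icc_eq hN hm, Finset.sum_comm,
    Finset.sum_comm (s := Finset.Icc 1 (K * (m + 1))) (t := R')]
  · simp only [coeff_ZR]
  · intro k hk
    rw [if_neg (by omega)]
  · intro k hk
    rw [if_neg (by omega)]

theorem sum_pi (s : Finset ℕ) (f : (Fin 2 → ℕ) → Mot) :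
    ∑ w ∈ Fintype.piFinset (fun _ : Fin 2 => s), f w = ∑ k ∈ s, ∑ l ∈ s, f ![k, l] := by
  rw [← Finset.sum_product']
  refine Finset.sum_nbij' (fun w => (w 0, w 1)) (fun x => ![x.1, x.2]) ?_ ?_ ?_ ?_ ?_
  · intro w hw
    rw [Fintype.mem_piFinset] at hw
    exact Finset.mem_product.2 ⟨hw 0, hw 1⟩
  · intro x hx
    rw [Finset.mem_product] at hx
    rw [Fintype.mem_piFinset]
    intro j
    fin_cases j
    · exact hx.1
    · exact hx.2
  · intro w _
    funext j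
    fin_cases j <;> rfl
  · intro x _
    rfl
  · intro w _
    congr 1
    funext j
    fin_cases j <;> rfl

/-- The coefficients, as a sum over the orders of both coordinates. -/
theorem coeff_ZR_strat (F : P2) (e : Fin r → ℕ) (a A : ℕ) {K : ℕ} (hK : 1 ≤ K) (m : ℕ) :
    PowerSeries.coeff m (ZR F e a A K) =
      ∑ w ∈ Fintype.piFinset (fun _ : Fin 2 => Finset.Icc 1 (K * (m + 1))),
        P1aux.Lp ((a - 1) * w 0) * muJ F e (K * (m + 1)) m (Strat (K * (m + 1)) w)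
          (Rg e (K * (m + 1)) (A * w 0)) := by
  have hm : m < K * (m + 1) := by nlinarith
  rw [coeff_ZR, sum_pi]
  refine Finset.sum_congr rfl fun k hk => ?_
  rw [Finset.mem_Icc] at hk
  rw [muJ_Xo F e hm hk.1 hk.2 (isConstr_Rg e _ _), Finset.mul_sum]
  rfl

/-- **Explicit formula.** -/
theorem ZR_formula {F : P2} (hF : F ≠ 0) {e : Fin r → ℕ} (he : ∀ i, 0 < e i) {A₀ : ℕ}
    (hFA : ∀ v, MvPowerSeries.coeff v F ≠ 0 → A₀ ≤ v 0 ∧ v ≠ ex A₀ 0) :
    ∃ g : MvPolynomial (Fin 2) ℂ, g ≠ 0 ∧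
    (∀ v ∈ g.support, MvPowerSeries.coeff v F ≠ 0) ∧
    (∀ a : Fin 2 → ℕ, (∀ j, 1 ≤ a j) → NondegAt g (face g a (nuf g a))) ∧
    (∀ (w : Fin 2 → ℕ) (N : ℕ), IsFacetWt g w N →
      (∃ A k, ExactPow F 0 A ∧ 0 < A ∧ 0 < k ∧ w = ![k, 0] ∧ N = k * A) ∨
      (∃ B k, ExactPow F 1 B ∧ 0 < B ∧ 0 < k ∧ w = ![0, k] ∧ N = k * B) ∨
      (∃ (p q A B : ℕ) (lam : ℂ) (R : Finset ℂ) (μ : ℂ → ℕ) (k : ℕ), IsEdge F p q A B lam R μ ∧
        0 < k ∧ w = ![k * p, k * q] ∧ N = k * edgeN p q A B R μ)) ∧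
    ∃ (ι : Type) (_ : Fintype ι) (p q A B α β : ι → ℕ) (lam : ι → ℂ) (R R' : ι → Finset ℂ)
      (μ : ι → ℂ → ℕ),
      (∀ i, IsEdge F (p i) (q i) (A i) (B i) (lam i) (R i) (μ i)) ∧
      (∀ i, IsEdge (g : P2) (p i) (q i) (A i) (B i) 1 (R' i) (fun _ => 1)) ∧
      (∀ i, edgeN (p i) (q i) (A i) (B i) (R' i) (fun _ => 1) =
        edgeN (p i) (q i) (A i) (B i) (R i) (μ i)) ∧
      (∀ i, p i * α i = q i * β i + 1) ∧
      ∀ (a K : ℕ), 1 ≤ a → 1 ≤ K → ZR F e a A₀ K = ZR (g : P2) e a A₀ K +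
        ∑ i, (ser e (f₁ e (edgeP (p i) (q i) (A i) (B i) (lam i) (R i) (μ i))
              (edgeP (p i) (q i) (A i) (B i) 1 (R' i) (fun _ => 1))) (a * p i + q i)
              (edgeN (p i) (q i) (A i) (B i) (R i) (μ i)) +
            ser2 e (f₂ e (edgeP (p i) (q i) (A i) (B i) (lam i) (R i) (μ i))
              (edgeP (p i) (q i) (A i) (B i) 1 (R' i) (fun _ => 1))) (a * p i + q i)
              (edgeN (p i) (q i) (A i) (B i) (R i) (μ i)) +
            (∑ c ∈ R i, ZR (MvPowerSeries.subst (kap (p i) (q i) (α i) (β i) c) F) e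
              (a * p i + q i) (edgeN (p i) (q i) (A i) (B i) (R i) (μ i)) K -
            ∑ c ∈ R' i, ZR (MvPowerSeries.subst (kap (p i) (q i) (α i) (β i) c) (g : P2)) e
              (a * p i + q i) (edgeN (p i) (q i) (A i) (B i) (R i) (μ i)) K)) := by
  classical
  obtain ⟨g, hg0, hgF, hg1, hg2, hg3, hg4⟩ := exists_model' hF
  obtain ⟨ι, hι, p, q, A, B, lam, R, μ, hEd, hinj, hcov⟩ := exists_edges hF
  choose R' hR' hN' using fun i => model_edge (hEd i) (hg2 _ _ _ _ _ _ _ (hEd i))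
  choose α β hab using fun i => P1aux.exists_ab (hEd i).hp (hEd i).hq (hEd i).hpq
  refine ⟨g, hg0, hgF, hg3, hg4, ι, hι, p, q, A, B, α, β, lam, R, R', μ, hEd, hR', hN', hab, ?_⟩
  intro a K ha hK
  ext m
  have hm : m < K * (m + 1) := by nlinarith
  rw [map_add, map_sum, coeff_ZR_strat F e a A₀ hK, coeff_ZR_strat (g : P2) e a A₀ hK,
    ← sub_eq_iff_eq_add', ← Finset.sum_sub_distrib,
    ← Finset.sum_congr rfl fun i _ => ray_sum he ha (hEd i) (hR' i) (hN' i)
      (edgeN_gt (hEd i) hFA) (hab i) hK]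
  refine Eq.trans ?_ (P1aux.sum_box (fun i => (hEd i).hp) (fun i => (hEd i).hq)
    (fun i => (hEd i).hpq) hinj (K * (m + 1)) (fun w => P1aux.Lp ((a - 1) * w 0) *
      (muJ F e (K * (m + 1)) m (Strat (K * (m + 1)) w) (Rg e (K * (m + 1)) (A₀ * w 0)) -
        muJ (g : P2) e (K * (m + 1)) m (Strat (K * (m + 1)) w)
          (Rg e (K * (m + 1)) (A₀ * w 0)))) ?_)
  · refine Finset.sum_congr rfl fun w _ => ?_
    rw [mul_sub]
  · intro w hw hwN
    rcases hcov w hw with ⟨n, v, l, hI⟩ | h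
    · left
      obtain ⟨hl, hwt, hcv, -⟩ := VM.init_mono hI
      obtain ⟨hv1, hv2⟩ := hFA v (by rw [hcv]; exact hl)
      have hn : A₀ * w 0 < n := by
        rw [← hwt, VM.wt2]
        rcases Nat.eq_zero_or_pos (v 1) with h1 | h1
        · have h2 : A₀ ≠ v 0 := by
            intro h2
            apply hv2
            rw [h2]
            exact VM.ext2 (VM.ex_zero _ _).symm (by rw [VM.ex_one, h1])
          have h3 : (A₀ + 1) * w 0 ≤ v 0 * w 0 := Nat.mul_le_mul_right _ (by omega)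
          have h4 := hw 0
          rw [add_mul, one_mul] at h3
          rw [mul_comm (w 0)]
          omega
        · have h3 : A₀ * w 0 ≤ v 0 * w 0 := Nat.mul_le_mul_right _ hv1
          have h4 : 0 < w 1 * v 1 := Nat.mul_pos (hw 1) h1
          rw [mul_comm (w 0)]
          omega
      rw [cone_eq he hm hw hwN hI (hg1 w n v l hw hI) hn, sub_self, mul_zero]
    · exact Or.inr h

end K1

open K1

/-- **Key theorem, pole side.** The zeta function of a stage is regular at `s₀` if `s₀ + ∑ 1/e_i` is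
not one of the candidates of the Newton polygon and if the zeta functions at the roots of the edge
polynomials are regular at `s₀`. -/
theorem ZR_mem_of_edges {F : P2} (hF : F ≠ 0) {e : Fin r → ℕ} (he : ∀ i, 0 < e i) {a A K : ℕ}
    (ha : 1 ≤ a) (hA : (A = 0 ∧ a = 1) ∨ (1 ≤ A ∧ ExactPow F 0 A))
    (hFA : ∀ v, MvPowerSeries.coeff v F ≠ 0 → A ≤ v 0 ∧ v ≠ ex A 0) {s₀ : ℚ} (h1 : s₀ ≠ -1)
    (hK : 1 ≤ K) (hKs : -s₀ < K)
    (hx : ∀ A, ExactPow F 0 A → 0 < A → (a : ℚ) ≠ -(s₀ + hn e) * A)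
    (hy : ∀ B, ExactPow F 1 B → 0 < B → (1 : ℚ) ≠ -(s₀ + hn e) * B)
    (hE : ∀ (p q A B : ℕ) (lam : ℂ) (R : Finset ℂ) (μ : ℂ → ℕ), IsEdge F p q A B lam R μ →
      ((a * p + q : ℕ) : ℚ) ≠ -(s₀ + hn e) * (edgeN p q A B R μ : ℕ))
    (hsub : ∀ (p q A B : ℕ) (lam : ℂ) (R : Finset ℂ) (μ : ℂ → ℕ), IsEdge F p q A B lam R μ →
      ∀ c ∈ R, ∀ α β, p * α = q * β + 1 →
        ZR (MvPowerSeries.subst (kap p q α β c) F) e (a * p + q) (edgeN p q A B R μ) K ∈
          regularAt s₀) :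
    ZR F e a A K ∈ regularAt s₀ := by
  classical
  obtain ⟨g, hg0, hgF, hg3, hg4, ι, hι, p, q, A', B, α, β, lam, R, R', μ, hEd, hR', hN', hab,
    key⟩ := ZR_formula hF he hFA
  rw [key a K ha hK]
  refine add_mem ?_ (sum_mem fun i _ => add_mem (add_mem (ser_mem he _ (P1aux.edgeN_pos (hEd i)) ?_)
    (ser2_mem he _ (P1aux.edgeN_pos (hEd i)) ?_ h1)) (sub_mem
      (sum_mem fun c hc => hsub _ _ _ _ _ _ _ (hEd i) c hc _ _ (hab i))
      (sum_mem fun c hc => ?_)))
  · refine ZR_model_mem hg0 he hg3 h1 hK hKs ha ?_ (fun v hv => hFA v (hgF v hv)) ?_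
    · rcases hA with h | ⟨h2, h3⟩
      · exact Or.inl h
      · exact Or.inr ⟨h2, hx A h3 h2⟩
    · intro w N hw
      rcases hg4 w N hw with ⟨A'', k, hA, hA0, hk, rfl, rfl⟩ | ⟨B', k, hB, hB0, hk, rfl, rfl⟩ |
        ⟨p', q', A'', B', lam', R'', μ', k, hE', hk, rfl, rfl⟩
      · intro h
        apply hx A'' hA hA0
        have hk' : (k : ℚ) ≠ 0 := by positivity
        apply mul_left_cancel₀ hk'
        simp only [Matrix.cons_val_zero, Matrix.cons_val_one, add_zero, Nat.cast_mul] at h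
        linear_combination h
      · intro h
        apply hy B' hB hB0
        have hk' : (k : ℚ) ≠ 0 := by positivity
        apply mul_left_cancel₀ hk'
        simp only [Matrix.cons_val_zero, Matrix.cons_val_one, mul_zero, zero_add,
          Nat.cast_mul] at h
        linear_combination h
      · intro h
        apply hE _ _ _ _ _ _ _ hE'
        have hk' : (k : ℚ) ≠ 0 := by positivity
        apply mul_left_cancel₀ hk'
        simp only [Matrix.cons_val_zero, Matrix.cons_val_one, Nat.cast_add, Nat.cast_mul] at h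
        push_cast
        linear_combination h
  · exact hE _ _ _ _ _ _ _ (hEd i)
  · exact hE _ _ _ _ _ _ _ (hEd i)
  · have hap : 1 ≤ a * p i + q i := le_trans (hEd i).hq (Nat.le_add_left _ _)
    have hy1 := YOrd.sub (hR' i) hc (hab i)
    rw [hN' i] at hy1
    exact ZR_simple (P1aux.edgeN_pos (hEd i)) hy1 he hap hK h1 (hE _ _ _ _ _ _ _ (hEd i))

end SU

end MPb07157
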