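import Pool.Agent.Lib.MP_b07157_agU.Defs

/-!
# The suspension of a non-degenerate polynomial
-/

noncomputable section

namespace MPb07157

open MvPolynomial

namespace SU

open PC

variable {r : ℕ}

/-- The weights of `x^(a-1) dx dy dz`. -/
def cw (r a : ℕ) : Fin (2 + r) → ℕ := Fin.append ![a - 1, 0] (fun _ : Fin r => 0)

namespace M1

/-- the embedding of exponents -/
def emb (r : ℕ) (u : Fin 2 →₀ ℕ) : Fin (2 + r) →₀ ℕ := u.mapDomain (Fin.castAdd r)

theorem emb_inj (r : ℕ) : Function.Injective (emb r) :=
  Finsupp.mapDomain_injective (Fin.castAdd_injective 2 r)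

theorem emb_castAdd (u : Fin 2 →₀ ℕ) (j : Fin 2) : emb r u (Fin.castAdd r j) = u j :=
  Finsupp.mapDomain_apply (Fin.castAdd_injective 2 r) u j

theorem emb_natAdd (u : Fin 2 →₀ ℕ) (i : Fin r) : emb r u (Fin.natAdd 2 i) = 0 := by
  apply Finsupp.mapDomain_of_notMem_range
  rintro ⟨j, hj⟩
  have := congrArg Fin.val hj
  simp at this
  omega

theorem single_natAdd_inj (i i' : Fin r) : Fin.natAdd 2 i = Fin.natAdd 2 i' ↔ i = i' := by
  constructor
  · intro h
    have := congrArg Fin.val h
    simp at this
    exact Fin.ext this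
  · rintro rfl; rfl

theorem emb_ne {e : Fin r → ℕ} (he : ∀ i, 0 < e i) (u : Fin 2 →₀ ℕ) (i : Fin r) :
    Finsupp.single (Fin.natAdd 2 i) (e i) ≠ emb r u := by
  intro h
  have := DFunLike.congr_fun h (Fin.natAdd 2 i)
  rw [emb_natAdd, Finsupp.single_eq_same] at this
  exact (he i).ne' this

theorem single_inj {e : Fin r → ℕ} (he : ∀ i, 0 < e i) {i i' : Fin r}
    (h : (Finsupp.single (Fin.natAdd 2 i) (e i) : Fin (2 + r) →₀ ℕ) =
      Finsupp.single (Fin.natAdd 2 i') (e i')) : i = i' := by
  by_contra hne
  have := DFunLike.congr_fun h (Fin.natAdd 2 i)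
  rw [Finsupp.single_eq_same, Finsupp.single_apply, if_neg] at this
  · exact (he i).ne' this
  · rw [single_natAdd_inj]; exact fun h => hne h.symm

theorem coeff_sum_pow (e : Fin r → ℕ) (v : Fin (2 + r) →₀ ℕ) :
    coeff v (∑ i, (X (Fin.natAdd 2 i) : MvPolynomial (Fin (2 + r)) ℂ) ^ e i) =
      ∑ i, if Finsupp.single (Fin.natAdd 2 i) (e i) = v then (1 : ℂ) else 0 := by
  rw [coeff_sum]
  refine Finset.sum_congr rfl fun i _ => ?_
  rw [coeff_X_pow]

theorem coeff_susp_emb (g : MvPolynomial (Fin 2) ℂ) {e : Fin r → ℕ} (he : ∀ i, 0 < e i)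
    (u : Fin 2 →₀ ℕ) : coeff (emb r u) (susp g e) = coeff u g := by
  unfold susp
  rw [coeff_add, coeff_sum_pow, Finset.sum_eq_zero, add_zero]
  · exact coeff_rename_mapDomain _ (Fin.castAdd_injective 2 r) _ _
  · intro i _
    rw [if_neg (emb_ne he u i)]

theorem coeff_susp_single (g : MvPolynomial (Fin 2) ℂ) {e : Fin r → ℕ} (he : ∀ i, 0 < e i)
    (i : Fin r) : coeff (Finsupp.single (Fin.natAdd 2 i) (e i)) (susp g e) = 1 := by
  unfold susp
  rw [coeff_add, coeff_sum_pow, Finset.sum_eq_single i, if_pos rfl, coeff_rename_eq_zero, zero_add]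
  · intro u hu
    exact absurd hu.symm (emb_ne he u i)
  · intro i' _ hi'
    rw [if_neg]
    exact fun h => hi' (single_inj he h)
  · intro h
    exact absurd (Finset.mem_univ i) h

theorem support_susp (g : MvPolynomial (Fin 2) ℂ) {e : Fin r → ℕ} (he : ∀ i, 0 < e i) :
    (susp g e).support = g.support.image (emb r) ∪
      Finset.univ.image (fun i : Fin r => Finsupp.single (Fin.natAdd 2 i) (e i)) := by
  ext v
  rw [Finset.mem_union, Finset.mem_image, Finset.mem_image]
  constructor
  · intro hv
    by_contra hne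
    push Not at hne
    obtain ⟨h1, h2⟩ := hne
    apply mem_support_iff.1 hv
    unfold susp
    rw [coeff_add, coeff_sum_pow, Finset.sum_eq_zero, add_zero, coeff_rename_eq_zero]
    · intro u hu
      by_contra h0
      exact h1 u (mem_support_iff.2 h0) hu
    · intro i _
      rw [if_neg (h2 i (Finset.mem_univ i))]
  · rintro (⟨u, hu, rfl⟩ | ⟨i, -, rfl⟩)
    · rw [mem_support_iff, coeff_susp_emb g he]
      exact mem_support_iff.1 hu
    · rw [mem_support_iff, coeff_susp_single g he]
      exact one_ne_zero

theorem wt_emb (b : Fin (2 + r) → ℕ) (u : Fin 2 →₀ ℕ) :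
    wt b (emb r u) = wt (fun j => b (Fin.castAdd r j)) u := by
  unfold wt
  rw [Fin.sum_univ_add]
  simp only [emb_castAdd, emb_natAdd, mul_zero, Finset.sum_const_zero, add_zero]

theorem wt_single (b : Fin (2 + r) → ℕ) (i : Fin r) (m : ℕ) :
    wt b (Finsupp.single (Fin.natAdd 2 i) m) = b (Fin.natAdd 2 i) * m := by
  unfold wt
  rw [Finset.sum_eq_single (Fin.natAdd 2 i), Finsupp.single_eq_same]
  · intro j _ hj
    rw [Finsupp.single_apply, if_neg (fun h => hj h.symm), mul_zero]
  · intro h
    exact absurd (Finset.mem_univ _) h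

theorem mem_face_emb (g : MvPolynomial (Fin 2) ℂ) {e : Fin r → ℕ} (he : ∀ i, 0 < e i)
    (b : Fin (2 + r) → ℕ) (N : ℕ) (u : Fin 2 →₀ ℕ) :
    emb r u ∈ face (susp g e) b N ↔ u ∈ face g (fun j => b (Fin.castAdd r j)) N := by
  unfold face
  rw [Finset.mem_filter, Finset.mem_filter, mem_support_iff, mem_support_iff, coeff_susp_emb g he,
    wt_emb]

theorem mem_face_single (g : MvPolynomial (Fin 2) ℂ) {e : Fin r → ℕ} (he : ∀ i, 0 < e i)
    (b : Fin (2 + r) → ℕ) (N : ℕ) (i : Fin r) :
    Finsupp.single (Fin.natAdd 2 i) (e i) ∈ face (susp g e) b N ↔ b (Fin.natAdd 2 i) * e i = N := by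
  unfold face
  rw [Finset.mem_filter, mem_support_iff, coeff_susp_single g he, wt_single]
  exact ⟨fun h => h.2, fun h => ⟨one_ne_zero, h⟩⟩

theorem face_eq (g : MvPolynomial (Fin 2) ℂ) {e : Fin r → ℕ} (he : ∀ i, 0 < e i)
    (b : Fin (2 + r) → ℕ) (N : ℕ) :
    face (susp g e) b N = (face g (fun j => b (Fin.castAdd r j)) N).image (emb r) ∪
      (Finset.univ.filter fun i => b (Fin.natAdd 2 i) * e i = N).image
        (fun i : Fin r => Finsupp.single (Fin.natAdd 2 i) (e i)) := by
  ext v
  constructor
  · intro hv
    have hv' : v ∈ (susp g e).support := (Finset.mem_filter.1 hv).1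
    rw [support_susp g he, Finset.mem_union, Finset.mem_image, Finset.mem_image] at hv'
    rcases hv' with ⟨u, -, rfl⟩ | ⟨i, -, rfl⟩
    · exact Finset.mem_union_left _ (Finset.mem_image_of_mem _ ((mem_face_emb g he b N u).1 hv))
    · exact Finset.mem_union_right _ (Finset.mem_image_of_mem _
        (Finset.mem_filter.2 ⟨Finset.mem_univ _, (mem_face_single g he b N i).1 hv⟩))
  · intro hv
    rw [Finset.mem_union, Finset.mem_image, Finset.mem_image] at hv
    rcases hv with ⟨u, hu, rfl⟩ | ⟨i, hi, rfl⟩
    · exact (mem_face_emb g he b N u).2 hu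
    · exact (mem_face_single g he b N i).2 (Finset.mem_filter.1 hi).2

theorem inForm_eq (g : MvPolynomial (Fin 2) ℂ) {e : Fin r → ℕ} (he : ∀ i, 0 < e i)
    (b : Fin (2 + r) → ℕ) (N : ℕ) :
    inForm (susp g e) (face (susp g e) b N) =
      rename (Fin.castAdd r) (inForm g (face g (fun j => b (Fin.castAdd r j)) N)) +
      ∑ i ∈ Finset.univ.filter (fun i => b (Fin.natAdd 2 i) * e i = N),
        X (Fin.natAdd 2 i) ^ e i := by
  classical
  have hdisj : Disjoint ((face g (fun j => b (Fin.castAdd r j)) N).image (emb r))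
      ((Finset.univ.filter fun i => b (Fin.natAdd 2 i) * e i = N).image
        (fun i : Fin r => Finsupp.single (Fin.natAdd 2 i) (e i))) := by
    rw [Finset.disjoint_left]
    intro v hv hv'
    rw [Finset.mem_image] at hv hv'
    obtain ⟨u, -, rfl⟩ := hv
    obtain ⟨i, -, hi⟩ := hv'
    exact emb_ne he u i hi
  rw [face_eq g he]
  unfold inForm
  rw [Finset.sum_union hdisj, Finset.sum_image (fun x _ y _ h => emb_inj r h),
    Finset.sum_image (fun x _ y _ h => single_inj he h), map_sum]
  congr 1
  · refine Finset.sum_congr rfl fun u _ => ?_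
    rw [coeff_susp_emb g he, rename_monomial]
    rfl
  · refine Finset.sum_congr rfl fun i _ => ?_
    rw [coeff_susp_single g he, X_pow_eq_monomial]

end M1

open M1

theorem susp_ne_zero {g : MvPolynomial (Fin 2) ℂ} (hg : g ≠ 0) {e : Fin r → ℕ}
    (he : ∀ i, 0 < e i) (_h0 : coeff 0 g = 0) : susp g e ≠ 0 := by
  intro h
  obtain ⟨u, hu⟩ := MvPolynomial.support_nonempty.2 hg
  apply mem_support_iff.1 hu
  rw [← coeff_susp_emb g he u, h, coeff_zero]

theorem Zw_susp_mem {g : MvPolynomial (Fin 2) ℂ} (hg : g ≠ 0) {e : Fin r → ℕ}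
    (he : ∀ i, 0 < e i) (hnd : ∀ a : Fin 2 → ℕ, (∀ j, 1 ≤ a j) → NondegAt g (face g a (nuf g a)))
    {s₀ : ℚ} (h1 : s₀ ≠ -1) {K : ℕ} (hK : 1 ≤ K) (hKs : -s₀ < K) {a : ℕ} (ha : 1 ≤ a)
    (hfac : ∀ (w : Fin 2 → ℕ) (N : ℕ), IsFacetWt g w N →
      ((a * w 0 + w 1 : ℕ) : ℚ) ≠ -(s₀ + hn e) * N) :
    Zw (susp g e) 1 K (cw r a) ∈ regularAt s₀ := by
  classical
  have hs : susp g e ≠ 0 := by
    intro h
    obtain ⟨u, hu⟩ := MvPolynomial.support_nonempty.2 hg
    apply mem_support_iff.1 hu
    rw [← coeff_susp_emb g he u, h, coeff_zero]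
  obtain ⟨u₀, hu₀⟩ := MvPolynomial.support_nonempty.2 hg
  refine Zw_mem_regularAt hs le_rfl ?_ h1 hK hKs (cw r a) ?_
  · -- non-degeneracy
    intro b hb u hu hev
    obtain ⟨hmin, v, hv, hvN⟩ := isMinWt_nuf hs b
    set N := nuf (susp g e) b with hN
    rw [inForm_eq g he] at hev ⊢
    by_cases hi : ∃ i, b (Fin.natAdd 2 i) * e i = N
    · obtain ⟨i, hi⟩ := hi
      refine ⟨Fin.natAdd 2 i, ?_⟩
      have hd1 : pderiv (Fin.natAdd 2 i) (rename (Fin.castAdd r)
          (inForm g (face g (fun j => b (Fin.castAdd r j)) N))) = 0 := by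
        apply pderiv_eq_zero_of_notMem_vars
        intro hmem
        obtain ⟨j, -, hj⟩ := Finset.mem_image.1 (vars_rename _ _ hmem)
        have := congrArg Fin.val hj
        simp at this
        omega
      rw [map_add, hd1, zero_add, map_sum, Finset.sum_eq_single i]
      · rw [pderiv_pow, pderiv_X_self, mul_one, map_mul, map_pow, eval_X, map_natCast]
        exact mul_ne_zero (Nat.cast_ne_zero.2 (he i).ne') (pow_ne_zero _ (hu _))
      · intro i' _ hi'
        rw [pderiv_pow, pderiv_X_of_ne, mul_zero]
        rw [Ne, single_natAdd_inj]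
        exact hi'
      · intro h
        exact absurd (Finset.mem_filter.2 ⟨Finset.mem_univ i, hi⟩) h
    · push Not at hi
      have hemp : (Finset.univ.filter fun i => b (Fin.natAdd 2 i) * e i = N) = ∅ := by
        rw [Finset.filter_eq_empty_iff]
        intro i _
        exact hi i
      rw [hemp, Finset.sum_empty, add_zero] at hev ⊢
      have hN' : N = nuf g (fun j => b (Fin.castAdd r j)) := by
        refine IsMinWt.eq (f := g) ⟨?_, ?_⟩ (isMinWt_nuf hg _)
        · intro v' hv'
          rw [← wt_emb]
          apply hmin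
          rw [mem_support_iff, coeff_susp_emb g he]
          exact mem_support_iff.1 hv'
        · have hvf : v ∈ face (susp g e) b N := Finset.mem_filter.2 ⟨hv, hvN⟩
          rw [face_eq g he, hemp, Finset.image_empty, Finset.union_empty, Finset.mem_image] at hvf
          obtain ⟨v', hv', -⟩ := hvf
          exact ⟨v', (Finset.mem_filter.1 hv').1, (Finset.mem_filter.1 hv').2⟩
      rw [hN'] at hev ⊢
      rw [eval_rename] at hev
      obtain ⟨j, hj⟩ := hnd (fun j => b (Fin.castAdd r j)) (fun j => hb _)
        (u ∘ Fin.castAdd r) (fun j => hu _) hev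
      refine ⟨Fin.castAdd r j, ?_⟩
      rw [pderiv_rename (Fin.castAdd_injective 2 r), eval_rename]
      exact hj
  · intro w N hw
    obtain ⟨⟨hmin, v, hv, hvN⟩, hN0, hsp⟩ := hw
    -- the weights of the `z_i`
    have hz : ∀ i, w (Fin.natAdd 2 i) * e i = N := by
      intro i
      by_contra hne
      have hge : N ≤ w (Fin.natAdd 2 i) * e i := by
        rw [← wt_single]
        apply hmin
        rw [mem_support_iff, coeff_susp_single g he]
        exact one_ne_zero
      have hw0 : w (Fin.natAdd 2 i) ≠ 0 := by
        intro h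
        rw [h, zero_mul] at hge
        omega
      have := hsp (fun j => if j = Fin.natAdd 2 i then 1 else 0) ?_ ?_
      · have h2 := congrFun this (Fin.natAdd 2 i)
        simp at h2
      · intro j hj
        rw [if_neg]
        rintro rfl
        exact hw0 hj
      · intro v' hv'
        rw [face_eq g he, Finset.mem_union, Finset.mem_image, Finset.mem_image] at hv'
        have : v' (Fin.natAdd 2 i) = 0 := by
          rcases hv' with ⟨u, -, rfl⟩ | ⟨i', hi', rfl⟩
          · exact emb_natAdd u i
          · rw [Finsupp.single_apply, if_neg]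
            intro h
            rw [single_natAdd_inj] at h
            subst h
            exact hne (Finset.mem_filter.1 hi').2
        rw [Finset.sum_eq_single (Fin.natAdd 2 i), this]
        · simp
        · intro j _ hj
          rw [if_neg hj, zero_mul]
        · intro h
          exact absurd (Finset.mem_univ _) h
    -- a vertex in the plane
    have hex : ∃ u ∈ g.support, wt (fun j => w (Fin.castAdd r j)) u = N := by
      by_contra hne
      push Not at hne
      have hj : ∃ j : Fin 2, w (Fin.castAdd r j) ≠ 0 := by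
        by_contra h0
        push Not at h0
        have h2 : N ≤ wt w (M1.emb r u₀) := by
          apply hmin
          rw [mem_support_iff, coeff_susp_emb g he]
          exact mem_support_iff.1 hu₀
        rw [wt_emb] at h2
        unfold wt at h2
        simp only [h0, zero_mul, Finset.sum_const_zero] at h2
        omega
      obtain ⟨j, hj⟩ := hj
      have := hsp (fun k => if k = Fin.castAdd r j then 1 else 0) ?_ ?_
      · have h2 := congrFun this (Fin.castAdd r j)
        simp at h2
      · intro k hk
        rw [if_neg]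
        rintro rfl
        exact hj hk
      · intro v' hv'
        rw [face_eq g he, Finset.mem_union, Finset.mem_image, Finset.mem_image] at hv'
        have : v' (Fin.castAdd r j) = 0 := by
          rcases hv' with ⟨u, hu, rfl⟩ | ⟨i', hi', rfl⟩
          · exact absurd (Finset.mem_filter.1 hu).2 (hne u (Finset.mem_filter.1 hu).1)
          · rw [Finsupp.single_apply, if_neg]
            intro h
            have := congrArg Fin.val h
            simp at this
            omega
        rw [Finset.sum_eq_single (Fin.castAdd r j), this]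
        · simp
        · intro k _ hk
          rw [if_neg hk, zero_mul]
        · intro h
          exact absurd (Finset.mem_univ _) h
    have hfw : IsFacetWt g (fun j => w (Fin.castAdd r j)) N := by
      refine ⟨⟨fun u hu => ?_, hex⟩, hN0, ?_⟩
      · rw [← wt_emb]
        apply hmin
        rw [mem_support_iff, coeff_susp_emb g he]
        exact mem_support_iff.1 hu
      · intro y hy hy'
        have := hsp (Fin.append y (fun _ => 0)) ?_ ?_
        · funext j
          have h2 := congrFun this (Fin.castAdd r j)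
          rw [Fin.append_left] at h2
          exact h2
        · intro j
          refine Fin.addCases (fun j => ?_) (fun i => ?_) j
          · intro h
            rw [Fin.append_left]
            exact hy j h
          · intro _
            rw [Fin.append_right]
        · intro v' hv'
          rw [Fin.sum_univ_add]
          simp only [Fin.append_left, Fin.append_right, zero_mul, Finset.sum_const_zero, add_zero]
          rw [face_eq g he, Finset.mem_union, Finset.mem_image, Finset.mem_image] at hv'
          rcases hv' with ⟨u, hu, rfl⟩ | ⟨i', hi', rfl⟩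
          · simp only [emb_castAdd]
            exact hy' u hu
          · apply Finset.sum_eq_zero
            intro j _
            rw [Finsupp.single_apply, if_neg, Nat.cast_zero, mul_zero]
            intro h
            have := congrArg Fin.val h
            simp at this
            omega
    intro heq
    apply hfac _ N hfw
    have hsum : ((∑ j, (1 + cw r a j) * w j : ℕ) : ℚ) =
        ((a * w (Fin.castAdd r 0) + w (Fin.castAdd r 1) : ℕ) : ℚ) + hn e * N := by
      rw [Fin.sum_univ_add]
      simp only [cw, Fin.append_left, Fin.append_right, Fin.sum_univ_two]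
      have ha' : 1 + (a - 1) = a := by omega
      have hzz : ∀ i, ((w (Fin.natAdd 2 i) : ℕ) : ℚ) = 1 / (e i : ℚ) * N := by
        intro i
        have h2 : (e i : ℚ) ≠ 0 := Nat.cast_ne_zero.2 (he i).ne'
        rw [← hz i]
        push_cast
        field_simp
      simp only [Matrix.cons_val_zero, Matrix.cons_val_one, ha']
      push_cast
      rw [hn, Finset.sum_mul]
      simp only [hzz, one_mul]
    rw [hsum] at heq
    linear_combination heq

end SU

end MPb07157
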