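import Pool.Agent.Lib.MP_b07157_agU.J3
import Pool.Agent.Lib.MP_b07157_agU.M1

/-!
# Zeta functions of polynomials
-/

noncomputable section

namespace MPb07157

open MvPolynomial

namespace SU

open PC

variable {r : ℕ}

namespace M2h

/-! ### The equivalence of coordinates -/

/-- The coordinates of the jets `(x, y, z)` in the two notations. -/
def eqv (r N : ℕ) : (Fin 2 × Fin N) ⊕ (Fin r × Fin N) ≃ Fin (2 + r) × Fin N :=
  (Equiv.sumProdDistrib (Fin 2) (Fin r) (Fin N)).symm.trans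
    (Equiv.prodCongr finSumFinEquiv (Equiv.refl _))

theorem eqv_inl (r N : ℕ) (p : Fin 2 × Fin N) : eqv r N (Sum.inl p) = (Fin.castAdd r p.1, p.2) :=
  rfl

theorem eqv_inr (r N : ℕ) (p : Fin r × Fin N) : eqv r N (Sum.inr p) = (Fin.natAdd 2 p.1, p.2) :=
  rfl

theorem val_eqv (g : MvPolynomial (Fin 2) ℂ) (e : Fin r → ℕ) {N : ℕ}
    (x : Fin (2 + r) × Fin N → ℂ) :
    val (g : P2) e (fun i => x (eqv r N i)) = (aeval (arc x) (susp g e) : PowerSeries ℂ) := by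
  have h1 : valF (g : P2) (xyP fun i => x (eqv r N i)) =
      (aeval (fun j => arc x (Fin.castAdd r j)) g : PowerSeries ℂ) := by
    unfold valF
    rw [MvPowerSeries.subst_coe]
    rfl
  unfold val susp
  rw [h1, map_add, aeval_rename, map_sum]
  congr 1
  refine Finset.sum_congr rfl fun i _ => ?_
  rw [map_pow, aeval_X]
  rfl

/-- The arcs with `ord x = k`. -/
def Xg (r N k : ℕ) : Set (Fin (2 + r) × Fin N → ℂ) :=
  {γ | (∀ j : Fin N, (j : ℕ) < k → γ (Fin.castAdd r 0, j) = 0) ∧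
    ∀ h : k < N, γ (Fin.castAdd r 0, ⟨k, h⟩) ≠ 0}

theorem Strat_subset_Xg {N : ℕ} (a : Fin (2 + r) → ℕ) :
    Strat N a ⊆ Xg r N (a (Fin.castAdd r 0)) := by
  rintro γ ⟨h1, h2⟩
  refine ⟨fun j hj => h1 _ j hj, fun h => ?_⟩
  have h3 := h2 _ h
  unfold lead0 at h3
  rwa [dif_pos h] at h3

theorem Xg_eq {N i j : ℕ} {γ : Fin (2 + r) × Fin N → ℂ} (hi : i ≤ N) (hj : j ≤ N)
    (h1 : γ ∈ Xg r N i) (h2 : γ ∈ Xg r N j) : i = j := by
  rcases lt_trichotomy i j with h | h | h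
  · exact absurd (h2.1 ⟨i, by omega⟩ h) (h1.2 (by omega))
  · exact h
  · exact absurd (h1.1 ⟨j, by omega⟩ h) (h2.2 (by omega))

theorem arcs_Xg (f : MvPolynomial (Fin (2 + r)) ℂ) {N m k : ℕ} (hN : 1 ≤ N) (hk : k ≤ N) :
    arcs f N m ∩ Start (2 + r) 1 N ∩ Xg r N k =
      ⋃ a ∈ (Fintype.piFinset (fun _ : Fin (2 + r) => Finset.Icc 1 N)).filter
        (fun a => a (Fin.castAdd r 0) = k), (arcs f N m ∩ Strat N a) := by
  rw [arcs_eq_iUnion f m hN]
  ext γ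
  simp only [Set.mem_inter_iff, Set.mem_iUnion, exists_prop, Finset.mem_filter]
  constructor
  · rintro ⟨⟨a, ha, h1, h2⟩, h3⟩
    refine ⟨a, ⟨ha, ?_⟩, h1, h2⟩
    have h4 := (Finset.mem_Icc.1 (Fintype.mem_piFinset.1 ha (Fin.castAdd r 0))).2
    exact Xg_eq h4 hk (Strat_subset_Xg a h2) h3
  · rintro ⟨a, ⟨ha, ha2⟩, h1, h2⟩
    refine ⟨⟨a, ha, h1, h2⟩, ?_⟩
    rw [← ha2]
    exact Strat_subset_Xg a h2

theorem clsM_arcs_Xg (f : MvPolynomial (Fin (2 + r)) ℂ) {N m k : ℕ} (hN : 1 ≤ N) (hk : k ≤ N) :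
    clsM (arcs f N m ∩ Start (2 + r) 1 N ∩ Xg r N k) =
      ∑ a ∈ (Fintype.piFinset (fun _ : Fin (2 + r) => Finset.Icc 1 N)).filter
        (fun a => a (Fin.castAdd r 0) = k), clsM (arcs f N m ∩ Strat N a) := by
  unfold clsM
  rw [arcs_Xg f hN hk, cls_biUnion, map_sum]
  · intro a _
    exact (isConstr_arcs f N m).inter (isConstr_Strat N a)
  · intro a ha b hb hab
    rw [Finset.mem_filter, Fintype.mem_piFinset] at ha hb
    exact (disjoint_Strat (fun j => (Finset.mem_Icc.1 (ha.1 j)).2)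
      (fun j => (Finset.mem_Icc.1 (hb.1 j)).2) hab).mono Set.inter_subset_right
      Set.inter_subset_right

/-- The sets of jets in the two notations. -/
theorem eqv_jset (g : MvPolynomial (Fin 2) ℂ) {e : Fin r → ℕ} (he : ∀ i, 0 < e i) {N m k : ℕ} :
    {x : Fin (2 + r) × Fin N → ℂ | (fun i => x (eqv r N i)) ∈
      jset (g : P2) e N m (Start 2 1 N ∩ Xo N k) (Rg e N 0)} =
      arcs (susp g e) N m ∩ Start (2 + r) 1 N ∩ Xg r N k := by
  ext x
  simp only [jset, Set.mem_ofPred_eq, val_eqv, Set.mem_inter_iff, arcs]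
  have hS : (xyP (fun i => x (eqv r N i)) ∈ Start 2 1 N ∧
      zP (fun i => x (eqv r N i)) ∈ Rg e N 0) ↔ x ∈ Start (2 + r) 1 N := by
    constructor
    · rintro ⟨h1, h2⟩ j k hk
      induction j using Fin.addCases with
      | left i => exact h1 i k hk
      | right i =>
        refine h2 i k ?_
        have : (k : ℕ) = 0 := by omega
        rw [this, mul_zero]
    · intro h
      refine ⟨fun j k hk => h _ k hk, fun i j hj => ?_⟩
      have h3 : (j : ℕ) = 0 := by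
        have := he i
        rcases Nat.eq_zero_or_pos (j : ℕ) with h4 | h4
        · exact h4
        · have := Nat.mul_pos this h4
          omega
      exact h _ j (by omega)
  have hX : xyP (fun i => x (eqv r N i)) ∈ Xo N k ↔ x ∈ Xg r N k := Iff.rfl
  rw [← hS, ← hX]
  tauto

theorem clsM_jset (g : MvPolynomial (Fin 2) ℂ) {e : Fin r → ℕ} (he : ∀ i, 0 < e i) {N m k : ℕ}
    (hm : m < N) :
    clsM (arcs (susp g e) N m ∩ Start (2 + r) 1 N ∩ Xg r N k) =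
      clsM (jset (g : P2) e N m (Start 2 1 N ∩ Xo N k) (Rg e N 0)) := by
  have hc : IsConstr (jset (g : P2) e N m (Start 2 1 N ∩ Xo N k) (Rg e N 0)) :=
    isConstr_jset (g : P2) e hm ((isConstr_Start 2 1 N).inter (isConstr_Xo N k))
      Set.inter_subset_left (isConstr_Rg e N 0)
  unfold clsM
  rw [← eqv_jset g he, cls_equiv (eqv r N) hc]

theorem cw_sum (a : ℕ) (b : Fin (2 + r) → ℕ) :
    ∑ j, cw r a j * b j = (a - 1) * b (Fin.castAdd r 0) := by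
  rw [Fin.sum_univ_add, Fin.sum_univ_two]
  have h1 : ∀ i : Fin r, cw r a (Fin.natAdd 2 i) = 0 := fun i => by
    rw [cw, Fin.append_right]
  have h2 : cw r a (Fin.castAdd r 0) = a - 1 := by
    rw [cw, Fin.append_left]
    rfl
  have h3 : cw r a (Fin.castAdd r 1) = 0 := by
    rw [cw, Fin.append_left]
    rfl
  rw [h2, h3]
  simp only [h1, zero_mul, Finset.sum_const_zero, add_zero]

/-- The coefficients of `Zw` with the sets of jets. -/
theorem coeff_Zw_susp (g : MvPolynomial (Fin 2) ℂ) {e : Fin r → ℕ} (he : ∀ i, 0 < e i)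
    (a : ℕ) {K : ℕ} (hK : 1 ≤ K) (m : ℕ) :
    PowerSeries.coeff m (Zw (susp g e) 1 K (cw r a)) =
      ∑ k ∈ Finset.Icc 1 (K * (m + 1)), P1aux.Lp ((a - 1) * k) *
        muJ (g : P2) e (K * (m + 1)) m (Start 2 1 (K * (m + 1)) ∩ Xo (K * (m + 1)) k)
          (Rg e (K * (m + 1)) 0) := by
  classical
  have hm : m < K * (m + 1) := by nlinarith
  unfold Zw
  rw [PowerSeries.coeff_mk]
  rw [← Finset.sum_fiberwise_of_maps_to (g := fun b : Fin (2 + r) → ℕ => b (Fin.castAdd r 0))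
    (t := Finset.Icc 1 (K * (m + 1)))]
  · refine Finset.sum_congr rfl fun k hk => ?_
    unfold muJ mJ
    rw [← clsM_jset g he hm, clsM_arcs_Xg _ (by omega) (Finset.mem_Icc.1 hk).2, Finset.mul_sum,
      Finset.mul_sum]
    refine Finset.sum_congr rfl fun b hb => ?_
    rw [Finset.mem_filter] at hb
    rw [cw_sum, hb.2]
    rfl
  · intro b hb
    exact Fintype.mem_piFinset.1 hb _

theorem ZR_zero (g : MvPolynomial (Fin 2) ℂ) {e : Fin r → ℕ} (he : ∀ i, 0 < e i)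
    (a : ℕ) {K : ℕ} (hK : 1 ≤ K) :
    ZR (g : P2) e a 0 K = Zw (susp g e) 1 K (cw r a) := by
  ext m
  rw [coeff_Zw_susp g he a hK, ZR, PowerSeries.coeff_mk]
  refine Finset.sum_congr rfl fun k _ => ?_
  rw [zero_mul]

theorem Zw_zero_eq {n : ℕ} (f : MvPolynomial (Fin n) ℂ) {K : ℕ} (hK : 1 ≤ K) {c : Fin n → ℕ}
    (hc : ∀ b : Fin n → ℕ, ∑ j, c j * b j = 0) : Zw f 1 K c = Zmot0 f := by
  rw [Zmot0_eq]
  ext m
  have hm : m < K * (m + 1) := by nlinarith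
  unfold Zw ZE
  rw [PowerSeries.coeff_mk, PowerSeries.coeff_mk, ← muE_eq f hm le_rfl, muE,
    clsM_arcs_eq_sum f m (by omega), Finset.mul_sum]
  refine Finset.sum_congr rfl fun b _ => ?_
  rw [hc b]
  simp

/-- `F(γ)` is divisible by `t^{A k + 1}`. -/
theorem valF_dvd {g : MvPolynomial (Fin 2) ℂ} {A : ℕ}
    (hg : ∀ v ∈ g.support, A ≤ v 0 ∧ v ≠ ex A 0) {N k : ℕ}
    {γ : Fin 2 × Fin N → ℂ} (hγ : γ ∈ Start 2 1 N ∩ Xo N k) :
    (PowerSeries.X : PowerSeries ℂ) ^ (A * k + 1) ∣ valF (g : P2) γ := by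
  obtain ⟨h0, h1, -⟩ := hγ
  have hx : (PowerSeries.X : PowerSeries ℂ) ^ k ∣ arc γ 0 := by
    rw [PowerSeries.X_pow_dvd_iff]
    intro j hj
    rw [coeff_arc]
    split_ifs with h
    · exact h1 ⟨j, h⟩ hj
    · rfl
  have hx1 : (PowerSeries.X : PowerSeries ℂ) ^ 1 ∣ arc γ 0 := X_dvd_arc_of_mem_Start h0 0
  have hy : (PowerSeries.X : PowerSeries ℂ) ^ 1 ∣ arc γ 1 := X_dvd_arc_of_mem_Start h0 1
  unfold valF
  rw [MvPowerSeries.subst_coe, aeval_def, eval₂_eq']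
  refine Finset.dvd_sum fun v hv => Dvd.dvd.mul_left ?_ _
  rw [Fin.prod_univ_two]
  obtain ⟨h2, h3⟩ := hg v hv
  have hv1 : A < v 0 ∨ 1 ≤ v 1 := by
    by_contra h4
    push Not at h4
    apply h3
    have h5 : v 0 = A := by omega
    have h6 : v 1 = 0 := by omega
    ext i
    fin_cases i
    · simpa [ex] using h5
    · simpa [ex] using h6
  have hA : (PowerSeries.X : PowerSeries ℂ) ^ (A * k) ∣ arc γ 0 ^ A := by
    rw [mul_comm, pow_mul]
    exact pow_dvd_pow_of_dvd hx A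
  rcases hv1 with h4 | h4
  · obtain ⟨c, hc⟩ := Nat.exists_eq_add_of_lt h4
    have h5 : (PowerSeries.X : PowerSeries ℂ) ^ (A * k + 1) ∣ arc γ 0 ^ v 0 := by
      rw [hc, show A + c + 1 = A + (c + 1) by ring, pow_add (arc γ 0), pow_add]
      refine mul_dvd_mul hA ?_
      exact hx1.trans (dvd_pow_self _ (by omega))
    exact Dvd.dvd.mul_right h5 _
  · rw [pow_add]
    refine mul_dvd_mul (hA.trans (pow_dvd_pow _ h2)) ?_
    exact hy.trans (dvd_pow_self _ (by omega))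

/-- The arcs with `min e_i ord ζ_i = n ≤ A ord x`. -/
theorem muJ_Ug_indep {g₁ g₂ : MvPolynomial (Fin 2) ℂ} {e : Fin r → ℕ} (he : ∀ i, 0 < e i) {A : ℕ}
    (hg₁ : ∀ v ∈ g₁.support, A ≤ v 0 ∧ v ≠ ex A 0) (hg₂ : ∀ v ∈ g₂.support, A ≤ v 0 ∧ v ≠ ex A 0)
    {N m k n : ℕ} (hm : m < N) (hn : 1 ≤ n) (hnk : n ≤ A * k) :
    muJ (g₁ : P2) e N m (Start 2 1 N ∩ Xo N k) (Ug e N n) =
      muJ (g₂ : P2) e N m (Start 2 1 N ∩ Xo N k) (Ug e N n) := by
  have hS : IsConstr (Start 2 1 N ∩ Xo N k) := (isConstr_Start 2 1 N).inter (isConstr_Xo N k)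
  have key : ∀ g : MvPolynomial (Fin 2) ℂ, (∀ v ∈ g.support, A ≤ v 0 ∧ v ≠ ex A 0) →
      ∀ γ ∈ Start 2 1 N ∩ Xo N k, (∀ j < n, PowerSeries.coeff j (valF (g : P2) γ) = 0) ∧
      (n < N → PowerSeries.coeff n (valF (g : P2) γ) =
        eval γ (0 : MvPolynomial (Fin 2 × Fin N) ℂ)) := by
    intro g hg γ hγ
    have h1 := PowerSeries.X_pow_dvd_iff.1 (valF_dvd hg hγ)
    refine ⟨fun j hj => h1 j (by omega), fun _ => ?_⟩
    rw [map_zero]
    exact h1 n (by omega)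
  rw [muJ_Ug he hn hm hS Set.inter_subset_left 0 (key g₁ hg₁),
    muJ_Ug he hn hm hS Set.inter_subset_left 0 (key g₂ hg₂)]

end M2h

/-- The zeta function of the first stage. -/
theorem ZR_one_eq {g : MvPolynomial (Fin 2) ℂ} {e : Fin r → ℕ} (he : ∀ i, 0 < e i) {K : ℕ}
    (hK : 1 ≤ K) :
    ZR (g : P2) e 1 0 K = Zmot0 (susp g e) := by
  rw [M2h.ZR_zero g he 1 hK]
  refine M2h.Zw_zero_eq _ hK fun b => ?_
  rw [M2h.cw_sum, Nat.sub_self, zero_mul]

/-- The first stage, with `Zw`. -/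
theorem ZR_one_eq_Zw {g : MvPolynomial (Fin 2) ℂ} {e : Fin r → ℕ} (he : ∀ i, 0 < e i) {K : ℕ}
    (hK : 1 ≤ K) :
    ZR (g : P2) e 1 0 K = Zw (susp g e) 1 K (cw r 1) :=
  M2h.ZR_zero g he 1 hK

/-- The arcs outside the region `e_i ord z_i > A ord x` contribute the same for all `x^A g`. -/
theorem ZR_sub_eq {g₁ g₂ : MvPolynomial (Fin 2) ℂ} {e : Fin r → ℕ} (he : ∀ i, 0 < e i) {A : ℕ}
    (hg₁ : ∀ v ∈ g₁.support, A ≤ v 0 ∧ v ≠ ex A 0) (hg₂ : ∀ v ∈ g₂.support, A ≤ v 0 ∧ v ≠ ex A 0)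
    (a : ℕ) {K : ℕ} (hK : 1 ≤ K) :
    ZR (g₁ : P2) e a A K - ZR (g₂ : P2) e a A K =
      Zw (susp g₁ e) 1 K (cw r a) - Zw (susp g₂ e) 1 K (cw r a) := by
  ext m
  have hm : m < K * (m + 1) := by nlinarith
  rw [map_sub, map_sub, M2h.coeff_Zw_susp g₁ he a hK, M2h.coeff_Zw_susp g₂ he a hK, ZR, ZR,
    PowerSeries.coeff_mk, PowerSeries.coeff_mk, ← Finset.sum_sub_distrib,
    ← Finset.sum_sub_distrib]
  refine Finset.sum_congr rfl fun k _ => ?_
  rw [← mul_sub, ← mul_sub]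
  congr 1
  have hS : IsConstr (Start 2 1 (K * (m + 1)) ∩ Xo (K * (m + 1)) k) :=
    (isConstr_Start 2 1 _).inter (isConstr_Xo _ k)
  rw [muJ_Rg_split (g₁ : P2) hm hS Set.inter_subset_left (Nat.zero_le (A * k)),
    muJ_Rg_split (g₂ : P2) hm hS Set.inter_subset_left (Nat.zero_le (A * k)),
    Finset.sum_congr rfl fun n hn => M2h.muJ_Ug_indep he hg₁ hg₂ hm
      (Finset.mem_Ioc.1 hn).1 (Finset.mem_Ioc.1 hn).2]
  ring

end SU

end MPb07157
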