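import Pool.Agent.Lib.MP_b07157_agU.N2c

/-!
# Transfer of relations to the hyperplane `z = 0`, any number of variables `x`
-/

noncomputable section

namespace MPb07157

open MvPolynomial

namespace SU

variable {n r : ℕ}

namespace N2h

theorem raise_num {g : B n} (hg : MvPowerSeries.constantCoeff g = 0) {e : Fin r → ℕ}
    (he : ∀ i, 2 ≤ e i) {θ s : ℂ} (hθ : ∀ l : ℕ, θ + l ≠ 0) {k : ℕ} {ψ : A n r}
    (h : NumN g s k (T g e θ ψ)) : NumN g s (k + 1) (T g e (θ - 1) (su g e * ψ)) := by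
  have h0 : θ ≠ 0 := by
    have := hθ 0
    rwa [Nat.cast_zero, add_zero] at this
  refine (h.raise.mul (MvPowerSeries.C (θ⁻¹ * (θ - hc e)))).of_eq rfl ?_
  rw [map_mul, mul_assoc, ← T_raise hg he hθ, ← mul_assoc, ← map_mul, inv_mul_cancel₀ h0, map_one,
    one_mul]

theorem lower_num {g : B n} (hg : MvPowerSeries.constantCoeff g = 0) {e : Fin r → ℕ}
    (he : ∀ i, 2 ≤ e i) {θ s : ℂ} (hθ : ∀ l : ℕ, θ + l ≠ 0) (hσ : θ - hc e ≠ 0) {k : ℕ}
    {ψ : A n r} (h : NumN g s (k + 1) (T g e (θ - 1) (su g e * ψ))) :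
    NumN g s k (T g e θ ψ) := by
  refine NumN.lower ((h.mul (MvPowerSeries.C ((θ - hc e)⁻¹ * θ))).of_eq rfl ?_)
  rw [map_mul, mul_assoc, T_raise hg he hθ, ← mul_assoc, ← map_mul, inv_mul_cancel₀ hσ, map_one,
    one_mul]

theorem deriv_num {g : B n} (hg : MvPowerSeries.constantCoeff g = 0) {e : Fin r → ℕ}
    (he : ∀ i, 2 ≤ e i) {θ s : ℂ} (hθ : ∀ l : ℕ, θ + l ≠ 0) {k : ℕ} (hs : s + 1 - k = θ)
    (i : Fin (n + r)) {ψ : A n r} (h : NumN g s k (T g e θ ψ)) :
    NumN g s (k + 1) (T g e (θ - 1) (su g e * MvPowerSeries.pderiv ℂ i ψ +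
      MvPowerSeries.C (θ - hc e) * (MvPowerSeries.pderiv ℂ i (su g e) * ψ))) := by
  have h0 : θ ≠ 0 := by
    have := hθ 0
    rwa [Nat.cast_zero, add_zero] at this
  revert i
  refine Fin.addCases (fun j => ?_) fun i => ?_
  · refine ((h.deriv j).mul (MvPowerSeries.C (θ⁻¹ * (θ - hc e)))).of_eq rfl ?_
    rw [hs, map_mul, mul_assoc, ← T_dx hg he hθ, ← mul_assoc, ← map_mul, inv_mul_cancel₀ h0,
      map_one, one_mul]
  · refine (h.raise.mul 0).of_eq rfl ?_
    have h1 := T_dz hg he hθ i ψ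
    have h2 : (MvPowerSeries.C θ⁻¹ : B n) * MvPowerSeries.C θ = 1 := by
      rw [← map_mul, inv_mul_cancel₀ h0, map_one]
    rw [zero_mul]
    have h3 := congrArg (fun x => (MvPowerSeries.C θ⁻¹ : B n) * x) h1
    rw [← mul_assoc, h2, one_mul, mul_zero] at h3
    exact h3.symm

/-- **Transfer.** -/
theorem num_gen {g : B n} (hg : MvPowerSeries.constantCoeff g = 0) {e : Fin r → ℕ}
    (he : ∀ i, 2 ≤ e i) {s₀ : ℂ} (hσ : ∀ k : ℕ, s₀ + 1 - k ≠ 0)
    (hθ : ∀ z : ℤ, s₀ + hc e ≠ z) {k : ℕ} {G : Polynomial (A n r)}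
    (hG : InPs (su g e) k G) : ∀ c : A n r,
      NumN g (s₀ + hc e) k (T g e (s₀ + hc e + 1 - k) (c * G.eval (MvPowerSeries.C s₀))) := by
  have ht : ∀ (k : ℕ) (l : ℕ), s₀ + hc e + 1 - k + l ≠ 0 := by
    intro k l h
    apply hθ ((k : ℤ) - 1 - l)
    push_cast
    linear_combination h
  have hs : ∀ k : ℕ, s₀ + hc e + 1 - k - hc e ≠ 0 := by
    intro k h
    apply hσ k
    linear_combination h
  have hk : ∀ k : ℕ, s₀ + hc e + 1 - ((k + 1 : ℕ) : ℂ) = s₀ + hc e + 1 - k - 1 := by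
    intro k
    push_cast
    ring
  induction hG with
  | base => exact fun c => (NumN.base g _).mul _ |>.of_eq rfl (mul_one _)
  | add _ _ ih1 ih2 =>
    intro c
    refine ((ih1 c).add (ih2 c)).of_eq rfl ?_
    rw [← T_add hg, Polynomial.eval_add, mul_add]
  | mul c' _ ih =>
    intro c
    refine (ih (c * c'.eval (MvPowerSeries.C s₀))).of_eq rfl ?_
    rw [Polynomial.eval_mul, mul_assoc]
  | @deriv k G i _ ih =>
    intro c
    set G₀ := G.eval (MvPowerSeries.C s₀) with hG₀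
    have h1 := deriv_num hg he (ht k) (s := s₀ + hc e) rfl i (ih c)
    have h2 := raise_num hg he (ht k) (ih (MvPowerSeries.pderiv ℂ i c))
    rw [hk]
    refine (h1.sub h2).of_eq rfl ?_
    rw [sub_eq_iff_eq_add, ← T_add hg]
    congr 1
    rw [Polynomial.eval_add, Polynomial.eval_mul, Polynomial.eval_mul, Polynomial.eval_mul,
      Polynomial.eval_C, Polynomial.eval_C, Polynomial.eval_sub, Polynomial.eval_add,
      Polynomial.eval_X, Polynomial.eval_one, Polynomial.eval_natCast, ARL.eval_C_derivC, ← hG₀,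
      Derivation.leibniz, smul_eq_mul, smul_eq_mul]
    have h3 : (MvPowerSeries.C (s₀ + hc e + 1 - k - hc e) : A n r) =
        MvPowerSeries.C s₀ + 1 - (k : A n r) := by
      rw [← map_natCast (MvPowerSeries.C : ℂ →+* A n r) k, ← map_one (MvPowerSeries.C : ℂ →+* A n r),
        ← map_add, ← map_sub]
      congr 1
      ring
    rw [h3]
    ring
  | @raise k G _ ih =>
    intro c
    rw [hk]
    refine (raise_num hg he (ht k) (ih c)).of_eq rfl ?_
    rw [Polynomial.eval_mul, Polynomial.eval_C]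
    congr 1
    ring
  | @lower k G _ ih =>
    intro c
    have h := ih c
    rw [hk, Polynomial.eval_mul, Polynomial.eval_C, mul_left_comm] at h
    exact lower_num hg he (ht k) (hs k) h

/-- **Transfer of a polynomial `b(s)`.** -/
theorem num_one {g : B n} (hg : MvPowerSeries.constantCoeff g = 0) {e : Fin r → ℕ}
    (he : ∀ i, 2 ≤ e i) {s₀ : ℂ} (hσ : ∀ k : ℕ, s₀ + 1 - k ≠ 0)
    (hθ : ∀ z : ℤ, s₀ + hc e ≠ z) {b : Polynomial ℂ}
    (hb : InPs (su g e) 1 (b.map (MvPowerSeries.C (σ := Fin (n + r)) (R := ℂ))))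
    (hb0 : b.eval s₀ ≠ 0) : NumN g (s₀ + hc e) 1 1 := by
  have h := num_gen hg he hσ hθ hb 1
  have h1 : (b.map (MvPowerSeries.C (σ := Fin (n + r)) (R := ℂ))).eval (MvPowerSeries.C s₀) =
      MvPowerSeries.C (b.eval s₀) := Polynomial.eval_map_apply _ _
  rw [h1, mul_comm, T_C_mul hg, T_one hg he] at h
  refine (h.mul (MvPowerSeries.C (b.eval s₀)⁻¹)).of_eq rfl ?_
  rw [mul_one, ← map_mul, inv_mul_cancel₀ hb0, map_one]

end N2h

end SU

end MPb07157
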