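import Pool.Agent.Lib.MP_b07157_agU.N1
import Pool.Agent.Lib.MP_b07157_agU.N2d

/-!
# The integral over z
-/

noncomputable section

namespace MPb07157

open MvPolynomial

namespace SU

open PC

variable {r : ℕ}

/-- **Transfer.** If `b(s) f^s ∈ D[[x,y,z]][s] f^{s+1}` for `f = g(x,y) + ∑ z_i^{e_i}` and
`b(s₀) ≠ 0`, then `g^{s₁} ∈ D[[x,y]] g^{s₁+1}` for `s₁ = s₀ + ∑ 1/e_i`, if `s₁` is not an integer. -/
theorem num_of_inPs {g : P2} (hg : MvPowerSeries.constantCoeff g = 0) {e : Fin r → ℕ}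
    (he : ∀ i, 2 ≤ e i) {s₀ : ℚ} (hs : s₀ < 0) (h1 : s₀ ≠ -1) (hs1 : ∀ z : ℤ, s₀ + hn e ≠ z)
    {b : Polynomial ℂ} (hb : InPs (suspP g e) 1 (b.map (MvPowerSeries.C (σ := Fin (2 + r)) (R := ℂ))))
    (hb0 : b.eval (s₀ : ℂ) ≠ 0) : NumPs g ((s₀ + hn e : ℚ) : ℂ) 1 1 := by
  have h2 : suspP g e = N2h.su g e := by
    unfold suspP N2h.su N2h.hz
    rw [N2h.io_eq]
  have h3 : ((s₀ + hn e : ℚ) : ℂ) = (s₀ : ℂ) + N2h.hc e := by
    unfold hn N2h.hc
    push_cast
    rfl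
  rw [h2] at hb
  rw [h3]
  refine N2h.num_one (s₀ := (s₀ : ℂ)) hg he ?_ ?_ hb hb0
  · intro k hk
    have h4 : s₀ + 1 - k = 0 := by exact_mod_cast hk
    rcases k with _ | k
    · exact h1 (by push_cast at h4; linarith)
    · push_cast at h4
      have : (0 : ℚ) ≤ k := Nat.cast_nonneg k
      linarith
  · intro z hz
    apply hs1 z
    rw [← h3] at hz
    exact_mod_cast hz

theorem coe_susp (g : MvPolynomial (Fin 2) ℂ) (e : Fin r → ℕ) :
    ((susp g e : MvPolynomial (Fin (2 + r)) ℂ) : MvPowerSeries (Fin (2 + r)) ℂ) =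
      suspP (g : P2) e := by
  have h1 : ∀ g : MvPolynomial (Fin 2) ℂ,
      ((rename (Fin.castAdd r) g : MvPolynomial (Fin (2 + r)) ℂ) :
        MvPowerSeries (Fin (2 + r)) ℂ) = N2h.io r (g : P2) := by
    intro g
    induction g using MvPolynomial.induction_on with
    | C a =>
      rw [rename_C, MvPolynomial.coe_C, MvPolynomial.coe_C]
      exact ((N2h.io r).commutes a).symm
    | add p q hp hq =>
      rw [map_add, MvPolynomial.coe_add, MvPolynomial.coe_add, map_add, hp, hq]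
    | mul_X p j hp =>
      rw [map_mul, MvPolynomial.coe_mul, MvPolynomial.coe_mul, map_mul, hp, rename_X,
        MvPolynomial.coe_X, MvPolynomial.coe_X]
      congr 1
      rw [N2h.io, MvPowerSeries.rename_X]
      rfl
  unfold susp suspP
  rw [MvPolynomial.coe_add, h1, N2h.io_eq]
  congr 1
  have h2 : ((∑ i, X (Fin.natAdd 2 i) ^ e i : MvPolynomial (Fin (2 + r)) ℂ) :
      MvPowerSeries (Fin (2 + r)) ℂ) = MvPolynomial.coeToMvPowerSeries.ringHom
        (∑ i, X (Fin.natAdd 2 i) ^ e i : MvPolynomial (Fin (2 + r)) ℂ) := rfl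
  rw [h2, map_sum]
  refine Finset.sum_congr rfl fun i _ => ?_
  rw [map_pow]
  congr 1
  exact MvPolynomial.coe_X _

end SU

end MPb07157
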