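import Pool.Agent.Lib.MP_b07157_agV.T1

/-!
# Shears `y ↦ y + x^L` of high order
-/

noncomputable section

namespace MPb07157

open MvPolynomial

namespace SU

open PC

namespace S2aux

theorem wt_ij {i j : Fin 2} (hij : j ≠ i) (w : Fin 2 → ℕ) (u : Fin 2 →₀ ℕ) :
    wt w u = w i * u i + w j * u j := by
  rw [VM.wt2]
  fin_cases i <;> fin_cases j
  · exact absurd rfl hij
  · rfl
  · exact add_comm _ _
  · exact absurd rfl hij

/-- The exponent of `X_i^A X_j^B`. -/
def mo (i j : Fin 2) (A B : ℕ) : Fin 2 →₀ ℕ := Finsupp.single i A + Finsupp.single j B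

theorem mo_i {i j : Fin 2} (hij : j ≠ i) (A B : ℕ) : mo i j A B i = A := by
  rw [mo, Finsupp.add_apply, Finsupp.single_eq_same, Finsupp.single_eq_of_ne hij.symm, add_zero]

theorem mo_j {i j : Fin 2} (hij : j ≠ i) (A B : ℕ) : mo i j A B j = B := by
  rw [mo, Finsupp.add_apply, Finsupp.single_eq_same, Finsupp.single_eq_of_ne hij, zero_add]

theorem eq_mo {i j : Fin 2} (hij : j ≠ i) {A B : ℕ} {u : Fin 2 →₀ ℕ} (h0 : u i = A)
    (h1 : u j = B) : u = mo i j A B := by
  have h : ∀ k : Fin 2, u k = mo i j A B k := by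
    intro k
    have hk : k = i ∨ k = j := by omega
    rcases hk with rfl | rfl
    · rw [h0, mo_i hij]
    · rw [h1, mo_j hij]
  exact Finsupp.ext h

/-- `X_i^A X_j` is the lowest monomial of a power series which is divisible by `X_j`. -/
structure Bot (i j : Fin 2) (G : P2) (A : ℕ) : Prop where
  ne : MvPowerSeries.coeff (mo i j A 1) G ≠ 0
  pos : ∀ u, MvPowerSeries.coeff u G ≠ 0 → 1 ≤ u j
  min : ∀ u, MvPowerSeries.coeff u G ≠ 0 → u j = 1 → A ≤ u i

theorem exists_bot {i j : Fin 2} (hij : j ≠ i) {G : P2} (h : ExactPow G j 1) :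
    ∃ A, Bot i j G A := by
  classical
  obtain ⟨h1, h2⟩ := h
  rw [MvPowerSeries.X_pow_dvd_iff] at h1 h2
  push Not at h2
  obtain ⟨u, hu1, hu2⟩ := h2
  have hpos : ∀ u, MvPowerSeries.coeff u G ≠ 0 → 1 ≤ u j := by
    intro v hv
    by_contra hcon
    exact hv (h1 v (by omega))
  have hne : ∃ A, ∃ v, MvPowerSeries.coeff v G ≠ 0 ∧ v j = 1 ∧ v i = A :=
    ⟨u i, u, hu2, by have := hpos u hu2; omega, rfl⟩
  obtain ⟨v, hv, hv1, hv2⟩ := Nat.find_spec hne
  refine ⟨Nat.find hne, ?_, hpos, fun w hw hw1 => Nat.find_min' hne ⟨w, hw, hw1, rfl⟩⟩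
  rw [← eq_mo hij hv2 hv1]
  exact hv

theorem Bot.init {i j : Fin 2} (hij : j ≠ i) {G : P2} {A : ℕ} (hB : Bot i j G A)
    {w : Fin 2 → ℕ} (hwi : 0 < w i) (hw : w i * A < w j) :
    IsInit G w (w i * A + w j) (monomial (mo i j A 1) (MvPowerSeries.coeff (mo i j A 1) G)) := by
  classical
  have hwt : wt w (mo i j A 1) = w i * A + w j := by
    rw [wt_ij hij, mo_i hij, mo_j hij, mul_one]
  refine ⟨fun h => hB.ne (monomial_eq_zero.1 h), fun v hv => ?_, fun v hv => ?_⟩
  · have h1 := support_monomial_subset hv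
    rw [Finset.mem_singleton] at h1
    rw [h1, hwt]
  · rw [coeff_monomial]
    split_ifs with h
    · rw [h]
    · by_contra hne
      apply h
      rw [wt_ij hij] at hv
      have h1 := hB.pos v hne
      have h2 : v j = 1 := by
        by_contra h3
        have h4 : w j * 2 ≤ w j * v j := Nat.mul_le_mul_left _ (by omega)
        omega
      have h3 := hB.min v hne h2
      have h4 : v i = A := by
        by_contra h5
        have h6 : w i * (A + 1) ≤ w i * v i := Nat.mul_le_mul_left _ (by omega)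
        rw [h2, mul_one] at hv
        rw [Nat.mul_add, mul_one] at h6
        omega
      exact (eq_mo hij h4 h2).symm

/-- The polynomial `lam X_i^A (X_j + X_i^L)`. -/
def newP (i j : Fin 2) (A L : ℕ) (lam : ℂ) : MvPolynomial (Fin 2) ℂ :=
  monomial (mo i j A 1) lam + monomial (mo i j (A + L) 0) lam

theorem constantCoeff_X_pow {L : ℕ} (hL : 0 < L) :
    PowerSeries.constantCoeff ((PowerSeries.X : PowerSeries ℂ) ^ L) = 0 := by
  rw [map_pow, PowerSeries.constantCoeff_X, zero_pow hL.ne']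

theorem mo_ne {i j : Fin 2} (hij : j ≠ i) (A B : ℕ) : mo i j A 1 ≠ mo i j B 0 := by
  intro h
  have := congrArg (fun v : Fin 2 →₀ ℕ => v j) h
  simp only [mo_j hij] at this
  omega

theorem coeff_newP {i j : Fin 2} (A L : ℕ) (lam : ℂ) (v : Fin 2 →₀ ℕ) :
    coeff v (newP i j A L lam) = (if mo i j A 1 = v then lam else 0) +
      (if mo i j (A + L) 0 = v then lam else 0) := by
  classical
  rw [newP, coeff_add, coeff_monomial, coeff_monomial]

theorem mem_newP {i j : Fin 2} {A L : ℕ} {lam : ℂ} {v : Fin 2 →₀ ℕ}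
    (hv : coeff v (newP i j A L lam) ≠ 0) : v = mo i j A 1 ∨ v = mo i j (A + L) 0 := by
  rw [coeff_newP] at hv
  by_contra h
  push Not at h
  rw [if_neg (Ne.symm h.1), if_neg (Ne.symm h.2), add_zero] at hv
  exact hv rfl

theorem Bot.init_sh {i j : Fin 2} (hij : j ≠ i) {G : P2} {A : ℕ} (hB : Bot i j G A) {L : ℕ}
    (hL : A < L) {w : Fin 2 → ℕ} (hwi : w i = 1) (hwj : w j = L) :
    IsInit (MvPowerSeries.subst (n1sh i (PowerSeries.X ^ L)) G) w (A + L)
      (newP i j A L (MvPowerSeries.coeff (mo i j A 1) G)) := by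
  have hL0 : 0 < L := by omega
  have h1 := hB.init hij (w := w) (by omega) (by rw [hwi, hwj, one_mul]; exact hL)
  rw [hwi, hwj, one_mul] at h1
  set lam := MvPowerSeries.coeff (mo i j A 1) G with hlam
  have hk2 : ∀ k : Fin 2, k ≠ i → k = j := by
    intro k hk
    omega
  refine IsInit.n1sh (constantCoeff_X_pow hL0) (b := 1) (e := L) hL0 (Or.inr fun k hk => ?_)
    (fun k hk m hm => ?_) h1 ?_ ?_ (fun v hv => ?_)
  · rw [hk2 k hk, hwi, hwj, one_mul]
  · rw [PowerSeries.coeff_X_pow]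
  · have e1 : (monomial (mo i j A 1) lam : MvPolynomial (Fin 2) ℂ) =
        C lam * X i ^ A * X j ^ 1 := by
      rw [n1mono_eq]; rfl
    have e2 : (monomial (mo i j (A + L) 0) lam : MvPolynomial (Fin 2) ℂ) =
        C lam * X i ^ (A + L) * X j ^ 0 := by
      rw [n1mono_eq]; rfl
    rw [newP, e1, e2]
    simp only [map_mul, map_pow, MvPolynomial.aeval_X, MvPolynomial.aeval_C,
      MvPolynomial.algebraMap_eq]
    have h1 : n1md i 1 L i = X i := by simp [n1md]
    have h2 : n1md i 1 L j = X j + C 1 * X i ^ L := by simp [n1md, hij]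
    rw [h1, h2, C_1]
    ring
  · intro h
    have h2 := coeff_newP (i := i) (j := j) A L lam (mo i j A 1)
    rw [h, coeff_zero, if_pos rfl, if_neg (Ne.symm (mo_ne hij A (A + L))), add_zero] at h2
    exact hB.ne h2.symm
  · rcases mem_newP (mem_support_iff.1 hv) with rfl | rfl
    · rw [wt_ij hij, mo_i hij, mo_j hij, hwi, hwj]; ring
    · rw [wt_ij hij, mo_i hij, mo_j hij, hwi, hwj]; ring

theorem Bot.min_sh {i j : Fin 2} (hij : j ≠ i) {G : P2} {A : ℕ} (hB : Bot i j G A) {L : ℕ}
    (hL : A < L) {u : Fin 2 →₀ ℕ}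
    (hu : MvPowerSeries.coeff u (MvPowerSeries.subst (n1sh i (PowerSeries.X ^ L)) G) ≠ 0) :
    A + L ≤ u i + L * u j ∧ (u i + L * u j = A + L → 0 < u j → u i = A ∧ u j = 1) := by
  set w : Fin 2 → ℕ := fun k => if k = i then 1 else L with hw
  have hwi : w i = 1 := by rw [hw]; simp
  have hwj : w j = L := by rw [hw]; simp [hij]
  have h1 := hB.init_sh hij hL hwi hwj
  have hwu : wt w u = u i + L * u j := by rw [wt_ij hij, hwi, hwj, one_mul]
  constructor
  · by_contra hcon
    exact hu (h1.coeff_eq_zero (by omega))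
  · intro h2 h3
    rw [h1.2.2 u (by omega)] at hu
    rcases mem_newP hu with rfl | rfl
    · exact ⟨mo_i hij _ _, mo_j hij _ _⟩
    · rw [mo_j hij] at h3
      omega

theorem Bot.coeff_sh {i j : Fin 2} (hij : j ≠ i) {G : P2} {A : ℕ} (hB : Bot i j G A) {L : ℕ}
    (hL : A < L) : MvPowerSeries.coeff (mo i j (A + L) 0)
      (MvPowerSeries.subst (n1sh i (PowerSeries.X ^ L)) G) ≠ 0 := by
  set w : Fin 2 → ℕ := fun k => if k = i then 1 else L with hw
  have hwi : w i = 1 := by rw [hw]; simp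
  have hwj : w j = L := by rw [hw]; simp [hij]
  have h1 := hB.init_sh hij hL hwi hwj
  rw [h1.2.2 _ (by rw [wt_ij hij, mo_i hij, mo_j hij, hwi, hwj]; omega), coeff_newP,
    if_neg (mo_ne hij A (A + L)), if_pos rfl, zero_add]
  exact hB.ne

/-- For directions above the new edge there is no edge. -/
theorem Bot.big {i j : Fin 2} (hij : j ≠ i) {G : P2} {A : ℕ} (hB : Bot i j G A) {L : ℕ}
    (hL : A < L) {w : Fin 2 → ℕ} {N : ℕ} {P : MvPolynomial (Fin 2) ℂ}
    (hI : IsInit (MvPowerSeries.subst (n1sh i (PowerSeries.X ^ L)) G) w N P)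
    (hwi : 0 < w i) (hw : w i * L ≤ w j) {u : Fin 2 →₀ ℕ} (hu : coeff u P ≠ 0)
    (huj : 0 < u j) : w j = w i * L ∧ u i = A ∧ u j = 1 := by
  have hwu : w i * u i + w j * u j = N := by
    rw [← wt_ij hij]
    exact hI.2.1 u (mem_support_iff.2 hu)
  have hu' : MvPowerSeries.coeff u (MvPowerSeries.subst (n1sh i (PowerSeries.X ^ L)) G) ≠ 0 := by
    rw [hI.2.2 u (by rw [wt_ij hij]; exact hwu.le)]
    exact hu
  have hN : N ≤ w i * (A + L) := by
    by_contra hcon
    refine hB.coeff_sh hij hL (hI.coeff_eq_zero ?_)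
    rw [wt_ij hij, mo_i hij, mo_j hij, mul_zero, add_zero]
    omega
  obtain ⟨m1, m2⟩ := hB.min_sh hij hL hu'
  obtain ⟨d, hd⟩ := Nat.exists_eq_add_of_le hw
  have h1 : w i * (u i + L * u j) + d * u j = N := by
    rw [← hwu, hd]
    ring
  have h2 : w i * (A + L) ≤ w i * (u i + L * u j) := Nat.mul_le_mul_left _ m1
  have h3 : d * u j = 0 := by omega
  have h4 : d = 0 := by
    rcases Nat.mul_eq_zero.1 h3 with h | h
    · exact h
    · omega
  have h5 : w i * (u i + L * u j) = w i * (A + L) := by omega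
  have h6 := Nat.eq_of_mul_eq_mul_left hwi h5
  obtain ⟨k1, k2⟩ := m2 h6 huj
  exact ⟨by rw [hd, h4, add_zero], k1, k2⟩

/-- For directions below the new edge the initial form is not changed. -/
theorem init_small {i j : Fin 2} (hij : j ≠ i) {G : P2} (hG : G ≠ 0) {L : ℕ}
    {w : Fin 2 → ℕ} {N : ℕ} {P : MvPolynomial (Fin 2) ℂ} (hL0 : 0 < L)
    (hI : IsInit (MvPowerSeries.subst (n1sh i (PowerSeries.X ^ L)) G) w N P)
    (hwi : 0 < w i) (hw : w j < w i * L) (hwj : 0 < w j) : IsInit G w N P := by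
  have hk2 : ∀ k : Fin 2, k = i ∨ k = j := by
    intro k
    omega
  obtain ⟨N', P', h'⟩ := exists_isInit hG (w := w) (fun k => by
    rcases hk2 k with rfl | rfl
    · exact hwi
    · exact hwj)
  have h2 := IsInit.n1keep (i := i) (constantCoeff_X_pow hL0) (w := w) (fun k hk m hm => by
    have hk' : k = j := (hk2 k).resolve_left hk
    rw [PowerSeries.coeff_X_pow, if_neg]
    rintro rfl
    rw [hk'] at hm
    omega) h'
  obtain ⟨rfl, rfl⟩ := hI.unique h2
  exact h'

theorem X_dvd_sh {i : Fin 2} {φ : PowerSeries ℂ} (hφ : PowerSeries.constantCoeff φ = 0)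
    {F : P2} {B : ℕ} (h : MvPowerSeries.X i ^ B ∣ F) :
    MvPowerSeries.X i ^ B ∣ MvPowerSeries.subst (n1sh i φ) F := by
  obtain ⟨H, rfl⟩ := h
  have hs := n1sh_hasSubst (i := i) hφ
  refine ⟨MvPowerSeries.subst (n1sh i φ) H, ?_⟩
  rw [MvPowerSeries.subst_mul hs, MvPowerSeries.subst_pow hs, MvPowerSeries.subst_X hs]
  congr 2
  simp [n1sh]

theorem X_dvd_sh_iff {i : Fin 2} {φ : PowerSeries ℂ} (hφ : PowerSeries.constantCoeff φ = 0)
    {F : P2} {B : ℕ} : MvPowerSeries.X i ^ B ∣ MvPowerSeries.subst (n1sh i φ) F ↔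
      MvPowerSeries.X i ^ B ∣ F := by
  refine ⟨fun h => ?_, X_dvd_sh hφ⟩
  have h1 := X_dvd_sh (i := i) (φ := -φ) (by rw [map_neg, hφ, neg_zero]) h
  rwa [n1sh_neg hφ] at h1

theorem exactPow_sh {i : Fin 2} {φ : PowerSeries ℂ} (hφ : PowerSeries.constantCoeff φ = 0)
    {F : P2} {B : ℕ} : ExactPow (MvPowerSeries.subst (n1sh i φ) F) i B ↔ ExactPow F i B := by
  rw [ExactPow, ExactPow, X_dvd_sh_iff hφ, X_dvd_sh_iff hφ]

theorem sh_ne_zero {i : Fin 2} {φ : PowerSeries ℂ} (hφ : PowerSeries.constantCoeff φ = 0)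
    {F : P2} (hF : F ≠ 0) : MvPowerSeries.subst (n1sh i φ) F ≠ 0 := by
  intro h
  apply hF
  rw [← n1sh_neg (i := i) hφ F, h,
    ← MvPowerSeries.coe_substAlgHom (n1sh_hasSubst (by rw [map_neg, hφ, neg_zero])), map_zero]

/-- After the shear, the power series is not divisible by `X_j`. -/
theorem Bot.not_exact {i j : Fin 2} (hij : j ≠ i) {G : P2} {A : ℕ} (hB : Bot i j G A) {L : ℕ}
    (hL : A < L) {B : ℕ} (hB0 : 0 < B) :
    ¬ ExactPow (MvPowerSeries.subst (n1sh i (PowerSeries.X ^ L)) G) j B := by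
  rintro ⟨h, -⟩
  rw [MvPowerSeries.X_pow_dvd_iff] at h
  exact hB.coeff_sh hij hL (h _ (by rw [mo_j hij]; exact hB0))

theorem mo_eq_ex (A B : ℕ) : mo 0 1 A B = ex A B := rfl

theorem mo_eq_ex' (A B : ℕ) : mo 1 0 A B = ex B A := by
  rw [mo, ex, add_comm]

/-- The edges after the shear `y ↦ y + x^L`. -/
theorem edge_shY {G : P2} (hG : G ≠ 0) {A₀ : ℕ} (hB : Bot 0 1 G A₀) {L : ℕ} (hL : A₀ < L)
    {p q A B : ℕ} {lam : ℂ} {R : Finset ℂ} {μ : ℂ → ℕ}
    (hE : IsEdge (MvPowerSeries.subst (n1sh 0 (PowerSeries.X ^ L)) G) p q A B lam R μ) :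
    IsEdge G p q A B lam R μ ∨
      (p = 1 ∧ q = L ∧ A = A₀ ∧ B = 0 ∧ ∑ c ∈ R, μ c = 1) := by
  have hp := hE.hp
  have hq := hE.hq
  have h10 : (1 : Fin 2) ≠ 0 := by decide
  rcases Nat.lt_or_ge q (p * L) with h | h
  · left
    exact ⟨hE.hp, hE.hq, hE.hpq, hE.hlam, hE.hR, hE.hR0, hE.hm,
      init_small h10 hG (by omega) hE.init (by simpa using hp) (by simpa using h)
        (by simpa using hq)⟩
  · right
    have hS : 0 < ∑ c ∈ R, μ c := Finset.sum_pos hE.hm hE.hR
    obtain ⟨s1, s2, -⟩ := edgeP_support (A := A) (B := B) hE.hp hE.hq hE.hlam hE.hR0 μ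
    have hpS : 0 < p * ∑ c ∈ R, μ c := Nat.mul_pos hp hS
    obtain ⟨k1, k2, k3⟩ := hB.big h10 hL hE.init (by simpa using hp) (by simpa using h) s1
      (by rw [VM.ex_one]; omega)
    simp only [Matrix.cons_val_zero, Matrix.cons_val_one] at k1
    rw [VM.ex_zero] at k2
    rw [VM.ex_one] at k3
    have hp1 : p = 1 := by
      have h1 := hE.hpq
      rw [k1] at h1
      exact (Nat.Coprime.eq_one_of_dvd h1 (dvd_mul_right _ _))
    subst hp1
    rw [one_mul] at k1 k3 hpS
    exact ⟨rfl, k1, k2, by omega, by omega⟩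

/-- The edges after the shear `x ↦ x + y^L`. -/
theorem edge_shX {G : P2} (hG : G ≠ 0) {A₀ : ℕ} (hB : Bot 1 0 G A₀) {L : ℕ} (hL : A₀ < L)
    {p q A B : ℕ} {lam : ℂ} {R : Finset ℂ} {μ : ℂ → ℕ}
    (hE : IsEdge (MvPowerSeries.subst (n1sh 1 (PowerSeries.X ^ L)) G) p q A B lam R μ) :
    IsEdge G p q A B lam R μ ∨
      (p = L ∧ q = 1 ∧ A = 0 ∧ B = A₀ ∧ ∑ c ∈ R, μ c = 1) := by
  have hp := hE.hp
  have hq := hE.hq
  have h01 : (0 : Fin 2) ≠ 1 := by decide
  rcases Nat.lt_or_ge p (q * L) with h | h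
  · left
    exact ⟨hE.hp, hE.hq, hE.hpq, hE.hlam, hE.hR, hE.hR0, hE.hm,
      init_small h01 hG (by omega) hE.init (by simpa using hq) (by simpa using h)
        (by simpa using hp)⟩
  · right
    have hS : 0 < ∑ c ∈ R, μ c := Finset.sum_pos hE.hm hE.hR
    obtain ⟨s1, s2, -⟩ := edgeP_support (A := A) (B := B) hE.hp hE.hq hE.hlam hE.hR0 μ
    have hqS : 0 < q * ∑ c ∈ R, μ c := Nat.mul_pos hq hS
    obtain ⟨k1, k2, k3⟩ := hB.big h01 hL hE.init (by simpa using hq) (by simpa using h) s2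
      (by rw [VM.ex_zero]; omega)
    simp only [Matrix.cons_val_zero, Matrix.cons_val_one] at k1
    rw [VM.ex_one] at k2
    rw [VM.ex_zero] at k3
    have hq1 : q = 1 := by
      have h1 := hE.hpq.symm
      rw [k1] at h1
      exact (Nat.Coprime.eq_one_of_dvd h1 (dvd_mul_right _ _))
    subst hq1
    rw [one_mul] at k1 k3 hqS
    exact ⟨k1, rfl, by omega, k2, by omega⟩

/-- If `x y` occurs in `F = y F₁`, and `x` does not divide `F`, there is an edge through
`(1, 1)`. -/
theorem no_vertexY {G : P2}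
    (hE : ∀ (p q A B : ℕ) (lam : ℂ) (R : Finset ℂ) (μ : ℂ → ℕ),
      IsEdge G p q A B lam R μ → p + q < edgeN p q A B R μ)
    (hX : ¬ MvPowerSeries.X 0 ∣ G) (hpos : ∀ u, MvPowerSeries.coeff u G ≠ 0 → 1 ≤ u 1)
    (h11 : MvPowerSeries.coeff (ex 1 1) G ≠ 0) (h01 : MvPowerSeries.coeff (ex 0 1) G = 0) :
    False := by
  classical
  rw [MvPowerSeries.X_dvd_iff] at hX
  push Not at hX
  obtain ⟨u, hu0, hu⟩ := hX
  have hne : ∃ k, ∃ v, MvPowerSeries.coeff v G ≠ 0 ∧ v 0 = 0 ∧ v 1 = k := ⟨u 1, u, hu, hu0, rfl⟩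
  obtain ⟨v, hv, hv0, hv1⟩ := Nat.find_spec hne
  set k := Nat.find hne with hk
  have hmin : ∀ w, MvPowerSeries.coeff w G ≠ 0 → w 0 = 0 → k ≤ w 1 := fun w hw hw0 =>
    Nat.find_min' hne ⟨w, hw, hw0, rfl⟩
  clear_value k
  have hvk : MvPowerSeries.coeff (ex 0 k) G ≠ 0 := by
    rw [← VM.ext2 (u := v) (v := ex 0 k) (by rw [hv0, VM.ex_zero]) (by rw [hv1, VM.ex_one])]
    exact hv
  have hk2 : 2 ≤ k := by
    have h1 := hpos v hv
    rw [hv1] at h1
    by_contra h2
    have h3 : k = 1 := by omega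
    rw [h3] at hvk
    exact hvk h01
  obtain ⟨t, rfl⟩ : ∃ t, k = t + 1 := ⟨k - 1, by omega⟩
  set c := MvPowerSeries.coeff (ex 1 1) G with hc
  set d := MvPowerSeries.coeff (ex 0 (t + 1)) G with hd
  have hedge : IsEdge G t 1 0 1 d {-(c / d)} (fun _ => 1) := by
    refine ⟨by omega, one_pos, Nat.coprime_one_right t, hvk, Finset.singleton_nonempty _, ?_,
      fun _ _ => one_pos, ?_⟩
    · rw [Finset.mem_singleton]
      intro h
      exact (neg_ne_zero.2 (div_ne_zero h11 hvk)) h.symm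
    · have hP : edgeP t 1 0 1 d {-(c / d)} (fun _ => 1) =
          monomial (ex 0 (t + 1)) d + monomial (ex 1 1) c := by
        have hm : ∀ (a b : ℕ) (l : ℂ), monomial (ex a b) l =
            (C l * X 0 ^ a * X 1 ^ b : MvPolynomial (Fin 2) ℂ) := by
          intro a b l
          rw [n1mono_eq]; rfl
        rw [hm, hm, edgeP, Finset.prod_singleton]
        have h1 : (C d * C (-(c / d)) : MvPolynomial (Fin 2) ℂ) = -C c := by
          rw [← C_mul, ← C_neg]
          congr 1
          field_simp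
        linear_combination (-(X 0 : MvPolynomial (Fin 2) ℂ) * X 1) * h1
      have hN : edgeN t 1 0 1 {-(c / d)} (fun _ => 1) = t + 1 := by
        simp [edgeN]
        ring
      rw [hP, hN]
      have hne' : ex 0 (t + 1) ≠ ex 1 1 := by
        intro h
        have := congrArg (fun v : Fin 2 →₀ ℕ => v 0) h
        simp only [VM.ex_zero] at this
        omega
      have hcoef : ∀ v, coeff v (monomial (ex 0 (t + 1)) d + monomial (ex 1 1) c) =
          (if ex 0 (t + 1) = v then d else 0) + (if ex 1 1 = v then c else 0) := fun v => by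
        rw [coeff_add, coeff_monomial, coeff_monomial]
      refine ⟨fun h => ?_, fun v hv => ?_, fun v hv => ?_⟩
      · have h1 := hcoef (ex 1 1)
        rw [h, coeff_zero, if_neg hne', if_pos rfl, zero_add] at h1
        exact h11 h1.symm
      · rw [mem_support_iff, hcoef] at hv
        rw [VM.wt2]
        simp only [Matrix.cons_val_zero, Matrix.cons_val_one]
        by_cases e1 : ex 0 (t + 1) = v
        · rw [← e1, VM.ex_zero, VM.ex_one]; ring
        · by_cases e2 : ex 1 1 = v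
          · rw [← e2, VM.ex_zero, VM.ex_one]; ring
          · rw [if_neg e1, if_neg e2, add_zero] at hv
            exact absurd rfl hv
      · rw [hcoef]
        by_cases e1 : ex 0 (t + 1) = v
        · rw [if_pos e1, if_neg (by rw [← e1]; exact Ne.symm hne'), add_zero, ← e1]
        · by_cases e2 : ex 1 1 = v
          · rw [if_neg e1, if_pos e2, zero_add, ← e2]
          · rw [if_neg e1, if_neg e2, add_zero]
            by_contra hne2
            rw [VM.wt2] at hv
            simp only [Matrix.cons_val_zero, Matrix.cons_val_one] at hv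
            have h1 := hpos v hne2
            rcases Nat.eq_zero_or_pos (v 0) with h2 | h2
            · have h3 := hmin v hne2 h2
              rw [h2] at hv
              exact e1 (VM.ext2 (by rw [h2, VM.ex_zero]) (by rw [VM.ex_one]; omega))
            · have h3 : v 0 = 1 := by
                by_contra h4
                have h5 : t * 2 ≤ t * v 0 := Nat.mul_le_mul_left _ (by omega)
                omega
              rw [h3] at hv
              exact e2 (VM.ext2 (by rw [h3, VM.ex_zero]) (by rw [VM.ex_one]; omega))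
  have h1 := hE _ _ _ _ _ _ _ hedge
  simp [edgeN] at h1
  omega

/-- If `x y` occurs in `F = x F₁`, and `y` does not divide `F`, there is an edge through
`(1, 1)`. -/
theorem no_vertexX {G : P2}
    (hE : ∀ (p q A B : ℕ) (lam : ℂ) (R : Finset ℂ) (μ : ℂ → ℕ),
      IsEdge G p q A B lam R μ → p + q < edgeN p q A B R μ)
    (hX : ¬ MvPowerSeries.X 1 ∣ G) (hpos : ∀ u, MvPowerSeries.coeff u G ≠ 0 → 1 ≤ u 0)
    (h11 : MvPowerSeries.coeff (ex 1 1) G ≠ 0) (h10 : MvPowerSeries.coeff (ex 1 0) G = 0) :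
    False := by
  classical
  rw [MvPowerSeries.X_dvd_iff] at hX
  push Not at hX
  obtain ⟨u, hu0, hu⟩ := hX
  have hne : ∃ k, ∃ v, MvPowerSeries.coeff v G ≠ 0 ∧ v 1 = 0 ∧ v 0 = k := ⟨u 0, u, hu, hu0, rfl⟩
  obtain ⟨v, hv, hv0, hv1⟩ := Nat.find_spec hne
  set k := Nat.find hne with hk
  have hmin : ∀ w, MvPowerSeries.coeff w G ≠ 0 → w 1 = 0 → k ≤ w 0 := fun w hw hw0 =>
    Nat.find_min' hne ⟨w, hw, hw0, rfl⟩
  clear_value k
  have hvk : MvPowerSeries.coeff (ex k 0) G ≠ 0 := by
    rw [← VM.ext2 (u := v) (v := ex k 0) (by rw [hv1, VM.ex_zero]) (by rw [hv0, VM.ex_one])]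
    exact hv
  have hk2 : 2 ≤ k := by
    have h1 := hpos v hv
    rw [hv1] at h1
    by_contra h2
    have h3 : k = 1 := by omega
    rw [h3] at hvk
    exact hvk h10
  obtain ⟨t, rfl⟩ : ∃ t, k = t + 1 := ⟨k - 1, by omega⟩
  set c := MvPowerSeries.coeff (ex 1 1) G with hc
  set d := MvPowerSeries.coeff (ex (t + 1) 0) G with hd
  have hedge : IsEdge G 1 t 1 0 c {-(d / c)} (fun _ => 1) := by
    refine ⟨one_pos, by omega, Nat.coprime_one_left t, h11, Finset.singleton_nonempty _, ?_,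
      fun _ _ => one_pos, ?_⟩
    · rw [Finset.mem_singleton]
      intro h
      exact (neg_ne_zero.2 (div_ne_zero hvk h11)) h.symm
    · have hP : edgeP 1 t 1 0 c {-(d / c)} (fun _ => 1) =
          monomial (ex (t + 1) 0) d + monomial (ex 1 1) c := by
        have hm : ∀ (a b : ℕ) (l : ℂ), monomial (ex a b) l =
            (C l * X 0 ^ a * X 1 ^ b : MvPolynomial (Fin 2) ℂ) := by
          intro a b l
          rw [n1mono_eq]; rfl
        rw [hm, hm, edgeP, Finset.prod_singleton]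
        have h1 : (C c * C (-(d / c)) : MvPolynomial (Fin 2) ℂ) = -C d := by
          rw [← C_mul, ← C_neg]
          congr 1
          field_simp
        linear_combination (-(X 0 : MvPolynomial (Fin 2) ℂ) * X 0 ^ t) * h1
      have hN : edgeN 1 t 1 0 {-(d / c)} (fun _ => 1) = t + 1 := by
        simp [edgeN]
        ring
      rw [hP, hN]
      have hne' : ex (t + 1) 0 ≠ ex 1 1 := by
        intro h
        have := congrArg (fun v : Fin 2 →₀ ℕ => v 1) h
        simp only [VM.ex_one] at this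
        omega
      have hcoef : ∀ v, coeff v (monomial (ex (t + 1) 0) d + monomial (ex 1 1) c) =
          (if ex (t + 1) 0 = v then d else 0) + (if ex 1 1 = v then c else 0) := fun v => by
        rw [coeff_add, coeff_monomial, coeff_monomial]
      refine ⟨fun h => ?_, fun v hv => ?_, fun v hv => ?_⟩
      · have h1 := hcoef (ex 1 1)
        rw [h, coeff_zero, if_neg hne', if_pos rfl, zero_add] at h1
        exact h11 h1.symm
      · rw [mem_support_iff, hcoef] at hv
        rw [VM.wt2]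
        simp only [Matrix.cons_val_zero, Matrix.cons_val_one]
        by_cases e1 : ex (t + 1) 0 = v
        · rw [← e1, VM.ex_zero, VM.ex_one]; ring
        · by_cases e2 : ex 1 1 = v
          · rw [← e2, VM.ex_zero, VM.ex_one]; ring
          · rw [if_neg e1, if_neg e2, add_zero] at hv
            exact absurd rfl hv
      · rw [hcoef]
        by_cases e1 : ex (t + 1) 0 = v
        · rw [if_pos e1, if_neg (by rw [← e1]; exact Ne.symm hne'), add_zero, ← e1]
        · by_cases e2 : ex 1 1 = v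
          · rw [if_neg e1, if_pos e2, zero_add, ← e2]
          · rw [if_neg e1, if_neg e2, add_zero]
            by_contra hne2
            rw [VM.wt2] at hv
            simp only [Matrix.cons_val_zero, Matrix.cons_val_one] at hv
            have h1 := hpos v hne2
            rcases Nat.eq_zero_or_pos (v 1) with h2 | h2
            · have h3 := hmin v hne2 h2
              rw [h2] at hv
              exact e1 (VM.ext2 (by rw [VM.ex_zero]; omega) (by rw [h2, VM.ex_one]))
            · have h3 : v 1 = 1 := by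
                by_contra h4
                have h5 : t * 2 ≤ t * v 1 := Nat.mul_le_mul_left _ (by omega)
                omega
              rw [h3] at hv
              exact e2 (VM.ext2 (by rw [VM.ex_zero]; omega) (by rw [h3, VM.ex_one]))
  have h1 := hE _ _ _ _ _ _ _ hedge
  simp [edgeN] at h1

end S2aux

end SU

end MPb07157
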