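import Pool.Agent.Lib.MP_b07157_agU.S1
import Pool.Agent.Lib.MP_b07157_agU.S2
import Pool.Agent.Lib.MP_b07157_agU.N2
import Pool.Agent.Lib.MP_b07157_agU.Nd

/-!
# The strong monodromy conjecture for suspensions of plane curve germs
-/

noncomputable section

namespace MPb07157

open MvPolynomial

namespace SU

open PC

variable {r : ℕ}

/-- **Theorem U.** Suspensions of plane curve germs. -/
theorem smcLoc_susp {g : MvPolynomial (Fin 2) ℂ} (hg : g ≠ 0) (h0 : coeff 0 g = 0)
    {e : Fin r → ℕ} (he : ∀ i, 2 ≤ e i) : SmcLoc (susp g e) := by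
  have he' : ∀ i, 0 < e i := fun i => by have := he i; omega
  have hg' : (g : P2) ≠ 0 := by
    intro h
    apply hg
    ext v
    have := congrArg (MvPowerSeries.coeff v) h
    rwa [MvPolynomial.coeff_coe, map_zero] at this
  have h0' : MvPowerSeries.constantCoeff (g : P2) = 0 := by
    rw [← MvPowerSeries.coeff_zero_eq_constantCoeff_apply, MvPolynomial.coeff_coe]
    exact h0
  by_cases hnode : IsNode (g : P2)
  · exact smcLoc_node hg h0 hnode he
  intro s₀ hs hp b hb
  by_contra hb0
  have hF : susp g e ≠ 0 := susp_ne_zero hg he' h0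
  have h1 : s₀ ≠ -1 := by
    rintro rfl
    refine hb0 (neg_one_root hF ?_ b hb)
    rw [MvPolynomial.notMem_support_iff, ← constantCoeff_eq, susp, map_add, map_sum,
      constantCoeff_rename, constantCoeff_eq, h0, zero_add]
    refine Finset.sum_eq_zero fun i _ => ?_
    rw [map_pow, constantCoeff_X, zero_pow (he' i).ne']
  apply hp
  obtain ⟨K, hK⟩ := exists_nat_gt (max 1 (-s₀))
  have hK1 : 1 ≤ K := by
    have : (1 : ℚ) < K := lt_of_le_of_lt (le_max_left _ _) hK
    exact_mod_cast this.le
  have hKs : -s₀ < K := lt_of_le_of_lt (le_max_right _ _) hK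
  rw [← ZR_one_eq he' hK1]
  by_cases hout : s₀ + hn e ≤ -1 ∨ 0 ≤ s₀ + hn e
  · exact first_out hg' h0' hnode he' hout h1 hK1 hKs
  · push Not at hout
    have hint : ∀ z : ℤ, s₀ + hn e ≠ z := by
      intro z hz
      rw [hz] at hout
      have h2 : (-1 : ℤ) < z := by exact_mod_cast hout.1
      have h3 : z < (0 : ℤ) := by exact_mod_cast hout.2
      omega
    have hb' := inPs_of_form hb
    rw [coe_susp] at hb'
    have hnum := num_of_inPs h0' he hs h1 hint hb' hb0
    exact first hg' h0' he' (ex_of_num hnum) (axOK_of_num hnum) h1 hK1 hKs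

end SU

end MPb07157
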