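import Pool.Agent.Lib.MP_b07157_agU.Defs
import Pool.Agent.Lib.MP_b07157_agR.ARL

/-!
# Relations at a number s, any number of variables
-/

noncomputable section

namespace MPb07157

open MvPolynomial

namespace SU

variable {n : ℕ}

/-- `φ g^{s+1-k}` belongs to `D[[x]] g^{s+1}`, for a number `s`, any number of variables. -/
def NumN (g : MvPowerSeries (Fin n) ℂ) (s : ℂ) (k : ℕ) (φ : MvPowerSeries (Fin n) ℂ) : Prop :=
  ∃ (j : ℕ) (h : Polynomial (MvPowerSeries (Fin n) ℂ)),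
    InPs g (k + j) h ∧ h.eval (MvPowerSeries.C s) = g ^ j * φ

theorem NumN.base (g : MvPowerSeries (Fin n) ℂ) (s : ℂ) : NumN g s 0 1 :=
  ⟨0, 1, InPs.base, by simp⟩

theorem NumN.add {g : MvPowerSeries (Fin n) ℂ} {s : ℂ} {k : ℕ} {φ ψ : MvPowerSeries (Fin n) ℂ}
    (h : NumN g s k φ) (h' : NumN g s k ψ) : NumN g s k (φ + ψ) := by
  obtain ⟨j, p, hp, e⟩ := h
  obtain ⟨j', p', hp', e'⟩ := h'
  refine ⟨j + j', Polynomial.C (g ^ j') * p + Polynomial.C (g ^ j) * p',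
    ((hp.raise_pow j').of_eq (by ring) rfl).add ((hp'.raise_pow j).of_eq (by ring) rfl), ?_⟩
  rw [Polynomial.eval_add, Polynomial.eval_mul, Polynomial.eval_mul, Polynomial.eval_C,
    Polynomial.eval_C, e, e']
  ring

theorem NumN.mul {g : MvPowerSeries (Fin n) ℂ} {s : ℂ} {k : ℕ} {φ : MvPowerSeries (Fin n) ℂ}
    (c : MvPowerSeries (Fin n) ℂ) (h : NumN g s k φ) : NumN g s k (c * φ) := by
  obtain ⟨j, p, hp, e⟩ := h
  refine ⟨j, Polynomial.C c * p, hp.mul _, ?_⟩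
  rw [Polynomial.eval_mul, Polynomial.eval_C, e]
  ring

theorem NumN.deriv {g : MvPowerSeries (Fin n) ℂ} {s : ℂ} {k : ℕ} {φ : MvPowerSeries (Fin n) ℂ}
    (i : Fin n) (h : NumN g s k φ) :
    NumN g s (k + 1) (g * MvPowerSeries.pderiv ℂ i φ +
      MvPowerSeries.C (s + 1 - k) * MvPowerSeries.pderiv ℂ i g * φ) := by
  obtain ⟨j, p, hp, e⟩ := h
  refine ⟨j, _, (hp.deriv i).of_eq (by ring) rfl, ?_⟩
  rw [Polynomial.eval_add, Polynomial.eval_mul, Polynomial.eval_mul, Polynomial.eval_mul,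
    Polynomial.eval_C, Polynomial.eval_C, Polynomial.eval_sub, Polynomial.eval_add,
    Polynomial.eval_X, Polynomial.eval_one, Polynomial.eval_natCast, ARL.eval_C_derivC, e,
    Derivation.leibniz, Derivation.leibniz_pow]
  simp only [smul_eq_mul, nsmul_eq_mul, map_sub, map_add, map_one, map_natCast, Nat.cast_add]
  rcases j with _ | j
  · simp
  · rw [Nat.add_sub_cancel, pow_succ]
    push_cast
    ring

theorem NumN.raise {g : MvPowerSeries (Fin n) ℂ} {s : ℂ} {k : ℕ} {φ : MvPowerSeries (Fin n) ℂ}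
    (h : NumN g s k φ) : NumN g s (k + 1) (g * φ) := by
  obtain ⟨j, p, hp, e⟩ := h
  refine ⟨j, Polynomial.C g * p, hp.raise.of_eq (by ring) rfl, ?_⟩
  rw [Polynomial.eval_mul, Polynomial.eval_C, e]
  ring

theorem NumN.lower {g : MvPowerSeries (Fin n) ℂ} {s : ℂ} {k : ℕ} {φ : MvPowerSeries (Fin n) ℂ}
    (h : NumN g s (k + 1) (g * φ)) : NumN g s k φ := by
  obtain ⟨j, p, hp, e⟩ := h
  refine ⟨j + 1, p, hp.of_eq (by ring) rfl, ?_⟩
  rw [e]
  ring

theorem NumN.of_eq {g : MvPowerSeries (Fin n) ℂ} {s : ℂ} {k l : ℕ}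
    {φ ψ : MvPowerSeries (Fin n) ℂ} (h : NumN g s k φ) (hk : k = l) (hφ : φ = ψ) :
    NumN g s l ψ := by
  subst hk hφ
  exact h

theorem NumN.neg {g : MvPowerSeries (Fin n) ℂ} {s : ℂ} {k : ℕ} {φ : MvPowerSeries (Fin n) ℂ}
    (h : NumN g s k φ) : NumN g s k (-φ) :=
  (h.mul (-1)).of_eq rfl (by ring)

theorem NumN.sub {g : MvPowerSeries (Fin n) ℂ} {s : ℂ} {k : ℕ} {φ ψ : MvPowerSeries (Fin n) ℂ}
    (h : NumN g s k φ) (h' : NumN g s k ψ) : NumN g s k (φ - ψ) :=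
  (h.add h'.neg).of_eq rfl (by ring)

/-- `ψ g^{k'} g^{s+1-k}` is a multiple of `g^{s+1}` for `k ≤ k'`. -/
theorem NumN.pow (g : MvPowerSeries (Fin n) ℂ) (s : ℂ) {k k' : ℕ} (h : k ≤ k')
    (ψ : MvPowerSeries (Fin n) ℂ) : NumN g s k (g ^ k' * ψ) := by
  have h1 : ∀ k : ℕ, NumN g s k (g ^ k) := by
    intro k
    induction k with
    | zero => exact (NumN.base g s).of_eq rfl (by simp)
    | succ k ih => exact ih.raise.of_eq rfl (pow_succ' g k).symm
  obtain ⟨l, rfl⟩ := Nat.exists_eq_add_of_le h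
  exact ((h1 k).mul (g ^ l * ψ)).of_eq rfl (by rw [pow_add]; ring)

end SU

end MPb07157
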