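import Pool.Agent.Lib.MP_b07157_agU.Defs

/-!
# The root side in the plane, at a number s
-/

noncomputable section

namespace MPb07157

open MvPolynomial

namespace SU

open PC

variable {r : ℕ}

theorem NumPs.base (g : P2) (s : ℂ) : NumPs g s 0 1 :=
  ⟨0, 1, InPs.base, by rw [Polynomial.eval_one, pow_zero, one_mul]⟩

theorem NumPs.add {g : P2} {s : ℂ} {k : ℕ} {φ ψ : P2} (h : NumPs g s k φ) (h' : NumPs g s k ψ) :
    NumPs g s k (φ + ψ) := by
  obtain ⟨j, a, ha, ea⟩ := h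
  obtain ⟨j', b, hb, eb⟩ := h'
  refine ⟨j + j', Polynomial.C (g ^ j') * a + Polynomial.C (g ^ j) * b, ?_, ?_⟩
  · exact ((ha.raise_pow j').of_eq (by ring) rfl).add ((hb.raise_pow j).of_eq (by ring) rfl)
  · rw [Polynomial.eval_add, Polynomial.eval_mul, Polynomial.eval_mul, Polynomial.eval_C,
      Polynomial.eval_C, ea, eb, pow_add]
    ring

theorem NumPs.mul {g : P2} {s : ℂ} {k : ℕ} {φ : P2} (c : P2) (h : NumPs g s k φ) :
    NumPs g s k (c * φ) := by
  obtain ⟨j, a, ha, ea⟩ := h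
  refine ⟨j, Polynomial.C c * a, ha.mul _, ?_⟩
  rw [Polynomial.eval_mul, Polynomial.eval_C, ea]
  ring

theorem NumPs.deriv {g : P2} {s : ℂ} {k : ℕ} {φ : P2} (i : Fin 2) (h : NumPs g s k φ) :
    NumPs g s (k + 1) (g * MvPowerSeries.pderiv ℂ i φ +
      MvPowerSeries.C (s + 1 - k) * MvPowerSeries.pderiv ℂ i g * φ) := by
  obtain ⟨j, a, ha, ea⟩ := h
  refine ⟨j, _, (ha.deriv i).of_eq (by ring) rfl, ?_⟩
  rw [Polynomial.eval_add, Polynomial.eval_mul, Polynomial.eval_mul, Polynomial.eval_mul,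
    Polynomial.eval_C, Polynomial.eval_C, Polynomial.eval_sub, Polynomial.eval_add,
    Polynomial.eval_X, Polynomial.eval_one, Polynomial.eval_natCast, eval_C_derivC, ea,
    Derivation.leibniz, Derivation.leibniz_pow, smul_eq_mul, smul_eq_mul, smul_eq_mul,
    nsmul_eq_mul, map_sub, map_add, map_one, map_natCast]
  rcases j with _ | j
  · rw [pow_zero, Nat.cast_zero]
    push_cast
    ring
  · rw [Nat.add_sub_cancel]
    push_cast
    ring

theorem NumPs.raise {g : P2} {s : ℂ} {k : ℕ} {φ : P2} (h : NumPs g s k φ) :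
    NumPs g s (k + 1) (g * φ) := by
  obtain ⟨j, a, ha, ea⟩ := h
  refine ⟨j, Polynomial.C g * a, ha.raise.of_eq (by ring) rfl, ?_⟩
  rw [Polynomial.eval_mul, Polynomial.eval_C, ea]
  ring

theorem NumPs.lower {g : P2} {s : ℂ} {k : ℕ} {φ : P2} (h : NumPs g s (k + 1) (g * φ)) :
    NumPs g s k φ := by
  obtain ⟨j, a, ha, ea⟩ := h
  refine ⟨j + 1, a, ha.of_eq (by ring) rfl, ?_⟩
  rw [ea, pow_succ]
  ring

namespace N1h

open PowerSeries in
/-- Iterated shift of the coefficient. -/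
theorem shift_pow {K : Type} [Field K] [CharZero K] [Algebra ℂ K]
    {θ : MvPowerSeries (Fin 2) ℂ →ₐ[ℂ] PowerSeries K} {dz : Derivation ℂ K K}
    {F : MvPowerSeries (Fin 2) ℂ} {N ν : ℕ} {h : K} (D : Res.ArcDat θ dz F N ν h) (hν : 0 < ν)
    (A : PowerSeries K) (j : ℕ) :
    PowerSeries.coeff (N * j + ν - 1) (A * θ F ^ j * (D.W j : PowerSeries K)) =
      PowerSeries.coeff (N * 0 + ν - 1) (A * (D.W 0 : PowerSeries K)) := by
  induction j with
  | zero => rw [pow_zero, mul_one]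
  | succ j ih =>
    rw [pow_succ, ← mul_assoc, D.shift hν, ih]

end N1h

/-- `g^s ∈ D[[x,y]] g^{s+1}` implies the conclusion of the residue lemma. -/
theorem ex_of_num {f : P2} {s : ℂ} (h : NumPs f s 1 1) : Ex f s := by
  intro δ Θ h0 ν N hν hN hsν J₀ f₀ hf₀ J₁ F₁ hJ hF
  obtain ⟨j, g, hg, eg⟩ := h
  have hs : MvPowerSeries.HasSubst (Θ : Fin 2 → MvPowerSeries Unit (RatFunc ℂ)) :=
    MvPowerSeries.hasSubst_of_constantCoeff_zero h0
  let θ : MvPowerSeries (Fin 2) ℂ →ₐ[ℂ] PowerSeries (RatFunc ℂ) := MvPowerSeries.substAlgHom hs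
  have hθ : ∀ g : P2, θ g = (MvPowerSeries.subst (Θ : Fin 2 → MvPowerSeries Unit (RatFunc ℂ)) g :
      PowerSeries (RatFunc ℂ)) :=
    fun g => by rw [← MvPowerSeries.coe_substAlgHom hs]
  have hX : ∀ i, θ (MvPowerSeries.X i) = Θ i := fun i => by
    rw [hθ, MvPowerSeries.subst_X hs]
  have hdz : ∀ g : PowerSeries (RatFunc ℂ), Res.cd δ g = dz δ g := fun g => by
    ext n
    rw [Res.coeff_cd, coeff_dz]
  have hJac : Res.Jac θ δ = jacK δ Θ := by
    rw [Res.Jac, jacK, hX, hX, hdz, hdz]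
    rfl
  obtain ⟨D, hD⟩ := Res.exists_arcDat θ (fun i => by
    rw [hX]
    exact PowerSeries.X_dvd_iff.2 (h0 i)) δ f hN hf₀
    (PowerSeries.C f₀ + PowerSeries.X * F₁) (PowerSeries.C J₀ + PowerSeries.X * J₁)
    ((hθ f).trans hF) (by simp) (hJac.trans hJ)
  have h1 : Res.PP D (j + 1) g := by
    rw [add_comm j 1]
    exact Res.PP_of_inPs D hf₀ hN hν hg
  have h2 := h1 1
  have hsz : MvPowerSeries.C (Res.sz N ν) = (MvPowerSeries.C s : P2) := by
    rw [hsν]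
    rfl
  rw [hsz, eg, one_mul, mul_one, map_pow, mul_comm (θ f ^ j), N1h.shift_pow D hν, Nat.mul_zero,
    Nat.zero_add, D.hJ, mul_assoc, PowerSeries.coeff_X_pow_mul', if_pos le_rfl, Nat.sub_self,
    PowerSeries.coeff_zero_eq_constantCoeff_apply, map_mul, D.W_zero, mul_one, hD] at h2
  have h3 : PowerSeries.constantCoeff (PowerSeries.C J₀ + PowerSeries.X * J₁) = J₀ := by simp
  rw [h3] at h2
  obtain ⟨r, hr⟩ := h2
  refine ⟨r, ?_⟩
  rw [← hr]
  have h4 : algebraMap ℂ (RatFunc ℂ) (Res.sz N ν) = -((ν : RatFunc ℂ) / N) := by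
    change algebraMap ℂ (RatFunc ℂ) (-((ν : ℂ) / N)) = _
    rw [map_neg, map_div₀, map_natCast, map_natCast]
  rw [h4]
  ring

/-- `g^s ∈ D[[x,y]] g^{s+1}` implies that `s` is not one of the candidates of the components. -/
theorem axOK_of_num {f : P2} {s : ℚ} (h : NumPs f (s : ℂ) 1 1) : AxOK f s := by
  intro θ h0 i B hJ hB0 hB hs
  obtain ⟨j, g, hg, eg⟩ := h
  have hθ := MvPowerSeries.hasSubst_of_constantCoeff_zero h0
  obtain ⟨⟨F₁, hF₁⟩, hB2⟩ := hB
  have hn : ¬ MvPowerSeries.X i ∣ F₁ := by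
    rintro ⟨c, hc⟩
    apply hB2
    rw [hF₁, hc]
    exact ⟨c, by ring⟩
  have hs' : 1 + (s : ℂ) * B = 0 := by
    have h1 : (1 : ℂ) = -(s : ℂ) * B := by exact_mod_cast hs
    linear_combination h1
  have h1 := axis_dvd h0 hJ hB0 hF₁ hn hs' hg
  rw [eg, mul_one, ← MvPowerSeries.coe_substAlgHom hθ, map_pow,
    MvPowerSeries.coe_substAlgHom hθ, hF₁] at h1
  obtain ⟨c, hc⟩ := h1
  have h2 : MvPowerSeries.X i ^ (B * (1 + j)) * F₁ ^ j =
      MvPowerSeries.X i ^ (B * (1 + j)) * (MvPowerSeries.X i * c) := by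
    rw [mul_pow] at hc
    linear_combination hc
  have h3 := mul_left_cancel₀ (pow_ne_zero _ (prime_X2 i).ne_zero) h2
  have h4 : MvPowerSeries.X i ∣ F₁ ^ j := ⟨c, h3⟩
  exact hn ((prime_X2 i).dvd_of_dvd_pow h4)

end SU

end MPb07157
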