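import Pool.Agent.Lib.MP_b07157_agU.N0
import Mathlib.RingTheory.MvPowerSeries.Rename

/-!
# Sums over powers and coefficients of `z`
-/

noncomputable section

namespace MPb07157

open MvPolynomial

namespace SU

variable {n r : ℕ}

namespace N2h

/-- The power series in `x`. -/
abbrev B (n : ℕ) : Type := MvPowerSeries (Fin n) ℂ

/-- The power series in `x, z`. -/
abbrev A (n r : ℕ) : Type := MvPowerSeries (Fin (n + r)) ℂ

/-! ### Sums `∑ a_n g^N` -/

/-- The sum `∑ a_n g^N`. -/
def Sg (g : B n) (a : ℕ → B n) : B n := fun u =>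
  ∑ N ∈ Finset.range (u.degree + 1), MvPowerSeries.coeff u (a N * g ^ N)

theorem coeff_pow_eq_zero {g : B n} (hg : MvPowerSeries.constantCoeff g = 0) {u : Fin n →₀ ℕ}
    {N : ℕ} (hn : u.degree < N) (a : B n) : MvPowerSeries.coeff u (a * g ^ N) = 0 := by
  apply MvPowerSeries.coeff_of_lt_order
  have h1 := MvPowerSeries.le_order_pow_of_constantCoeff_eq_zero N hg
  have h2 : ((u.degree : ℕ) : ℕ∞) < N := by exact_mod_cast hn
  exact h2.trans_le (h1.trans ((self_le_add_left _ _).trans MvPowerSeries.le_order_mul))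

theorem coeff_Sg {g : B n} (hg : MvPowerSeries.constantCoeff g = 0) (a : ℕ → B n) (u : Fin n →₀ ℕ)
    {M : ℕ} (hM : u.degree < M) : MvPowerSeries.coeff u (Sg g a) =
      ∑ N ∈ Finset.range M, MvPowerSeries.coeff u (a N * g ^ N) := by
  change ∑ N ∈ Finset.range (u.degree + 1), MvPowerSeries.coeff u (a N * g ^ N) = _
  refine Finset.sum_subset (Finset.range_subset_range.2 hM) fun N _ hn => ?_
  exact coeff_pow_eq_zero hg (by simpa using hn) _

theorem Sg_add {g : B n} (hg : MvPowerSeries.constantCoeff g = 0) (a b : ℕ → B n) :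
    Sg g (fun N => a N + b N) = Sg g a + Sg g b := by
  refine MvPowerSeries.ext fun u => ?_
  rw [map_add, coeff_Sg hg _ u (Nat.lt_succ_self _), coeff_Sg hg _ u (Nat.lt_succ_self _),
    coeff_Sg hg _ u (Nat.lt_succ_self _), ← Finset.sum_add_distrib]
  exact Finset.sum_congr rfl fun N _ => by rw [add_mul, map_add]

theorem Sg_mul {g : B n} (hg : MvPowerSeries.constantCoeff g = 0) (c : B n) (a : ℕ → B n) :
    Sg g (fun N => c * a N) = c * Sg g a := by
  classical
  refine MvPowerSeries.ext fun u => ?_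
  rw [coeff_Sg hg _ u (Nat.lt_succ_self _), MvPowerSeries.coeff_mul]
  have h1 : ∀ p ∈ Finset.HasAntidiagonal.antidiagonal u, MvPowerSeries.coeff p.1 c *
      MvPowerSeries.coeff p.2 (Sg g a) = ∑ N ∈ Finset.range (u.degree + 1),
        MvPowerSeries.coeff p.1 c * MvPowerSeries.coeff p.2 (a N * g ^ N) := by
    intro p hp
    have h2 : p.2.degree < u.degree + 1 := by
      rw [← Finset.HasAntidiagonal.mem_antidiagonal.1 hp, map_add]
      omega
    rw [coeff_Sg hg _ p.2 h2, Finset.mul_sum]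
  rw [Finset.sum_congr rfl h1, Finset.sum_comm]
  exact Finset.sum_congr rfl fun N _ => by rw [mul_assoc, MvPowerSeries.coeff_mul]

theorem Sg_succ {g : B n} (hg : MvPowerSeries.constantCoeff g = 0) (a : ℕ → B n) :
    Sg g a = a 0 + g * Sg g fun N => a (N + 1) := by
  refine MvPowerSeries.ext fun u => ?_
  rw [← Sg_mul hg, map_add, coeff_Sg hg a u (M := u.degree + 1 + 1) (by omega),
    coeff_Sg hg _ u (Nat.lt_succ_self _), Finset.sum_range_succ', pow_zero, mul_one, add_comm]
  congr 1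
  exact Finset.sum_congr rfl fun N _ => by rw [pow_succ]; ring_nf

theorem Sg_pderiv {g : B n} (hg : MvPowerSeries.constantCoeff g = 0) (i : Fin n) (a : ℕ → B n) :
    MvPowerSeries.pderiv ℂ i (Sg g a) = Sg g (fun N => MvPowerSeries.pderiv ℂ i (a N)) +
      MvPowerSeries.pderiv ℂ i g * Sg g fun N => ((N + 1 : ℕ) : B n) * a (N + 1) := by
  refine MvPowerSeries.ext fun u => ?_
  have hu : (u + Finsupp.single i 1).degree < u.degree + 1 + 1 := by
    rw [map_add, Finsupp.degree_single]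
    omega
  rw [MvPowerSeries.coeff_pderiv, coeff_Sg hg a _ hu, ← Sg_mul hg, map_add,
    coeff_Sg hg _ u (M := u.degree + 1 + 1) (by omega),
    coeff_Sg hg _ u (Nat.lt_succ_self _), Finset.sum_mul]
  have h1 : ∀ N, MvPowerSeries.coeff (u + Finsupp.single i 1) (a N * g ^ N) * ((u i : ℂ) + 1) =
      MvPowerSeries.coeff u (MvPowerSeries.pderiv ℂ i (a N) * g ^ N) +
      MvPowerSeries.coeff u (a N * ((N : B n) * g ^ (N - 1) * MvPowerSeries.pderiv ℂ i g)) := by
    intro N
    rw [← MvPowerSeries.coeff_pderiv, Derivation.leibniz, Derivation.leibniz_pow, map_add,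
      add_comm]
    congr 2
    · rw [smul_eq_mul, mul_comm]
    · rw [smul_eq_mul, smul_eq_mul, nsmul_eq_mul]
      ring
  rw [Finset.sum_congr rfl fun N _ => h1 N, Finset.sum_add_distrib]
  congr 1
  rw [Finset.sum_range_succ']
  have h2 : MvPowerSeries.coeff u (a 0 * (((0 : ℕ) : B n) * g ^ (0 - 1) *
      MvPowerSeries.pderiv ℂ i g)) = 0 := by
    rw [Nat.cast_zero, zero_mul, zero_mul, mul_zero, map_zero]
  rw [h2, add_zero]
  refine Finset.sum_congr rfl fun N _ => ?_
  rw [Nat.add_sub_cancel]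
  congr 1
  ring

/-! ### Exponents -/

/-- The exponent `(u, K)`. -/
def cmb (u : Fin n →₀ ℕ) (K : Fin r → ℕ) : Fin (n + r) →₀ ℕ :=
  Finsupp.equivFunOnFinite.symm (Fin.addCases (fun j => u j) K)

theorem cmb_castAdd (u : Fin n →₀ ℕ) (K : Fin r → ℕ) (j : Fin n) :
    cmb u K (Fin.castAdd r j) = u j := by
  simp [cmb]

theorem cmb_natAdd (u : Fin n →₀ ℕ) (K : Fin r → ℕ) (i : Fin r) :
    cmb u K (Fin.natAdd n i) = K i := by
  simp [cmb]

theorem ext_cmb {v w : Fin (n + r) →₀ ℕ} (h1 : ∀ j, v (Fin.castAdd r j) = w (Fin.castAdd r j))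
    (h2 : ∀ i, v (Fin.natAdd n i) = w (Fin.natAdd n i)) : v = w := by
  ext l
  exact Fin.addCases h1 h2 l

theorem cmb_add (u v : Fin n →₀ ℕ) (K L : Fin r → ℕ) :
    cmb (u + v) (fun i => K i + L i) = cmb u K + cmb v L := by
  refine ext_cmb (fun j => ?_) fun i => ?_
  · rw [Finsupp.add_apply, cmb_castAdd, cmb_castAdd, cmb_castAdd, Finsupp.add_apply]
  · rw [Finsupp.add_apply, cmb_natAdd, cmb_natAdd, cmb_natAdd]

/-- The inclusion of the power series in `x, y`. -/
def io (r : ℕ) : B n →ₐ[ℂ] A n r := MvPowerSeries.rename (Fin.castAddEmb r)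

theorem io_eq (g : B n) : (MvPowerSeries.subst (fun j : Fin n =>
    (MvPowerSeries.X (Fin.castAdd r j) : A n r)) g : A n r) = io r g := by
  rw [io, MvPowerSeries.rename_eq_subst]
  rfl

theorem emb_eq (u : Fin n →₀ ℕ) : Finsupp.embDomain (Fin.castAddEmb r) u = cmb u fun _ => 0 := by
  refine ext_cmb (fun j => ?_) fun i => ?_
  · rw [cmb_castAdd]
    exact Finsupp.embDomain_apply_self (Fin.castAddEmb r) u j
  · rw [cmb_natAdd, Finsupp.embDomain_of_notMem_range]
    rintro ⟨j, hj⟩
    have h1 := congrArg Fin.val hj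
    have h2 : (j : ℕ) = n + i := h1
    have := j.isLt
    omega

theorem coeff_io_mul (c : B n) (φ : A n r) (u : Fin n →₀ ℕ) (K : Fin r → ℕ) :
    MvPowerSeries.coeff (cmb u K) (io r c * φ) = ∑ p ∈ Finset.HasAntidiagonal.antidiagonal u,
      MvPowerSeries.coeff p.1 c * MvPowerSeries.coeff (cmb p.2 K) φ := by
  classical
  rw [MvPowerSeries.coeff_mul]
  symm
  refine Finset.sum_of_injOn (fun p => (cmb p.1 (fun _ => 0), cmb p.2 K)) ?_ ?_ ?_ ?_
  · intro p _ q _ h
    have h1 := congrArg Prod.fst h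
    have h2 := congrArg Prod.snd h
    dsimp only at h1 h2
    refine Prod.ext (Finsupp.ext fun j => ?_) (Finsupp.ext fun j => ?_)
    · rw [← cmb_castAdd (r := r) p.1 (fun _ => 0), h1, cmb_castAdd]
    · rw [← cmb_castAdd p.2 K, h2, cmb_castAdd]
  · intro p hp
    have h1 := Finset.HasAntidiagonal.mem_antidiagonal.1 (Finset.mem_coe.1 hp)
    refine Finset.mem_coe.2 (Finset.HasAntidiagonal.mem_antidiagonal.2 ?_)
    rw [← cmb_add, h1]
    simp
  · rintro ⟨a, b⟩ hab hn
    have h1 := Finset.HasAntidiagonal.mem_antidiagonal.1 hab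
    dsimp only at h1 ⊢
    rw [io, MvPowerSeries.coeff_rename_eq_zero, zero_mul]
    rintro ⟨w, hw⟩
    rw [← Finsupp.embDomain_eq_mapDomain, emb_eq] at hw
    apply hn
    have h2 : ∀ j, w j + b (Fin.castAdd r j) = u j := by
      intro j
      rw [← cmb_castAdd u K j, ← h1, Finsupp.add_apply, ← hw, cmb_castAdd]
    have h3 : ∀ i, b (Fin.natAdd n i) = K i := by
      intro i
      rw [← cmb_natAdd u K i, ← h1, Finsupp.add_apply, ← hw, cmb_natAdd, zero_add]
    refine ⟨(w, u - w), ?_, ?_⟩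
    · refine Finset.mem_coe.2 (Finset.HasAntidiagonal.mem_antidiagonal.2 ?_)
      ext j
      have := h2 j
      rw [Finsupp.add_apply, Finsupp.tsub_apply]
      dsimp only
      omega
    · refine Prod.ext hw (ext_cmb (fun j => ?_) fun i => ?_)
      · rw [cmb_castAdd, Finsupp.tsub_apply]
        have := h2 j
        dsimp only
        omega
      · rw [cmb_natAdd, h3]
  · intro p _
    dsimp only
    rw [← emb_eq, io, MvPowerSeries.coeff_embDomain_rename]

end N2h

end SU

end MPb07157
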