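import Pool.Agent.Lib.MP_b07157_agU.N2a

/-!
# The integral over z, any number of variables `x`
-/

noncomputable section

namespace MPb07157

open MvPolynomial

namespace SU

variable {n r : ℕ}

namespace N2h

/-- The coefficient of `z^K`. -/
def cz (K : Fin r → ℕ) (φ : A n r) : B n := fun u => MvPowerSeries.coeff (cmb u K) φ

theorem coeff_cz (K : Fin r → ℕ) (φ : A n r) (u : Fin n →₀ ℕ) :
    MvPowerSeries.coeff u (cz K φ) = MvPowerSeries.coeff (cmb u K) φ := rfl

theorem cz_add (K : Fin r → ℕ) (φ ψ : A n r) : cz K (φ + ψ) = cz K φ + cz K ψ := by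
  refine MvPowerSeries.ext fun u => ?_
  rw [map_add, coeff_cz, coeff_cz, coeff_cz, map_add]

theorem cz_sub (K : Fin r → ℕ) (φ ψ : A n r) : cz K (φ - ψ) = cz K φ - cz K ψ := by
  refine MvPowerSeries.ext fun u => ?_
  rw [map_sub, coeff_cz, coeff_cz, coeff_cz, map_sub]

theorem cz_io_mul (K : Fin r → ℕ) (c : B n) (φ : A n r) : cz K (io r c * φ) = c * cz K φ := by
  classical
  refine MvPowerSeries.ext fun u => ?_
  rw [coeff_cz, coeff_io_mul, MvPowerSeries.coeff_mul]
  rfl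

theorem cz_C_mul (K : Fin r → ℕ) (a : ℂ) (φ : A n r) :
    cz K (MvPowerSeries.C a * φ) = MvPowerSeries.C a * cz K φ := by
  refine MvPowerSeries.ext fun u => ?_
  rw [coeff_cz, MvPowerSeries.coeff_C_mul, MvPowerSeries.coeff_C_mul, coeff_cz]

theorem cmb_add_single (u : Fin n →₀ ℕ) (K : Fin r → ℕ) (i : Fin r) (p : ℕ) :
    cmb u (K + Pi.single i p) = Finsupp.single (Fin.natAdd n i) p + cmb u K := by
  classical
  refine ext_cmb (fun j => ?_) fun l => ?_
  · rw [cmb_castAdd, Finsupp.add_apply, cmb_castAdd, Finsupp.single_eq_of_ne, zero_add]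
    intro h
    have h1 := congrArg Fin.val h
    have h2 : (j : ℕ) = n + i := h1
    have := j.isLt
    omega
  · rw [cmb_natAdd, Finsupp.add_apply, cmb_natAdd, Pi.add_apply, add_comm]
    congr 1
    rcases eq_or_ne l i with rfl | h
    · simp
    · rw [Pi.single_eq_of_ne h, Finsupp.single_eq_of_ne]
      intro h'
      exact h (Fin.natAdd_injective _ _ h')

theorem cmb_single_add (u : Fin n →₀ ℕ) (K : Fin r → ℕ) (j : Fin n) :
    cmb (u + Finsupp.single j 1) K = cmb u K + Finsupp.single (Fin.castAdd r j) 1 := by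
  classical
  refine ext_cmb (fun l => ?_) fun l => ?_
  · rw [cmb_castAdd, Finsupp.add_apply, Finsupp.add_apply, cmb_castAdd]
    congr 1
    rcases eq_or_ne l j with rfl | h
    · simp
    · rw [Finsupp.single_eq_of_ne h, Finsupp.single_eq_of_ne]
      intro h'
      exact h (Fin.castAdd_injective _ _ h')
  · rw [cmb_natAdd, Finsupp.add_apply, cmb_natAdd, Finsupp.single_eq_of_ne, add_zero]
    intro h
    have h1 := congrArg Fin.val h
    have h2 : n + (l : ℕ) = j := h1
    have := j.isLt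
    omega

theorem cz_X_mul (K : Fin r → ℕ) (i : Fin r) (p : ℕ) (φ : A n r) :
    cz (K + Pi.single i p) (MvPowerSeries.X (Fin.natAdd n i) ^ p * φ) = cz K φ := by
  refine MvPowerSeries.ext fun u => ?_
  rw [coeff_cz, cmb_add_single, MvPowerSeries.X_pow_eq, MvPowerSeries.coeff_add_monomial_mul,
    one_mul, coeff_cz]

theorem cz_X_mul_zero (K : Fin r → ℕ) (i : Fin r) (p : ℕ) (h : K i < p) (φ : A n r) :
    cz K (MvPowerSeries.X (Fin.natAdd n i) ^ p * φ) = 0 := by
  refine MvPowerSeries.ext fun u => ?_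
  rw [coeff_cz, MvPowerSeries.X_pow_eq, MvPowerSeries.coeff_monomial_mul, if_neg, map_zero]
  intro h'
  have h1 := h' (Fin.natAdd n i)
  rw [Finsupp.single_eq_same, cmb_natAdd] at h1
  omega

theorem cz_pderiv_x (K : Fin r → ℕ) (j : Fin n) (φ : A n r) :
    cz K (MvPowerSeries.pderiv ℂ (Fin.castAdd r j) φ) = MvPowerSeries.pderiv ℂ j (cz K φ) := by
  refine MvPowerSeries.ext fun u => ?_
  rw [coeff_cz, MvPowerSeries.coeff_pderiv, MvPowerSeries.coeff_pderiv, coeff_cz, cmb_single_add,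
    cmb_castAdd]

theorem cz_pderiv_z (K : Fin r → ℕ) (i : Fin r) (φ : A n r) :
    cz K (MvPowerSeries.pderiv ℂ (Fin.natAdd n i) φ) =
      MvPowerSeries.C ((K i : ℂ) + 1) * cz (K + Pi.single i 1) φ := by
  refine MvPowerSeries.ext fun u => ?_
  rw [coeff_cz, MvPowerSeries.coeff_pderiv, MvPowerSeries.coeff_C_mul, coeff_cz, cmb_add_single,
    cmb_natAdd, add_comm (Finsupp.single _ _), mul_comm]

/-- The coefficients of `∂_{x_j}(g) φ`. -/
theorem cz_dio_x (K : Fin r → ℕ) (j : Fin n) (g : B n) (φ : A n r) :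
    cz K (MvPowerSeries.pderiv ℂ (Fin.castAdd r j) (io r g) * φ) =
      MvPowerSeries.pderiv ℂ j g * cz K φ := by
  have h : MvPowerSeries.pderiv ℂ (Fin.castAdd r j) (io r g) * φ =
      MvPowerSeries.pderiv ℂ (Fin.castAdd r j) (io r g * φ) -
        io r g * MvPowerSeries.pderiv ℂ (Fin.castAdd r j) φ := by
    rw [Derivation.leibniz, smul_eq_mul, smul_eq_mul]
    ring
  rw [h, cz_sub, cz_pderiv_x, cz_io_mul, cz_io_mul, cz_pderiv_x, Derivation.leibniz, smul_eq_mul,
    smul_eq_mul]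
  ring

/-- The coefficients of `∂_{z_i}(g) φ`. -/
theorem cz_dio_z (K : Fin r → ℕ) (i : Fin r) (g : B n) (φ : A n r) :
    cz K (MvPowerSeries.pderiv ℂ (Fin.natAdd n i) (io r g) * φ) = 0 := by
  have h : MvPowerSeries.pderiv ℂ (Fin.natAdd n i) (io r g) * φ =
      MvPowerSeries.pderiv ℂ (Fin.natAdd n i) (io r g * φ) -
        io r g * MvPowerSeries.pderiv ℂ (Fin.natAdd n i) φ := by
    rw [Derivation.leibniz, smul_eq_mul, smul_eq_mul]
    ring
  rw [h, cz_sub, cz_pderiv_z, cz_io_mul, cz_io_mul, cz_pderiv_z]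
  ring

/-! ### Moments -/

/-- Rising powers. -/
def rf (a : ℂ) : ℕ → ℂ
  | 0 => 1
  | k + 1 => rf a k * (a + k)

/-- The weight of `z^{eJ}`. -/
def wt (e : Fin r → ℕ) (J : Fin r → ℕ) : ℂ := ∏ i, rf (1 / (e i : ℂ)) (J i)

theorem wt_succ (e : Fin r → ℕ) (J : Fin r → ℕ) (i : Fin r) :
    wt e (J + Pi.single i 1) = wt e J * (1 / (e i : ℂ) + J i) := by
  classical
  unfold wt
  rw [← Finset.mul_prod_erase _ _ (Finset.mem_univ i), ← Finset.mul_prod_erase _ (fun l =>
    rf (1 / (e l : ℂ)) (J l)) (Finset.mem_univ i)]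
  have h1 : (J + Pi.single i 1 : Fin r → ℕ) i = J i + 1 := by simp
  have h2 : ∏ l ∈ Finset.univ.erase i, rf (1 / (e l : ℂ)) ((J + Pi.single i 1 : Fin r → ℕ) l) =
      ∏ l ∈ Finset.univ.erase i, rf (1 / (e l : ℂ)) (J l) := by
    refine Finset.prod_congr rfl fun l hl => ?_
    rw [Pi.add_apply, Pi.single_eq_of_ne (Finset.ne_of_mem_erase hl), add_zero]
  rw [h1, h2]
  change rf _ (J i) * _ * _ = _
  ring

/-- The exponent `eJ`. -/
def ej (e J : Fin r → ℕ) : Fin r → ℕ := fun i => e i * J i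

theorem ej_succ (e J : Fin r → ℕ) (i : Fin r) :
    ej e (J + Pi.single i 1) = ej e J + Pi.single i (e i) := by
  classical
  funext l
  rcases eq_or_ne l i with rfl | h
  · simp [ej, mul_add]
  · simp [ej, Pi.single_eq_of_ne h]

/-- The moments. -/
def mo (e : Fin r → ℕ) (N : ℕ) (φ : A n r) : B n :=
  ∑ J ∈ Finset.piAntidiag Finset.univ N, MvPowerSeries.C (wt e J) * cz (ej e J) φ

theorem mo_add (e : Fin r → ℕ) (N : ℕ) (φ ψ : A n r) : mo e N (φ + ψ) = mo e N φ + mo e N ψ := by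
  unfold mo
  rw [← Finset.sum_add_distrib]
  exact Finset.sum_congr rfl fun J _ => by rw [cz_add, mul_add]

theorem mo_C_mul (e : Fin r → ℕ) (N : ℕ) (a : ℂ) (φ : A n r) :
    mo e N (MvPowerSeries.C a * φ) = MvPowerSeries.C a * mo e N φ := by
  unfold mo
  rw [Finset.mul_sum]
  exact Finset.sum_congr rfl fun J _ => by rw [cz_C_mul]; ring

theorem mo_io_mul (e : Fin r → ℕ) (N : ℕ) (c : B n) (φ : A n r) :
    mo e N (io r c * φ) = c * mo e N φ := by
  unfold mo
  rw [Finset.mul_sum]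
  exact Finset.sum_congr rfl fun J _ => by rw [cz_io_mul]; ring

theorem mo_dx (e : Fin r → ℕ) (N : ℕ) (j : Fin n) (φ : A n r) :
    mo e N (MvPowerSeries.pderiv ℂ (Fin.castAdd r j) φ) = MvPowerSeries.pderiv ℂ j (mo e N φ) := by
  unfold mo
  rw [map_sum]
  refine Finset.sum_congr rfl fun J _ => ?_
  rw [cz_pderiv_x, Derivation.leibniz, MvPowerSeries.pderiv_C, smul_zero, add_zero, smul_eq_mul]

theorem sum_shift (i : Fin r) (N : ℕ) (F : (Fin r → ℕ) → B n) (hF : ∀ J, J i = 0 → F J = 0) :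
    ∑ J ∈ Finset.piAntidiag Finset.univ (N + 1), F J =
      ∑ J ∈ Finset.piAntidiag Finset.univ N, F (J + Pi.single i 1) := by
  classical
  symm
  refine Finset.sum_of_injOn (fun J => J + Pi.single i 1) ?_ ?_ ?_ ?_
  · exact fun J _ J' _ h => add_right_cancel h
  · intro J hJ
    rw [Finset.mem_coe, Finset.mem_piAntidiag] at hJ ⊢
    refine ⟨?_, fun _ _ => Finset.mem_univ _⟩
    have h1 : ∑ l, (J + Pi.single i 1 : Fin r → ℕ) l = ∑ l, J l + ∑ l, (Pi.single i 1 : Fin r → ℕ) l := by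
      rw [← Finset.sum_add_distrib]
      rfl
    rw [h1, hJ.1, Finset.sum_pi_single' i 1 Finset.univ, if_pos (Finset.mem_univ i)]
  · intro J hJ hn
    apply hF
    by_contra h
    apply hn
    rw [Finset.mem_piAntidiag] at hJ
    have h2 : J - Pi.single i 1 + Pi.single i 1 = J := by
      funext l
      rcases eq_or_ne l i with rfl | hl
      · rw [Pi.add_apply, Pi.sub_apply, Pi.single_eq_same]
        omega
      · rw [Pi.add_apply, Pi.sub_apply, Pi.single_eq_of_ne hl]
        omega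
    refine ⟨J - Pi.single i 1, ?_, h2⟩
    rw [Finset.mem_coe, Finset.mem_piAntidiag]
    refine ⟨?_, fun _ _ => Finset.mem_univ _⟩
    have h1 : ∑ l, (J - Pi.single i 1 + Pi.single i 1 : Fin r → ℕ) l =
        ∑ l, (J - Pi.single i 1 : Fin r → ℕ) l + ∑ l, (Pi.single i 1 : Fin r → ℕ) l := by
      rw [← Finset.sum_add_distrib]
      rfl
    rw [h2, hJ.1, Finset.sum_pi_single' i 1 Finset.univ, if_pos (Finset.mem_univ i)] at h1
    exact (Nat.add_right_cancel h1).symm
  · intro J _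
    rfl

theorem sum_zero (F : (Fin r → ℕ) → B n) :
    ∑ J ∈ Finset.piAntidiag Finset.univ 0, F J = F 0 := by
  rw [Finset.piAntidiag_zero, Finset.sum_singleton]

end N2h

end SU

end MPb07157
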