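import Pool.Agent.Lib.MP_b07157_agU.N2b

/-!
# The integral over z: identities
-/

noncomputable section

namespace MPb07157

open MvPolynomial

namespace SU

variable {n r : ℕ}

namespace N2h

/-- The power series `∑ z_i^{e_i}`. -/
def hz (n : ℕ) (e : Fin r → ℕ) : A n r := ∑ i, MvPowerSeries.X (Fin.natAdd n i) ^ e i

/-- The number `∑ 1/e_i`. -/
def hc (e : Fin r → ℕ) : ℂ := ∑ i, 1 / (e i : ℂ)

/-- The power series `g + ∑ z_i^{e_i}`. -/
def su (g : B n) (e : Fin r → ℕ) : A n r := io r g + hz n e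

theorem mo_X_succ {e : Fin r → ℕ} (N : ℕ) (i : Fin r) (he : 2 ≤ e i) (φ : A n r) :
    mo e (N + 1) (MvPowerSeries.X (Fin.natAdd n i) ^ e i * φ) =
      ∑ J ∈ Finset.piAntidiag Finset.univ N,
        MvPowerSeries.C (wt e J * (1 / (e i : ℂ) + J i)) * cz (ej e J) φ := by
  unfold mo
  rw [sum_shift i]
  · refine Finset.sum_congr rfl fun J _ => ?_
    rw [wt_succ, ej_succ, cz_X_mul]
  · intro J hJ
    rw [cz_X_mul_zero, mul_zero]
    simp only [ej, hJ, mul_zero]
    omega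

theorem mo_X_zero {e : Fin r → ℕ} (i : Fin r) (he : 2 ≤ e i) (φ : A n r) :
    mo e 0 (MvPowerSeries.X (Fin.natAdd n i) ^ e i * φ) = 0 := by
  unfold mo
  rw [sum_zero, cz_X_mul_zero, mul_zero]
  simp only [ej, Pi.zero_apply, mul_zero]
  omega

theorem mo_zero' (e : Fin r → ℕ) (N : ℕ) : mo e N (0 : A n r) = 0 := by
  have h := mo_C_mul e N 0 (0 : A n r)
  rwa [mul_zero, map_zero, zero_mul] at h

theorem mo_sum {ι : Type} (e : Fin r → ℕ) (N : ℕ) (s : Finset ι) (φ : ι → A n r) :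
    mo e N (∑ i ∈ s, φ i) = ∑ i ∈ s, mo e N (φ i) := by
  classical
  induction s using Finset.induction_on with
  | empty => rw [Finset.sum_empty, Finset.sum_empty, mo_zero']
  | insert a s ha ih => rw [Finset.sum_insert ha, Finset.sum_insert ha, mo_add, ih]

theorem mo_hz_zero {e : Fin r → ℕ} (he : ∀ i, 2 ≤ e i) (φ : A n r) :
    mo e 0 (hz n e * φ) = 0 := by
  unfold hz
  rw [Finset.sum_mul, mo_sum]
  exact Finset.sum_eq_zero fun i _ => mo_X_zero i (he i) φ

theorem mo_hz_succ {e : Fin r → ℕ} (he : ∀ i, 2 ≤ e i) (N : ℕ) (φ : A n r) :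
    mo e (N + 1) (hz n e * φ) = MvPowerSeries.C (hc e + N) * mo e N φ := by
  classical
  unfold hz
  rw [Finset.sum_mul, mo_sum, Finset.sum_congr rfl fun i _ => mo_X_succ N i (he i) φ,
    Finset.sum_comm]
  conv_rhs => rw [mo, Finset.mul_sum]
  refine Finset.sum_congr rfl fun J hJ => ?_
  rw [Finset.mem_piAntidiag] at hJ
  rw [← Finset.sum_mul, ← map_sum, ← Finset.mul_sum, Finset.sum_add_distrib, ← Nat.cast_sum, hJ.1,
    ← mul_assoc, ← map_mul, mul_comm (wt e J)]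
  rfl

/-- The moments of `∂_{z_i}(h) φ`. -/
theorem mo_dz_succ {e : Fin r → ℕ} (N : ℕ) (i : Fin r) (he : 2 ≤ e i) (φ : A n r) :
    mo e (N + 1) (MvPowerSeries.C (e i : ℂ) *
      (MvPowerSeries.X (Fin.natAdd n i) ^ (e i - 1) * φ)) =
        mo e N (MvPowerSeries.pderiv ℂ (Fin.natAdd n i) φ) := by
  rw [mo_C_mul]
  unfold mo
  rw [sum_shift i]
  · rw [Finset.mul_sum]
    refine Finset.sum_congr rfl fun J _ => ?_
    have h1 : ej e J + Pi.single i (e i) = ej e J + Pi.single i 1 + Pi.single i (e i - 1) := by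
      rw [add_assoc, ← Pi.single_add]
      congr 2
      omega
    have h2 : ((e i : ℕ) : ℂ) ≠ 0 := by
      have : e i ≠ 0 := by omega
      exact_mod_cast this
    rw [wt_succ, ej_succ, h1, cz_X_mul, cz_pderiv_z, ← mul_assoc, ← mul_assoc, ← map_mul,
      ← map_mul]
    congr 2
    simp only [ej]
    push_cast
    field_simp
    ring
  · intro J hJ
    rw [cz_X_mul_zero, mul_zero]
    simp only [ej, hJ, mul_zero]
    omega

theorem mo_dz_zero {e : Fin r → ℕ} (i : Fin r) (he : 2 ≤ e i) (φ : A n r) :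
    mo e 0 (MvPowerSeries.C (e i : ℂ) *
      (MvPowerSeries.X (Fin.natAdd n i) ^ (e i - 1) * φ)) = 0 := by
  rw [mo_C_mul]
  unfold mo
  rw [sum_zero, cz_X_mul_zero, mul_zero, mul_zero]
  simp only [ej, Pi.zero_apply, mul_zero]
  omega

theorem hz_dx (e : Fin r → ℕ) (j : Fin n) :
    MvPowerSeries.pderiv ℂ (Fin.castAdd r j) (hz n e) = 0 := by
  unfold hz
  rw [map_sum]
  refine Finset.sum_eq_zero fun i _ => ?_
  have h : Fin.natAdd n i ≠ Fin.castAdd r j := by
    intro h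
    have h1 := congrArg Fin.val h
    have h2 : n + (i : ℕ) = j := h1
    have := j.isLt
    omega
  rw [Derivation.leibniz_pow, MvPowerSeries.pderiv_X_of_ne h, smul_zero, smul_zero]

theorem hz_dz (e : Fin r → ℕ) (i : Fin r) :
    MvPowerSeries.pderiv ℂ (Fin.natAdd n i) (hz n e) =
      MvPowerSeries.C (e i : ℂ) * MvPowerSeries.X (Fin.natAdd n i) ^ (e i - 1) := by
  classical
  unfold hz
  rw [map_sum, Finset.sum_eq_single i]
  · rw [Derivation.leibniz_pow, MvPowerSeries.pderiv_X_self, smul_eq_mul, mul_one, nsmul_eq_mul,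
      map_natCast]
  · intro l _ hl
    have h : Fin.natAdd n l ≠ Fin.natAdd n i := fun h => hl (Fin.natAdd_injective _ _ h)
    rw [Derivation.leibniz_pow, MvPowerSeries.pderiv_X_of_ne h, smul_zero, smul_zero]
  · intro h
    exact absurd (Finset.mem_univ i) h

/-- The moments of `∂_{x_j}(f) φ`. -/
theorem mo_dsu_x (g : B n) (e : Fin r → ℕ) (N : ℕ) (j : Fin n) (φ : A n r) :
    mo e N (MvPowerSeries.pderiv ℂ (Fin.castAdd r j) (su g e) * φ) =
      MvPowerSeries.pderiv ℂ j g * mo e N φ := by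
  unfold su
  rw [map_add, hz_dx, add_zero]
  unfold mo
  rw [Finset.mul_sum]
  exact Finset.sum_congr rfl fun J _ => by rw [cz_dio_x]; ring

theorem mo_dio_z (g : B n) (e : Fin r → ℕ) (N : ℕ) (i : Fin r) (φ : A n r) :
    mo e N (MvPowerSeries.pderiv ℂ (Fin.natAdd n i) (io r g) * φ) = 0 := by
  unfold mo
  exact Finset.sum_eq_zero fun J _ => by rw [cz_dio_z, mul_zero]

theorem mo_dsu_z_succ (g : B n) {e : Fin r → ℕ} (N : ℕ) (i : Fin r) (he : 2 ≤ e i) (φ : A n r) :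
    mo e (N + 1) (MvPowerSeries.pderiv ℂ (Fin.natAdd n i) (su g e) * φ) =
      mo e N (MvPowerSeries.pderiv ℂ (Fin.natAdd n i) φ) := by
  unfold su
  rw [map_add, hz_dz, add_mul, mo_add, mo_dio_z, zero_add, mul_assoc, mo_dz_succ N i he]

theorem mo_dsu_z_zero (g : B n) {e : Fin r → ℕ} (i : Fin r) (he : 2 ≤ e i) (φ : A n r) :
    mo e 0 (MvPowerSeries.pderiv ℂ (Fin.natAdd n i) (su g e) * φ) = 0 := by
  unfold su
  rw [map_add, hz_dz, add_mul, mo_add, mo_dio_z, zero_add, mul_assoc, mo_dz_zero i he]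

/-! ### The transform -/

/-- The coefficients of the transform. -/
def cc (θ : ℂ) : ℕ → ℂ
  | 0 => 1
  | N + 1 => -cc θ N / (θ + (N + 1 : ℕ))

theorem cc_a {θ : ℂ} (hθ : ∀ l : ℕ, θ + l ≠ 0) (N : ℕ) : θ * cc (θ - 1) (N + 1) = -cc θ N := by
  induction N with
  | zero =>
    have h := hθ 0
    rw [Nat.cast_zero, add_zero] at h
    change θ * (-1 / (θ - 1 + ((0 + 1 : ℕ) : ℂ))) = -1
    push_cast
    rw [sub_add_cancel]
    field_simp
  | succ N ih =>
    change θ * (-cc (θ - 1) (N + 1) / (θ - 1 + ((N + 1 + 1 : ℕ) : ℂ))) =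
      -(-cc θ N / (θ + ((N + 1 : ℕ) : ℂ)))
    have h : θ - 1 + ((N + 1 + 1 : ℕ) : ℂ) = θ + ((N + 1 : ℕ) : ℂ) := by
      push_cast
      ring
    rw [h, ← mul_div_assoc, mul_neg, ih, neg_neg, neg_div, neg_neg]

theorem cc_b {θ : ℂ} (hθ : ∀ l : ℕ, θ + l ≠ 0) (N : ℕ) :
    θ * cc (θ - 1) N = (θ + N) * cc θ N := by
  have h1 := cc_a hθ N
  have h2 : cc (θ - 1) (N + 1) * (θ + N) = -cc (θ - 1) N := by
    change -cc (θ - 1) N / (θ - 1 + ((N + 1 : ℕ) : ℂ)) * (θ + N) = _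
    have h : θ - 1 + ((N + 1 : ℕ) : ℂ) = θ + N := by
      push_cast
      ring
    rw [h, div_mul_cancel₀ _ (hθ N)]
  linear_combination θ * h2 - (θ + N) * h1

/-- The transform. -/
def T (g : B n) (e : Fin r → ℕ) (θ : ℂ) (φ : A n r) : B n :=
  Sg g fun N => MvPowerSeries.C (cc θ N) * mo e N φ

theorem T_add {g : B n} (hg : MvPowerSeries.constantCoeff g = 0) (e : Fin r → ℕ) (θ : ℂ)
    (φ ψ : A n r) : T g e θ (φ + ψ) = T g e θ φ + T g e θ ψ := by
  unfold T
  rw [← Sg_add hg]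
  congr 1
  funext N
  rw [mo_add, mul_add]

theorem T_C_mul {g : B n} (hg : MvPowerSeries.constantCoeff g = 0) (e : Fin r → ℕ) (θ a : ℂ)
    (φ : A n r) : T g e θ (MvPowerSeries.C a * φ) = MvPowerSeries.C a * T g e θ φ := by
  unfold T
  rw [← Sg_mul hg]
  congr 1
  funext N
  rw [mo_C_mul]
  ring

/-- `θ T_{k+1}(f ψ) = σ g T_k(ψ)`. -/
theorem T_raise {g : B n} (hg : MvPowerSeries.constantCoeff g = 0) {e : Fin r → ℕ}
    (he : ∀ i, 2 ≤ e i) {θ : ℂ} (hθ : ∀ l : ℕ, θ + l ≠ 0) (ψ : A n r) :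
    MvPowerSeries.C θ * T g e (θ - 1) (su g e * ψ) =
      MvPowerSeries.C (θ - hc e) * (g * T g e θ ψ) := by
  have h1 : su g e * ψ = io r g * ψ + hz n e * ψ := by
    unfold su
    ring
  rw [h1, T_add hg, mul_add]
  have h2 : MvPowerSeries.C θ * T g e (θ - 1) (io r g * ψ) =
      g * Sg g fun N => MvPowerSeries.C ((θ + N) * cc θ N) * mo e N ψ := by
    unfold T
    rw [← Sg_mul hg, ← Sg_mul hg]
    congr 1
    funext N
    rw [mo_io_mul, ← cc_b hθ, map_mul]
    ring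
  have h3 : MvPowerSeries.C θ * T g e (θ - 1) (hz n e * ψ) =
      g * Sg g fun N => MvPowerSeries.C (-cc θ N * (hc e + N)) * mo e N ψ := by
    unfold T
    rw [← Sg_mul hg, Sg_succ hg, mo_hz_zero he, mul_zero, mul_zero, zero_add]
    congr 2
    funext N
    rw [mo_hz_succ he, ← cc_a hθ, map_mul, map_mul]
    ring
  rw [h2, h3, ← mul_add, ← Sg_add hg, mul_left_comm]
  congr 1
  unfold T
  rw [← Sg_mul hg]
  congr 1
  funext N
  rw [← add_mul, ← map_add, ← mul_assoc, ← map_mul]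
  congr 2
  ring

/-- `T_{k+1}(f ∂_j ψ + σ ∂_j(f) ψ)`. -/
theorem T_dx {g : B n} (hg : MvPowerSeries.constantCoeff g = 0) {e : Fin r → ℕ}
    (he : ∀ i, 2 ≤ e i) {θ : ℂ} (hθ : ∀ l : ℕ, θ + l ≠ 0) (j : Fin n) (ψ : A n r) :
    MvPowerSeries.C θ * T g e (θ - 1) (su g e * MvPowerSeries.pderiv ℂ (Fin.castAdd r j) ψ +
      MvPowerSeries.C (θ - hc e) *
        (MvPowerSeries.pderiv ℂ (Fin.castAdd r j) (su g e) * ψ)) =
      MvPowerSeries.C (θ - hc e) * (g * MvPowerSeries.pderiv ℂ j (T g e θ ψ) +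
        MvPowerSeries.C θ * MvPowerSeries.pderiv ℂ j g * T g e θ ψ) := by
  rw [T_add hg, mul_add, T_raise hg he hθ, T_C_mul hg,
    mul_left_comm (MvPowerSeries.C θ : B n) (MvPowerSeries.C (θ - hc e)), ← mul_add]
  congr 1
  have h1 : MvPowerSeries.C θ * T g e (θ - 1)
      (MvPowerSeries.pderiv ℂ (Fin.castAdd r j) (su g e) * ψ) =
      MvPowerSeries.pderiv ℂ j g * Sg g fun N =>
        MvPowerSeries.C ((θ + N) * cc θ N) * mo e N ψ := by
    unfold T
    rw [← Sg_mul hg, ← Sg_mul hg]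
    congr 1
    funext N
    rw [mo_dsu_x, ← cc_b hθ, map_mul]
    ring
  have h2 : g * MvPowerSeries.pderiv ℂ j (T g e θ ψ) =
      g * T g e θ (MvPowerSeries.pderiv ℂ (Fin.castAdd r j) ψ) + MvPowerSeries.pderiv ℂ j g *
        Sg g fun N => MvPowerSeries.C (N * cc θ N) * mo e N ψ := by
    have h3 : (Sg g fun N => MvPowerSeries.C ((N : ℂ) * cc θ N) * mo e N ψ) =
        g * Sg g fun N => ((N + 1 : ℕ) : B n) * (MvPowerSeries.C (cc θ (N + 1)) *
          mo e (N + 1) ψ) := by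
      rw [Sg_succ hg, Nat.cast_zero, zero_mul, map_zero, zero_mul, zero_add]
      congr 2
      funext N
      rw [map_mul, map_natCast]
      ring
    rw [h3]
    unfold T
    rw [Sg_pderiv hg, mul_add]
    congr 1
    · congr 2
      funext N
      rw [mo_dx, Derivation.leibniz, MvPowerSeries.pderiv_C, smul_zero, add_zero, smul_eq_mul]
    · ring
  have h4 : MvPowerSeries.C θ * T g e θ ψ =
      Sg g fun N => MvPowerSeries.C (θ * cc θ N) * mo e N ψ := by
    unfold T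
    rw [← Sg_mul hg]
    congr 1
    funext N
    rw [map_mul]
    ring
  rw [h1, h2, mul_right_comm, h4, add_assoc]
  congr 1
  rw [mul_comm (Sg g _) (MvPowerSeries.pderiv ℂ j g), ← mul_add, ← Sg_add hg]
  congr 2
  funext N
  rw [← add_mul, ← map_add]
  congr 2
  ring

/-- `T_{k+1}(f ∂_{z_i} ψ + σ ∂_{z_i}(f) ψ) = 0`. -/
theorem T_dz {g : B n} (hg : MvPowerSeries.constantCoeff g = 0) {e : Fin r → ℕ}
    (he : ∀ i, 2 ≤ e i) {θ : ℂ} (hθ : ∀ l : ℕ, θ + l ≠ 0) (i : Fin r) (ψ : A n r) :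
    MvPowerSeries.C θ * T g e (θ - 1) (su g e * MvPowerSeries.pderiv ℂ (Fin.natAdd n i) ψ +
      MvPowerSeries.C (θ - hc e) *
        (MvPowerSeries.pderiv ℂ (Fin.natAdd n i) (su g e) * ψ)) = 0 := by
  rw [T_add hg, mul_add, T_raise hg he hθ, T_C_mul hg,
    mul_left_comm (MvPowerSeries.C θ : B n) (MvPowerSeries.C (θ - hc e)), ← mul_add]
  have h1 : MvPowerSeries.C θ * T g e (θ - 1)
      (MvPowerSeries.pderiv ℂ (Fin.natAdd n i) (su g e) * ψ) =
      g * (-1 * T g e θ (MvPowerSeries.pderiv ℂ (Fin.natAdd n i) ψ)) := by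
    have h2 : -1 * T g e θ (MvPowerSeries.pderiv ℂ (Fin.natAdd n i) ψ) = Sg g fun N =>
        MvPowerSeries.C (-cc θ N) * mo e N (MvPowerSeries.pderiv ℂ (Fin.natAdd n i) ψ) := by
      unfold T
      rw [← Sg_mul hg]
      congr 1
      funext N
      rw [map_neg]
      ring
    rw [h2]
    unfold T
    rw [← Sg_mul hg, Sg_succ hg, mo_dsu_z_zero g i (he i), mul_zero, mul_zero, zero_add]
    congr 2
    funext N
    rw [mo_dsu_z_succ g N i (he i), ← mul_assoc, ← map_mul, cc_a hθ]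
  rw [h1]
  ring

/-- The transform of a constant. -/
theorem T_one {g : B n} (hg : MvPowerSeries.constantCoeff g = 0) {e : Fin r → ℕ}
    (he : ∀ i, 2 ≤ e i) (θ : ℂ) : T g e θ 1 = 1 := by
  classical
  have h0 : ∀ J : Fin r → ℕ, J ≠ 0 → cz (ej e J) (1 : A n r) = 0 := by
    intro J hJ
    refine MvPowerSeries.ext fun u => ?_
    rw [coeff_cz, MvPowerSeries.coeff_one, if_neg, map_zero]
    intro h
    apply hJ
    funext i
    have h1 := DFunLike.congr_fun h (Fin.natAdd n i)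
    rw [cmb_natAdd, Finsupp.zero_apply] at h1
    have h2 := he i
    have h3 : e i * J i = 0 := h1
    rcases mul_eq_zero.1 h3 with h4 | h4
    · omega
    · exact h4
  have h1 : cz (ej e 0) (1 : A n r) = 1 := by
    refine MvPowerSeries.ext fun u => ?_
    rw [coeff_cz, MvPowerSeries.coeff_one, MvPowerSeries.coeff_one]
    congr 1
    refine propext ⟨fun h => ?_, fun h => ?_⟩
    · ext j
      have h1 := DFunLike.congr_fun h (Fin.castAdd r j)
      rwa [cmb_castAdd] at h1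
    · subst h
      refine ext_cmb (fun j => ?_) fun i => ?_
      · rw [cmb_castAdd]
        rfl
      · rw [cmb_natAdd]
        rfl
  have h2 : ∀ N, mo e (N + 1) (1 : A n r) = 0 := by
    intro N
    unfold mo
    refine Finset.sum_eq_zero fun J hJ => ?_
    rw [h0 J, mul_zero]
    rintro rfl
    rw [Finset.mem_piAntidiag] at hJ
    have := hJ.1
    simp at this
  have h3 : mo e 0 (1 : A n r) = 1 := by
    unfold mo
    rw [sum_zero, h1, mul_one]
    have : wt e 0 = 1 := by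
      unfold wt
      exact Finset.prod_eq_one fun i _ => rfl
    rw [this, map_one]
  unfold T
  rw [Sg_succ hg, h3]
  have h4 : (Sg g fun N => MvPowerSeries.C (cc θ (N + 1)) * mo e (N + 1) (1 : A n r)) = 0 := by
    have h5 : (fun N => MvPowerSeries.C (cc θ (N + 1)) * mo e (N + 1) (1 : A n r)) =
        fun N => (0 : B n) * (0 : B n) := by
      funext N
      rw [h2, mul_zero, mul_zero]
    rw [h5, Sg_mul hg, zero_mul]
  rw [h4, mul_zero, add_zero]
  change MvPowerSeries.C 1 * 1 = 1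
  rw [map_one, mul_one]

end N2h

end SU

end MPb07157
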