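import Pool.Agent.Lib.MP_b07157_agU.Nd
import Pool.Agent.Lib.MP_b07157_agU.Split1

/-!
# Suspensions of nodes, for power series
-/

noncomputable section

namespace MPb07157

open MvPolynomial

namespace SU

open PC

variable {r : ℕ}

namespace NdH

/-- The inclusion of `ℂ[[x, y]]`. -/
def inc (r : ℕ) : P2 →ₐ[ℂ] MvPowerSeries (Fin (2 + r)) ℂ :=
  MvPowerSeries.substAlgHom (MvPowerSeries.hasSubst_of_constantCoeff_zero
    (a := fun j : Fin 2 => (MvPowerSeries.X (Fin.castAdd r j) : MvPowerSeries (Fin (2 + r)) ℂ))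
    fun j => MvPowerSeries.constantCoeff_X _)

theorem inc_X (j : Fin 2) : inc r (MvPowerSeries.X j) = MvPowerSeries.X (Fin.castAdd r j) := by
  unfold inc
  rw [MvPowerSeries.substAlgHom_X]

theorem suspP_eq (g : P2) (e : Fin r → ℕ) :
    suspP g e = inc r g + ∑ i, MvPowerSeries.X (Fin.natAdd 2 i) ^ e i := by
  unfold suspP inc
  rw [MvPowerSeries.substAlgHom_apply]

/-- An automorphism of `ℂ[[x, y]]` extends to the suspensions. -/
theorem exists_ext_susp (r : ℕ) (e₂ : P2 ≃ₐ[ℂ] P2) :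
    ∃ E : MvPowerSeries (Fin (2 + r)) ℂ ≃ₐ[ℂ] MvPowerSeries (Fin (2 + r)) ℂ,
      ∀ (F : P2) (e : Fin r → ℕ), E (suspP F e) = suspP (e₂ F) e := by
  have key : ∀ e₂ : P2 →ₐ[ℂ] P2,
      ∃ φ : MvPowerSeries (Fin (2 + r)) ℂ →ₐ[ℂ] MvPowerSeries (Fin (2 + r)) ℂ,
      (∀ b, φ (inc r b) = inc r (e₂ b)) ∧
      ∀ i, φ (MvPowerSeries.X (Fin.natAdd 2 i)) = MvPowerSeries.X (Fin.natAdd 2 i) := by
    intro e₂
    obtain ⟨φ, hφ⟩ := Spl.exists_hom (Fin.append (fun l => inc r (e₂ (MvPowerSeries.X l)))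
      (fun i => MvPowerSeries.X (Fin.natAdd 2 i)) :
        Fin (2 + r) → MvPowerSeries (Fin (2 + r)) ℂ) (by
      intro i
      refine Fin.addCases (fun l => ?_) (fun i => ?_) i
      · rw [Fin.append_left, Spl.cc_hom, Spl.cc_hom, MvPowerSeries.constantCoeff_X]
      · rw [Fin.append_right, MvPowerSeries.constantCoeff_X])
    refine ⟨φ, fun b => ?_, fun i => ?_⟩
    · have h : φ.comp (inc r) = (inc r).comp e₂ := by
        apply Spl.hom_ext
        intro i
        rw [AlgHom.comp_apply, AlgHom.comp_apply, inc_X, hφ, Fin.append_left]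
      exact congrArg (fun f => f b) h
    · rw [hφ, Fin.append_right]
  obtain ⟨φ, h1, h2⟩ := key e₂
  obtain ⟨ψ, h3, h4⟩ := key e₂.symm
  have e1 : φ.comp ψ = AlgHom.id ℂ _ := by
    apply Spl.hom_ext
    intro i
    rw [AlgHom.comp_apply, AlgHom.id_apply]
    refine Fin.addCases (fun l => ?_) (fun i => ?_) i
    · rw [← inc_X, h3, h1]
      congr 1
      exact e₂.apply_symm_apply _
    · rw [h4, h2]
  have e2 : ψ.comp φ = AlgHom.id ℂ _ := by
    apply Spl.hom_ext
    intro i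
    rw [AlgHom.comp_apply, AlgHom.id_apply]
    refine Fin.addCases (fun l => ?_) (fun i => ?_) i
    · rw [← inc_X, h1, h3]
      congr 1
      exact e₂.symm_apply_apply _
    · rw [h2, h4]
  refine ⟨AlgEquiv.ofAlgHom φ ψ e1 e2, fun F e => ?_⟩
  show φ (suspP F e) = _
  rw [suspP_eq, suspP_eq, map_add, h1, map_sum]
  congr 1
  refine Finset.sum_congr rfl fun i _ => ?_
  rw [map_pow, h2]

/-- A node is `x y` in suitable coordinates. -/
theorem exists_equiv_nodeP {g : P2} (hnode : IsNode g) :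
    ∃ e : P2 ≃ₐ[ℂ] P2, e (MvPowerSeries.X 0 * MvPowerSeries.X 1) = g := by
  classical
  obtain ⟨θ, h0, hJ, W, hW, hg⟩ := hnode
  obtain ⟨e₁, he₁⟩ := IFT.exists_equiv h0 (by
    rw [Matrix.det_fin_two, Matrix.of_apply, Matrix.of_apply, Matrix.of_apply, Matrix.of_apply,
      coeff_single_ps, coeff_single_ps, coeff_single_ps, coeff_single_ps]
    intro h
    apply hJ
    unfold jac
    rw [map_sub, map_mul, map_mul]
    exact h)
  have he₁' : ∀ F : P2, e₁ F = MvPowerSeries.subst θ F := by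
    intro F
    have hs := MvPowerSeries.hasSubst_of_constantCoeff_zero h0
    have h : (e₁ : P2 →ₐ[ℂ] P2) = MvPowerSeries.substAlgHom hs := by
      apply Spl.hom_ext
      intro i
      rw [MvPowerSeries.substAlgHom_X]
      have h1 := he₁ (X i)
      rw [MvPolynomial.coe_X, aeval_X] at h1
      exact h1
    have h2 := congrArg (fun f => f F) h
    simp only [MvPowerSeries.substAlgHom_apply] at h2
    exact h2
  obtain ⟨e₂, he₂⟩ := IFT.exists_equiv (a := ![(MvPowerSeries.X 0 : P2), MvPowerSeries.X 1 * W])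
    (by
      intro i
      fin_cases i
      · exact MvPowerSeries.constantCoeff_X 0
      · show MvPowerSeries.constantCoeff (MvPowerSeries.X 1 * W : P2) = 0
        rw [map_mul, MvPowerSeries.constantCoeff_X, zero_mul]) (by
    rw [Matrix.det_fin_two]
    simp only [Matrix.of_apply, Matrix.cons_val_zero, Matrix.cons_val_one]
    have c1 : MvPowerSeries.coeff (Finsupp.single 0 1) (MvPowerSeries.X 0 : P2) = 1 :=
      MvPowerSeries.coeff_index_single_self_X 0
    have c2 : MvPowerSeries.coeff (Finsupp.single 1 1) (MvPowerSeries.X 0 : P2) = 0 := by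
      rw [MvPowerSeries.coeff_X, if_neg]
      intro h
      have := Finsupp.single_left_injective one_ne_zero h
      exact absurd this (by decide)
    have c3 : MvPowerSeries.coeff (Finsupp.single 1 1) (MvPowerSeries.X 1 * W : P2) =
        MvPowerSeries.constantCoeff W := by
      rw [coeff_single_ps, Derivation.leibniz, MvPowerSeries.pderiv_X_self, smul_eq_mul,
        smul_eq_mul, map_add, map_mul, map_mul, MvPowerSeries.constantCoeff_X]
      simp
    rw [c1, c2, c3, one_mul, zero_mul, sub_zero]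
    exact hW)
  refine ⟨e₂.trans e₁.symm, ?_⟩
  rw [AlgEquiv.trans_apply]
  have h3 := he₂ (X 0 * X 1)
  rw [MvPolynomial.coe_mul, MvPolynomial.coe_X, MvPolynomial.coe_X, map_mul (aeval _), aeval_X,
    aeval_X] at h3
  rw [h3, AlgEquiv.symm_apply_eq, he₁', hg]
  show MvPowerSeries.X 0 * (MvPowerSeries.X 1 * W) = _
  rw [mul_assoc]

theorem coe_susp_xy (e : Fin r → ℕ) :
    ((susp (X 0 * X 1) e : MvPolynomial (Fin (2 + r)) ℂ) : MvPowerSeries (Fin (2 + r)) ℂ) =
      suspP (MvPowerSeries.X 0 * MvPowerSeries.X 1) e := by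
  rw [suspP_eq, map_mul, inc_X, inc_X]
  unfold susp
  rw [MvPolynomial.coe_add, ← MvPolynomial.coeToMvPowerSeries.ringHom_apply (∑ i, _), map_sum,
    map_mul, rename_X, rename_X, MvPolynomial.coe_mul, MvPolynomial.coe_X, MvPolynomial.coe_X]
  congr 1
  refine Finset.sum_congr rfl fun i _ => ?_
  rw [MvPolynomial.coeToMvPowerSeries.ringHom_apply, MvPolynomial.coe_pow, MvPolynomial.coe_X]

end NdH

open NdH

/-- Germs of polynomials which are suspensions of nodes in suitable formal coordinates. -/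
theorem smcLoc_nodeP {g : P2} (hnode : IsNode g) {e : Fin r → ℕ} (he : ∀ i, 0 < e i)
    {f : MvPolynomial (Fin (2 + r)) ℂ}
    (E : MvPowerSeries (Fin (2 + r)) ℂ ≃ₐ[ℂ] MvPowerSeries (Fin (2 + r)) ℂ)
    (u : (MvPowerSeries (Fin (2 + r)) ℂ)ˣ)
    (hf : (f : MvPowerSeries (Fin (2 + r)) ℂ) = u * E (suspP g e)) : SmcLoc f := by
  obtain ⟨e₂, he₂⟩ := exists_equiv_nodeP hnode
  obtain ⟨E₂, hE₂⟩ := exists_ext_susp r e₂
  refine SmcLoc.of_formEquivPow (m := 1) one_pos (g := susp (X 0 * X 1) e)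
    ⟨E₂.trans E, u, ?_⟩ (smcLoc_susp_xy he)
  rw [pow_one, hf, AlgEquiv.trans_apply, coe_susp_xy, hE₂, he₂]

end SU

end MPb07157
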