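import Pool.Agent.Lib.MP_b07157_agU.K1

/-!
# The recursion for -1 < s₁ < 0
-/

noncomputable section

namespace MPb07157

open MvPolynomial

namespace SU

open PC

variable {r : ℕ}

/-- **Later stages.** -/
theorem later {f : P2} {e : Fin r → ℕ} (he : ∀ i, 0 < e i) {s₀ : ℚ}
    (hex : Ex f ((s₀ + hn e : ℚ) : ℂ)) (hax : AxOK f (s₀ + hn e)) (h1 : s₀ ≠ -1) {K : ℕ}
    (hK : 1 ≤ K) (hKs : -s₀ < K) (M : ℕ) : ∀ (θ : Fin 2 → P2) (F : P2) (a A : ℕ),
      IsStage f θ F a → YOrd F A M → 1 ≤ M → 1 ≤ A → a * M ≤ 2 * A →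
      (a : ℚ) ≠ -(s₀ + hn e) * A → ZR F e a A K ∈ regularAt s₀ := by
  induction M using Nat.strong_induction_on with
  | _ M IH =>
  intro θ F a A₀ hst hY hM hA₀ haM hne
  obtain ⟨φ, hφ0, hφ, -⟩ := exists_shY F
  rw [← ZR_shY F e a A₀ K hφ0]
  have hst' := hst.shY hφ0
  have hY' := hY.shY hφ0
  set G := MvPowerSeries.subst (shY φ) F with hG
  have hG0 : G ≠ 0 := by
    intro h
    apply hY'.2.2
    rw [h]
    exact map_zero _
  have hroot : ∀ (p q A B : ℕ) (lam : ℂ) (R : Finset ℂ) (μ : ℂ → ℕ),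
      IsEdge G p q A B lam R μ →
        ((a * p + q : ℕ) : ℚ) ≠ -(s₀ + hn e) * (edgeN p q A B R μ : ℕ) := by
    intro p q A B lam R μ hE h
    have hN : 0 < edgeN p q A B R μ := P1aux.edgeN_pos hE
    have hNQ : ((edgeN p q A B R μ : ℕ) : ℚ) ≠ 0 := by exact_mod_cast hN.ne'
    have hs : s₀ + hn e = -((a * p + q : ℕ) : ℚ) / (edgeN p q A B R μ : ℕ) := by
      rw [eq_div_iff hNQ, h]; ring
    obtain ⟨hA, hB⟩ := hY'.edge_le hE
    obtain ⟨e1, e2, e3, e4⟩ := later_ineq hst.ha hA₀ haM hE.hp hE.hq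
      (Finset.sum_pos hE.hm hE.hR) hA hB hs
    refine root_edge' hst' hE hs e3.le ?_ hex
    rw [if_neg e3.ne]
    by_cases h2 : p = 1 ∧ B = 0
    · have := not_bad_card hφ hE h2.1 h2.2
      rw [if_pos h2]; omega
    · have := Finset.card_pos.2 hE.hR
      rw [if_neg h2]; omega
  refine ZR_mem_of_edges hG0 he hst.ha (Or.inr ⟨hA₀, hY'.dvd, ?_⟩) ?_ h1 hK hKs ?_ ?_ hroot ?_
  · rw [MvPowerSeries.X_pow_dvd_iff]
    intro h
    exact hY'.2.2 (h _ (by rw [s1b_ex0]; omega))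
  · intro v hv
    constructor
    · by_contra hcon
      apply hv
      rw [s1b_eq_ex v]
      exact hY'.1 _ (by omega) _
    · rintro rfl
      exact hv (hY'.2.1 0 (by omega))
  · intro A hA _
    rw [hY'.exactPow hA.1 hA.2]
    exact hne
  · intro B hB hB0 h
    obtain ⟨W, hW, hJ⟩ := hst'.hjac
    have hF' := hst'.hF
    rw [hF'] at hB
    refine hax _ hst'.h0 1 B ?_ hB0 hB h
    rw [hJ]
    exact not_X_dvd hW (by decide) _
  · intro p q A B lam R μ hE c hc α β hab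
    have hc0 : c ≠ 0 := by
      rintro rfl
      exact hE.hR0 hc
    obtain ⟨hA, hB⟩ := hY'.edge_le hE
    have hμS : μ c ≤ ∑ c ∈ R, μ c := Finset.single_le_sum (fun _ _ => Nat.zero_le _) hc
    have hS := Finset.sum_pos hE.hm hE.hR
    have hN : 1 ≤ edgeN p q A B R μ := P1aux.edgeN_pos hE
    have hlt : μ c < M := by
      by_contra hcon
      have h2 : 1 * ∑ c ∈ R, μ c ≤ p * ∑ c ∈ R, μ c := Nat.mul_le_mul_right _ hE.hp
      have h3 : B = 0 := by omega
      have h4 : p = 1 := by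
        by_contra hp
        have : 2 * ∑ c ∈ R, μ c ≤ p * ∑ c ∈ R, μ c :=
          Nat.mul_le_mul_right _ (by have := hE.hp; omega)
        omega
      have h5 := not_bad_card hφ hE h4 h3
      obtain ⟨c', hc', hne'⟩ := Finset.exists_mem_ne (show 1 < R.card by omega) c
      have h6 : μ c + μ c' ≤ ∑ c ∈ R, μ c := by
        rw [← Finset.add_sum_erase _ _ hc]
        exact Nat.add_le_add_left (Finset.single_le_sum (f := μ) (fun _ _ => Nat.zero_le _)
          (Finset.mem_erase.2 ⟨hne', hc'⟩)) _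
      have := hE.hm c' hc'
      omega
    obtain ⟨-, -, -, e4⟩ := later_ineq hst.ha hA₀ haM hE.hp hE.hq hS hA hB rfl
    exact IH (μ c) hlt _ _ _ _ (hst'.sub hE.hp hE.hq hab hc0) (YOrd.sub hE hc hab) (hE.hm c hc) hN
      (e4 (μ c) (hE.hm c hc) hμS).2 (hroot p q A B lam R μ hE)

/-- **First stage.** -/
theorem first {f : P2} (hf : f ≠ 0) (h0 : MvPowerSeries.constantCoeff f = 0) {e : Fin r → ℕ}
    (he : ∀ i, 0 < e i) {s₀ : ℚ} (hex : Ex f ((s₀ + hn e : ℚ) : ℂ)) (hax : AxOK f (s₀ + hn e))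
    (h1 : s₀ ≠ -1) {K : ℕ} (hK : 1 ≤ K) (hKs : -s₀ < K) : ZR f e 1 0 K ∈ regularAt s₀ := by
  obtain ⟨φ₁, ψ₁, φ, ψ, h1', h2', h3', h4', hBY, hBX, hB2⟩ := exists_first hf
  rw [← ZR_shY f e 1 0 K h1', ← ZR_shX _ e hK h2', ← ZR_shY _ e 1 0 K h3', ← ZR_shX _ e hK h4']
  have hst := (((((isStage_id f).shY h1').shX h2').shY h3').shX h4')
  set G := (MvPowerSeries.subst (shX ψ) (MvPowerSeries.subst (shY φ)
      (MvPowerSeries.subst (shX ψ₁) (MvPowerSeries.subst (shY φ₁) f)))) with hG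
  have hG0 : G ≠ 0 := hst.ne_zero hf
  have hGc : MvPowerSeries.constantCoeff G = 0 := by
    have hF' := hst.hF
    rw [hF', PC.constantCoeff_subst' hst.h0, h0]
  have hcard : ∀ (p q A B : ℕ) (lam : ℂ) (R : Finset ℂ) (μ : ℂ → ℕ),
      IsEdge G p q A B lam R μ → 3 ≤ R.card + (if p = 1 ∧ B = 0 then 0 else 1) +
        (if q = 1 ∧ A = 0 then 0 else 1) := by
    intro p q A B lam R μ hE
    have h0 := Finset.card_pos.2 hE.hR
    by_cases h2 : p = 1 ∧ B = 0
    · by_cases h3 : q = 1 ∧ A = 0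
      · rw [if_pos h2, if_pos h3]
        obtain ⟨rfl, rfl⟩ := h2
        obtain ⟨rfl, rfl⟩ := h3
        exact not_bad2_card hBY hB2 hE
      · rw [if_pos h2, if_neg h3]
        have := not_bad_card hBY hE h2.1 h2.2
        omega
    · by_cases h3 : q = 1 ∧ A = 0
      · rw [if_neg h2, if_pos h3]
        have := not_badX_card hBX hE h3.1 h3.2
        omega
      · rw [if_neg h2, if_neg h3]
        omega
  have hroot : ∀ (p q A B : ℕ) (lam : ℂ) (R : Finset ℂ) (μ : ℂ → ℕ),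
      IsEdge G p q A B lam R μ →
        ((1 * p + q : ℕ) : ℚ) ≠ -(s₀ + hn e) * (edgeN p q A B R μ : ℕ) := by
    intro p q A B lam R μ hE h
    have hS := Finset.sum_pos hE.hm hE.hR
    have hN : 0 < edgeN p q A B R μ := P1aux.edgeN_pos hE
    have hNQ : ((edgeN p q A B R μ : ℕ) : ℚ) ≠ 0 := by exact_mod_cast hN.ne'
    have hs : s₀ + hn e = -((1 * p + q : ℕ) : ℚ) / (edgeN p q A B R μ : ℕ) := by
      rw [eq_div_iff hNQ, h]; ring
    obtain ⟨e1, e2, e3, e3', e4⟩ := first_ineq (A := A) (B := B) hE.hp hE.hq hS hs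
    refine root_edge' hst hE hs e3 ?_ hex
    have h5 := hcard p q A B lam R μ hE
    have h6 : (if q = 1 ∧ A = 0 then 0 else 1) ≤
        (if (((1 : ℕ) : ℚ) + A * (s₀ + hn e)) / q = 1 then 0 else 1) := by
      by_cases h7 : (((1 : ℕ) : ℚ) + A * (s₀ + hn e)) / q = 1
      · rw [if_pos (e3' h7)]
        exact Nat.zero_le _
      · rw [if_neg h7]
        split_ifs <;> omega
    omega
  have haxis : ∀ (i : Fin 2) (B : ℕ), ExactPow G i B → 0 < B → (1 : ℚ) ≠ -(s₀ + hn e) * B := by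
    intro i B hB hB0 h
    obtain ⟨W, hW, hJ⟩ := hst.hjac
    have hF' := hst.hF
    rw [hF'] at hB
    refine hax _ hst.h0 i B ?_ hB0 hB h
    rw [hJ, Nat.sub_self]
    intro hd
    rw [pow_zero, one_mul, MvPowerSeries.X_dvd_iff] at hd
    exact hW (hd 0 rfl)
  refine ZR_mem_of_edges hG0 he le_rfl (Or.inl ⟨rfl, rfl⟩) ?_ h1 hK hKs ?_ ?_ hroot ?_
  · intro v hv
    refine ⟨Nat.zero_le _, ?_⟩
    rintro rfl
    apply hv
    have h2 : ex 0 0 = 0 := by
      rw [ex, Finsupp.single_zero, Finsupp.single_zero, add_zero]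
    rw [h2, MvPowerSeries.coeff_zero_eq_constantCoeff_apply]
    exact hGc
  · intro A hA hA0
    have := haxis 0 A hA hA0
    exact_mod_cast this
  · intro B hB hB0
    exact haxis 1 B hB hB0
  · intro p q A B lam R μ hE c hc α β hab
    have hc0 : c ≠ 0 := by
      rintro rfl
      exact hE.hR0 hc
    have hμS : μ c ≤ ∑ c ∈ R, μ c := Finset.single_le_sum (fun _ _ => Nat.zero_le _) hc
    have hS := Finset.sum_pos hE.hm hE.hR
    have hN : 1 ≤ edgeN p q A B R μ := P1aux.edgeN_pos hE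
    obtain ⟨-, -, -, -, e4⟩ := first_ineq (A := A) (B := B) hE.hp hE.hq hS rfl
    exact later he hex hax h1 hK hKs (μ c) _ _ _ _ (hst.sub hE.hp hE.hq hab hc0)
      (YOrd.sub hE hc hab) (hE.hm c hc) hN (e4 (μ c) (hE.hm c hc) hμS).1
      (hroot p q A B lam R μ hE)

end SU

end MPb07157
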